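import Pool.Agent.Helper54.KA.RunU

set_option autoImplicit false

/-! # Chunks and assembly -/

namespace Pool.Agent.Helper54.KA

variable {H P : (ℕ → ℝ) → (ℕ → ℝ) → Prop} {dl' : Nat → Nat → Nat → Nat → Bool}
  {ct : Nat → Nat → Nat}

/-- stack of a list of boxes -/
noncomputable def stk (B : List (Nat × Nat)) : Stk :=
  List.rec (motive := fun _ => Stk) Stk.nil (fun p _ ih => Stk.cons p.1 p.2 ih) B

/-- run over a list of boxes, one token stream -/
noncomputable def runB (ct : Nat → Nat → Nat) (dl : Nat → Nat → Nat → Nat → Bool) (ts : List Nat)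
    (B : List (Nat × Nat)) : Bool :=
  List.rec (motive := fun _ => Bool) true (fun p B' _ => run ct dl ts p.1 p.2 (stk B') 0 0) B

/-- all boxes of the list are good -/
def AG (H P : (ℕ → ℝ) → (ℕ → ℝ) → Prop) (B : List (Nat × Nat)) : Prop :=
  ∀ p ∈ B, Good H P p.1 p.2

lemma AG_nil : AG H P [] := fun _ h => absurd h (by simp)

lemma AG_append {B C : List (Nat × Nat)} (hB : AG H P B) (hC : AG H P C) : AG H P (B ++ C) := by
  intro p hp
  rcases List.mem_append.1 hp with h | h
  · exact hB p h
  · exact hC p h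

lemma SGood_stk {B : List (Nat × Nat)} (h : SGood H P (stk B)) : AG H P B := by
  induction B with
  | nil => exact AG_nil
  | cons p B ih =>
    obtain ⟨h1, h2⟩ : Good H P p.1 p.2 ∧ SGood H P (stk B) := h
    intro q hq
    rcases List.mem_cons.1 hq with hq | hq
    · rw [hq]; exact h1
    · exact ih h2 q hq

/-- **soundness of a chunk** -/
theorem runB_sound (hct : CtOK ct) (hC : ∀ z φ, H z φ → Cf z φ)
    (hdl : ∀ L f D r, dl' L f D r = true → Good H P L f) {ts : List ℕ} {B : List (Nat × Nat)}
    (h : runB ct dl' ts B = true) : AG H P B := by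
  cases B with
  | nil => exact AG_nil
  | cons p B =>
    have h' : run ct dl' ts p.1 p.2 (stk B) 0 0 = true := h
    obtain ⟨h1, h2⟩ := run_sound hct hC hdl h'
    intro q hq
    rcases List.mem_cons.1 hq with hq | hq
    · rw [hq]; exact h1
    · exact SGood_stk h2 q hq

theorem runB0_sound (hct : CtOK ct) (hC : ∀ z φ, H z φ → Cf z φ) {ts : List ℕ} {B : List (Nat × Nat)}
    (h : runB ct dl0 ts B = true) : AG H P B :=
  runB_sound hct hC (fun _ _ _ _ hd => absurd hd (by show ¬ (false = true); simp)) h

/-- entry `r` of a list of boxes -/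
noncomputable def nth (B : List (Nat × Nat)) : Nat → Nat × Nat :=
  List.rec (motive := fun _ => Nat → Nat × Nat) (fun _ => (0, 0))
    (fun p _ ih r => Nat.rec (motive := fun _ => Nat × Nat) p (fun n _ => ih n) r) B

/-- leaf of an assembly: the box is entry `r` of the list -/
noncomputable def dlL (B : List (Nat × Nat)) (L f _D r : Nat) : Bool :=
  cb (Nat.beq (nth B r).1 L) (Nat.beq (nth B r).2 f) false

lemma nth_mem (B : List (Nat × Nat)) (r : ℕ) : nth B r ∈ B ∨ nth B r = (0, 0) := by
  induction B generalizing r with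
  | nil => exact Or.inr rfl
  | cons p B ih =>
    cases r with
    | zero => exact Or.inl (List.mem_cons_self ..)
    | succ r =>
      rcases ih r with h | h
      · exact Or.inl (List.mem_cons_of_mem _ h)
      · exact Or.inr h

lemma not_InB_zero {z : ℕ → ℝ} : ¬ InB 0 z := by
  intro h
  rcases (h 0 (by norm_num)).kind with ⟨h1, _⟩ | ⟨_, h1, _⟩
  · exact h1 rfl
  · have h2 := isS0_iff.1 h1
    have h3 : fd 0 (0 + 1) % 65536 = 0 := by
      rw [fd_eq]; simp
    omega

theorem dlL_sound {B : List (Nat × Nat)} (hB : AG H P B) :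
    ∀ L f D r, dlL B L f D r = true → Good H P L f := by
  intro L f D r h
  unfold dlL at h
  rewrite [cb_ite] at h
  by_cases h1 : Nat.beq (nth B r).1 L = true
  swap
  · rewrite [if_neg h1] at h; exact absurd h (by simp)
  rewrite [if_pos h1] at h
  have e1 := Nat.eq_of_beq_eq_true h1
  have e2 := Nat.eq_of_beq_eq_true h
  rcases nth_mem B r with g | g
  · have := hB _ g
    rw [e1, e2] at this
    exact this
  · rw [g] at e1
    intro z φ _ hz _
    have e3 : (0 : ℕ) = L := e1
    rw [← e3] at hz
    exact (not_InB_zero hz).elim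

/-- **assembly of one root** -/
theorem top_sound (hct : CtOK ct) (hC : ∀ z φ, H z φ → Cf z φ) {B : List (Nat × Nat)} (hB : AG H P B)
    {ts : List ℕ} {L f : ℕ} (h : run ct (dlL B) ts L f Stk.nil 0 0 = true) : Good H P L f :=
  (run_sound hct hC (dlL_sound hB) h).1

end Pool.Agent.Helper54.KA
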