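import Mathlib

set_option autoImplicit false

/-! # Corner minorants of the widths

For heights `z ∈ [α, β]` the vector `(1, z)/√(1-z²)` is a combination with weights `p, q ≥ 0`,
`p + q ≤ 1` of the vectors of the end points. -/

namespace Pool.Agent.Helper54.KA

open Real Set

/-- `(k + σ z w) / (√(1-z²) √(1-w²))` -/
noncomputable def FF (k σ z w : ℝ) : ℝ := (k + σ * (z * w)) / (√(1 - z ^ 2) * √(1 - w ^ 2))

lemma FF_comm (k σ z w : ℝ) : FF k σ z w = FF k σ w z := by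
  unfold FF; rw [mul_comm z w, mul_comm (√(1 - z ^ 2))]

lemma sq_pos {z : ℝ} (h1 : -1 < z) (h2 : z < 1) : 0 < √(1 - z ^ 2) :=
  Real.sqrt_pos.2 (by nlinarith)

/-- tangent of the cosine on `[0, π/2]` -/
lemma cos_tang {θ ω : ℝ} (h0 : 0 ≤ θ) (h1 : θ ≤ π / 2) (h2 : 0 ≤ ω) (h3 : ω ≤ π / 2) :
    cos θ ≤ cos ω - (θ - ω) * sin ω := by
  have hpi := Real.pi_pos
  have hd : ∀ x : ℝ, HasDerivAt cos (-sin x) x := Real.hasDerivAt_cos
  rcases lt_trichotomy θ ω with h | h | h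
  · obtain ⟨c, hc, hc'⟩ := exists_hasDerivAt_eq_slope cos (fun x => -sin x) h
      Real.continuous_cos.continuousOn (fun x _ => hd x)
    have h5 : sin c ≤ sin ω := Real.sin_le_sin_of_le_of_le_pi_div_two (by linarith [hc.1]) h3 hc.2.le
    have h6 : cos ω - cos θ = -sin c * (ω - θ) := by
      rw [hc']; field_simp [(by linarith : ω - θ ≠ 0)]
    have h7 : sin c * (ω - θ) ≤ sin ω * (ω - θ) := mul_le_mul_of_nonneg_right h5 (by linarith)
    linarith
  · subst h; linarith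
  · obtain ⟨c, hc, hc'⟩ := exists_hasDerivAt_eq_slope cos (fun x => -sin x) h
      Real.continuous_cos.continuousOn (fun x _ => hd x)
    have h5 : sin ω ≤ sin c := Real.sin_le_sin_of_le_of_le_pi_div_two (by linarith) (by linarith [hc.2]) hc.1.le
    have h6 : cos θ - cos ω = -sin c * (θ - ω) := by
      rw [hc']; field_simp [(by linarith : θ - ω ≠ 0)]
    have h7 : sin ω * (θ - ω) ≤ sin c * (θ - ω) := mul_le_mul_of_nonneg_right h5 (by linarith)
    linarith

/-- the weights -/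
theorem weights {α β z : ℝ} (h1 : -1 < α) (h2 : β < 1) (hα : α ≤ z) (hβ : z ≤ β) :
    ∃ p q : ℝ, 0 ≤ p ∧ 0 ≤ q ∧ p + q ≤ 1 ∧
      1 / √(1 - z ^ 2) = p / √(1 - α ^ 2) + q / √(1 - β ^ 2) ∧
      z / √(1 - z ^ 2) = p * α / √(1 - α ^ 2) + q * β / √(1 - β ^ 2) := by
  have hz := sq_pos (h1.trans_le hα) (hβ.trans_lt h2)
  have ha := sq_pos h1 (hα.trans_lt (hβ.trans_lt h2))
  have hb := sq_pos (h1.trans_le (hα.trans hβ)) h2
  rcases eq_or_lt_of_le (hα.trans hβ) with h | h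
  · have e : z = α := le_antisymm (h ▸ hβ) hα
    refine ⟨1, 0, by norm_num, by norm_num, by norm_num, ?_, ?_⟩ <;> rw [e] <;> simp
  · set a := √(1 - α ^ 2) with hea
    set b := √(1 - β ^ 2) with heb
    set c := √(1 - z ^ 2) with hec
    have ea : a ^ 2 = 1 - α ^ 2 := Real.sq_sqrt (by nlinarith)
    have eb : b ^ 2 = 1 - β ^ 2 := Real.sq_sqrt (by nlinarith)
    have ec : c ^ 2 = 1 - z ^ 2 := Real.sq_sqrt (by nlinarith)
    have hd : 0 < β - α := by linarith
    have hd' : β - α ≠ 0 := hd.ne'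
    refine ⟨(β - z) * a / ((β - α) * c), (z - α) * b / ((β - α) * c), ?_, ?_, ?_, ?_, ?_⟩
    · exact div_nonneg (mul_nonneg (by linarith) ha.le) (mul_pos hd hz).le
    · exact div_nonneg (mul_nonneg (by linarith) hb.le) (mul_pos hd hz).le
    · rw [← add_div, div_le_one (mul_pos hd hz)]
      apply le_of_sq_le_sq _ (mul_pos hd hz).le
      have h3 : α * β + a * b ≤ 1 := by nlinarith [sq_nonneg (a - b), sq_nonneg (α - β)]
      have h4 : 0 ≤ (β - z) * (z - α) := mul_nonneg (by linarith) (by linarith)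
      have h5 := mul_le_mul_of_nonneg_left h3 h4
      have e1 : ((β - z) * a + (z - α) * b) ^ 2 = (β - z) ^ 2 * (1 - α ^ 2) +
          (z - α) ^ 2 * (1 - β ^ 2) + 2 * ((β - z) * (z - α) * (a * b)) := by
        rw [← ea, ← eb]; ring
      have e2 : ((β - α) * c) ^ 2 = (β - α) ^ 2 * (1 - z ^ 2) := by rw [← ec]; ring
      rw [e1, e2]
      nlinarith [h5]
    · field_simp
      ring
    · field_simp
      ring

/-- the value at a point of a box is a combination of the corner values -/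
theorem FF_comb {k σ α β z γ δ w p q p' q' : ℝ}
    (e1 : 1 / √(1 - z ^ 2) = p / √(1 - α ^ 2) + q / √(1 - β ^ 2))
    (e2 : z / √(1 - z ^ 2) = p * α / √(1 - α ^ 2) + q * β / √(1 - β ^ 2))
    (e3 : 1 / √(1 - w ^ 2) = p' / √(1 - γ ^ 2) + q' / √(1 - δ ^ 2))
    (e4 : w / √(1 - w ^ 2) = p' * γ / √(1 - γ ^ 2) + q' * δ / √(1 - δ ^ 2)) :
    FF k σ z w = p * p' * FF k σ α γ + p * q' * FF k σ α δ + q * p' * FF k σ β γ +
      q * q' * FF k σ β δ := by
  have h : ∀ x y : ℝ, FF k σ x y = k * (1 / √(1 - x ^ 2)) * (1 / √(1 - y ^ 2)) +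
      σ * (x / √(1 - x ^ 2)) * (y / √(1 - y ^ 2)) := by
    intro x y
    unfold FF
    rw [← div_div]
    ring
  rw [h z w, e1, e2, e3, e4, h, h, h, h]
  ring

/-- nonnegative corner values -/
theorem FF_le_bil {k σ α β z γ δ w p q p' q' : ℝ}
    (hp : 0 ≤ p) (hq : 0 ≤ q) (hs : p + q ≤ 1) (hp' : 0 ≤ p') (hq' : 0 ≤ q') (hs' : p' + q' ≤ 1)
    (e : FF k σ z w = p * p' * FF k σ α γ + p * q' * FF k σ α δ + q * p' * FF k σ β γ +
      q * q' * FF k σ β δ)
    (h1 : 0 ≤ FF k σ α γ) (h2 : 0 ≤ FF k σ α δ) (h3 : 0 ≤ FF k σ β γ) :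
    FF k σ z w ≤ (1 - q) * (1 - q') * FF k σ α γ + (1 - q) * q' * FF k σ α δ +
      q * (1 - q') * FF k σ β γ + q * q' * FF k σ β δ := by
  rw [e]
  have a1 : p * p' ≤ (1 - q) * (1 - q') := mul_le_mul (by linarith) (by linarith) hp' (by linarith)
  have a2 : p * q' ≤ (1 - q) * q' := mul_le_mul_of_nonneg_right (by linarith) hq'
  have a3 : q * p' ≤ q * (1 - q') := mul_le_mul_of_nonneg_left (by linarith) hq
  have b1 := mul_le_mul_of_nonneg_right a1 h1
  have b2 := mul_le_mul_of_nonneg_right a2 h2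
  have b3 := mul_le_mul_of_nonneg_right a3 h3
  linarith

/-- Jensen for the arccosine, values in `[0, 1]` -/
theorem jensen_plain {a b c d x A B C E : ℝ} (ha : 0 ≤ a) (hb : 0 ≤ b) (hc : 0 ≤ c) (hd : 0 ≤ d)
    (hs : a + b + c + d = 1) (hx : x ≤ a * A + b * B + c * C + d * E)
    (hA : 0 ≤ A ∧ A ≤ 1) (hB : 0 ≤ B ∧ B ≤ 1) (hC : 0 ≤ C ∧ C ≤ 1) (hE : 0 ≤ E ∧ E ≤ 1) :
    a * arccos A + b * arccos B + c * arccos C + d * arccos E ≤ arccos x := by
  have key : ∀ t : ℝ, 0 ≤ t ∧ t ≤ 1 → 0 ≤ arccos t ∧ arccos t ≤ π / 2 ∧ cos (arccos t) = t := by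
    intro t ht
    exact ⟨arccos_nonneg t, arccos_le_pi_div_two.2 ht.1, cos_arccos (by linarith) ht.2⟩
  obtain ⟨A0, A1, A2⟩ := key A hA
  obtain ⟨B0, B1, B2⟩ := key B hB
  obtain ⟨C0, C1, C2⟩ := key C hC
  obtain ⟨E0, E1, E2⟩ := key E hE
  set Θ := a * arccos A + b * arccos B + c * arccos C + d * arccos E with hΘ
  have h0 : 0 ≤ Θ := by positivity
  have h1 : Θ ≤ π / 2 := by
    have b1 := mul_le_mul_of_nonneg_left A1 ha
    have b2 := mul_le_mul_of_nonneg_left B1 hb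
    have b3 := mul_le_mul_of_nonneg_left C1 hc
    have b4 := mul_le_mul_of_nonneg_left E1 hd
    have : a * (π / 2) + b * (π / 2) + c * (π / 2) + d * (π / 2) = π / 2 := by
      rw [← add_mul, ← add_mul, ← add_mul, hs, one_mul]
    linarith
  have tan : ∀ θ : ℝ, 0 ≤ θ → θ ≤ π / 2 → cos θ ≤ cos Θ - (θ - Θ) * sin Θ := by
    intro θ t0 t1
    exact cos_tang t0 t1 h0 h1
  have tA := mul_le_mul_of_nonneg_left (tan _ A0 A1) ha
  have tB := mul_le_mul_of_nonneg_left (tan _ B0 B1) hb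
  have tC := mul_le_mul_of_nonneg_left (tan _ C0 C1) hc
  have tE := mul_le_mul_of_nonneg_left (tan _ E0 E1) hd
  rw [A2] at tA; rw [B2] at tB; rw [C2] at tC; rw [E2] at tE
  have h2 : x ≤ cos Θ := by
    have : a * (cos Θ - (arccos A - Θ) * sin Θ) + b * (cos Θ - (arccos B - Θ) * sin Θ) +
        c * (cos Θ - (arccos C - Θ) * sin Θ) + d * (cos Θ - (arccos E - Θ) * sin Θ) = cos Θ := by
      have e : a * (cos Θ - (arccos A - Θ) * sin Θ) + b * (cos Θ - (arccos B - Θ) * sin Θ) +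
        c * (cos Θ - (arccos C - Θ) * sin Θ) + d * (cos Θ - (arccos E - Θ) * sin Θ) =
        (a + b + c + d) * cos Θ - (Θ - (a + b + c + d) * Θ) * sin Θ := by rw [hΘ]; ring
      rw [e, hs]; ring
    linarith
  calc Θ = arccos (cos Θ) := (arccos_cos h0 (by linarith [Real.pi_pos])).symm
    _ ≤ arccos x := arccos_le_arccos h2

/-- Jensen for `min (arccos x) (4 (1 - x))`, also beyond `x = 1` -/
theorem jensen_K {a b c d x A B C E s t u v : ℝ} (ha : 0 ≤ a) (hb : 0 ≤ b) (hc : 0 ≤ c) (hd : 0 ≤ d)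
    (hs : a + b + c + d = 1) (hx : x ≤ a * A + b * B + c * C + d * E)
    (hA : 0 ≤ A ∧ s ≤ arccos A ∧ s ≤ 4 * (1 - A)) (hB : 0 ≤ B ∧ t ≤ arccos B ∧ t ≤ 4 * (1 - B))
    (hC : 0 ≤ C ∧ u ≤ arccos C ∧ u ≤ 4 * (1 - C)) (hE : 0 ≤ E ∧ v ≤ arccos E ∧ v ≤ 4 * (1 - E)) :
    a * s + b * t + c * u + d * v ≤ arccos x := by
  have hpi := Real.pi_pos
  set Θ := a * s + b * t + c * u + d * v with hΘ
  rcases le_or_gt Θ 0 with h | h0
  · exact h.trans (arccos_nonneg x)
  have hs2 : ∀ r F : ℝ, 0 ≤ F → r ≤ arccos F → r ≤ π / 2 :=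
    fun r F h1 h2 => h2.trans (arccos_le_pi_div_two.2 h1)
  have h1 : Θ ≤ π / 2 := by
    have b1 := mul_le_mul_of_nonneg_left (hs2 _ _ hA.1 hA.2.1) ha
    have b2 := mul_le_mul_of_nonneg_left (hs2 _ _ hB.1 hB.2.1) hb
    have b3 := mul_le_mul_of_nonneg_left (hs2 _ _ hC.1 hC.2.1) hc
    have b4 := mul_le_mul_of_nonneg_left (hs2 _ _ hE.1 hE.2.1) hd
    have : a * (π / 2) + b * (π / 2) + c * (π / 2) + d * (π / 2) = π / 2 := by
      rw [← add_mul, ← add_mul, ← add_mul, hs, one_mul]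
    linarith
  have h2 : x ≤ cos Θ := by
    rcases le_or_gt (1 / 4) (sin Θ) with h4 | h4
    · have key : ∀ r F : ℝ, 0 ≤ F → r ≤ arccos F → r ≤ 4 * (1 - F) →
          F ≤ cos Θ - (r - Θ) * sin Θ := by
        intro r F f0 f1 f2
        rcases le_or_gt 0 r with hr | hr
        · have f3 : F ≤ 1 := by linarith
          have f4 : F ≤ cos r := by
            have := Real.cos_le_cos_of_nonneg_of_le_pi hr (arccos_le_pi F) f1
            rwa [cos_arccos (by linarith) f3] at this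
          exact f4.trans (cos_tang hr (hs2 r F f0 f1) h0.le h1)
        · have f5 := cos_tang (θ := 0) le_rfl (by linarith) h0.le h1
          rw [cos_zero] at f5
          have f6 : -r * (1 / 4) ≤ -r * sin Θ := mul_le_mul_of_nonneg_left h4 (by linarith)
          linarith
      have tA := mul_le_mul_of_nonneg_left (key _ _ hA.1 hA.2.1 hA.2.2) ha
      have tB := mul_le_mul_of_nonneg_left (key _ _ hB.1 hB.2.1 hB.2.2) hb
      have tC := mul_le_mul_of_nonneg_left (key _ _ hC.1 hC.2.1 hC.2.2) hc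
      have tE := mul_le_mul_of_nonneg_left (key _ _ hE.1 hE.2.1 hE.2.2) hd
      have e : a * (cos Θ - (s - Θ) * sin Θ) + b * (cos Θ - (t - Θ) * sin Θ) +
        c * (cos Θ - (u - Θ) * sin Θ) + d * (cos Θ - (v - Θ) * sin Θ) =
        (a + b + c + d) * cos Θ - (Θ - (a + b + c + d) * Θ) * sin Θ := by rw [hΘ]; ring
      rw [hs] at e
      linarith
    · have h5 : Θ < 1 / 2 := by
        by_contra hcon
        push Not at hcon
        have h6 : sin (1 / 2) ≤ sin Θ :=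
          Real.sin_le_sin_of_le_of_le_pi_div_two (by linarith) h1 hcon
        have h7 := Real.sin_gt_sub_cube (x := 1 / 2) (by norm_num)
        norm_num at h7
        linarith
      have h8 := Real.one_sub_sq_div_two_le_cos (x := Θ)
      have b1 := mul_le_mul_of_nonneg_left hA.2.2 ha
      have b2 := mul_le_mul_of_nonneg_left hB.2.2 hb
      have b3 := mul_le_mul_of_nonneg_left hC.2.2 hc
      have b4 := mul_le_mul_of_nonneg_left hE.2.2 hd
      have e : a * (4 * (1 - A)) + b * (4 * (1 - B)) + c * (4 * (1 - C)) + d * (4 * (1 - E)) =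
          4 * (a + b + c + d) - 4 * (a * A + b * B + c * C + d * E) := by ring
      rw [hs] at e
      nlinarith
  calc Θ = arccos (cos Θ) := (arccos_cos h0.le (by linarith)).symm
    _ ≤ arccos x := arccos_le_arccos h2

/-- quasi-convexity in one variable, negative case -/
lemma quasi_aux {k s z β : ℝ} (hk : 0 ≤ k) (hz1 : -1 < z) (hzβ : z ≤ β) (hβ : β < 1)
    (h : k + s * β < 0) (hs : 0 < s) :
    (k + s * z) / √(1 - z ^ 2) ≤ (k + s * β) / √(1 - β ^ 2) := by
  have hc := sq_pos hz1 (hzβ.trans_lt hβ)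
  have hb := sq_pos (hz1.trans_le hzβ) hβ
  have ec : √(1 - z ^ 2) ^ 2 = 1 - z ^ 2 := Real.sq_sqrt (by nlinarith)
  have eb : √(1 - β ^ 2) ^ 2 = 1 - β ^ 2 := Real.sq_sqrt (by nlinarith)
  have h1 : k + s * z < 0 := by nlinarith
  have hβ0 : β < 0 := by
    by_contra hcon
    push Not at hcon
    nlinarith [mul_nonneg hs.le hcon]
  rw [div_le_div_iff₀ hc hb]
  have h2 : (-(k + s * β)) * √(1 - z ^ 2) ≤ (-(k + s * z)) * √(1 - β ^ 2) := by
    apply le_of_sq_le_sq _ (mul_nonneg (by linarith) hb.le)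
    rw [mul_pow, mul_pow, ec, eb]
    have g1 : 0 ≤ (s * (-z) - k) * (s - k * (-β)) :=
      mul_nonneg (by linarith) (by nlinarith)
    have g2 : 0 ≤ (s * (-β) - k) * (s - k * (-z)) :=
      mul_nonneg (by linarith) (by nlinarith)
    have g3 : 0 ≤ (β - z) * ((s * (-z) - k) * (s - k * (-β)) + (s * (-β) - k) * (s - k * (-z))) :=
      mul_nonneg (by linarith) (by linarith)
    nlinarith [g3]
  linarith

lemma quasi1 {k s α z β : ℝ} (hk : 0 ≤ k) (h1 : -1 < α) (hα : α ≤ z) (hβ : z ≤ β) (h2 : β < 1) :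
    (k + s * z) / √(1 - z ^ 2) ≤
      max ((k + s * α) / √(1 - α ^ 2)) ((k + s * β) / √(1 - β ^ 2)) := by
  have ha := sq_pos h1 (hα.trans_lt (hβ.trans_lt h2))
  have hb := sq_pos (h1.trans_le (hα.trans hβ)) h2
  set M := max ((k + s * α) / √(1 - α ^ 2)) ((k + s * β) / √(1 - β ^ 2)) with hM
  have m1 : (k + s * α) / √(1 - α ^ 2) ≤ M := le_max_left _ _
  have m2 : (k + s * β) / √(1 - β ^ 2) ≤ M := le_max_right _ _
  rcases le_or_gt 0 M with h | h
  · obtain ⟨p, q, hp, hq, hpq, e1, e2⟩ := weights h1 h2 hα hβ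
    have e : (k + s * z) / √(1 - z ^ 2) =
        p * ((k + s * α) / √(1 - α ^ 2)) + q * ((k + s * β) / √(1 - β ^ 2)) := by
      have : (k + s * z) / √(1 - z ^ 2) = k * (1 / √(1 - z ^ 2)) + s * (z / √(1 - z ^ 2)) := by ring
      rw [this, e1, e2]; ring
    rw [e]
    have b1 := mul_le_mul_of_nonneg_left m1 hp
    have b2 := mul_le_mul_of_nonneg_left m2 hq
    nlinarith
  · have n1 : k + s * α < 0 := by
      by_contra hc
      push Not at hc
      have := div_nonneg hc ha.le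
      linarith
    have n2 : k + s * β < 0 := by
      by_contra hc
      push Not at hc
      have := div_nonneg hc hb.le
      linarith
    rcases lt_trichotomy s 0 with hs | hs | hs
    · have := quasi_aux (k := k) (s := -s) (z := -z) (β := -α) hk (by linarith) (by linarith)
        (by linarith) (by linarith) (by linarith)
      simp only [neg_mul_neg, neg_sq] at this
      exact this.trans m1
    · rw [hs] at n1; linarith
    · exact (quasi_aux hk (h1.trans_le hα) hβ h2 n2 hs).trans m2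

theorem FF_quasi {k σ α β z γ δ w : ℝ} (hk : 0 ≤ k) (h1 : -1 < α) (hα : α ≤ z) (hβ : z ≤ β)
    (h2 : β < 1) (h3 : -1 < γ) (hγ : γ ≤ w) (hδ : w ≤ δ) (h4 : δ < 1) :
    FF k σ z w ≤ max (max (FF k σ α γ) (FF k σ α δ)) (max (FF k σ β γ) (FF k σ β δ)) := by
  have key : ∀ {x a b y : ℝ}, -1 < a → a ≤ x → x ≤ b → b < 1 → -1 < y → y < 1 →
      FF k σ x y ≤ max (FF k σ a y) (FF k σ b y) := by
    intro x a b y a1 a2 a3 a4 y1 y2
    have hy := sq_pos y1 y2
    have e : ∀ t : ℝ, FF k σ t y = (k + (σ * y) * t) / √(1 - t ^ 2) / √(1 - y ^ 2) := by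
      intro t
      unfold FF
      rw [div_div]
      congr 1
      ring
    rw [e, e, e, max_div_div_right hy.le]
    exact div_le_div_of_nonneg_right (quasi1 hk a1 a2 a3 a4) hy.le
  have hw1 : -1 < w := h3.trans_le hγ
  have hw2 : w < 1 := hδ.trans_lt h4
  refine (key h1 hα hβ h2 hw1 hw2).trans ?_
  have k1 := key (x := w) (a := γ) (b := δ) (y := α) h3 hγ hδ h4 h1 (hα.trans_lt (hβ.trans_lt h2))
  have k2 := key (x := w) (a := γ) (b := δ) (y := β) h3 hγ hδ h4 (h1.trans_le (hα.trans hβ)) h2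
  rw [FF_comm, FF_comm k σ γ, FF_comm k σ δ] at k1 k2
  exact max_le_max k1 k2

/-- the three slope variants: a bilinear function is above its affine minorants.
`l, m` are the centred coordinates. -/
theorem bil_ge {A B C E l m : ℝ} (hl : |l| ≤ 1 / 2) (hm : |m| ≤ 1 / 2) :
    let b := (1 / 2 - l) * (1 / 2 - m) * A + (1 / 2 - l) * (1 / 2 + m) * B +
      (1 / 2 + l) * (1 / 2 - m) * C + (1 / 2 + l) * (1 / 2 + m) * E
    (min (A + E) (B + C) / 2 + ((C + E) - (A + B)) / 2 * l + ((B + E) - (A + C)) / 2 * m ≤ b) ∧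
    (B + C ≤ A + E → (B + C) / 2 + (E - B) * l + (E - C) * m ≤ b ∧
      (B + C) / 2 + (C - A) * l + (B - A) * m ≤ b) ∧
    (A + E ≤ B + C → (A + E) / 2 + (E - B) * l + (B - A) * m ≤ b ∧
      (A + E) / 2 + (C - A) * l + (E - C) * m ≤ b) := by
  intro b
  obtain ⟨l1, l2⟩ := abs_le.1 hl
  obtain ⟨m1, m2⟩ := abs_le.1 hm
  have p1 : 0 ≤ (1 / 2 - l) * (1 / 2 - m) := mul_nonneg (by linarith) (by linarith)
  have p2 : 0 ≤ (1 / 2 + l) * (1 / 2 - m) := mul_nonneg (by linarith) (by linarith)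
  have p3 : 0 ≤ (1 / 2 - l) * (1 / 2 + m) := mul_nonneg (by linarith) (by linarith)
  have p4 : 0 ≤ (1 / 2 + l) * (1 / 2 + m) := mul_nonneg (by linarith) (by linarith)
  have s1 : 0 ≤ 1 / 2 + 2 * l * m := by nlinarith
  have s2 : 0 ≤ 1 / 2 - 2 * l * m := by nlinarith
  refine ⟨?_, fun h => ⟨?_, ?_⟩, fun h => ⟨?_, ?_⟩⟩
  · rcases le_total (A + E) (B + C) with h | h
    · rw [min_eq_left h]
      have := mul_nonneg (sub_nonneg.2 h) s2
      simp only [b]; nlinarith
    · rw [min_eq_right h]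
      have := mul_nonneg (sub_nonneg.2 h) s1
      simp only [b]; nlinarith
  · have := mul_nonneg (sub_nonneg.2 h) p1
    simp only [b]; nlinarith
  · have := mul_nonneg (sub_nonneg.2 h) p4
    simp only [b]; nlinarith
  · have := mul_nonneg (sub_nonneg.2 h) p2
    simp only [b]; nlinarith
  · have := mul_nonneg (sub_nonneg.2 h) p3
    simp only [b]; nlinarith

end Pool.Agent.Helper54.KA
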