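import Pool.Agent.Helper54.KA.Edge
import Pool.Agent.Helper54.KA.Conc

set_option autoImplicit false

/-! # Corner values -/

namespace Pool.Agent.Helper54.KA

open Real

/-- height of a code: `x < 32768`: `x / 4096 - 1`, else `-(1 - t²) / (1 + t²)` with
`t = (x - 32768) / 4096` -/
noncomputable def hgt (x : ℕ) : ℝ :=
  if 32768 ≤ x then -((1 - (((x : ℝ) - 32768) / 4096) ^ 2) / (1 + (((x : ℝ) - 32768) / 4096) ^ 2))
  else (x : ℝ) / 4096 - 1

/-- ordinary heights -/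
def isC (x : Nat) : Bool := and (Nat.ble 1 x) (Nat.ble x 8191)

/-- heights of the special point -/
def isS (x : Nat) : Bool := and (Nat.ble 32769 x) (Nat.ble x 33791)

/-- heights of the special point, the pole `32768` included -/
def isS0 (x : Nat) : Bool := and (Nat.ble 32768 x) (Nat.ble x 33791)

lemma isS0_iff {x : ℕ} : isS0 x = true ↔ 32768 ≤ x ∧ x ≤ 33791 := by simp [isS0]

lemma isC_iff {x : ℕ} : isC x = true ↔ 1 ≤ x ∧ x ≤ 8191 := by simp [isC]

lemma isS_iff {x : ℕ} : isS x = true ↔ 32769 ≤ x ∧ x ≤ 33791 := by simp [isS]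

lemma hgt_C {x : ℕ} (h : isC x = true) : hgt x = (x : ℝ) / 4096 - 1 := by
  have := isC_iff.1 h
  unfold hgt; rw [if_neg (by omega)]

lemma hgt_S {k : ℕ} : hgt (32768 + k) =
    -((1 - ((k : ℝ) / 4096) ^ 2) / (1 + ((k : ℝ) / 4096) ^ 2)) := by
  unfold hgt; rw [if_pos (by omega)]; push_cast; ring_nf

lemma exists_S {x : ℕ} (h : isS x = true) : ∃ k : ℕ, x = 32768 + k ∧ 1 ≤ k ∧ k ≤ 1023 := by
  have := isS_iff.1 h
  exact ⟨x - 32768, by omega, by omega, by omega⟩

lemma hgt_C_mem {x : ℕ} (h : isC x = true) : -1 < hgt x ∧ hgt x < 1 := by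
  rw [hgt_C h]
  obtain ⟨h1, h2⟩ := isC_iff.1 h
  have a : (1 : ℝ) ≤ x := by exact_mod_cast h1
  have b : (x : ℝ) ≤ 8191 := by exact_mod_cast h2
  constructor <;> linarith

lemma hgt_S_mem {x : ℕ} (h : isS x = true) : -1 < hgt x ∧ hgt x < 1 := by
  obtain ⟨k, rfl, k1, k2⟩ := exists_S h
  rw [hgt_S]
  have a : (1 : ℝ) ≤ k := by exact_mod_cast k1
  have t0 : 0 < ((k : ℝ) / 4096) ^ 2 := by positivity
  have t1 : 0 < 1 + ((k : ℝ) / 4096) ^ 2 := by linarith
  constructor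
  · rw [neg_lt_neg_iff, div_lt_one t1]; linarith
  · have : -1 < (1 - ((k : ℝ) / 4096) ^ 2) / (1 + ((k : ℝ) / 4096) ^ 2) := by
      rw [lt_div_iff₀ t1]; linarith
    linarith

/-- width data of a special code -/
lemma sqrt_S {k : ℕ} (k1 : 1 ≤ k) : √(1 - hgt (32768 + k) ^ 2) =
    2 * ((k : ℝ) / 4096) / (1 + ((k : ℝ) / 4096) ^ 2) := by
  have a : (1 : ℝ) ≤ k := by exact_mod_cast k1
  have t0 : 0 < (k : ℝ) / 4096 := by positivity
  have e : 1 - (-((1 - ((k : ℝ) / 4096) ^ 2) / (1 + ((k : ℝ) / 4096) ^ 2))) ^ 2 =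
      (2 * ((k : ℝ) / 4096) / (1 + ((k : ℝ) / 4096) ^ 2)) ^ 2 := by
    field_simp
    ring
  rw [hgt_S, e, Real.sqrt_sq (by positivity)]

lemma inv_sqrt_le {Z u : ℝ} (hZ : 0 < Z) (hu : 0 ≤ u) (h : 1 ≤ u ^ 2 * Z) : 1 / √Z ≤ u := by
  have hs := Real.sqrt_pos.2 hZ
  rw [div_le_iff₀ hs]
  apply le_of_sq_le_sq _ (by positivity)
  rw [mul_pow, Real.sq_sqrt hZ.le]; simpa using h

lemma le_inv_sqrt {Z u : ℝ} (hZ : 0 < Z) (h : u ^ 2 * Z ≤ 1) : u ≤ 1 / √Z := by
  have hs := Real.sqrt_pos.2 hZ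
  rw [le_div_iff₀ hs]
  apply le_of_sq_le_sq _ (by norm_num)
  rw [mul_pow, Real.sq_sqrt hZ.le]; simpa using h

lemma ut_spec {x : ℕ} (h : isC x = true) :
    1 / √(1 - hgt x ^ 2) ≤ (ut x : ℝ) / 65536 ∧
      ((ut x - 1 : ℕ) : ℝ) / 65536 ≤ 1 / √(1 - hgt x ^ 2) := by
  have hm := hgt_C_mem h
  obtain ⟨h1, h2⟩ := isC_iff.1 h
  have a := allP_spec 13 0 pU_all x (Nat.zero_le _) (by norm_num; omega)
  have b := allP_spec 13 0 pU'_all x (Nat.zero_le _) (by norm_num; omega)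
  have hx0 : Nat.beq x 0 = false := by
    cases hb : Nat.beq x 0 with
    | false => rfl
    | true => have := Nat.eq_of_beq_eq_true hb; omega
  unfold pU at a
  rw [hx0] at a
  have a' : 72057594037927936 ≤ ut x * ut x * (x * (8192 - x)) := Nat.le_of_ble_eq_true a
  unfold pU' at b
  have b' : (ut x - 1) * (ut x - 1) * (x * (8192 - x)) ≤ 72057594037927936 :=
    Nat.le_of_ble_eq_true b
  have eZ : 1 - hgt x ^ 2 = (x : ℝ) * ((8192 - x : ℕ) : ℝ) / 16777216 := by
    rw [hgt_C h, Nat.cast_sub (by omega)]; push_cast; ring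
  have hZ : 0 < 1 - hgt x ^ 2 := by nlinarith
  constructor
  · apply inv_sqrt_le hZ (by positivity)
    rw [eZ]
    have c : (72057594037927936 : ℝ) ≤ ut x * ut x * (x * ((8192 - x : ℕ) : ℝ)) := by
      exact_mod_cast a'
    have : ((ut x : ℝ) / 65536) ^ 2 * ((x : ℝ) * ((8192 - x : ℕ) : ℝ) / 16777216) =
      ut x * ut x * (x * ((8192 - x : ℕ) : ℝ)) / 72057594037927936 := by ring
    rw [this, le_div_iff₀ (by norm_num)]
    linarith
  · apply le_inv_sqrt hZ
    rw [eZ]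
    have c : ((ut x - 1 : ℕ) : ℝ) * ((ut x - 1 : ℕ) : ℝ) * (x * ((8192 - x : ℕ) : ℝ)) ≤
      72057594037927936 := by exact_mod_cast b'
    have : (((ut x - 1 : ℕ) : ℝ) / 65536) ^ 2 * ((x : ℝ) * ((8192 - x : ℕ) : ℝ) / 16777216) =
      ((ut x - 1 : ℕ) : ℝ) * ((ut x - 1 : ℕ) : ℝ) * (x * ((8192 - x : ℕ) : ℝ)) / 72057594037927936 := by
      ring
    rw [this, div_le_iff₀ (by norm_num)]
    linarith

/-! ### the arccosine table -/

/-- exact Taylor chain, lower bound -/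
lemma cosLo_spec {t : ℕ} (ht : t ≤ 32767) (hc : 1 ≤ cosLo (t * t)) :
    (cosLo (t * t) : ℝ) / 268435456 ≤ cos ((t : ℝ) / 16384) := by
  set y := t * t with hy
  have hy2 : y ≤ 1073676289 := by rw [hy]; nlinarith
  set a5 := 268435456 - (y / 90 + 1) with e5
  set a4 := 268435456 - y * a5 / 15032385536 with e4
  set a3 := 268435456 - (y * a4 / 8053063680 + 1) with e3
  set a2 := 268435456 - y * a3 / 3221225472 with e2
  have ec : cosLo y = 268435456 - (y * a2 / 536870912 + 1) := rfl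
  have b5 : a5 ≤ 268435456 := Nat.sub_le _ _
  have b4 : a4 ≤ 268435456 := Nat.sub_le _ _
  have b3 : a3 ≤ 268435456 := Nat.sub_le _ _
  have b2 : a2 ≤ 268435456 := Nat.sub_le _ _
  -- no truncation
  have n5 : y / 90 + 1 ≤ 268435456 := by omega
  have n4 : y * a5 / 15032385536 ≤ 268435456 := by
    apply Nat.div_le_of_le_mul; nlinarith
  have n3 : y * a4 / 8053063680 + 1 ≤ 268435456 := by
    have : y * a4 / 8053063680 ≤ 268435455 := by apply Nat.div_le_of_le_mul; nlinarith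
    omega
  have n2 : y * a3 / 3221225472 ≤ 268435456 := by
    apply Nat.div_le_of_le_mul; nlinarith
  have n1 : y * a2 / 536870912 + 1 ≤ 268435456 := by omega
  -- real inequalities, with Y = y / 2^28
  have hY : ((t : ℝ) / 16384) ^ 2 = (y : ℝ) / 268435456 := by rw [hy]; push_cast; ring
  set Y : ℝ := (y : ℝ) / 268435456 with hYd
  have hY0 : 0 ≤ Y := by positivity
  have f : ∀ n d : ℕ, 0 < d → ((n / d : ℕ) : ℝ) ≤ (n : ℝ) / d ∧ (n : ℝ) / d ≤ ((n / d : ℕ) : ℝ) + 1 := by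
    intro n d hd
    refine ⟨Nat.cast_div_le, ?_⟩
    have h := Nat.lt_div_mul_add hd (a := n)
    have hd' : (0 : ℝ) < d := by exact_mod_cast hd
    rw [div_le_iff₀ hd']
    have : (n : ℝ) < ((n / d : ℕ) : ℝ) * d + d := by exact_mod_cast h
    linarith
  have c5 : (a5 : ℝ) / 268435456 ≤ 1 - Y / 90 := by
    have h1 := (f y 90 (by norm_num)).2
    have h2 : (a5 : ℝ) = 268435456 - (((y / 90 : ℕ) : ℝ) + 1) := by
      rw [e5, Nat.cast_sub n5]; push_cast; ring
    rw [h2, hYd]; push_cast at h1; linarith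
  have c5' : 0 ≤ (a5 : ℝ) / 268435456 := by positivity
  have c4 : 1 - Y / 56 * (1 - Y / 90) ≤ (a4 : ℝ) / 268435456 := by
    have h1 := (f (y * a5) 15032385536 (by norm_num)).1
    have h2 : (a4 : ℝ) = 268435456 - ((y * a5 / 15032385536 : ℕ) : ℝ) := by
      rw [e4, Nat.cast_sub n4]; norm_num
    have h3 : Y / 56 * ((a5 : ℝ) / 268435456) ≤ Y / 56 * (1 - Y / 90) :=
      mul_le_mul_of_nonneg_left c5 (by positivity)
    have h4 : ((y * a5 : ℕ) : ℝ) / (15032385536 : ℕ) = Y / 56 * ((a5 : ℝ) / 268435456) * 268435456 := by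
      rw [hYd]; push_cast; ring
    rw [h4] at h1
    rw [h2]; linarith
  have c3 : (a3 : ℝ) / 268435456 ≤ 1 - Y / 30 * (1 - Y / 56 * (1 - Y / 90)) := by
    have h1 := (f (y * a4) 8053063680 (by norm_num)).2
    have h2 : (a3 : ℝ) = 268435456 - (((y * a4 / 8053063680 : ℕ) : ℝ) + 1) := by
      rw [e3, Nat.cast_sub n3]; norm_num
    have h3 : Y / 30 * (1 - Y / 56 * (1 - Y / 90)) ≤ Y / 30 * ((a4 : ℝ) / 268435456) :=
      mul_le_mul_of_nonneg_left c4 (by positivity)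
    have h4 : ((y * a4 : ℕ) : ℝ) / (8053063680 : ℕ) = Y / 30 * ((a4 : ℝ) / 268435456) * 268435456 := by
      rw [hYd]; push_cast; ring
    rw [h4] at h1
    rw [h2]; linarith
  have c2 : 1 - Y / 12 * (1 - Y / 30 * (1 - Y / 56 * (1 - Y / 90))) ≤ (a2 : ℝ) / 268435456 := by
    have h1 := (f (y * a3) 3221225472 (by norm_num)).1
    have h2 : (a2 : ℝ) = 268435456 - ((y * a3 / 3221225472 : ℕ) : ℝ) := by
      rw [e2, Nat.cast_sub n2]; norm_num
    have h3 : Y / 12 * ((a3 : ℝ) / 268435456) ≤ Y / 12 * (1 - Y / 30 * (1 - Y / 56 * (1 - Y / 90))) :=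
      mul_le_mul_of_nonneg_left c3 (by positivity)
    have h4 : ((y * a3 : ℕ) : ℝ) / (3221225472 : ℕ) = Y / 12 * ((a3 : ℝ) / 268435456) * 268435456 := by
      rw [hYd]; push_cast; ring
    rw [h4] at h1
    rw [h2]; linarith
  have c1 : (cosLo y : ℝ) / 268435456 ≤
      1 - Y / 2 * (1 - Y / 12 * (1 - Y / 30 * (1 - Y / 56 * (1 - Y / 90)))) := by
    have h1 := (f (y * a2) 536870912 (by norm_num)).2
    have h2 : (cosLo y : ℝ) = 268435456 - (((y * a2 / 536870912 : ℕ) : ℝ) + 1) := by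
      rw [ec, Nat.cast_sub n1]; norm_num
    have h3 : Y / 2 * (1 - Y / 12 * (1 - Y / 30 * (1 - Y / 56 * (1 - Y / 90)))) ≤
      Y / 2 * ((a2 : ℝ) / 268435456) := mul_le_mul_of_nonneg_left c2 (by positivity)
    have h4 : ((y * a2 : ℕ) : ℝ) / (536870912 : ℕ) = Y / 2 * ((a2 : ℝ) / 268435456) * 268435456 := by
      rw [hYd]; push_cast; ring
    rw [h4] at h1
    rw [h2]; linarith
  refine c1.trans ?_
  have h := cos_ge10 (t := (t : ℝ) / 16384) (by positivity)
  have e : 1 - ((t : ℝ) / 16384) ^ 2 / 2 + ((t : ℝ) / 16384) ^ 4 / 24 - ((t : ℝ) / 16384) ^ 6 / 720 +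
      ((t : ℝ) / 16384) ^ 8 / 40320 - ((t : ℝ) / 16384) ^ 10 / 3628800 =
      1 - Y / 2 * (1 - Y / 12 * (1 - Y / 30 * (1 - Y / 56 * (1 - Y / 90)))) := by
    rw [← hY]; ring
  linarith

/-- exact Taylor chain, upper bound -/
lemma cosUp_spec {t : ℕ} (ht : t ≤ 25740) :
    cos ((t : ℝ) / 16384) ≤ (cosUp (t * t) : ℝ) / 268435456 := by
  set y := t * t with hy
  have hy2 : y ≤ 662547600 := by rw [hy]; nlinarith
  set a4 := 268435456 - (y / 56 + 1) with e4
  set a3 := 268435456 - y * a4 / 8053063680 with e3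
  set a2 := 268435456 - (y * a3 / 3221225472 + 1) with e2
  have ec : cosUp y = 268435456 - y * a2 / 536870912 := rfl
  have b4 : a4 ≤ 268435456 := Nat.sub_le _ _
  have b3 : a3 ≤ 268435456 := Nat.sub_le _ _
  have b2 : a2 ≤ 268435456 := Nat.sub_le _ _
  have n4 : y / 56 + 1 ≤ 268435456 := by omega
  have n3 : y * a4 / 8053063680 ≤ 268435456 := by
    apply Nat.div_le_of_le_mul; nlinarith
  have n2 : y * a3 / 3221225472 + 1 ≤ 268435456 := by
    have : y * a3 / 3221225472 ≤ 268435455 := by apply Nat.div_le_of_le_mul; nlinarith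
    omega
  have hY : ((t : ℝ) / 16384) ^ 2 = (y : ℝ) / 268435456 := by rw [hy]; push_cast; ring
  set Y : ℝ := (y : ℝ) / 268435456 with hYd
  have hY0 : 0 ≤ Y := by positivity
  have f : ∀ n d : ℕ, 0 < d → ((n / d : ℕ) : ℝ) ≤ (n : ℝ) / d ∧ (n : ℝ) / d ≤ ((n / d : ℕ) : ℝ) + 1 := by
    intro n d hd
    refine ⟨Nat.cast_div_le, ?_⟩
    have h := Nat.lt_div_mul_add hd (a := n)
    have hd' : (0 : ℝ) < d := by exact_mod_cast hd
    rw [div_le_iff₀ hd']
    have : (n : ℝ) < ((n / d : ℕ) : ℝ) * d + d := by exact_mod_cast h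
    linarith
  have c4 : (a4 : ℝ) / 268435456 ≤ 1 - Y / 56 := by
    have h1 := (f y 56 (by norm_num)).2
    have h2 : (a4 : ℝ) = 268435456 - (((y / 56 : ℕ) : ℝ) + 1) := by
      rw [e4, Nat.cast_sub n4]; push_cast; ring
    rw [h2, hYd]; push_cast at h1; linarith
  have c3 : 1 - Y / 30 * (1 - Y / 56) ≤ (a3 : ℝ) / 268435456 := by
    have h1 := (f (y * a4) 8053063680 (by norm_num)).1
    have h2 : (a3 : ℝ) = 268435456 - ((y * a4 / 8053063680 : ℕ) : ℝ) := by
      rw [e3, Nat.cast_sub n3]; norm_num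
    have h3 : Y / 30 * ((a4 : ℝ) / 268435456) ≤ Y / 30 * (1 - Y / 56) :=
      mul_le_mul_of_nonneg_left c4 (by positivity)
    have h4 : ((y * a4 : ℕ) : ℝ) / (8053063680 : ℕ) = Y / 30 * ((a4 : ℝ) / 268435456) * 268435456 := by
      rw [hYd]; push_cast; ring
    rw [h4] at h1
    rw [h2]; linarith
  have c2 : (a2 : ℝ) / 268435456 ≤ 1 - Y / 12 * (1 - Y / 30 * (1 - Y / 56)) := by
    have h1 := (f (y * a3) 3221225472 (by norm_num)).2
    have h2 : (a2 : ℝ) = 268435456 - (((y * a3 / 3221225472 : ℕ) : ℝ) + 1) := by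
      rw [e2, Nat.cast_sub n2]; norm_num
    have h3 : Y / 12 * (1 - Y / 30 * (1 - Y / 56)) ≤ Y / 12 * ((a3 : ℝ) / 268435456) :=
      mul_le_mul_of_nonneg_left c3 (by positivity)
    have h4 : ((y * a3 : ℕ) : ℝ) / (3221225472 : ℕ) = Y / 12 * ((a3 : ℝ) / 268435456) * 268435456 := by
      rw [hYd]; push_cast; ring
    rw [h4] at h1
    rw [h2]; linarith
  have n1 : y * a2 / 536870912 ≤ 268435456 ∨ 268435456 < y * a2 / 536870912 := le_or_gt _ _
  have c1 : 1 - Y / 2 * (1 - Y / 12 * (1 - Y / 30 * (1 - Y / 56))) ≤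
      (cosUp y : ℝ) / 268435456 := by
    have h1 := (f (y * a2) 536870912 (by norm_num)).1
    have h3 : Y / 2 * ((a2 : ℝ) / 268435456) ≤
      Y / 2 * (1 - Y / 12 * (1 - Y / 30 * (1 - Y / 56))) := mul_le_mul_of_nonneg_left c2 (by positivity)
    have h4 : ((y * a2 : ℕ) : ℝ) / (536870912 : ℕ) = Y / 2 * ((a2 : ℝ) / 268435456) * 268435456 := by
      rw [hYd]; push_cast; ring
    rw [h4] at h1
    have h2 : (268435456 : ℝ) - ((y * a2 / 536870912 : ℕ) : ℝ) ≤ (cosUp y : ℝ) := by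
      rw [ec]
      have : (268435456 : ℕ) ≤ (268435456 - y * a2 / 536870912) + y * a2 / 536870912 := by omega
      have h5 : ((268435456 : ℕ) : ℝ) ≤ ((268435456 - y * a2 / 536870912 : ℕ) : ℝ) +
        ((y * a2 / 536870912 : ℕ) : ℝ) := by exact_mod_cast this
      push_cast at h5 ⊢
      linarith
    linarith
  refine le_trans ?_ c1
  have h := cos_le8 (t := (t : ℝ) / 16384) (by positivity)
  have e : 1 - ((t : ℝ) / 16384) ^ 2 / 2 + ((t : ℝ) / 16384) ^ 4 / 24 - ((t : ℝ) / 16384) ^ 6 / 720 +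
      ((t : ℝ) / 16384) ^ 8 / 40320 =
      1 - Y / 2 * (1 - Y / 12 * (1 - Y / 30 * (1 - Y / 56))) := by
    rw [← hY]; ring
  linarith

lemma ac_spec {x : ℕ} (hx : x ≤ 16384) : (ac x : ℝ) / 16384 ≤ arccos ((x : ℝ) / 16384) ∧
    arccos ((x : ℝ) / 16384) ≤ ((ac x : ℝ) + 3) / 16384 := by
  have hA : pA x = true := by
    rcases Nat.lt_or_ge x 16384 with h | h
    · exact allP_spec 14 0 pA_all x (Nat.zero_le _) (by norm_num; omega)
    · rw [le_antisymm hx h]; exact pA_last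
  have hA' : pA' x = true := by
    rcases Nat.lt_or_ge x 16384 with h | h
    · exact allP_spec 14 0 pA'_all x (Nat.zero_le _) (by norm_num; omega)
    · rw [le_antisymm hx h]; exact pA'_last
  unfold pA' at hA'
  have hU : cosUp ((ac x + 3) * (ac x + 3)) ≤ x * 16384 := Nat.le_of_ble_eq_true hA'
  unfold pA at hA
  generalize ac x = v at hA hU ⊢
  have hv : v ≤ 25735 := by
    by_contra hcon
    have : Nat.ble v 25735 = false := by
      cases hb : Nat.ble v 25735 with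
      | false => rfl
      | true => exact absurd (Nat.le_of_ble_eq_true hb) hcon
    rw [this] at hA
    exact absurd hA (by simp)
  have hb : Nat.ble v 25735 = true := by simpa using hv
  rw [hb] at hA
  have hpi := Real.pi_gt_d6
  have hvr : (v : ℝ) ≤ 25735 := by exact_mod_cast hv
  have hx0 : (0 : ℝ) ≤ (x : ℝ) / 16384 := by positivity
  have hx1 : (x : ℝ) / 16384 ≤ 1 := by
    rw [div_le_one (by norm_num)]; exact_mod_cast hx
  constructor
  · rcases Nat.eq_zero_or_pos v with h0 | h0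
    · rw [h0]; simpa using arccos_nonneg _
    · have hne : Nat.beq v 0 = false := by
        cases hb : Nat.beq v 0 with
        | false => rfl
        | true => have := Nat.eq_of_beq_eq_true hb; omega
      rw [hne] at hA
      have h1 : x * 16384 + 1 ≤ cosLo (v * v) := Nat.le_of_ble_eq_true hA
      have h2 := cosLo_spec (t := v) (by omega) (by omega)
      have h3 : ((x * 16384 + 1 : ℕ) : ℝ) ≤ (cosLo (v * v) : ℝ) := by exact_mod_cast h1
      push_cast at h3
      have h4 : (x : ℝ) / 16384 ≤ cos ((v : ℝ) / 16384) := by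
        refine le_trans ?_ h2
        rw [div_le_div_iff₀ (by norm_num) (by norm_num)]; linarith
      have h5 : arccos (cos ((v : ℝ) / 16384)) = (v : ℝ) / 16384 :=
        arccos_cos (by positivity) (by linarith)
      rw [← h5]
      exact arccos_le_arccos h4
  · have h2 := cosUp_spec (t := v + 3) (by omega)
    have h3 : (cosUp ((v + 3) * (v + 3)) : ℝ) ≤ ((x * 16384 : ℕ) : ℝ) := by exact_mod_cast hU
    push_cast at h3 h2
    have h4 : cos (((v : ℝ) + 3) / 16384) ≤ (x : ℝ) / 16384 := by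
      refine h2.trans ?_
      rw [div_le_div_iff₀ (by norm_num) (by norm_num)]; linarith
    have h5 : arccos (cos (((v : ℝ) + 3) / 16384)) = ((v : ℝ) + 3) / 16384 :=
      arccos_cos (by positivity) (by linarith)
    rw [← h5]
    exact arccos_le_arccos h4

lemma blk_aux (A x n m : ℕ) (hn : n = 2048) (hm : m = 2 ^ 16 - 1) :
    Nat.land (Nat.shiftRight (Nat.land (Nat.shiftRight A (Nat.mul 2048 (Nat.div x 128)))
      (Nat.sub (Nat.pow 2 n) 1)) (Nat.mul 16 (Nat.mod x 128))) m =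
    Nat.land (Nat.shiftRight A (Nat.mul 16 x)) m := by
  rw [hm]
  apply Nat.eq_of_testBit_eq
  intro i
  show ((((A >>> (2048 * (x / 128))) &&& (2 ^ n - 1)) >>> (16 * (x % 128))) &&&
    (2 ^ 16 - 1)).testBit i = ((A >>> (16 * x)) &&& (2 ^ 16 - 1)).testBit i
  simp only [Nat.testBit_and, Nat.testBit_shiftRight, Nat.testBit_two_pow_sub_one]
  rcases Nat.lt_or_ge i 16 with hi | hi
  · have e : 2048 * (x / 128) + (16 * (x % 128) + i) = 16 * x + i := by omega
    have l : 16 * (x % 128) + i < n := by omega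
    rw [e]; simp [hi, l]
  · simp [Nat.not_lt.2 hi]

lemma ac2_eq (x : ℕ) : ac2 x = ac x := by
  unfold ac2
  rewrite [fz_eq]
  unfold blk ac
  generalize AT = A
  have h2 := fun n => blk_aux A x n 65535
  generalize hn : 2048 = n
  have h3 := h2 n hn.symm (by norm_num)
  rewrite [hn] at h3
  exact h3

end Pool.Agent.Helper54.KA
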