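import Pool.Agent.Helper54.KA.Tab

set_option autoImplicit false

/-! # Edge values (computation only)

Codes of heights: `x < 32768` stands for `x / 4096 - 1`; `x = 32768 + k` for
`-(1 - t²) / (1 + t²)`, `t = k / 4096`. Angles and values of `F` in units `2^-14`. -/

namespace Pool.Agent.Helper54.KA

/-- forcing of a number to a literal -/
noncomputable def fz {α : Type} (n : Nat) (f : Nat → α) : α :=
  Nat.rec (motive := fun _ => α) (f 0) (fun m _ => f m) (Nat.succ n)

lemma fz_eq {α : Type} (n : Nat) (f : Nat → α) : fz n f = f n := rfl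

/-- conditional, value `x` if `b` is true -/
noncomputable def cb {α : Type} (b : Bool) (x y : α) : α :=
  Bool.rec (motive := fun _ => α) y x b

/-- block of 128 entries of `AT` -/
def blk (c : Nat) : Nat :=
  Nat.land (Nat.shiftRight AT (Nat.mul 2048 c)) (Nat.sub (Nat.pow 2 2048) 1)

/-- `ac` through blocks -/
noncomputable def ac2 (x : Nat) : Nat :=
  fz (Nat.div x 128) fun c =>
    Nat.land (Nat.shiftRight (blk c) (Nat.mul 16 (Nat.mod x 128))) 65535

/-- minimum -/
noncomputable def mn (a b : Nat) : Nat := cb (Nat.ble a b) a b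

/-- upper bound of `F`, ordinary pair; `0` if negative -/
noncomputable def fC (x y : Nat) : Nat :=
  cb (Nat.ble (Nat.add (Nat.mul x y) 8388608) (Nat.mul 4096 (Nat.add x y)))
    (Nat.succ (Nat.shiftRight (Nat.mul (Nat.mul (Nat.sub (Nat.mul 4096 (Nat.add x y))
      (Nat.add (Nat.mul x y) 8388608)) (ut x)) (ut y)) 42)) 0

/-- numerator of `F` for a pair with the special point, plus `2^35`; units `2^-36` -/
def nS (k y : Nat) : Nat :=
  Nat.add (Nat.mul y (Nat.sub 16777216 (Nat.mul k k))) (Nat.mul 6144 (Nat.mul k k))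

/-- upper bound of `F`, pair with the special point; `0` if negative -/
noncomputable def fS (k y : Nat) : Nat :=
  cb (Nat.ble 34359738368 (nS k y))
    (Nat.succ (Nat.div (Nat.mul (Nat.sub (nS k y) 34359738368) (ut y)) (Nat.mul 134217728 k))) 0

/-- lower bound of `-F`, pair with the special point -/
noncomputable def gS (k y : Nat) : Nat :=
  Nat.div (Nat.mul (Nat.sub 34359738368 (nS k y)) (Nat.sub (ut y) 1)) (Nat.mul 134217728 k)

/-- upper bound of `2^24 (1 - t²) / (1 + t²)`, `t = k / 4096` -/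
def kbf (k : Nat) : Nat :=
  Nat.succ (Nat.div (Nat.mul 16777216 (Nat.sub 16777216 (Nat.mul k k)))
    (Nat.add 16777216 (Nat.mul k k)))

/-- upper bound of the flagged `F`; `0` if negative; `kb` upper bound of `-2^24 z_S` -/
noncomputable def fB (kb x y : Nat) : Nat :=
  cb (Nat.ble (Nat.mul 4096 (Nat.add x y)) (Nat.add (Nat.add kb 16777216) (Nat.mul x y)))
    (Nat.succ (Nat.shiftRight (Nat.mul (Nat.mul (Nat.sub (Nat.add (Nat.add kb 16777216)
      (Nat.mul x y)) (Nat.mul 4096 (Nat.add x y))) (ut x)) (ut y)) 42)) 0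

/-- contact `F` of any pair of codes -/
noncomputable def fA (x y : Nat) : Nat :=
  cb (Nat.ble 32768 x) (fS (Nat.sub x 32768) y)
    (cb (Nat.ble 32768 y) (fS (Nat.sub y 32768) x) (fC x y))

/-- lower bound of `-F` of any pair of codes, `0` for ordinary pairs -/
noncomputable def gA (x y : Nat) : Nat :=
  cb (Nat.ble 32768 x) (gS (Nat.sub x 32768) y)
    (cb (Nat.ble 32768 y) (gS (Nat.sub y 32768) x) 0)

/-- plain value from `f` -/
noncomputable def vP (f : Nat) : Nat :=
  cb (Nat.beq f 0) 0 (cb (Nat.ble f 16383) (ac2 f) 0)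

/-- `K` value from `f`, biased by `131072` -/
noncomputable def vK (f : Nat) : Nat :=
  cb (Nat.beq f 0) 0 (cb (Nat.ble f 49151)
    (mn (Nat.sub 196608 (Nat.mul 4 f)) (Nat.add 131072 (ac2 (mn f 16384)))) 0)

/-- constant value from `f` and `g` -/
noncomputable def vT (f g : Nat) : Nat :=
  cb (Nat.beq f 0) (cb (Nat.beq g 0) 25735 (Nat.sub 51471 (Nat.add (ac2 (mn g 16384)) 3)))
    (ac2 (mn f 16384))

/-- add `51471` to a nonzero value -/
noncomputable def vF (v : Nat) : Nat := cb (Nat.beq v 0) 0 (Nat.add 51471 v)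

/-- corner values by type -/
noncomputable def c0 (x y : Nat) : Nat := fz (fA x y) fun f => vT f (gA x y)
noncomputable def c1 (x y : Nat) : Nat := fz (fA x y) fun f => vP f
noncomputable def c2 (x y : Nat) : Nat := fz (fA x y) fun f => vK f
noncomputable def c3 (kb x y : Nat) : Nat := fz (fB kb x y) fun f => Nat.add 51471 (vT f 0)
noncomputable def c4 (kb x y : Nat) : Nat := fz (fB kb x y) fun f => vF (vP f)
noncomputable def c5 (kb x y : Nat) : Nat := fz (fB kb x y) fun f => vF (vK f)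

/-- packing of centre value and slopes -/
noncomputable def pk3 (c s t : Nat) : Nat :=
  Nat.add c (Nat.add (Nat.shiftLeft s 32) (Nat.shiftLeft t 64))

/-- constant edge -/
noncomputable def eC (v : Nat) : Nat := pk3 (Nat.mul 2 v) 524288 524288

/-- difference with bias -/
noncomputable def dB (a b : Nat) : Nat := Nat.sub (Nat.add 524288 a) b

/-- edge from corner values, `bs` twice the bias of the values -/
noncomputable def eA (bs var a b c e : Nat) : Nat :=
  cb (Nat.beq (Nat.mul (Nat.mul a b) (Nat.mul c e)) 0) 0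
    (cb (Nat.ble (Nat.add b c) (Nat.add a e))
      (cb (Nat.ble (Nat.add b c) bs) 0
        (pk3 (Nat.sub (Nat.add b c) bs)
          (cb (Nat.beq var 0) (dB (Nat.add c e) (Nat.add a b))
            (cb (Nat.beq var 1) (dB (Nat.mul 2 e) (Nat.mul 2 b)) (dB (Nat.mul 2 c) (Nat.mul 2 a))))
          (cb (Nat.beq var 0) (dB (Nat.add b e) (Nat.add a c))
            (cb (Nat.beq var 1) (dB (Nat.mul 2 e) (Nat.mul 2 c)) (dB (Nat.mul 2 b) (Nat.mul 2 a))))))
      (cb (Nat.ble (Nat.add a e) bs) 0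
        (pk3 (Nat.sub (Nat.add a e) bs)
          (cb (Nat.beq var 0) (dB (Nat.add c e) (Nat.add a b))
            (cb (Nat.beq var 1) (dB (Nat.mul 2 e) (Nat.mul 2 b)) (dB (Nat.mul 2 c) (Nat.mul 2 a))))
          (cb (Nat.beq var 0) (dB (Nat.add b e) (Nat.add a c))
            (cb (Nat.beq var 1) (dB (Nat.mul 2 b) (Nat.mul 2 a)) (dB (Nat.mul 2 e) (Nat.mul 2 c)))))))

/-- contact edges, types 0, 1, 2 -/
noncomputable def eE1 (ty var x0 x1 y0 y1 : Nat) : Nat :=
  cb (Nat.beq ty 0)
    (eC (mn (mn (c0 x0 y0) (c0 x0 y1)) (mn (c0 x1 y0) (c0 x1 y1))))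
    (cb (Nat.beq ty 1)
      (eA 0 var (c1 x0 y0) (c1 x0 y1) (c1 x1 y0) (c1 x1 y1))
      (eA 262144 var (c2 x0 y0) (c2 x0 y1) (c2 x1 y0) (c2 x1 y1)))

/-- flagged edges, types 3, 4, 5 -/
noncomputable def eE2 (kb ty var x0 x1 y0 y1 : Nat) : Nat :=
  cb (Nat.beq ty 3)
    (eC (mn (mn (c3 kb x0 y0) (c3 kb x0 y1)) (mn (c3 kb x1 y0) (c3 kb x1 y1))))
    (cb (Nat.beq ty 4)
      (eA 0 var (c4 kb x0 y0) (c4 kb x0 y1) (c4 kb x1 y0) (c4 kb x1 y1))
      (cb (Nat.beq ty 5)
        (eA 262144 var (c5 kb x0 y0) (c5 kb x0 y1) (c5 kb x1 y0) (c5 kb x1 y1)) 0))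

/-- edge by type `ty`, variant `var`; `[x0, x1]`, `[y0, y1]` are the cells, `xs` is the lower code
of the special point. The code `32768` is the pole. -/
noncomputable def eE (xs ty var x0 x1 y0 y1 : Nat) : Nat :=
  cb (Nat.ble ty 2)
    (cb (and (Nat.ble 32768 x1) (Nat.ble 32768 y1)) 0
      (cb (or (Nat.beq x0 32768) (Nat.beq y0 32768)) 0 (eE1 ty var x0 x1 y0 y1)))
    (cb (Nat.beq ty 6) (eC 51471)
      (cb (and (Nat.ble x1 32767) (Nat.ble y1 32767))
        (fz (kbf (Nat.sub xs 32768)) fun kb => eE2 kb ty var x0 x1 y0 y1) 0))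

/-- contribution of an edge `i → j` to the packed accumulator; fields of 32 bits: `0` hash value,
`1 + i` slopes, `12 + i` degree, `23 + i` outdegree, `34` centre values, `35` turns,
`36` multiplicities -/
noncomputable def wW (q i j v : Nat) : Nat :=
  cb (Nat.beq v 0) 0
    (Nat.add (Nat.add (Nat.add (Nat.mod (Nat.add v (Nat.shiftLeft q 96)) 1048573)
          (Nat.shiftLeft (Nat.mod v 4294967296) 1088))
        (Nat.add (Nat.shiftLeft 1 1152) (cb (Nat.ble j i) (Nat.shiftLeft 1 1120) 0)))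
      (Nat.add
        (Nat.shiftLeft (Nat.add (Nat.mod (Nat.shiftRight v 32) 4294967296)
          (Nat.add (Nat.shiftLeft 1 352) (Nat.shiftLeft 1 704))) (Nat.mul 32 (Nat.succ i)))
        (Nat.shiftLeft (Nat.add (Nat.shiftRight v 64) (Nat.shiftLeft 1 352))
          (Nat.mul 32 (Nat.succ j)))))

/-- the same from `q = i + 16 j + 256 (4 ty + var)`; cells `a`, `b` (`lo + 65536 hi`) -/
noncomputable def eW (xs q a b : Nat) : Nat :=
  fz (Nat.mod q 16) fun i => fz (Nat.mod (Nat.div q 16) 16) fun j =>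
  fz (Nat.mod a 65536) fun x0 => fz (Nat.div a 65536) fun x1 =>
  fz (Nat.mod b 65536) fun y0 => fz (Nat.div b 65536) fun y1 =>
  cb (and (Nat.ble i 10) (Nat.ble j 10))
    (fz (eE xs (Nat.div q 1024) (Nat.mod (Nat.div q 256) 4) x0 x1 y0 y1) fun v => wW q i j v) 0

end Pool.Agent.Helper54.KA
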