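import Pool.Agent.Helper54.KA.Val

set_option autoImplicit false

/-! # Edges: soundness -/

namespace Pool.Agent.Helper54.KA

open Real

lemma ac_le (x : ℕ) : ac x ≤ 65535 := Nat.and_le_right

lemma mn_eq (a b : ℕ) : mn a b = min a b := by
  unfold mn
  simp only [cb_ite, Nat.ble_eq]
  rw [min_def]

lemma vT_eq (f g : ℕ) : vT f g = if f = 0 then (if g = 0 then 25735 else
    51471 - (ac (min g 16384) + 3)) else ac (min f 16384) := by
  unfold vT
  simp only [cb_ite, Nat.beq_eq, Nat.sub_eq, Nat.add_eq, ac2_eq, mn_eq]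

lemma vP_eq (f : ℕ) : vP f = if f = 0 then 0 else if f ≤ 16383 then ac f else 0 := by
  unfold vP
  simp only [cb_ite, Nat.beq_eq, Nat.ble_eq, ac2_eq]

lemma vK_eq (f : ℕ) : vK f = if f = 0 then 0 else if f ≤ 49151 then
    min (196608 - 4 * f) (131072 + ac (min f 16384)) else 0 := by
  unfold vK
  simp only [cb_ite, Nat.beq_eq, Nat.ble_eq, ac2_eq, mn_eq, Nat.sub_eq, Nat.add_eq, Nat.mul_eq]

lemma vF_eq (v : ℕ) : vF v = if v = 0 then 0 else 51471 + v := by
  unfold vF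
  simp only [cb_ite, Nat.beq_eq, Nat.add_eq]

lemma trunc_le {a b : ℕ} {t : ℝ} (ht : 0 ≤ t) (h : (a : ℝ) - b ≤ t) : ((a - b : ℕ) : ℝ) ≤ t := by
  rcases Nat.le_total b a with hab | hab
  · rw [Nat.cast_sub hab]; exact h
  · rw [Nat.sub_eq_zero_of_le hab]; simpa using ht

lemma ac_min {f : ℕ} {F : ℝ} (h : F ≤ (f : ℝ) / 16384) :
    ((ac (min f 16384) : ℕ) : ℝ) / 16384 ≤ arccos F := by
  rcases Nat.le_total f 16384 with hf | hf
  · rw [min_eq_left hf]
    exact (ac_spec hf).1.trans (arccos_le_arccos h)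
  · rw [min_eq_right hf]
    refine (ac_spec (le_refl 16384)).1.trans ?_
    have : (((16384 : ℕ) : ℝ)) / 16384 = 1 := by norm_num
    rw [this, arccos_one]
    exact arccos_nonneg F

lemma vT_spec {f g : ℕ} {F : ℝ} (h1 : F ≤ (f : ℝ) / 16384) (h2 : f = 0 → F ≤ -((g : ℝ) / 16384)) :
    (vT f g : ℝ) / 16384 ≤ arccos F := by
  have hpi := Real.pi_gt_d6
  rw [vT_eq]
  split_ifs with hf hg
  · have h3 : F ≤ 0 := by rw [hf] at h1; simpa using h1
    have h4 := arccos_le_arccos h3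
    rw [arccos_zero] at h4
    refine le_trans ?_ h4
    push_cast
    linarith
  · have h3 := h2 hf
    have h0 : (0 : ℝ) ≤ 16384 * arccos F := mul_nonneg (by norm_num) (arccos_nonneg F)
    rw [div_le_iff₀ (by norm_num), mul_comm]
    apply trunc_le h0
    have l1 : min g 16384 ≤ g := min_le_left _ _
    have l2 : min g 16384 ≤ 16384 := min_le_right _ _
    generalize min g 16384 = g' at l1 l2 ⊢
    have hm : (g' : ℝ) / 16384 ≤ (g : ℝ) / 16384 := by
      have : (g' : ℝ) ≤ g := by exact_mod_cast l1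
      gcongr
    have h4 : arccos (-((g' : ℝ) / 16384)) ≤ arccos F :=
      arccos_le_arccos (h3.trans (neg_le_neg hm))
    rw [arccos_neg] at h4
    have h5 := (ac_spec l2).2
    rw [le_div_iff₀ (by norm_num)] at h5
    push_cast at h5 ⊢
    linarith
  · exact ac_min h1

lemma vT_lt (f g : ℕ) : vT f g < 65536 := by
  have h1 := ac_le (min f 16384)
  rw [vT_eq]
  split_ifs
  · norm_num
  · exact lt_of_le_of_lt (Nat.sub_le _ _) (by norm_num)
  · omega

lemma vP_spec {f : ℕ} (h : vP f ≠ 0) : f ≠ 0 ∧ f ≤ 16383 ∧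
    (vP f : ℝ) / 16384 ≤ arccos ((f : ℝ) / 16384) := by
  rw [vP_eq] at h ⊢
  split_ifs at h ⊢ with h1 h2
  · exact absurd rfl h
  · exact ⟨h1, h2, (ac_spec (by omega)).1⟩
  · exact absurd rfl h

lemma vP_lt (f : ℕ) : vP f < 65536 := by
  have h1 := ac_le f
  rw [vP_eq]
  split_ifs <;> omega

lemma vK_spec {f : ℕ} (h : vK f ≠ 0) : f ≠ 0 ∧
    ((vK f : ℝ) - 131072) / 16384 ≤ arccos ((f : ℝ) / 16384) ∧
    ((vK f : ℝ) - 131072) / 16384 ≤ 4 * (1 - (f : ℝ) / 16384) := by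
  rw [vK_eq] at h ⊢
  split_ifs at h ⊢ with h1 h2
  · exact absurd rfl h
  · refine ⟨h1, ?_, ?_⟩
    · have h3 := ac_min (f := f) le_rfl
      have h4 : ((min (196608 - 4 * f) (131072 + ac (min f 16384)) : ℕ) : ℝ) ≤
          131072 + ((ac (min f 16384) : ℕ) : ℝ) := by
        exact_mod_cast min_le_right _ _
      refine le_trans ?_ h3
      gcongr
      linarith
    · have h4 : ((min (196608 - 4 * f) (131072 + ac (min f 16384)) : ℕ) : ℝ) ≤
          ((196608 - 4 * f : ℕ) : ℝ) := by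
        exact_mod_cast min_le_left _ _
      have h5 : ((196608 - 4 * f : ℕ) : ℝ) = 196608 - 4 * f := by
        rw [Nat.cast_sub (by omega)]; push_cast; ring
      rw [h5] at h4
      rw [div_le_iff₀ (by norm_num)]
      linarith
  · exact absurd rfl h

lemma vK_lt (f : ℕ) : vK f < 196608 := by
  rw [vK_eq]
  split_ifs with h1 h2
  · norm_num
  · refine lt_of_le_of_lt (min_le_left _ _) ?_
    omega
  · norm_num

/-! ### encoded edges -/

/-- `v` is zero or encodes a valid affine lower bound of `32768 θ` -/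
def EOK (v : ℕ) (θ l m : ℝ) : Prop :=
  v ≠ 0 → ∃ c s t : ℕ, v = c + s * 2 ^ 32 + t * 2 ^ 64 ∧ c < 2 ^ 20 ∧ s < 2 ^ 20 ∧ t < 2 ^ 20 ∧
    (c : ℝ) + (s - 524288) * l + (t - 524288) * m ≤ 32768 * θ

lemma EOK_zero (θ l m : ℝ) : EOK 0 θ l m := fun h => absurd rfl h

lemma pk3_eq (c s t : ℕ) : pk3 c s t = c + s * 2 ^ 32 + t * 2 ^ 64 := by
  unfold pk3
  show c + (Nat.shiftLeft s 32 + Nat.shiftLeft t 64) = _
  have h1 : Nat.shiftLeft s 32 = s * 2 ^ 32 := Nat.shiftLeft_eq s 32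
  have h2 : Nat.shiftLeft t 64 = t * 2 ^ 64 := Nat.shiftLeft_eq t 64
  rw [h1, h2]; ring

lemma EOK_pk3 {c s t : ℕ} {θ l m : ℝ} (hc : c < 2 ^ 20) (hs : s < 2 ^ 20) (ht : t < 2 ^ 20)
    (h : (c : ℝ) + (s - 524288) * l + (t - 524288) * m ≤ 32768 * θ) :
    EOK (pk3 c s t) θ l m := fun _ => ⟨c, s, t, pk3_eq c s t, hc, hs, ht, h⟩

lemma EOK_eC {v : ℕ} {θ l m : ℝ} (hv : v < 2 ^ 19) (h : (v : ℝ) / 16384 ≤ θ) :
    EOK (eC v) θ l m := by
  unfold eC
  rw [Nat.mul_eq]
  apply EOK_pk3 (by omega) (by norm_num) (by norm_num)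
  rw [div_le_iff₀ (by norm_num)] at h
  push_cast
  linarith

lemma dB_cast {a b : ℕ} (hb : b ≤ 524288) : ((dB a b : ℕ) : ℝ) = 524288 + a - b := by
  have : dB a b = 524288 + a - b := rfl
  rw [this, Nat.cast_sub (by omega)]; push_cast; ring

lemma dB_lt {a b : ℕ} (ha : a < 524288) : dB a b < 2 ^ 20 := by
  have : dB a b ≤ 524288 + a := Nat.sub_le _ _
  have h2 : (2 : ℕ) ^ 20 = 1048576 := by norm_num
  rw [h2]
  omega

lemma eA_eq (bs var a b c e : ℕ) : eA bs var a b c e =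
    if a * b * (c * e) = 0 then 0 else
    if b + c ≤ a + e then (if b + c ≤ bs then 0 else
      pk3 (b + c - bs)
        (if var = 0 then dB (c + e) (a + b) else if var = 1 then dB (2 * e) (2 * b) else
          dB (2 * c) (2 * a))
        (if var = 0 then dB (b + e) (a + c) else if var = 1 then dB (2 * e) (2 * c) else
          dB (2 * b) (2 * a)))
    else (if a + e ≤ bs then 0 else
      pk3 (a + e - bs)
        (if var = 0 then dB (c + e) (a + b) else if var = 1 then dB (2 * e) (2 * b) else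
          dB (2 * c) (2 * a))
        (if var = 0 then dB (b + e) (a + c) else if var = 1 then dB (2 * b) (2 * a) else
          dB (2 * e) (2 * c))) := by
  unfold eA
  simp only [cb_ite, Nat.beq_eq, Nat.ble_eq, Nat.mul_eq, Nat.add_eq, Nat.sub_eq]

/-- encoded affine edges -/
lemma eA_spec {bs var a b c e : ℕ} {θ l m : ℝ} (ha : a < 262144) (hb : b < 262144)
    (hc : c < 262144) (he : e < 262144) (hl : |l| ≤ 1 / 2) (hm : |m| ≤ 1 / 2)
    (H : a ≠ 0 → b ≠ 0 → c ≠ 0 → e ≠ 0 →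
      (1 / 2 - l) * (1 / 2 - m) * (((a : ℝ) - bs / 2) / 16384) +
      (1 / 2 - l) * (1 / 2 + m) * (((b : ℝ) - bs / 2) / 16384) +
      (1 / 2 + l) * (1 / 2 - m) * (((c : ℝ) - bs / 2) / 16384) +
      (1 / 2 + l) * (1 / 2 + m) * (((e : ℝ) - bs / 2) / 16384) ≤ θ) :
    EOK (eA bs var a b c e) θ l m := by
  rw [eA_eq]
  by_cases h0 : a * b * (c * e) = 0
  · rw [if_pos h0]; exact EOK_zero _ _ _
  rw [if_neg h0]
  have ha0 : a ≠ 0 := by rintro rfl; simp at h0
  have hb0 : b ≠ 0 := by rintro rfl; simp at h0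
  have hc0 : c ≠ 0 := by rintro rfl; simp at h0
  have he0 : e ≠ 0 := by rintro rfl; simp at h0
  have H' := H ha0 hb0 hc0 he0
  obtain ⟨B0, B1, B2⟩ := bil_ge (A := ((a : ℝ) - bs / 2) / 16384) (B := ((b : ℝ) - bs / 2) / 16384)
    (C := ((c : ℝ) - bs / 2) / 16384) (E := ((e : ℝ) - bs / 2) / 16384) hl hm
  have T : (2 : ℕ) ^ 20 = 1048576 := by norm_num
  have d1 : ((dB (c + e) (a + b) : ℕ) : ℝ) - 524288 = (c + e) - (a + b) := by
    rw [dB_cast (by omega)]; push_cast; ring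
  have d2 : ((dB (b + e) (a + c) : ℕ) : ℝ) - 524288 = (b + e) - (a + c) := by
    rw [dB_cast (by omega)]; push_cast; ring
  have d3 : ((dB (2 * e) (2 * b) : ℕ) : ℝ) - 524288 = 2 * e - 2 * b := by
    rw [dB_cast (by omega)]; push_cast; ring
  have d4 : ((dB (2 * c) (2 * a) : ℕ) : ℝ) - 524288 = 2 * c - 2 * a := by
    rw [dB_cast (by omega)]; push_cast; ring
  have d5 : ((dB (2 * e) (2 * c) : ℕ) : ℝ) - 524288 = 2 * e - 2 * c := by
    rw [dB_cast (by omega)]; push_cast; ring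
  have d6 : ((dB (2 * b) (2 * a) : ℕ) : ℝ) - 524288 = 2 * b - 2 * a := by
    rw [dB_cast (by omega)]; push_cast; ring
  have t1 : dB (c + e) (a + b) < 2 ^ 20 := dB_lt (by omega)
  have t2 : dB (b + e) (a + c) < 2 ^ 20 := dB_lt (by omega)
  have t3 : dB (2 * e) (2 * b) < 2 ^ 20 := dB_lt (by omega)
  have t4 : dB (2 * c) (2 * a) < 2 ^ 20 := dB_lt (by omega)
  have t5 : dB (2 * e) (2 * c) < 2 ^ 20 := dB_lt (by omega)
  have t6 : dB (2 * b) (2 * a) < 2 ^ 20 := dB_lt (by omega)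
  by_cases hk : b + c ≤ a + e
  · rw [if_pos hk]
    by_cases hbs : b + c ≤ bs
    · rw [if_pos hbs]; exact EOK_zero _ _ _
    rw [if_neg hbs]
    have hcast : ((b + c - bs : ℕ) : ℝ) = b + c - bs := by
      rw [Nat.cast_sub (by omega)]; push_cast; ring
    have hlt : b + c - bs < 2 ^ 20 := by rw [T]; omega
    have hk' : (b : ℝ) + c ≤ a + e := by exact_mod_cast hk
    have hkr : ((b : ℝ) - bs / 2) / 16384 + ((c : ℝ) - bs / 2) / 16384 ≤
        ((a : ℝ) - bs / 2) / 16384 + ((e : ℝ) - bs / 2) / 16384 := by linarith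
    obtain ⟨B1, B1'⟩ := B1 hkr
    rw [min_eq_right hkr] at B0
    split_ifs with v0 v1
    · refine EOK_pk3 hlt t1 t2 ?_
      rw [hcast, d1, d2]
      nlinarith [B0, H']
    · refine EOK_pk3 hlt t3 t5 ?_
      rw [hcast, d3, d5]
      nlinarith [B1, H']
    · refine EOK_pk3 hlt t4 t6 ?_
      rw [hcast, d4, d6]
      nlinarith [B1', H']
  · rw [if_neg hk]
    by_cases hbs : a + e ≤ bs
    · rw [if_pos hbs]; exact EOK_zero _ _ _
    rw [if_neg hbs]
    have hcast : ((a + e - bs : ℕ) : ℝ) = a + e - bs := by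
      rw [Nat.cast_sub (by omega)]; push_cast; ring
    have hlt : a + e - bs < 2 ^ 20 := by rw [T]; omega
    have hk' : (a : ℝ) + e ≤ b + c := by exact_mod_cast (not_le.1 hk).le
    have hkr : ((a : ℝ) - bs / 2) / 16384 + ((e : ℝ) - bs / 2) / 16384 ≤
        ((b : ℝ) - bs / 2) / 16384 + ((c : ℝ) - bs / 2) / 16384 := by linarith
    obtain ⟨B2, B2'⟩ := B2 hkr
    rw [min_eq_left hkr] at B0
    split_ifs with v0 v1
    · refine EOK_pk3 hlt t1 t2 ?_
      rw [hcast, d1, d2]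
      nlinarith [B0, H']
    · refine EOK_pk3 hlt t3 t6 ?_
      rw [hcast, d3, d6]
      nlinarith [B2, H']
    · refine EOK_pk3 hlt t4 t5 ?_
      rw [hcast, d4, d5]
      nlinarith [B2', H']

end Pool.Agent.Helper54.KA
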