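import Pool.Agent.Helper54.KA.EdgeS

set_option autoImplicit false

/-! # Edges over cells: soundness of `eE` -/

namespace Pool.Agent.Helper54.KA

open Real

/-- a point of a cell with its centred coordinate -/
structure Cell (x0 x1 : ℕ) (z l : ℝ) : Prop where
  kind : (isC x0 = true ∧ isC x1 = true) ∨ (isS x0 = true ∧ isS x1 = true)
  lo : hgt x0 ≤ z
  hi : z ≤ hgt x1
  wt : ∃ p q : ℝ, 0 ≤ p ∧ 0 ≤ q ∧ p + q ≤ 1 ∧
    1 / √(1 - z ^ 2) = p / √(1 - hgt x0 ^ 2) + q / √(1 - hgt x1 ^ 2) ∧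
    z / √(1 - z ^ 2) = p * hgt x0 / √(1 - hgt x0 ^ 2) + q * hgt x1 / √(1 - hgt x1 ^ 2) ∧
    l = q - 1 / 2

lemma kd_mem {x : ℕ} (h : kd x) : -1 < hgt x ∧ hgt x < 1 := by
  rcases h with h | h
  · exact hgt_C_mem h
  · exact hgt_S_mem h

lemma Cell.kd0 {x0 x1 : ℕ} {z l : ℝ} (h : Cell x0 x1 z l) : kd x0 := by
  rcases h.kind with h | h
  · exact Or.inl h.1
  · exact Or.inr h.1

lemma Cell.kd1 {x0 x1 : ℕ} {z l : ℝ} (h : Cell x0 x1 z l) : kd x1 := by
  rcases h.kind with h | h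
  · exact Or.inl h.2
  · exact Or.inr h.2

lemma Cell.abs_le {x0 x1 : ℕ} {z l : ℝ} (h : Cell x0 x1 z l) : |l| ≤ 1 / 2 := by
  obtain ⟨p, q, hp, hq, hs, _, _, rfl⟩ := h.wt
  rw [_root_.abs_le]; constructor <;> linarith

/-- every point of a cell has a centred coordinate -/
lemma exists_cell {x0 x1 : ℕ} {z : ℝ}
    (kind : (isC x0 = true ∧ isC x1 = true) ∨ (isS x0 = true ∧ isS x1 = true))
    (lo : hgt x0 ≤ z) (hi : z ≤ hgt x1) : ∃ l, Cell x0 x1 z l := by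
  have k0 : kd x0 := by rcases kind with h | h; exacts [Or.inl h.1, Or.inr h.1]
  have k1 : kd x1 := by rcases kind with h | h; exacts [Or.inl h.2, Or.inr h.2]
  obtain ⟨p, q, hp, hq, hs, e1, e2⟩ := weights (kd_mem k0).1 (kd_mem k1).2 lo hi
  exact ⟨q - 1 / 2, kind, lo, hi, p, q, hp, hq, hs, e1, e2, rfl⟩

/-- bilinear upper bound of `F` over a pair of cells -/
lemma bilF {k σ : ℝ} {x0 x1 y0 y1 : ℕ} {z l w m A B C E : ℝ} (hz : Cell x0 x1 z l)
    (hw : Cell y0 y1 w m) (h1 : 0 ≤ FF k σ (hgt x0) (hgt y0)) (h2 : 0 ≤ FF k σ (hgt x0) (hgt y1))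
    (h3 : 0 ≤ FF k σ (hgt x1) (hgt y0)) (hA : FF k σ (hgt x0) (hgt y0) ≤ A)
    (hB : FF k σ (hgt x0) (hgt y1) ≤ B) (hC : FF k σ (hgt x1) (hgt y0) ≤ C)
    (hE : FF k σ (hgt x1) (hgt y1) ≤ E) :
    FF k σ z w ≤ (1 / 2 - l) * (1 / 2 - m) * A + (1 / 2 - l) * (1 / 2 + m) * B +
      (1 / 2 + l) * (1 / 2 - m) * C + (1 / 2 + l) * (1 / 2 + m) * E := by
  have hl := hz.abs_le
  have hm := hw.abs_le
  obtain ⟨l1, l2⟩ := _root_.abs_le.1 hl
  obtain ⟨m1, m2⟩ := _root_.abs_le.1 hm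
  obtain ⟨p, q, hp, hq, hs, e1, e2, el⟩ := hz.wt
  obtain ⟨p', q', hp', hq', hs', e3, e4, em⟩ := hw.wt
  have e := FF_comb (k := k) (σ := σ) e1 e2 e3 e4
  have h := FF_le_bil hp hq hs hp' hq' hs' e h1 h2 h3
  have eq1 : 1 - q = 1 / 2 - l := by rw [el]; ring
  have eq2 : q = 1 / 2 + l := by rw [el]; ring
  have eq3 : 1 - q' = 1 / 2 - m := by rw [em]; ring
  have eq4 : q' = 1 / 2 + m := by rw [em]; ring
  rw [eq1, eq3] at h
  rw [← eq2, ← eq4]
  refine h.trans ?_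
  have s1 : 0 ≤ 1 / 2 - l := by linarith
  have s2 : 0 ≤ 1 / 2 - m := by linarith
  gcongr

/-- the minimum of the corner values is a lower bound -/
lemma quasiA {k σ : ℝ} {x0 x1 y0 y1 : ℕ} {z l w m v : ℝ} (hk : 0 ≤ k) (hz : Cell x0 x1 z l)
    (hw : Cell y0 y1 w m) (h1 : v ≤ arccos (FF k σ (hgt x0) (hgt y0)))
    (h2 : v ≤ arccos (FF k σ (hgt x0) (hgt y1))) (h3 : v ≤ arccos (FF k σ (hgt x1) (hgt y0)))
    (h4 : v ≤ arccos (FF k σ (hgt x1) (hgt y1))) : v ≤ arccos (FF k σ z w) := by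
  have h := FF_quasi (σ := σ) hk (kd_mem hz.kd0).1 hz.lo hz.hi (kd_mem hz.kd1).2
    (kd_mem hw.kd0).1 hw.lo hw.hi (kd_mem hw.kd1).2
  rcases le_max_iff.1 h with h | h <;> rcases le_max_iff.1 h with h | h
  · exact h1.trans (arccos_le_arccos h)
  · exact h2.trans (arccos_le_arccos h)
  · exact h3.trans (arccos_le_arccos h)
  · exact h4.trans (arccos_le_arccos h)

/-- Jensen, plain corner values -/
lemma jenP {k σ : ℝ} {x0 x1 y0 y1 fa fb fc fe : ℕ} {z l w m : ℝ} (hz : Cell x0 x1 z l)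
    (hw : Cell y0 y1 w m) (h1 : 0 ≤ FF k σ (hgt x0) (hgt y0)) (h2 : 0 ≤ FF k σ (hgt x0) (hgt y1))
    (h3 : 0 ≤ FF k σ (hgt x1) (hgt y0)) (hA : FF k σ (hgt x0) (hgt y0) ≤ (fa : ℝ) / 16384)
    (hB : FF k σ (hgt x0) (hgt y1) ≤ (fb : ℝ) / 16384)
    (hC : FF k σ (hgt x1) (hgt y0) ≤ (fc : ℝ) / 16384)
    (hE : FF k σ (hgt x1) (hgt y1) ≤ (fe : ℝ) / 16384)
    (ga : vP fa ≠ 0) (gb : vP fb ≠ 0) (gc : vP fc ≠ 0) (ge : vP fe ≠ 0) :
    (1 / 2 - l) * (1 / 2 - m) * ((vP fa : ℝ) / 16384) +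
      (1 / 2 - l) * (1 / 2 + m) * ((vP fb : ℝ) / 16384) +
      (1 / 2 + l) * (1 / 2 - m) * ((vP fc : ℝ) / 16384) +
      (1 / 2 + l) * (1 / 2 + m) * ((vP fe : ℝ) / 16384) ≤ arccos (FF k σ z w) := by
  have hF := bilF hz hw h1 h2 h3 hA hB hC hE
  obtain ⟨l1, l2⟩ := _root_.abs_le.1 hz.abs_le
  obtain ⟨m1, m2⟩ := _root_.abs_le.1 hw.abs_le
  have s1 : 0 ≤ 1 / 2 - l := by linarith
  have s2 : 0 ≤ 1 / 2 - m := by linarith
  have s3 : 0 ≤ 1 / 2 + l := by linarith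
  have s4 : 0 ≤ 1 / 2 + m := by linarith
  have mem : ∀ f : ℕ, vP f ≠ 0 → (0 : ℝ) ≤ (f : ℝ) / 16384 ∧ (f : ℝ) / 16384 ≤ 1 := by
    intro f hf
    have h := (vP_spec hf).2.1
    have h' : (f : ℝ) ≤ 16383 := by exact_mod_cast h
    exact ⟨by positivity, by rw [div_le_one (by norm_num)]; linarith⟩
  have hj := jensen_plain (mul_nonneg s1 s2) (mul_nonneg s1 s4) (mul_nonneg s3 s2)
    (mul_nonneg s3 s4) (by ring) hF (mem fa ga) (mem fb gb) (mem fc gc) (mem fe ge)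
  refine le_trans ?_ hj
  have a1 := (vP_spec ga).2.2
  have a2 := (vP_spec gb).2.2
  have a3 := (vP_spec gc).2.2
  have a4 := (vP_spec ge).2.2
  gcongr

/-- Jensen, `K` corner values -/
lemma jenK {k σ : ℝ} {x0 x1 y0 y1 fa fb fc fe : ℕ} {z l w m : ℝ} (hz : Cell x0 x1 z l)
    (hw : Cell y0 y1 w m) (h1 : 0 ≤ FF k σ (hgt x0) (hgt y0)) (h2 : 0 ≤ FF k σ (hgt x0) (hgt y1))
    (h3 : 0 ≤ FF k σ (hgt x1) (hgt y0)) (hA : FF k σ (hgt x0) (hgt y0) ≤ (fa : ℝ) / 16384)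
    (hB : FF k σ (hgt x0) (hgt y1) ≤ (fb : ℝ) / 16384)
    (hC : FF k σ (hgt x1) (hgt y0) ≤ (fc : ℝ) / 16384)
    (hE : FF k σ (hgt x1) (hgt y1) ≤ (fe : ℝ) / 16384)
    (ga : vK fa ≠ 0) (gb : vK fb ≠ 0) (gc : vK fc ≠ 0) (ge : vK fe ≠ 0) :
    (1 / 2 - l) * (1 / 2 - m) * (((vK fa : ℝ) - 131072) / 16384) +
      (1 / 2 - l) * (1 / 2 + m) * (((vK fb : ℝ) - 131072) / 16384) +
      (1 / 2 + l) * (1 / 2 - m) * (((vK fc : ℝ) - 131072) / 16384) +
      (1 / 2 + l) * (1 / 2 + m) * (((vK fe : ℝ) - 131072) / 16384) ≤ arccos (FF k σ z w) := by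
  have hF := bilF hz hw h1 h2 h3 hA hB hC hE
  obtain ⟨l1, l2⟩ := _root_.abs_le.1 hz.abs_le
  obtain ⟨m1, m2⟩ := _root_.abs_le.1 hw.abs_le
  have s1 : 0 ≤ 1 / 2 - l := by linarith
  have s2 : 0 ≤ 1 / 2 - m := by linarith
  have s3 : 0 ≤ 1 / 2 + l := by linarith
  have s4 : 0 ≤ 1 / 2 + m := by linarith
  have mem : ∀ f : ℕ, vK f ≠ 0 → (0 : ℝ) ≤ (f : ℝ) / 16384 ∧
      ((vK f : ℝ) - 131072) / 16384 ≤ arccos ((f : ℝ) / 16384) ∧
      ((vK f : ℝ) - 131072) / 16384 ≤ 4 * (1 - (f : ℝ) / 16384) := by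
    intro f hf
    exact ⟨by positivity, (vK_spec hf).2⟩
  exact jensen_K (mul_nonneg s1 s2) (mul_nonneg s1 s4) (mul_nonneg s3 s2)
    (mul_nonneg s3 s4) (by ring) hF (mem fa ga) (mem fb gb) (mem fc gc) (mem fe ge)

/-! ### the corner functions -/

lemma c0_eq (x y : ℕ) : c0 x y = vT (fA x y) (gA x y) := rfl
lemma c1_eq (x y : ℕ) : c1 x y = vP (fA x y) := rfl
lemma c2_eq (x y : ℕ) : c2 x y = vK (fA x y) := rfl
lemma c3_eq (kb x y : ℕ) : c3 kb x y = 51471 + vT (fB kb x y) 0 := rfl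
lemma c4_eq (kb x y : ℕ) : c4 kb x y = vF (vP (fB kb x y)) := rfl
lemma c5_eq (kb x y : ℕ) : c5 kb x y = vF (vK (fB kb x y)) := rfl

lemma vP_ne {f : ℕ} (h : vP f ≠ 0) : f ≠ 0 := (vP_spec h).1
lemma vK_ne {f : ℕ} (h : vK f ≠ 0) : f ≠ 0 := (vK_spec h).1
lemma vF_ne {v : ℕ} (h : vF v ≠ 0) : v ≠ 0 := by
  rintro rfl; exact h rfl

lemma vF_of_ne {v : ℕ} (h : v ≠ 0) : vF v = 51471 + v := by rw [vF_eq, if_neg h]

lemma vF_lt {v : ℕ} (h : v < 196608) : vF v < 262144 := by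
  rw [vF_eq]; split_ifs <;> omega

/-- contact edges -/
lemma eE1_spec {ty var x0 x1 y0 y1 : ℕ} {z l w m θ : ℝ} (hz : Cell x0 x1 z l)
    (hw : Cell y0 y1 w m) (hk : ¬ (isS x1 = true ∧ isS y1 = true))
    (hθ : arccos (FF (1 / 2) (-1) z w) ≤ θ) : EOK (eE1 ty var x0 x1 y0 y1) θ l m := by
  have nn : ∀ x ∈ ({x0, x1} : Set ℕ), ∀ y ∈ ({y0, y1} : Set ℕ), kd x ∧ kd y ∧
      ¬ (isS x = true ∧ isS y = true) := by
    have key : ∀ u : ℕ, isC u = true → isS u = true → False := by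
      intro u h1 h2
      have a := isC_iff.1 h1
      have b := isS_iff.1 h2
      omega
    intro x hx y hy
    simp only [Set.mem_insert_iff, Set.mem_singleton_iff] at hx hy
    have kx : kd x := by rcases hx with rfl | rfl; exacts [hz.kd0, hz.kd1]
    have ky : kd y := by rcases hy with rfl | rfl; exacts [hw.kd0, hw.kd1]
    refine ⟨kx, ky, fun h => hk ⟨?_, ?_⟩⟩
    · rcases hz.kind with g | g
      · exfalso; rcases hx with rfl | rfl
        · exact key _ g.1 h.1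
        · exact key _ g.2 h.1
      · exact g.2
    · rcases hw.kind with g | g
      · exfalso; rcases hy with rfl | rfl
        · exact key _ g.1 h.2
        · exact key _ g.2 h.2
      · exact g.2
  obtain ⟨a1, a2, a3⟩ := nn x0 (by simp) y0 (by simp)
  obtain ⟨b1, b2, b3⟩ := nn x0 (by simp) y1 (by simp)
  obtain ⟨c1', c2', c3'⟩ := nn x1 (by simp) y0 (by simp)
  obtain ⟨d1, d2, d3⟩ := nn x1 (by simp) y1 (by simp)
  have A := fA_spec a1 a2 a3
  have B := fA_spec b1 b2 b3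
  have C := fA_spec c1' c2' c3'
  have E := fA_spec d1 d2 d3
  unfold eE1
  rw [cb_ite, cb_ite]
  split_ifs with h0 h1
  · -- constant
    rw [mn_eq, mn_eq, mn_eq]
    apply EOK_eC
    · have h := vT_lt (fA x0 y0) (gA x0 y0)
      have e : min (min (c0 x0 y0) (c0 x0 y1)) (min (c0 x1 y0) (c0 x1 y1)) ≤ c0 x0 y0 :=
        (min_le_left _ _).trans (min_le_left _ _)
      rw [c0_eq x0 y0] at e
      have h3 : (2 : ℕ) ^ 19 = 524288 := by norm_num
      rw [h3]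
      exact lt_of_le_of_lt e (lt_trans h (by norm_num))
    · refine le_trans ?_ hθ
      have key : ∀ {x y : ℕ}, Fc x y ≤ (fA x y : ℝ) / 16384 →
          (fA x y = 0 → Fc x y ≤ -((gA x y : ℝ) / 16384)) → ∀ {v : ℕ}, v ≤ c0 x y →
          (v : ℝ) / 16384 ≤ arccos (FF (1 / 2) (-1) (hgt x) (hgt y)) := by
        intro x y g1 g2 v hv
        have h := vT_spec g1 g2
        rw [← c0_eq] at h
        refine le_trans ?_ h
        have : (v : ℝ) ≤ (c0 x y : ℝ) := by exact_mod_cast hv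
        gcongr
      have k0 : (0 : ℝ) ≤ 1 / 2 := by norm_num
      refine quasiA k0 hz hw (key A.1 A.2.2 ?_) (key B.1 B.2.2 ?_) (key C.1 C.2.2 ?_)
        (key E.1 E.2.2 ?_)
      · exact (min_le_left _ _).trans (min_le_left _ _)
      · exact (min_le_left _ _).trans (min_le_right _ _)
      · exact (min_le_right _ _).trans (min_le_left _ _)
      · exact (min_le_right _ _).trans (min_le_right _ _)
  · -- plain
    have lt : ∀ x y, c1 x y < 262144 := fun x y => by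
      rw [c1_eq]; exact lt_trans (vP_lt _) (by norm_num)
    refine eA_spec (lt _ _) (lt _ _) (lt _ _) (lt _ _) hz.abs_le hw.abs_le ?_
    intro ga gb gc ge
    rw [c1_eq] at ga gb gc ge
    have := jenP hz hw (A.2.1 (vP_ne ga)) (B.2.1 (vP_ne gb)) (C.2.1 (vP_ne gc)) A.1 B.1 C.1 E.1
      ga gb gc ge
    simp only [Nat.cast_zero, zero_div, sub_zero]
    exact this.trans hθ
  · -- K
    have lt : ∀ x y, c2 x y < 262144 := fun x y => by
      rw [c2_eq]; exact lt_trans (vK_lt _) (by norm_num)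
    refine eA_spec (lt _ _) (lt _ _) (lt _ _) (lt _ _) hz.abs_le hw.abs_le ?_
    intro ga gb gc ge
    rw [c2_eq] at ga gb gc ge
    have := jenK hz hw (A.2.1 (vK_ne ga)) (B.2.1 (vK_ne gb)) (C.2.1 (vK_ne gc)) A.1 B.1 C.1 E.1
      ga gb gc ge
    have e : ((262144 : ℕ) : ℝ) / 2 = 131072 := by norm_num
    rw [e]
    exact this.trans hθ

/-- flagged edges -/
lemma eE2_spec {kb ty var x0 x1 y0 y1 : ℕ} {z l w m θ z0 : ℝ} (hz : Cell x0 x1 z l)
    (hw : Cell y0 y1 w m) (kx0 : isC x0 = true) (kx1 : isC x1 = true) (ky0 : isC y0 = true)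
    (ky1 : isC y1 = true) (hkb : -z0 ≤ (kb : ℝ) / 16777216)
    (hθ : π + arccos (FF (-z0) 1 z w) ≤ θ) : EOK (eE2 kb ty var x0 x1 y0 y1) θ l m := by
  have A := fB_spec (kb := kb) kx0 ky0
  have B := fB_spec (kb := kb) kx0 ky1
  have C := fB_spec (kb := kb) kx1 ky0
  have E := fB_spec (kb := kb) kx1 ky1
  have hpi := Real.pi_gt_d6
  have hmono : FF (-z0) 1 z w ≤ FF ((kb : ℝ) / 16777216) 1 z w := by
    unfold FF
    have : 0 ≤ √(1 - z ^ 2) * √(1 - w ^ 2) := by positivity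
    gcongr
  have hθ2 : π + arccos (FF ((kb : ℝ) / 16777216) 1 z w) ≤ θ := by
    have := arccos_le_arccos hmono
    linarith
  unfold eE2
  rw [cb_ite, cb_ite, cb_ite]
  split_ifs with h0 h1 h2
  · rw [mn_eq, mn_eq, mn_eq]
    apply EOK_eC
    · have h := vT_lt (fB kb x0 y0) 0
      have e : min (min (c3 kb x0 y0) (c3 kb x0 y1)) (min (c3 kb x1 y0) (c3 kb x1 y1)) ≤
        c3 kb x0 y0 := (min_le_left _ _).trans (min_le_left _ _)
      rw [c3_eq kb x0 y0] at e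
      have h3 : (2 : ℕ) ^ 19 = 524288 := by norm_num
      rw [h3]
      exact lt_of_le_of_lt e (by omega)
    · have key : ∀ {x y : ℕ}, Fb kb x y ≤ (fB kb x y : ℝ) / 16384 → ∀ {v : ℕ}, v ≤ c3 kb x y →
          (v : ℝ) / 16384 - π ≤ arccos (FF ((kb : ℝ) / 16777216) 1 (hgt x) (hgt y)) := by
        intro x y g1 v hv
        have h := vT_spec (g := 0) g1 (fun h => by rw [h] at g1; simpa using g1)
        have hv' : (v : ℝ) ≤ 51471 + (vT (fB kb x y) 0 : ℝ) := by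
          rw [c3_eq] at hv; exact_mod_cast hv
        rw [div_le_iff₀ (by norm_num)] at h
        rw [sub_le_iff_le_add, div_le_iff₀ (by norm_num)]
        show (v : ℝ) ≤ (arccos (Fb kb x y) + π) * 16384
        nlinarith
      have k0 : (0 : ℝ) ≤ (kb : ℝ) / 16777216 := by positivity
      have := quasiA k0 hz hw (key A.1 ((min_le_left _ _).trans (min_le_left _ _)))
        (key B.1 ((min_le_left _ _).trans (min_le_right _ _)))
        (key C.1 ((min_le_right _ _).trans (min_le_left _ _)))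
        (key E.1 ((min_le_right _ _).trans (min_le_right _ _)))
      linarith
  · -- plain
    have lt : ∀ x y, c4 kb x y < 262144 := fun x y => by
      rw [c4_eq]; exact vF_lt (lt_trans (vP_lt _) (by norm_num))
    refine eA_spec (lt _ _) (lt _ _) (lt _ _) (lt _ _) hz.abs_le hw.abs_le ?_
    intro ga gb gc ge
    rw [c4_eq] at ga gb gc ge
    have ga' := vF_ne ga
    have gb' := vF_ne gb
    have gc' := vF_ne gc
    have ge' := vF_ne ge
    have := jenP hz hw (A.2 (vP_ne ga')) (B.2 (vP_ne gb')) (C.2 (vP_ne gc')) A.1 B.1 C.1 E.1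
      ga' gb' gc' ge'
    rw [c4_eq, c4_eq, c4_eq, c4_eq, vF_of_ne ga', vF_of_ne gb', vF_of_ne gc', vF_of_ne ge']
    push_cast
    nlinarith [this]
  · -- K
    have lt : ∀ x y, c5 kb x y < 262144 := fun x y => by
      rw [c5_eq]; exact vF_lt (vK_lt _)
    refine eA_spec (lt _ _) (lt _ _) (lt _ _) (lt _ _) hz.abs_le hw.abs_le ?_
    intro ga gb gc ge
    rw [c5_eq] at ga gb gc ge
    have ga' := vF_ne ga
    have gb' := vF_ne gb
    have gc' := vF_ne gc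
    have ge' := vF_ne ge
    have := jenK hz hw (A.2 (vK_ne ga')) (B.2 (vK_ne gb')) (C.2 (vK_ne gc')) A.1 B.1 C.1 E.1
      ga' gb' gc' ge'
    rw [c5_eq, c5_eq, c5_eq, c5_eq, vF_of_ne ga', vF_of_ne gb', vF_of_ne gc', vF_of_ne ge']
    push_cast
    nlinarith [this]
  · exact EOK_zero _ _ _

/-- **soundness of the edge function**; the hypothesis on the cells is only needed off the pole -/
theorem eE_spec {xs ty var x0 x1 y0 y1 : ℕ} {z l w m θ z0 : ℝ}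
    (kz : (isC x0 = true ∧ isC x1 = true) ∨ (isS0 x0 = true ∧ isS0 x1 = true))
    (kw : (isC y0 = true ∧ isC y1 = true) ∨ (isS0 y0 = true ∧ isS0 y1 = true))
    (hz : x0 ≠ 32768 → Cell x0 x1 z l) (hw : y0 ≠ 32768 → Cell y0 y1 w m)
    (hc : x0 ≠ 32768 → y0 ≠ 32768 → ¬ (isS x1 = true ∧ isS y1 = true) →
      arccos (FF (1 / 2) (-1) z w) ≤ θ)
    (hf : 3 ≤ ty → ty ≤ 5 → isC x1 = true → isC y1 = true →
      isS0 xs = true ∧ hgt xs ≤ z0 ∧ π + arccos (FF (-z0) 1 z w) ≤ θ)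
    (hP : ty = 6 → π ≤ θ) : EOK (eE xs ty var x0 x1 y0 y1) θ l m := by
  have hS0 : ∀ u, isS0 u = true → 32768 ≤ u := fun u hu => by
    have := isS0_iff.1 hu; omega
  have hS : ∀ u, isS u = true → 32768 ≤ u := fun u hu => by
    have := isS_iff.1 hu; omega
  have hC : ∀ u, isC u = true → u ≠ 32768 := fun u hu => by
    have := isC_iff.1 hu; omega
  unfold eE
  rw [cb_ite, cb_ite, cb_ite, cb_ite, cb_ite]
  split_ifs with h0 h1 h4 h2 h3
  · exact EOK_zero _ _ _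
  · exact EOK_zero _ _ _
  · have n1 : x0 ≠ 32768 := by
      rintro rfl
      exact h4 (by simp)
    have n2 : y0 ≠ 32768 := by
      rintro rfl
      exact h4 (by simp)
    have n3 : ¬ (isS x1 = true ∧ isS y1 = true) := by
      intro h
      apply h1
      rw [Bool.and_eq_true, Nat.ble_eq, Nat.ble_eq]
      exact ⟨hS _ h.1, hS _ h.2⟩
    exact eE1_spec (hz n1) (hw n2) n3 (hc n1 n2 n3)
  · rw [Nat.beq_eq] at h2
    apply EOK_eC (by norm_num)
    have := hP h2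
    have hpi := Real.pi_gt_d6
    push_cast
    linarith
  · rw [fz_eq]
    rw [Bool.and_eq_true, Nat.ble_eq, Nat.ble_eq] at h3
    have kx : isC x0 = true ∧ isC x1 = true := by
      rcases kz with g | g
      · exact g
      · have := hS0 _ g.2; omega
    have ky : isC y0 = true ∧ isC y1 = true := by
      rcases kw with g | g
      · exact g
      · have := hS0 _ g.2; omega
    by_cases ht : 3 ≤ ty ∧ ty ≤ 5
    · obtain ⟨f1, f2, f3⟩ := hf ht.1 ht.2 kx.2 ky.2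
      obtain ⟨k, rfl, k2⟩ : ∃ k, xs = 32768 + k ∧ k ≤ 1023 := by
        have := isS0_iff.1 f1
        exact ⟨xs - 32768, by omega, by omega⟩
      have e : Nat.sub (32768 + k) 32768 = k := by rw [Nat.sub_eq]; exact Nat.add_sub_cancel_left _ _
      rw [e]
      refine eE2_spec (hz (hC _ kx.1)) (hw (hC _ ky.1)) kx.1 kx.2 ky.1 ky.2 ?_ f3
      have := kbf_spec k2
      linarith
    · have e : eE2 (kbf (Nat.sub xs 32768)) ty var x0 x1 y0 y1 = 0 := by
        unfold eE2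
        rw [cb_ite, cb_ite, cb_ite]
        simp only [Nat.beq_eq]
        have n3 : ¬ ty = 3 := by omega
        have n4 : ¬ ty = 4 := by omega
        have n5 : ¬ ty = 5 := by omega
        rw [if_neg n3, if_neg n4, if_neg n5]
      rw [e]
      exact EOK_zero _ _ _
  · exact EOK_zero _ _ _

end Pool.Agent.Helper54.KA
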