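import Pool.Agent.Helper54.KA.Run

set_option autoImplicit false

/-! # The fast runner (computation only)

A box is one number `X`: hash value (32 bits), fields `1 + k` (32 bits each) for the cells of the
nodes `k = 0, …, 10` (`lo + 65536 hi`), flags from bit 384 on: bit `384 + i + 16 j` for `i → j`,
bit `640 + i + 16 j` for edges of length at least `π`. Tokens as for `run`, but operation 2 is not
used, and another kind of leaf has only its parameter. -/

namespace Pool.Agent.Helper54.KA

/-- type of the continuation: box, stack, accumulator -/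
abbrev CtX : Type := Nat → List Nat → Nat → Bool

/-- mask of the cells of two nodes -/
noncomputable def mk2 (q : Nat) : Nat :=
  Nat.lor (Nat.shiftLeft 4294967295 (Nat.mul 32 (Nat.succ (Nat.mod q 16))))
    (Nat.shiftLeft 4294967295 (Nat.mul 32 (Nat.succ (Nat.mod (Nat.div q 16) 16))))

/-- mask of the part of a box used by the edge `q` -/
noncomputable def mk (q : Nat) : Nat :=
  cb (Nat.ble q 3071) (mk2 q)
    (cb (Nat.ble q 6143)
      (Nat.lor (mk2 q) (Nat.lor 281470681743360 (Nat.shiftLeft 1 (Nat.add 384 (Nat.mod q 256)))))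
      (Nat.shiftLeft 1 (Nat.add 640 (Nat.mod q 256))))

/-- bit `n` -/
noncomputable def bt (K n : Nat) : Bool := Nat.beq (Nat.mod (Nat.shiftRight K n) 2) 1

/-- contribution of the edge `q`; `K` is the masked box -/
noncomputable def eK (q K : Nat) : Nat :=
  cb (Nat.ble q 3071)
    (eW 0 q (fd K (Nat.succ (Nat.mod q 16))) (fd K (Nat.succ (Nat.mod (Nat.div q 16) 16))))
    (cb (Nat.ble q 6143)
      (cb (bt K (Nat.add 384 (Nat.mod q 256)))
        (eW (Nat.mod (Nat.shiftRight K 32) 65536) q (fd K (Nat.succ (Nat.mod q 16)))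
          (fd K (Nat.succ (Nat.mod (Nat.div q 16) 16)))) 0)
      (cb (and (Nat.ble q 7167) (bt K (Nat.add 640 (Nat.mod q 256)))) (eW 0 q 0 0) 0))

/-- mask of an edge token -/
noncomputable def mT (t : Nat) : Nat := fz (Nat.mod (Nat.div t 32) 8192) mk

/-- contribution of an edge token; `K` is the masked box -/
noncomputable def eT (t K : Nat) : Nat :=
  Nat.mul (Nat.mod t 32) (fz (Nat.mod (Nat.div t 32) 8192) fun q => eK q K)

/-- contribution of an edge token in a box -/
noncomputable def wt (t X : Nat) : Nat :=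
  Nat.rec (motive := fun _ => Nat) 0 (fun K _ => eT t K) (Nat.succ (Nat.land X (mT t)))

/-- sum of the excesses over `2^31` of 11 fields -/
noncomputable def pS (X : Nat) : Nat :=
  Nat.mod (Nat.land X (Nat.mul (Nat.shiftRight (Nat.land X O31) 31) 2147483647)) 4294967295

/-- sum of the distances of 11 fields from `2^31` -/
noncomputable def aS (X : Nat) : Nat :=
  Bool.rec (motive := fun _ => Nat) (Nat.add (pS X) (pS (Nat.sub (Nat.mul O31 2) X))) 0
    (Nat.beq X O31)

/-- final check of a leaf -/
noncomputable def finX (Q : Nat) : Bool :=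
  fz Q fun Q =>
  cb (and (Nat.ble (Nat.shiftRight Q 1152) 1023)
      (Nat.beq (Nat.mul 2 (Nat.mod (Nat.shiftRight Q 736) (Nat.pow 2 352))) (fD Q)))
    (fz (Nat.shiftRight (Nat.sub (Nat.add (Nat.mod Q (Nat.pow 2 384)) (Nat.shiftLeft O31 32))
          (Nat.mul 2251799813685248 (fD Q))) 32) fun X =>
        Nat.ble (Nat.succ (Nat.add (Nat.mul 411776 (fd Q 35)) (aS X))) (Nat.mul 2 (fd Q 34)))
      false

/-- next box of the stack -/
noncomputable def popX (ih : CtX) (st : List Nat) : Bool :=
  List.rec (motive := fun _ => Bool) true (fun A s _ => ih A s 0) st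

/-- edge token -/
noncomputable def xE (t : Nat) (ih : CtX) (X : Nat) (st : List Nat) (Q : Nat) : Bool :=
  ih X st (Nat.add Q (wt t X))

/-- last edge token of a leaf -/
noncomputable def xF (t : Nat) (ih : CtX) (X : Nat) (st : List Nat) (Q : Nat) : Bool :=
  Bool.rec (motive := fun _ => Bool) false (popX ih st) (finX (Nat.add Q (wt t X)))

/-- first field of a structural token (4 bits) -/
noncomputable def tk (t : Nat) : Nat := Nat.mod (Nat.div t 128) 16

/-- shift for the node of a split token -/
noncomputable def sh (a t : Nat) : Nat := Nat.add (Nat.mul 32 (tk t)) a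

/-- cut of a split token -/
noncomputable def cu (ct : Nat → Nat → Nat) (t : Nat) : Nat :=
  fz (tk t) fun k => fz (Nat.mod (Nat.div t 2048) 512) fun q => Nat.add (ct k q) 0

/-- left half of a split -/
noncomputable def ctL (ct : Nat → Nat → Nat) (X t : Nat) : Nat :=
  tg (Nat.sub (Nat.shiftRight X 32) (Nat.shiftLeft (Nat.sub (Nat.mod (Nat.shiftRight X
    (sh 48 t)) 65536) (cu ct t)) (sh 16 t)))

/-- right half of a split -/
noncomputable def ctR (ct : Nat → Nat → Nat) (X t : Nat) : Nat :=
  tg (Nat.add (Nat.shiftRight X 32) (Nat.shiftLeft (Nat.sub (cu ct t) (Nat.mod (Nat.shiftRight X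
    (sh 32 t)) 65536)) (sh 0 t)))

/-- the node of a split token is admissible -/
noncomputable def kOK (t : Nat) : Bool := Nat.ble (tk t) 10

/-- continue with two boxes -/
noncomputable def two (ih : CtX) (st : List Nat) (A B : Nat) : Bool :=
  Nat.rec (motive := fun _ => Bool) false (fun A _ =>
    Nat.rec (motive := fun _ => Bool) false (fun B _ => ih A (List.cons B st) 0) (Nat.succ B))
    (Nat.succ A)

/-- split -/
noncomputable def xS (ct : Nat → Nat → Nat) (t : Nat) (ih : CtX) (X : Nat) (st : List Nat)
    (_Q : Nat) : Bool :=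
  Bool.rec (motive := fun _ => Bool) false (two ih st (ctL ct X t) (ctR ct X t)) (kOK t)

/-- second field of a sign token -/
noncomputable def tj (t : Nat) : Nat := Nat.mod (Nat.div t 2048) 16

/-- the nodes of a sign token are admissible -/
noncomputable def gOK (t : Nat) : Bool :=
  and (and (and (Nat.ble 1 (tk t)) (Nat.ble 1 (tj t))) (and (Nat.ble (tk t) 10) (Nat.ble (tj t) 10)))
    (cb (Nat.beq (tk t) (tj t)) false true)

/-- flags of a sign token -/
noncomputable def gA1 (t : Nat) : Nat :=
  Nat.shiftLeft 1 (Nat.add 352 (Nat.add (tk t) (Nat.mul 16 (tj t))))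
noncomputable def gA2 (t : Nat) : Nat :=
  Nat.shiftLeft 1 (Nat.add 352 (Nat.add (tj t) (Nat.mul 16 (tk t))))

/-- sign branch -/
noncomputable def xG (t : Nat) (ih : CtX) (X : Nat) (st : List Nat) (_Q : Nat) : Bool :=
  Bool.rec (motive := fun _ => Bool) false
    (two ih st (tg (Nat.lor (Nat.shiftRight X 32) (gA1 t))) (tg (Nat.lor (Nat.shiftRight X 32) (gA2 t))))
    (gOK t)

/-- other kind of leaf -/
noncomputable def xD (dl : Nat → Nat → Bool) (t : Nat) (ih : CtX) (X : Nat) (st : List Nat)
    (_Q : Nat) : Bool :=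
  Bool.rec (motive := fun _ => Bool) false (popX ih st)
    (and (Nat.beq (Nat.mod (Nat.div t 32) 4) 3) (fz (Nat.div t 128) fun r => dl X r))

/-- structural token -/
noncomputable def xT (ct : Nat → Nat → Nat) (dl : Nat → Nat → Bool) (t : Nat) (ih : CtX) : CtX :=
  Bool.rec (motive := fun _ => CtX)
    (Bool.rec (motive := fun _ => CtX) (xD dl t ih) (xG t ih)
      (Nat.beq (Nat.mod (Nat.div t 32) 4) 1))
    (xS ct t ih) (Nat.beq (Nat.mod (Nat.div t 32) 4) 0)

/-- one token -/
noncomputable def stp (ct : Nat → Nat → Nat) (dl : Nat → Nat → Bool) (t : Nat) (ih : CtX) : CtX :=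
  Bool.rec (motive := fun _ => CtX)
    (Bool.rec (motive := fun _ => CtX) (xF t ih) (xE t ih) (Nat.ble t 524287))
    (xT ct dl t ih) (Nat.beq (Nat.mod t 32) 0)

/-- the runner -/
noncomputable def runX (ct : Nat → Nat → Nat) (dl : Nat → Nat → Bool) (ts : List Nat) : CtX :=
  List.rec (motive := fun _ => CtX) (fun _ _ _ => false)
    (fun t _ ih => Nat.rec (motive := fun _ => CtX) (fun _ _ _ => false) (fun t _ => stp ct dl t ih)
      (Nat.succ t)) ts

/-- run over a list of boxes -/
noncomputable def runXB (ct : Nat → Nat → Nat) (dl : Nat → Nat → Bool) (ts : List Nat)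
    (B : List Nat) : Bool :=
  List.rec (motive := fun _ => Bool) true (fun X B' _ => runX ct dl ts X B' 0) B

/-- no other kind of leaf -/
def dX0 (_ _ : Nat) : Bool := false

/-- entry `b` of a list of numbers, `0` if there is none -/
noncomputable def nthN (T : List Nat) : Nat → Nat :=
  List.rec (motive := fun _ => Nat → Nat) (fun _ => 0)
    (fun p _ ih r => Nat.rec (motive := fun _ => Nat) p (fun n _ => ih n) r) T

/-- payload `i` of a table: 16 payloads of `S` bits in every numeral -/
noncomputable def pay (T : List Nat) (S i : Nat) : Nat :=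
  fz (Nat.div i 16) fun b => fz (nthN T b) fun N =>
    Nat.mod (Nat.shiftRight N (Nat.mul S (Nat.mod i 16))) (Nat.pow 2 S)

/-- leaf function with a table of payloads; `r = kind + 16 index` -/
noncomputable def dlP (d : Nat → Nat → Nat → Nat → Bool) (T : List Nat) (S X r : Nat) : Bool :=
  fz (pay T S (Nat.div r 16)) fun D => fz (Nat.mod r 16) fun k => d X 0 D k

/-- leaf of an assembly: the box is entry `r` of the list -/
noncomputable def dlX (B : List Nat) (X r : Nat) : Bool := Nat.beq (nthN B r) X

end Pool.Agent.Helper54.KA
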