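import Pool.Agent.Helper54.KA.Leaf
import Pool.Agent.Helper54.KA.Fast

set_option autoImplicit false

/-! # The fast runner: final check, soundness -/

namespace Pool.Agent.Helper54.KA

open Real Finset

lemma land_eq (a b : ℕ) : Nat.land a b = a &&& b := rfl

lemma and_add_mul {m a c : ℕ} (x y : ℕ) (ha : a < 2 ^ m) (hc : c < 2 ^ m) :
    (a + x * 2 ^ m) &&& (c + y * 2 ^ m) = (a &&& c) + (x &&& y) * 2 ^ m := by
  apply Nat.eq_of_testBit_eq
  intro i
  have hac : a &&& c < 2 ^ m := Nat.and_lt_two_pow a hc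
  rw [Nat.testBit_and, add_comm a, add_comm c, add_comm (a &&& c), mul_comm x, mul_comm y,
    mul_comm (x &&& y), Nat.testBit_two_pow_mul_add _ ha, Nat.testBit_two_pow_mul_add _ hc,
    Nat.testBit_two_pow_mul_add _ hac]
  split_ifs
  · rw [Nat.testBit_and]
  · rw [Nat.testBit_and]

lemma land_pk {u v : ℕ → ℕ} {n : ℕ} (hu : ∀ k < n, u k < 2 ^ 32) (hv : ∀ k < n, v k < 2 ^ 32) :
    pk u n &&& pk v n = pk (fun k => u k &&& v k) n := by
  induction n with
  | zero => simp [pk]
  | succ n ih =>
    rw [pk_succ, pk_succ, pk_succ, and_add_mul _ _ (pk_lt fun k hk => hu k (by omega))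
      (pk_lt fun k hk => hv k (by omega)),
      ih (fun k hk => hu k (by omega)) (fun k hk => hv k (by omega))]

lemma pk_modEq (v : ℕ → ℕ) (n : ℕ) : pk v n ≡ ∑ k ∈ range n, v k [MOD 4294967295] := by
  induction n with
  | zero => simp [pk, Nat.ModEq]
  | succ n ih =>
    rw [pk_succ, sum_range_succ]
    refine ih.add ?_
    have h1 : (2 ^ 32 : ℕ) ≡ 1 [MOD 4294967295] := by decide
    have h2 := (h1.pow n).mul_left (v n)
    rw [← pow_mul, one_pow, mul_one] at h2
    exact h2

/-- excess over `2^31` by bits -/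
lemma exc_bits {x : ℕ} (h : x < 2 ^ 32) :
    x &&& ((x &&& 2147483648) / 2 ^ 31 * 2147483647) = x - 2147483648 := by
  have T32 : (2 : ℕ) ^ 32 = 4294967296 := by norm_num
  have T31 : (2 : ℕ) ^ 31 = 2147483648 := by norm_num
  have e : x &&& 2147483648 = x / 2147483648 * 2147483648 := by
    have h1 := and_add_mul (m := 31) (a := x % 2147483648) (c := 0) (x / 2147483648) 1
      (by rw [T31]; exact Nat.mod_lt _ (by norm_num)) (by norm_num)
    rw [T31] at h1
    have e2 : x % 2147483648 + x / 2147483648 * 2147483648 = x := by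
      have := Nat.mod_add_div x 2147483648
      omega
    rw [e2] at h1
    have e3 : 0 + 1 * 2147483648 = 2147483648 := by norm_num
    rw [e3] at h1
    rw [h1, Nat.and_zero, zero_add]
    have h3 : x / 2147483648 < 2 := by omega
    have h4 : (x / 2147483648) &&& 1 = x / 2147483648 := by
      rw [Nat.and_one_is_mod]; omega
    rw [h4]
  rw [e, T31, Nat.mul_div_cancel _ (by norm_num)]
  rcases Nat.lt_or_ge x 2147483648 with hx | hx
  · have h3 : x / 2147483648 = 0 := by omega
    rw [h3, zero_mul, Nat.and_zero]; omega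
  · have h3 : x / 2147483648 = 1 := by omega
    rw [h3, one_mul, show (2147483647 : ℕ) = 2 ^ 31 - 1 by norm_num,
      Nat.and_two_pow_sub_one_eq_mod, T31]
    omega

lemma pS_pk {u : ℕ → ℕ} (hu : ∀ k < 11, u k < 2 ^ 32)
    (hs : ∑ k ∈ range 11, (u k - 2147483648) < 4294967295) :
    pS (pk u 11) = ∑ k ∈ range 11, (u k - 2147483648) := by
  have T32 : (2 : ℕ) ^ 32 = 4294967296 := by norm_num
  have T31 : (2 : ℕ) ^ 31 = 2147483648 := by norm_num
  unfold pS
  rewrite [md_eq, land_eq, land_eq, Nat.mul_eq, sr_eq, O31_eq,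
    land_pk hu (fun _ _ => by rw [T32]; norm_num)]
  have hb : ∀ k < 11, (u k &&& 2147483648) = (u k &&& 2147483648) / 2 ^ 31 * 2 ^ 31 := by
    intro k hk
    have h1 : u k < 2 ^ (31 + 1) := hu k hk
    apply Nat.eq_of_testBit_eq
    intro i
    rw [Nat.testBit_mul_two_pow, Nat.testBit_div_two_pow, Nat.testBit_and, ← T31,
      Nat.testBit_two_pow]
    by_cases hi : 31 ≤ i
    · rw [Nat.sub_add_cancel hi, Nat.testBit_and, Nat.testBit_two_pow]
      simp [hi]
    · have : ¬ 31 = i := by omega
      simp [hi, this]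
  have e1 : pk (fun k => u k &&& 2147483648) 11 =
      2 ^ 31 * pk (fun k => (u k &&& 2147483648) / 2 ^ 31) 11 := by
    rw [← pk_mul]
    apply pk_congr
    intro k hk
    rw [mul_comm]; exact hb k hk
  rw [e1, Nat.mul_div_cancel_left _ (by positivity), mul_comm _ 2147483647, ← pk_mul, land_pk hu]
  · have e2 : pk (fun k => u k &&& 2147483647 * ((u k &&& 2147483648) / 2 ^ 31)) 11 =
        pk (fun k => u k - 2147483648) 11 := by
      apply pk_congr
      intro k hk
      rw [mul_comm 2147483647]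
      exact exc_bits (hu k hk)
    rw [e2]
    have h1 := pk_modEq (fun k => u k - 2147483648) 11
    unfold Nat.ModEq at h1
    rw [h1]
    exact Nat.mod_eq_of_lt hs
  · intro k hk
    have h1 : (u k &&& 2147483648) / 2 ^ 31 ≤ 1 := by
      have h2 : u k &&& 2147483648 ≤ 2147483648 := Nat.and_le_right
      rw [T31]; omega
    rw [T32]; omega

lemma aS_eq (X : ℕ) : aS X = cb (Nat.beq X O31) 0
    (Nat.add (pS X) (pS (Nat.sub (Nat.mul O31 2) X))) := rfl

/-- sum of the distances -/
lemma aS_pk {u : ℕ → ℕ} (h0 : ∀ k < 11, 1 ≤ u k) (hu : ∀ k < 11, u k < 2 ^ 32)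
    (hs : ∑ k ∈ range 11, |(u k : ℝ) - 2147483648| < 4294967295) :
    ((aS (pk u 11) : ℕ) : ℝ) = ∑ k ∈ range 11, |(u k : ℝ) - 2147483648| := by
  have T32 : (2 : ℕ) ^ 32 = 4294967296 := by norm_num
  rewrite [aS_eq, cb_ite]
  split_ifs with h
  · rw [Nat.beq_eq, O31_eq] at h
    have h2 := pk_inj hu (fun _ _ => by norm_num) h
    rw [Nat.cast_zero, sum_eq_zero]
    intro k hk
    rw [h2 k (mem_range.1 hk)]
    norm_num
  · have hp : ∀ k, ((u k - 2147483648 : ℕ) : ℝ) ≤ |(u k : ℝ) - 2147483648| := by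
      intro k
      rcases Nat.le_total 2147483648 (u k) with h1 | h1
      · rw [Nat.cast_sub h1]; push_cast; exact le_abs_self _
      · rw [Nat.sub_eq_zero_of_le h1]; push_cast; exact abs_nonneg _
    have hn : ∀ k, ((2147483648 - u k : ℕ) : ℝ) ≤ |(u k : ℝ) - 2147483648| := by
      intro k
      rcases Nat.le_total (u k) 2147483648 with h1 | h1
      · rw [Nat.cast_sub h1]; push_cast; rw [abs_sub_comm]; exact le_abs_self _
      · rw [Nat.sub_eq_zero_of_le h1]; push_cast; exact abs_nonneg _
    have s1 : ∑ k ∈ range 11, (u k - 2147483648) < 4294967295 := by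
      have : ((∑ k ∈ range 11, (u k - 2147483648) : ℕ) : ℝ) < 4294967295 := by
        push_cast [Nat.cast_sum]
        exact lt_of_le_of_lt (sum_le_sum fun k _ => hp k) hs
      exact_mod_cast this
    have e2 : O31 * 2 - pk u 11 = pk (fun k => 4294967296 - u k) 11 := by
      have h3 : O31 * 2 = pk (fun k => 4294967296 - u k) 11 + pk u 11 := by
        rw [← pk_add, O31_eq, mul_comm, ← pk_mul]
        apply pk_congr
        intro k hk
        have := hu k hk
        rw [T32] at this
        omega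
      rw [h3, Nat.add_sub_cancel]
    have s2 : ∑ k ∈ range 11, ((4294967296 - u k) - 2147483648) < 4294967295 := by
      have e3 : ∀ k, (4294967296 - u k) - 2147483648 = 2147483648 - u k := by intro k; omega
      simp only [e3]
      have : ((∑ k ∈ range 11, (2147483648 - u k) : ℕ) : ℝ) < 4294967295 := by
        push_cast [Nat.cast_sum]
        exact lt_of_le_of_lt (sum_le_sum fun k _ => hn k) hs
      exact_mod_cast this
    rewrite [Nat.add_eq, Nat.sub_eq, Nat.mul_eq, e2, pS_pk hu s1, pS_pk (u := fun k => 4294967296 - u k) (fun k hk => by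
      have := h0 k hk; rw [T32]; omega) s2, ← sum_add_distrib, Nat.cast_sum]
    apply sum_congr rfl
    intro k hk
    have e3 : (4294967296 - u k) - 2147483648 = 2147483648 - u k := by omega
    rw [e3]
    rcases Nat.le_total 2147483648 (u k) with h1 | h1
    · have h1' : (2147483648 : ℝ) ≤ u k := by exact_mod_cast h1
      rw [Nat.sub_eq_zero_of_le h1, add_zero, Nat.cast_sub h1, abs_of_nonneg (by linarith)]
      push_cast; ring
    · have h1' : (u k : ℝ) ≤ 2147483648 := by exact_mod_cast h1
      rw [Nat.sub_eq_zero_of_le h1, zero_add, Nat.cast_sub h1, abs_of_nonpos (by linarith)]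
      push_cast; ring

end Pool.Agent.Helper54.KA
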