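import Pool.Agent.Helper54.KA.FastA

set_option autoImplicit false

/-! # The fast runner: accumulator and final check -/

namespace Pool.Agent.Helper54.KA

open Real Finset

/-- invariant of the accumulator -/
def InvX (φ l : ℕ → ℝ) (Q : ℕ) : Prop := ∃ f : ℕ → ℕ, Q = pk f 37 ∧ Bd f ∧ 0 ≤ Lf φ l f ∧
  ∑ k ∈ range 11, f (k + 12) = 2 * f 36

lemma InvX_zero (φ l : ℕ → ℝ) : InvX φ l 0 := by
  refine ⟨fun _ => 0, by simp [pk], ⟨by simp, by simp, by simp, by simp, by simp, by simp⟩, ?_, by simp⟩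
  simp [Lf]

lemma InvX_step {φ l : ℕ → ℝ} {Q w : ℕ} (m : ℕ) (h : InvX φ l Q) (hw : TOK φ l w) :
    InvX φ l (Q + m * w) := by
  obtain ⟨f, hQ, hB, hL, hd⟩ := h
  rcases hw with hw | ⟨i, j, h, c, s, t, hi, hj, hh, hc, hs, ht, hw, hE⟩
  · rw [hw, mul_zero, add_zero]; exact ⟨f, hQ, hB, hL, hd⟩
  · refine ⟨fun k => f k + m * gW i j h c s t k, ?_, hB.add m (Bd_gW hi hj hh hc hs ht), ?_, ?_⟩
    · rw [pk_add f (fun k => m * gW i j h c s t k), pk_mul, ← hQ, ← hw]
    · rw [Lf_add, Lf_gW hi hj]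
      have : (0 : ℝ) ≤ m := Nat.cast_nonneg m
      have h2 := mul_nonneg this (sub_nonneg.2 hE)
      linarith
    · have e1 : ∀ a ∈ range 11, gW i j h c s t (a + 12) =
          (if a = i then 1 else 0) + (if a = j then 1 else 0) := by
        intro a ha
        rw [gW12 h c s t hi hj (mem_range.1 ha)]
      rw [sum_add_distrib, ← mul_sum, sum_congr rfl e1, sum_add_distrib, sum_ite_eq', sum_ite_eq',
        if_pos (mem_range.2 (by omega)), if_pos (mem_range.2 (by omega)), hd]
      show 2 * f 36 + m * (1 + 1) = 2 * (f 36 + m * gW i j h c s t 36)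
      rw [gW36 h c s t hi hj]
      ring

lemma finX_eq (Q : ℕ) (h : finX Q = true) : Q / 2 ^ 1152 ≤ 1023 ∧
    2 * (Q / 2 ^ 736 % 2 ^ 352) = fD Q ∧
    411776 * fd Q 35 + aS ((Q % 2 ^ 384 + O31 * 2 ^ 32 - 2251799813685248 * fD Q) / 2 ^ 32) + 1 ≤
      2 * fd Q 34 := by
  unfold finX at h
  rewrite [fz_eq, cb_ite] at h
  split_ifs at h with h1
  rewrite [Bool.and_eq_true] at h1
  rewrite [fz_eq] at h
  have g1 := Nat.le_of_ble_eq_true h1.1
  have g2 := Nat.eq_of_beq_eq_true h1.2
  have g3 := Nat.le_of_ble_eq_true h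
  rewrite [sr_eq] at g1
  rewrite [sr_eq, md_eq, pw_eq, Nat.mul_eq] at g2
  rewrite [sr_eq, Nat.sub_eq, Nat.mul_eq, Nat.mul_eq, Nat.mul_eq, Nat.add_eq, Nat.add_eq, shl_eq,
    md_eq, pw_eq] at g3
  exact ⟨g1, g2, g3⟩

/-- **the final check closes the leaf** -/
theorem finX_false {φ l : ℕ → ℝ} {Q : ℕ} (hI : InvX φ l Q) (hl : ∀ i < 11, |l i| ≤ 1 / 2)
    (h : finX Q = true) : False := by
  obtain ⟨f, hQ, hB, hL, hdeg⟩ := hI
  obtain ⟨g1, g2, g3⟩ := finX_eq Q h
  have hM : f 36 ≤ 1023 := by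
    have h1 : f 36 * 2 ^ (32 * 36) ≤ Q := by
      rw [hQ, pk_succ]; exact Nat.le_add_left _ _
    have h2 : f 36 ≤ Q / 2 ^ (32 * 36) := (Nat.le_div_iff_mul_le (by positivity)).2 h1
    have h3 : (32 : ℕ) * 36 = 1152 := by norm_num
    rw [h3] at h2
    exact h2.trans g1
  have T20 : (2 : ℕ) ^ 20 = 1048576 := by norm_num
  have T32 : (2 : ℕ) ^ 32 = 4294967296 := by norm_num
  have B0 := hB.b0
  have B4 := hB.b4
  have B5 := hB.b5
  rw [T20] at B0 B4
  have B1 : ∀ k, 1 ≤ k → k ≤ 11 → f k ≤ 1048576 * f (k + 11) := by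
    intro k h1 h2
    have := hB.b1 (k - 1) (by omega)
    rw [T20, show k - 1 + 1 = k by omega, show k - 1 + 12 = k + 11 by omega] at this
    exact this
  have B2 : ∀ k, 1 ≤ k → k ≤ 11 → f (k + 11) ≤ 2046 := by
    intro k h1 h2
    have := hB.b2 (k - 1) (by omega)
    rw [show k - 1 + 12 = k + 11 by omega] at this
    omega
  have B3 : ∀ k < 11, f (k + 23) ≤ 1023 := fun k hk => (hB.b3 k hk).trans hM
  have bd : ∀ k < 36, f k < 2 ^ 32 := by
    intro k hk
    rw [T32]
    rcases Nat.eq_zero_or_pos k with h0 | h0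
    · subst h0; omega
    rcases Nat.lt_or_ge k 12 with h1 | h1
    · have := B1 k h0 (by omega)
      have := B2 k h0 (by omega)
      omega
    rcases Nat.lt_or_ge k 23 with h2 | h2
    · have := B2 (k - 11) (by omega) (by omega)
      rw [show k - 11 + 11 = k by omega] at this
      omega
    rcases Nat.lt_or_ge k 34 with h3 | h3
    · have := B3 (k - 23) (by omega)
      rw [show k - 23 + 23 = k by omega] at this
      omega
    rcases Nat.lt_or_ge k 35 with h4 | h4
    · have : k = 34 := by omega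
      subst this; omega
    · have : k = 35 := by omega
      subst this; omega
  -- the blocks
  have hD : fD Q = pk (fun k => f (k + 12)) 11 := by
    have e1 := pk_div (f := f) (j := 12) (m := 25) (fun k hk => bd k (by omega))
    have e2 := pk_mod (f := fun k => f (k + 12)) (j := 11) (m := 14)
      (fun k hk => bd (k + 12) (by omega))
    rw [fD_eq, hQ]
    rw [show (384 : ℕ) = 32 * 12 by norm_num, show (352 : ℕ) = 32 * 11 by norm_num]
    rw [show (37 : ℕ) = 12 + 25 by norm_num, e1, show (25 : ℕ) = 11 + 14 by norm_num, e2]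
  have hO : Q / 2 ^ 736 % 2 ^ 352 = pk (fun k => f (k + 23)) 11 := by
    have e1 := pk_div (f := f) (j := 23) (m := 14) (fun k hk => bd k (by omega))
    have e2 := pk_mod (f := fun k => f (k + 23)) (j := 11) (m := 3)
      (fun k hk => bd (k + 23) (by omega))
    rw [hQ]
    rw [show (736 : ℕ) = 32 * 23 by norm_num, show (352 : ℕ) = 32 * 11 by norm_num]
    rw [show (37 : ℕ) = 23 + 14 by norm_num, e1, show (14 : ℕ) = 11 + 3 by norm_num, e2]
  have hP : Q % 2 ^ 384 = pk f 12 := by
    have e2 := pk_mod (f := f) (j := 12) (m := 25) (fun k hk => bd k (by omega))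
    rw [hQ, show (384 : ℕ) = 32 * 12 by norm_num, show (37 : ℕ) = 12 + 25 by norm_num, e2]
  rw [hO, hD, ← pk_mul] at g2
  have hbal : ∀ k < 11, 2 * f (k + 23) = f (k + 12) :=
    pk_inj (f := fun k => 2 * f (k + 23)) (g := fun k => f (k + 12))
      (fun k hk => by have := B3 k hk; rw [T32]; omega) (fun k hk => bd (k + 12) (by omega)) g2
  -- the slopes
  set x : ℕ → ℕ := fun k => if k = 0 then f 0 else f k + 2147483648 - 524288 * f (k + 11) with hx
  set y : ℕ → ℕ := fun k => if k = 0 then 0 else 524288 * f (k - 1 + 12) with hy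
  set w : ℕ → ℕ := fun k => if k = 0 then 0 else 2147483648 with hw
  have hxk : ∀ k, 1 ≤ k → k ≤ 11 → x k + 524288 * f (k + 11) = f k + 2147483648 := by
    intro k h1 h2
    have := B2 k h1 h2
    simp only [hx]
    rw [if_neg (by omega)]
    omega
  have hxlt : ∀ k < 12, x k < 2 ^ 32 := by
    intro k hk
    rw [T32]
    rcases Nat.eq_zero_or_pos k with h0 | h0
    · subst h0
      simp only [hx, if_pos]
      omega
    · have h1 := B1 k h0 (by omega)
      have h2 := B2 k h0 (by omega)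
      have h3 := hxk k h0 (by omega)
      omega
  have ey : pk y 12 = 2251799813685248 * fD Q := by
    have e1 := pk_shift (fun k => 524288 * f (k + 12)) 11
    rw [hD]
    rw [pk_mul 524288 (fun k => f (k + 12))] at e1
    rw [hy, e1, ← mul_assoc, show 2 ^ 32 * 524288 = 2251799813685248 by norm_num]
  have ew : pk w 12 = O31 * 2 ^ 32 := by
    have e1 := pk_shift (fun _ => 2147483648) 11
    rw [hw, e1, O31_eq, mul_comm]
  have ex : pk x 12 + pk y 12 = pk f 12 + pk w 12 := by
    rw [← pk_add, ← pk_add]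
    apply pk_congr
    intro k hk
    rcases Nat.eq_zero_or_pos k with h0 | h0
    · subst h0
      simp only [hx, hy, hw, if_pos]
    · have h3 := hxk k h0 (by omega)
      have e2 : y k = 524288 * f (k + 11) := by
        simp only [hy]
        rw [if_neg (by omega), show k - 1 + 12 = k + 11 by omega]
      have e3 : w k = 2147483648 := by
        simp only [hw]
        rw [if_neg (by omega)]
      rw [e2, e3, h3]
  have hX : Q % 2 ^ 384 + O31 * 2 ^ 32 - 2251799813685248 * fD Q = pk x 12 := by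
    rw [hP, ← ew, ← ey, ← ex, Nat.add_sub_cancel]
  rw [hX] at g3
  have f35 : fd Q 35 = f 35 := by
    rw [fd_eq, hQ]
    exact pk_field (by norm_num) (fun i hi => bd i (by omega))
  have f34 : fd Q 34 = f 34 := by
    rw [fd_eq, hQ]
    exact pk_field (by norm_num) (fun i hi => bd i (by omega))
  rw [f35, f34] at g3
  -- the fields above the first one
  set u : ℕ → ℕ := fun k => x (k + 1) with hu
  have hXu : pk x 12 / 2 ^ 32 = pk u 11 := by
    have e1 := pk_div (f := x) (j := 1) (m := 11) (fun k hk => hxlt k (by omega))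
    rw [show 32 * 1 = 32 by norm_num, show 1 + 11 = 12 by norm_num] at e1
    exact e1
  rw [hXu] at g3
  have hur : ∀ k ∈ range 11, |(u k : ℝ) - 2147483648| ≤ 524288 * f (k + 12) := by
    intro k hk
    have hk' := mem_range.1 hk
    have h3 := hxk (k + 1) (by omega) (by omega)
    have h4 : (x (k + 1) : ℝ) + 524288 * f (k + 1 + 11) = f (k + 1) + 2147483648 := by
      exact_mod_cast h3
    have h5 : k + 1 + 11 = k + 12 := by omega
    rw [h5] at h4
    have h6 : (f (k + 1) : ℝ) ≤ 1048576 * f (k + 12) := by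
      have := B1 (k + 1) (by omega) (by omega)
      rw [h5] at this
      exact_mod_cast this
    have h7 : (0 : ℝ) ≤ f (k + 1) := Nat.cast_nonneg _
    rw [abs_le]
    constructor <;> simp only [hu] <;> linarith
  have hdegR : ∑ k ∈ range 11, (524288 : ℝ) * f (k + 12) < 4294967295 := by
    rw [← mul_sum]
    have h1 : ((∑ k ∈ range 11, f (k + 12) : ℕ) : ℝ) = 2 * f 36 := by rw [hdeg]; push_cast; ring
    push_cast at h1
    rw [h1]
    have h2 : (f 36 : ℝ) ≤ 1023 := by exact_mod_cast hM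
    linarith
  have hsum : ∑ k ∈ range 11, |(u k : ℝ) - 2147483648| < 4294967295 :=
    lt_of_le_of_lt (sum_le_sum hur) hdegR
  have hu0 : ∀ k < 11, 1 ≤ u k := by
    intro k hk
    have h3 := hxk (k + 1) (by omega) (by omega)
    have h4 := B2 (k + 1) (by omega) (by omega)
    simp only [hu]
    omega
  have g4 : (411776 : ℝ) * f 35 + ((aS (pk u 11) : ℕ) : ℝ) + 1 ≤ 2 * f 34 := by exact_mod_cast g3
  rw [aS_pk hu0 (fun k hk => hxlt (k + 1) (by omega)) hsum] at g4
  have hR : ∀ k ∈ range 11, |(u k : ℝ) - 2147483648| =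
      |(f (k + 1) : ℝ) - 524288 * f (k + 12)| := by
    intro k hk
    have h3 := hxk (k + 1) (by omega) (by have := mem_range.1 hk; omega)
    have h4 : (x (k + 1) : ℝ) + 524288 * f (k + 1 + 11) = f (k + 1) + 2147483648 := by
      exact_mod_cast h3
    have h5 : k + 1 + 11 = k + 12 := by omega
    rw [h5] at h4
    congr 1
    simp only [hu]
    linarith
  rw [sum_congr rfl hR] at g4
  have hlow : -(1 / 2 * ∑ k ∈ range 11, |(f (k + 1) : ℝ) - 524288 * f (k + 12)|) ≤
      ∑ i ∈ range 11, l i * ((f (i + 1) : ℝ) - 524288 * f (i + 12)) := by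
    rw [mul_sum, ← sum_neg_distrib]
    apply sum_le_sum
    intro i hi
    have h1 := hl i (mem_range.1 hi)
    have h2 : |l i * ((f (i + 1) : ℝ) - 524288 * f (i + 12))| ≤
        1 / 2 * |(f (i + 1) : ℝ) - 524288 * f (i + 12)| := by
      rw [abs_mul]; exact mul_le_mul_of_nonneg_right h1 (abs_nonneg _)
    linarith [neg_abs_le (l i * ((f (i + 1) : ℝ) - 524288 * f (i + 12)))]
  have hzero : ∑ i ∈ range 11, ((f (i + 12) : ℝ) - 2 * f (i + 23)) * φ i = 0 := by
    apply sum_eq_zero
    intro i hi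
    have h1 := hbal i (mem_range.1 hi)
    have h2 : (2 : ℝ) * f (i + 23) = f (i + 12) := by exact_mod_cast h1
    rw [h2]; ring
  unfold Lf at hL
  rw [hzero] at hL
  have hpi := Real.pi_lt_d4
  have h35 : (0 : ℝ) ≤ f 35 := Nat.cast_nonneg _
  have h36 : π * f 35 ≤ 3.1416 * f 35 := mul_le_mul_of_nonneg_right hpi.le h35
  generalize ∑ k ∈ range 11, |(f (k + 1) : ℝ) - 524288 * f (k + 12)| = S at *
  generalize ∑ i ∈ range 11, l i * ((f (i + 1) : ℝ) - 524288 * f (i + 12)) = S' at *
  norm_num at h36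
  linarith


end Pool.Agent.Helper54.KA
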