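import Pool.Agent.Helper54.KA.RunT

set_option autoImplicit false

/-! # Soundness of the runner: the induction -/

namespace Pool.Agent.Helper54.KA

open Real

/-- the conclusion for a box -/
def Good (H P : (ℕ → ℝ) → (ℕ → ℝ) → Prop) (L f : ℕ) : Prop :=
  ∀ z φ, H z φ → InB L z → Fl f z φ → P z φ

/-- the conclusion for the boxes of a stack -/
def SGood (H P : (ℕ → ℝ) → (ℕ → ℝ) → Prop) : Stk → Prop
  | Stk.nil => True
  | Stk.cons L f s => Good H P L f ∧ SGood H P s

variable {H P : (ℕ → ℝ) → (ℕ → ℝ) → Prop} {dl' : Nat → Nat → Nat → Nat → Bool}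
  {ct : Nat → Nat → Nat}

/-- statement of the induction for a continuation -/
def IHs (H P : (ℕ → ℝ) → (ℕ → ℝ) → Prop) (ih : Ct) : Prop :=
  ∀ L f st Q D, ih L f st Q D = true →
    (∀ z φ l, H z φ → InB L z → Fl f z φ → Wt L z l → Inv φ l Q → P z φ) ∧ SGood H P st

lemma good_of_ih {L f : ℕ} (h : ∀ z φ l, H z φ → InB L z → Fl f z φ → Wt L z l → Inv φ l 0 → P z φ) :
    Good H P L f := by
  intro z φ hH hB hF
  obtain ⟨l, hl⟩ := exists_Wt hB
  exact h z φ l hH hB hF hl (Inv_zero φ l)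

lemma pop_sound {ih : Ct} (hih : IHs H P ih) {st : Stk} (h : pop ih st = true) : SGood H P st := by
  cases st with
  | nil => exact trivial
  | cons A g s =>
    have h' : ih A g s 0 0 = true := h
    obtain ⟨h1, h2⟩ := hih A g s 0 0 h'
    exact ⟨good_of_ih h1, h2⟩

lemma stS_sound {ih : Ct} (hih : IHs H P ih) {k X L f : ℕ} {st : Stk} (hX : CutOK k X)
    (h : stS ih k X L f st = true) : Good H P L f ∧ SGood H P st := by
  unfold stS at h
  rewrite [cb_ite] at h
  by_cases h4 : Nat.ble k 10 = true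
  swap
  · rewrite [if_neg h4] at h; exact absurd h (by simp)
  rewrite [if_pos h4, fz_eq, fz_eq] at h
  have h5 : k ≤ 10 := Nat.le_of_ble_eq_true h4
  obtain ⟨g1, g2, g3⟩ := hih _ _ _ _ _ h
  refine ⟨fun z φ hH hB hF => ?_, g3⟩
  rcases hB.split (k := k) (by omega) hX with g | g
  · exact good_of_ih g1 z φ hH g hF
  · exact g2 z φ hH g hF

lemma stG_sound (hC : ∀ z φ, H z φ → Cf z φ) {ih : Ct} (hih : IHs H P ih) {i j L f : ℕ} {st : Stk}
    (h : stG ih i j L f st = true) : Good H P L f ∧ SGood H P st := by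
  unfold stG at h
  rewrite [cb_ite] at h
  by_cases h1 : ((Nat.ble 1 i && Nat.ble 1 j) && (Nat.ble i 10 && Nat.ble j 10)) = true
  swap
  · rewrite [if_neg h1] at h; exact absurd h (by simp)
  rewrite [if_pos h1, cb_ite] at h
  by_cases h2 : Nat.beq i j = true
  · rewrite [if_pos h2] at h; exact absurd h (by simp)
  rewrite [if_neg h2, fz_eq, fz_eq] at h
  rewrite [Bool.and_eq_true, Bool.and_eq_true, Bool.and_eq_true, Nat.ble_eq, Nat.ble_eq, Nat.ble_eq,
    Nat.ble_eq] at h1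
  obtain ⟨⟨i1, j1⟩, i10, j10⟩ := h1
  have hne : i ≠ j := fun hc => h2 (by rw [Nat.beq_eq]; exact hc)
  obtain ⟨g1, g2, g3⟩ := hih _ _ _ _ _ h
  refine ⟨fun z φ hH hB hF => ?_, g3⟩
  rcases (hC z φ hH).p1 i j i1 i10 j1 j10 hne with g | g
  · exact good_of_ih g1 z φ hH hB (hF.set i1 i10 j1 j10 g)
  · have g' : π + arccos (FF (-z 0) 1 (z j) (z i)) ≤ dl φ j i := by rw [FF_comm]; exact g
    exact g2 z φ hH hB (hF.set j1 j10 i1 i10 g')

lemma stE_sound (hC : ∀ z φ, H z φ → Cf z φ) {ih : Ct} (hih : IHs H P ih) {t q L f : ℕ} {st : Stk}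
    {Q : ℕ} (hq : q < 8192) (h : stE ih t q L f st Q = true) :
    (∀ z φ l, H z φ → InB L z → Fl f z φ → Wt L z l → Inv φ l Q → P z φ) ∧ SGood H P st := by
  unfold stE at h
  rewrite [cb_ite] at h
  by_cases h1 : okF q f = true
  swap
  · rewrite [if_neg h1] at h; exact absurd h (by simp)
  rewrite [if_pos h1] at h
  unfold stF2 at h
  rewrite [cb_ite] at h
  have hInv : ∀ z φ l, H z φ → InB L z → Fl f z φ → Wt L z l → Inv φ l Q →
      Inv φ l (Nat.add Q (Nat.mul (Nat.mod t 32) (wA q L))) := by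
    intro z φ l hH hB hF hl hI
    exact Inv_step _ hI (wA_TOK (hC z φ hH) hB hF hl h1 hq)
  by_cases h2 : Nat.ble t 524287 = true
  · rewrite [if_pos h2] at h
    obtain ⟨g1, g2⟩ := hih _ _ _ _ _ h
    exact ⟨fun z φ l hH hB hF hl hI => g1 z φ l hH hB hF hl (hInv z φ l hH hB hF hl hI), g2⟩
  · rewrite [if_neg h2, cb_ite] at h
    by_cases h3 : fin (Nat.add Q (Nat.mul (Nat.mod t 32) (wA q L))) = true
    swap
    · rewrite [if_neg h3] at h; exact absurd h (by simp)
    rewrite [if_pos h3] at h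
    refine ⟨fun z φ l hH hB hF hl hI => ?_, pop_sound hih h⟩
    exact (fin_false (hInv z φ l hH hB hF hl hI) (fun i hi => (hl i hi).1) h3).elim

theorem step_sound (hct : CtOK ct) (hC : ∀ z φ, H z φ → Cf z φ)
    (hdl : ∀ L f D r, dl' L f D r = true → Good H P L f) {ih : Ct} (hih : IHs H P ih) {t : ℕ}
    {L f : ℕ} {st : Stk} {Q D : ℕ} (h : step ct dl' t ih L f st Q D = true) :
    (∀ z φ l, H z φ → InB L z → Fl f z φ → Wt L z l → Inv φ l Q → P z φ) ∧ SGood H P st := by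
  unfold step at h
  rewrite [cb_ite] at h
  by_cases h0 : Nat.beq (Nat.mod t 32) 0 = true
  swap
  · rewrite [if_neg h0, fz_eq] at h
    exact stE_sound hC hih (Nat.mod_lt _ (by norm_num)) h
  rewrite [if_pos h0, fz_eq, fz_eq] at h
  unfold stT at h
  rewrite [cb_ite, cb_ite, cb_ite] at h
  by_cases h1 : Nat.beq (Nat.mod (Nat.div t 32) 4) 0 = true
  · rewrite [if_pos h1, fz_eq, fz_eq] at h
    obtain ⟨g1, g2⟩ := stS_sound hih (hct _ _ (Nat.mod_lt _ (by norm_num))) h
    exact ⟨fun z φ _ hH hB hF _ _ => g1 z φ hH hB hF, g2⟩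
  rewrite [if_neg h1] at h
  by_cases h2 : Nat.beq (Nat.mod (Nat.div t 32) 4) 1 = true
  · rewrite [if_pos h2, fz_eq, fz_eq] at h
    obtain ⟨g1, g2⟩ := stG_sound hC hih h
    exact ⟨fun z φ _ hH hB hF _ _ => g1 z φ hH hB hF, g2⟩
  rewrite [if_neg h2] at h
  by_cases h3 : Nat.beq (Nat.mod (Nat.div t 32) 4) 2 = true
  · rewrite [if_pos h3] at h
    obtain ⟨g1, g2⟩ := hih _ _ _ _ _ h
    exact ⟨fun z φ l hH hB hF hl _ => g1 z φ l hH hB hF hl (Inv_zero φ l), g2⟩
  rewrite [if_neg h3, cb_ite] at h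
  by_cases h4 : dl' L f D (Nat.div t 128) = true
  swap
  · rewrite [if_neg h4] at h; exact absurd h (by simp)
  rewrite [if_pos h4] at h
  exact ⟨fun z φ _ hH hB hF _ _ => hdl L f D _ h4 z φ hH hB hF, pop_sound hih h⟩

theorem run_IHs (hct : CtOK ct) (hC : ∀ z φ, H z φ → Cf z φ)
    (hdl : ∀ L f D r, dl' L f D r = true → Good H P L f) (ts : List ℕ) :
    IHs H P (run ct dl' ts) := by
  induction ts with
  | nil =>
    intro L f st Q D h
    exact absurd h (by show ¬ (false = true); simp)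
  | cons t ts ih =>
    intro L f st Q D h
    have h' : step ct dl' t (run ct dl' ts) L f st Q D = true := h
    exact step_sound hct hC hdl ih h'

/-- **soundness of the runner** -/
theorem run_sound (hct : CtOK ct) (hC : ∀ z φ, H z φ → Cf z φ)
    (hdl : ∀ L f D r, dl' L f D r = true → Good H P L f) {ts : List ℕ} {L f : ℕ} {st : Stk} {D : ℕ}
    (h : run ct dl' ts L f st 0 D = true) : Good H P L f ∧ SGood H P st := by
  obtain ⟨g1, g2⟩ := run_IHs hct hC hdl ts L f st 0 D h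
  exact ⟨good_of_ih g1, g2⟩

/-- without another kind of leaf -/
theorem run0_sound (hct : CtOK ct) (hC : ∀ z φ, H z φ → Cf z φ) {ts : List ℕ} {L f : ℕ} {st : Stk} {D : ℕ}
    (h : run ct dl0 ts L f st 0 D = true) : Good H P L f ∧ SGood H P st :=
  run_sound hct hC (fun _ _ _ _ hd => absurd hd (by show ¬ (false = true); simp)) h

end Pool.Agent.Helper54.KA
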