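import Pool.Agent.Helper54.KA.FastB
import Pool.Agent.Helper54.KA.RunU

set_option autoImplicit false

/-! # The fast runner: contribution of a token -/

namespace Pool.Agent.Helper54.KA

open Real

lemma lor_eq (a b : ℕ) : Nat.lor a b = a ||| b := rfl

/-- a masked part of a number -/
lemma part_land {X M a w : ℕ} (hM : ∀ b < w, M.testBit (a + b) = true) :
    (X &&& M) / 2 ^ a % 2 ^ w = X / 2 ^ a % 2 ^ w := by
  apply Nat.eq_of_testBit_eq
  intro i
  rw [Nat.testBit_mod_two_pow, Nat.testBit_mod_two_pow, Nat.testBit_div_two_pow,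
    Nat.testBit_div_two_pow, Nat.testBit_and]
  by_cases hi : i < w
  · have := hM i hi
    rw [add_comm a i] at this
    rw [this, Bool.and_true]
  · simp [hi]

lemma ones_bit {n b : ℕ} (hb : b < 32) : (Nat.shiftLeft 4294967295 n).testBit (n + b) = true := by
  rw [shl_eq, Nat.testBit_mul_two_pow, Nat.add_sub_cancel_left,
    show (4294967295 : ℕ) = 2 ^ 32 - 1 by norm_num, Nat.testBit_two_pow_sub_one]
  simp [hb]

lemma one_bit (n : ℕ) : (Nat.shiftLeft 1 n).testBit n = true := by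
  rw [shl_eq, one_mul, Nat.testBit_two_pow]; simp

lemma mk2_bit {q k b : ℕ} (hb : b < 32) (hk : k = q % 16 ∨ k = q / 16 % 16) :
    (mk2 q).testBit (32 * (k + 1) + b) = true := by
  unfold mk2
  rw [lor_eq, Nat.testBit_or, Bool.or_eq_true]
  rcases hk with hk | hk
  · left; rw [hk]; exact ones_bit hb
  · right; rw [hk]; exact ones_bit hb

lemma fd_land {X M k : ℕ} (hM : ∀ b < 32, M.testBit (32 * k + b) = true) :
    fd (X &&& M) k = fd X k := by
  rw [fd_eq, fd_eq]; exact part_land hM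

lemma bt_spec {K n : ℕ} (h : bt K n = true) : K.testBit n = true := by
  unfold bt at h
  rw [Nat.beq_eq, md_eq, sr_eq] at h
  rw [Nat.testBit_eq_decide_div_mod_eq, h]
  rfl

lemma and_bit {X M n : ℕ} (h : (X &&& M).testBit n = true) : X.testBit n = true := by
  rw [Nat.testBit_and, Bool.and_eq_true] at h
  exact h.1

lemma okF_of_G {q X : ℕ} (h2 : q ≤ 6143) (h : X.testBit (384 + q % 256) = true) :
    okF q (X / 2 ^ 352) = true := by
  unfold okF
  rw [cb_ite]
  split_ifs with h1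
  · rfl
  · rw [Nat.beq_eq, md_eq, md_eq, sr_eq, Nat.add_eq, cb_ite, if_pos (Nat.ble_eq.symm ▸ h2)]
    have e : (X / 2 ^ 352).testBit (q % 256 + 32) = true := by
      rw [Nat.testBit_div_two_pow]
      rw [← h]; congr 1; ring
    rw [Nat.testBit_eq_decide_div_mod_eq, decide_eq_true_eq] at e
    exact e

lemma okF_of_P {q X : ℕ} (h2 : ¬ q ≤ 6143) (h : X.testBit (640 + q % 256) = true) :
    okF q (X / 2 ^ 352) = true := by
  unfold okF
  rw [cb_ite]
  split_ifs with h1
  · rfl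
  · rw [Nat.beq_eq, md_eq, md_eq, sr_eq, Nat.add_eq, cb_ite,
      if_neg (fun hc => h2 (Nat.ble_eq ▸ hc))]
    have e : (X / 2 ^ 352).testBit (q % 256 + 288) = true := by
      rw [Nat.testBit_div_two_pow]
      rw [← h]; congr 1; ring
    rw [Nat.testBit_eq_decide_div_mod_eq, decide_eq_true_eq] at e
    exact e

lemma okF_of_C {q f : ℕ} (h : q ≤ 3071) : okF q f = true := by
  unfold okF
  rw [cb_ite, if_pos (Nat.ble_eq.symm ▸ h)]

lemma eE_P (xs v x0 x1 y0 y1 : ℕ) : eE xs 6 v x0 x1 y0 y1 = eC 51471 := by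
  have h1 : ¬ (Nat.ble 6 2 = true) := by decide
  have h2 : Nat.beq 6 6 = true := by decide
  unfold eE
  rewrite [cb_ite, if_neg h1, cb_ite, if_pos h2]
  exact Eq.refl _

lemma eW_P {q : ℕ} (h : q / 1024 = 6) (xs a b : ℕ) : eW xs q a b = eW 0 q 0 0 := by
  rw [eW_eq, eW_eq, h, eE_P, eE_P]

/-- soundness of the contribution -/
theorem eK_TOK {X q : ℕ} {z φ l : ℕ → ℝ} (hC : Cf z φ) (hB : InB X z)
    (hF : Fl (X / 2 ^ 352) z φ) (hl : Wt X z l) (hq : q < 8192) :
    TOK φ l (eK q (X &&& mk q)) := by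
  unfold eK
  rewrite [cb_ite]
  by_cases h1 : q ≤ 3071
  · rewrite [if_pos (Nat.ble_eq.symm ▸ h1)]
    have em : mk q = mk2 q := by
      unfold mk; rewrite [cb_ite, if_pos (Nat.ble_eq.symm ▸ h1)]; exact Eq.refl _
    have e1 : fd (X &&& mk q) (Nat.succ (Nat.mod q 16)) = fd X (Nat.succ (Nat.mod q 16)) := by
      rewrite [em]; exact fd_land fun b hb => mk2_bit hb (Or.inl rfl)
    have e2 : fd (X &&& mk q) (Nat.succ (Nat.mod (Nat.div q 16) 16)) =
        fd X (Nat.succ (Nat.mod (Nat.div q 16) 16)) := by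
      rewrite [em]; exact fd_land fun b hb => mk2_bit hb (Or.inr rfl)
    have e3 : xsA q X = 0 := by rewrite [xsA_eq, if_pos h1]; exact Eq.refl _
    have e4 := wA_eq q X
    rewrite [e3] at e4
    rewrite [e1, e2, ← e4]
    exact wA_TOK hC hB hF hl (okF_of_C h1) hq
  rewrite [if_neg (fun hc => h1 (Nat.ble_eq ▸ hc)), cb_ite]
  by_cases h2 : q ≤ 6143
  · rewrite [if_pos (Nat.ble_eq.symm ▸ h2), cb_ite]
    by_cases h3 : bt (X &&& mk q) (Nat.add 384 (Nat.mod q 256)) = true
    swap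
    · rewrite [if_neg h3]; exact Or.inl rfl
    rewrite [if_pos h3]
    have em : mk q = mk2 q ||| (281470681743360 ||| Nat.shiftLeft 1 (384 + q % 256)) := by
      unfold mk
      rewrite [cb_ite, if_neg (fun hc => h1 (Nat.ble_eq ▸ hc)), cb_ite,
        if_pos (Nat.ble_eq.symm ▸ h2)]
      exact Eq.refl _
    have e1 : fd (X &&& mk q) (Nat.succ (Nat.mod q 16)) = fd X (Nat.succ (Nat.mod q 16)) := by
      rewrite [em]
      refine fd_land fun b hb => ?_
      rw [Nat.testBit_or, Bool.or_eq_true]; left; exact mk2_bit hb (Or.inl rfl)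
    have e2 : fd (X &&& mk q) (Nat.succ (Nat.mod (Nat.div q 16) 16)) =
        fd X (Nat.succ (Nat.mod (Nat.div q 16) 16)) := by
      rewrite [em]
      refine fd_land fun b hb => ?_
      rw [Nat.testBit_or, Bool.or_eq_true]; left; exact mk2_bit hb (Or.inr rfl)
    have e3 : Nat.mod (Nat.shiftRight (X &&& mk q) 32) 65536 = xsA q X := by
      rewrite [xsA_eq, if_neg h1, sr_eq, md_eq, em]
      have f16 : (65536 : ℕ) = 2 ^ 16 := by norm_num
      rewrite [f16]
      refine part_land fun b hb => ?_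
      rw [Nat.testBit_or, Bool.or_eq_true]; right
      rw [Nat.testBit_or, Bool.or_eq_true]; left
      interval_cases b <;> decide
    rewrite [e1, e2, e3, ← wA_eq]
    exact wA_TOK hC hB hF hl (okF_of_G h2 (and_bit (bt_spec h3))) hq
  rewrite [if_neg (fun hc => h2 (Nat.ble_eq ▸ hc)), cb_ite]
  by_cases h3 : (Nat.ble q 7167 && bt (X &&& mk q) (Nat.add 640 (Nat.mod q 256))) = true
  swap
  · rewrite [if_neg h3]; exact Or.inl rfl
  rewrite [if_pos h3]
  rewrite [Bool.and_eq_true] at h3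
  have h4 : q ≤ 7167 := Nat.le_of_ble_eq_true h3.1
  have h5 : q / 1024 = 6 := by omega
  rewrite [← eW_P h5 (xsA q X) (fd X (Nat.succ (Nat.mod q 16)))
    (fd X (Nat.succ (Nat.mod (Nat.div q 16) 16))), ← wA_eq]
  exact wA_TOK hC hB hF hl (okF_of_P h2 (and_bit (bt_spec h3.2))) hq

lemma wt_eq (t X : ℕ) : wt t X = Nat.mul (Nat.mod t 32)
    (eK (Nat.mod (Nat.div t 32) 8192) (Nat.land X (mk (Nat.mod (Nat.div t 32) 8192)))) := rfl

/-- one more token -/
theorem InvX_wt {X t Q : ℕ} {z φ l : ℕ → ℝ} (hC : Cf z φ) (hB : InB X z)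
    (hF : Fl (X / 2 ^ 352) z φ) (hl : Wt X z l) (hI : InvX φ l Q) :
    InvX φ l (Nat.add Q (wt t X)) := by
  rewrite [wt_eq]
  exact InvX_step _ hI (eK_TOK hC hB hF hl (Nat.mod_lt _ (by norm_num)))

end Pool.Agent.Helper54.KA
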