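import Pool.Agent.Helper54.KA.FastC
import Pool.Agent.Helper54.KA.Asm

set_option autoImplicit false

/-! # The fast runner: soundness -/

namespace Pool.Agent.Helper54.KA

open Real

/-- the conclusion for a box -/
def GoodX (H P : (ℕ → ℝ) → (ℕ → ℝ) → Prop) (X : ℕ) : Prop := Good H P X (X / 2 ^ 352)

/-- the conclusion for a list of boxes -/
def AGX (H P : (ℕ → ℝ) → (ℕ → ℝ) → Prop) (B : List ℕ) : Prop := ∀ X ∈ B, GoodX H P X

variable {H P : (ℕ → ℝ) → (ℕ → ℝ) → Prop} {dl' : Nat → Nat → Bool} {ct : Nat → Nat → Nat}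

lemma AGX_nil : AGX H P [] := fun _ h => absurd h (by simp)

lemma AGX_append {B C : List ℕ} (hB : AGX H P B) (hC : AGX H P C) : AGX H P (B ++ C) := by
  intro X hX
  rcases List.mem_append.1 hX with h | h
  · exact hB X h
  · exact hC X h

/-! ### boxes -/

lemma InB_congr {X Y : ℕ} {z : ℕ → ℝ} (h : InB X z) (e : ∀ k < 11, fd Y (k + 1) = fd X (k + 1)) :
    InB Y z := fun k hk => by rw [e k hk]; exact h k hk

lemma ff_bit (X m : ℕ) : (X / 2 ^ 352).testBit (32 + m) = X.testBit (384 + m) := by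
  rw [Nat.testBit_div_two_pow]; congr 1; ring

lemma Fl_congr {X Y : ℕ} {z φ : ℕ → ℝ} (h : Fl (X / 2 ^ 352) z φ)
    (e : ∀ n, Y.testBit (384 + n) = X.testBit (384 + n)) : Fl (Y / 2 ^ 352) z φ := by
  constructor
  · intro i j i1 i2 j1 j2 hb
    rw [ff_bit, e, ← ff_bit] at hb
    exact h.g i j i1 i2 j1 j2 hb
  · intro i j i2 j2 hb
    have e2 : 288 + (i + 16 * j) = 32 + (256 + (i + 16 * j)) := by ring
    rw [e2, ff_bit, e, ← ff_bit, ← e2] at hb
    exact h.p i j i2 j2 hb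

lemma bit_fd {X n b : ℕ} (hb : b < 32) : X.testBit (32 * n + b) = (fd X n).testBit b := by
  rw [fd_eq, Nat.testBit_mod_two_pow, Nat.testBit_div_two_pow]
  simp [hb, add_comm]

lemma hi_bit {X Y : ℕ} (e : ∀ j, 11 ≤ j → fd Y (j + 1) = fd X (j + 1)) (n : ℕ) :
    Y.testBit (384 + n) = X.testBit (384 + n) := by
  have h1 : 384 + n = 32 * (11 + n / 32 + 1) + n % 32 := by omega
  have h2 : n % 32 < 32 := Nat.mod_lt _ (by norm_num)
  rw [h1, bit_fd h2, bit_fd h2, e _ (by omega)]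

lemma Fl_cutL {X k c : ℕ} {z φ : ℕ → ℝ} (hk : k < 11) (h : Fl (X / 2 ^ 352) z φ) :
    Fl (cutL X k c / 2 ^ 352) z φ := by
  refine Fl_congr h (hi_bit fun j hj => ?_)
  rw [cutL_fd, if_neg (by omega)]

lemma Fl_cutR {X k c : ℕ} {z φ : ℕ → ℝ} (hk : k < 11) (hc : c < 65536)
    (h : Fl (X / 2 ^ 352) z φ) : Fl (cutR X k c / 2 ^ 352) z φ := by
  refine Fl_congr h (hi_bit fun j hj => ?_)
  rw [cutR_fd hc, if_neg (by omega)]

/-- a box lies in one of its halves, with the flags -/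
lemma box_split {X k c : ℕ} {z φ : ℕ → ℝ} (hB : InB X z) (hF : Fl (X / 2 ^ 352) z φ) (hk : k < 11)
    (hX : CutOK k c) : (InB (cutL X k c) z ∧ Fl (cutL X k c / 2 ^ 352) z φ) ∨
      (InB (cutR X k c) z ∧ Fl (cutR X k c / 2 ^ 352) z φ) := by
  have hc : c < 65536 := by
    rcases hX with ⟨_, h⟩ | ⟨_, a, rfl, ha⟩ <;> omega
  rcases hB.split hk hX with g | g
  · exact Or.inl ⟨g, Fl_cutL hk hF⟩
  · exact Or.inr ⟨g, Fl_cutR hk hc hF⟩

lemma tg_bit (U a : ℕ) : (tg U).testBit (32 + a) = U.testBit a := by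
  have : (tg U / 2 ^ 32).testBit a = (tg U).testBit (32 + a) := by
    rw [Nat.testBit_div_two_pow, add_comm]
  rw [← this, tg_div]

lemma sgn_fd (X n : ℕ) {k : ℕ} (hk : k < 11) :
    fd (tg (X / 2 ^ 32 ||| 2 ^ (352 + n))) (k + 1) = fd X (k + 1) := by
  rw [fd_tg, fd_succ]
  apply Nat.eq_of_testBit_eq
  intro b
  rw [Nat.testBit_mod_two_pow, Nat.testBit_mod_two_pow, Nat.testBit_div_two_pow,
    Nat.testBit_div_two_pow, Nat.testBit_or, Nat.testBit_two_pow]
  by_cases hb : b < 32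
  · have : ¬ (352 + n = b + 32 * k) := by omega
    simp [this]
  · simp [hb]

lemma sgn_bit (X n m : ℕ) : (tg (X / 2 ^ 32 ||| 2 ^ (352 + n))).testBit (384 + m) =
    (X.testBit (384 + m) || decide (m = n)) := by
  rw [show 384 + m = 32 + (352 + m) by ring, tg_bit, Nat.testBit_or, Nat.testBit_two_pow,
    Nat.testBit_div_two_pow]
  congr 1
  · congr 1; ring
  · exact decide_eq_decide.2 (by omega)

lemma Fl_sgn {X i j : ℕ} {z φ : ℕ → ℝ} (h : Fl (X / 2 ^ 352) z φ) (i1 : 1 ≤ i) (i2 : i ≤ 10)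
    (j1 : 1 ≤ j) (j2 : j ≤ 10) (hij : π + arccos (FF (-z 0) 1 (z i) (z j)) ≤ dl φ i j) :
    Fl (tg (X / 2 ^ 32 ||| 2 ^ (352 + (i + 16 * j))) / 2 ^ 352) z φ := by
  constructor
  · intro a b a1 a2 b1 b2 hb
    rw [ff_bit, sgn_bit, Bool.or_eq_true, decide_eq_true_eq, ← ff_bit] at hb
    rcases hb with hb | hb
    · exact h.g a b a1 a2 b1 b2 hb
    · have ha : a = i := by omega
      have hb' : b = j := by omega
      rw [ha, hb']; exact hij
  · intro a b a2 b2 hb
    have e2 : 288 + (a + 16 * b) = 32 + (256 + (a + 16 * b)) := by ring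
    rw [e2, ff_bit, sgn_bit, Bool.or_eq_true, decide_eq_true_eq, ← ff_bit, ← e2] at hb
    rcases hb with hb | hb
    · exact h.p a b a2 b2 hb
    · omega

/-! ### the induction -/

/-- statement of the induction for a continuation -/
def IHX (H P : (ℕ → ℝ) → (ℕ → ℝ) → Prop) (ih : CtX) : Prop :=
  ∀ X st Q, ih X st Q = true →
    (∀ z φ l, H z φ → InB X z → Fl (X / 2 ^ 352) z φ → Wt X z l → InvX φ l Q → P z φ) ∧ AGX H P st

lemma goodX_of_ih {X : ℕ} (h : ∀ z φ l, H z φ → InB X z → Fl (X / 2 ^ 352) z φ → Wt X z l →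
    InvX φ l 0 → P z φ) : GoodX H P X := by
  intro z φ hH hB hF
  obtain ⟨l, hl⟩ := exists_Wt hB
  exact h z φ l hH hB hF hl (InvX_zero φ l)

lemma popX_sound {ih : CtX} (hih : IHX H P ih) {st : List ℕ} (h : popX ih st = true) :
    AGX H P st := by
  cases st with
  | nil => exact AGX_nil
  | cons A s =>
    have h' : ih A s 0 = true := h
    obtain ⟨h1, h2⟩ := hih A s 0 h'
    intro X hX
    rcases List.mem_cons.1 hX with hX | hX
    · rw [hX]; exact goodX_of_ih h1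
    · exact h2 X hX

lemma two_eq (ih : CtX) (st : List ℕ) (A B : ℕ) : two ih st A B = ih A (B :: st) 0 := rfl

lemma brec_app (b : Bool) (f g : CtX) (X : ℕ) (st : List ℕ) (Q : ℕ) :
    (Bool.rec (motive := fun _ => CtX) f g b : CtX) X st Q = cb b (g X st Q) (f X st Q) := by
  cases b <;> rfl

lemma brec_cb (b x y : Bool) : (Bool.rec (motive := fun _ => Bool) y x b : Bool) = cb b x y := rfl

lemma stp_eq (t : ℕ) (ih : CtX) (X : ℕ) (st : List ℕ) (Q : ℕ) :
    stp ct dl' t ih X st Q = cb (Nat.beq (Nat.mod t 32) 0) (xT ct dl' t ih X st Q)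
      (cb (Nat.ble t 524287) (xE t ih X st Q) (xF t ih X st Q)) := by
  unfold stp
  rw [brec_app, brec_app]

lemma xT_eq (t : ℕ) (ih : CtX) (X : ℕ) (st : List ℕ) (Q : ℕ) :
    xT ct dl' t ih X st Q = cb (Nat.beq (Nat.mod (Nat.div t 32) 4) 0) (xS ct t ih X st Q)
      (cb (Nat.beq (Nat.mod (Nat.div t 32) 4) 1) (xG t ih X st Q) (xD dl' t ih X st Q)) := by
  unfold xT
  rw [brec_app, brec_app]

lemma ctL_eq (X t : ℕ) : ctL ct X t = cutL X (tk t) (cu ct t) := rfl
lemma ctR_eq (X t : ℕ) : ctR ct X t = cutR X (tk t) (cu ct t) := rfl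
lemma cu_eq (t : ℕ) : cu ct t = ct (tk t) (Nat.mod (Nat.div t 2048) 512) := rfl

lemma xS_sound (hct : CtOK ct) {ih : CtX} (hih : IHX H P ih) {t X Q : ℕ} {st : List ℕ}
    (h : xS ct t ih X st Q = true) : GoodX H P X ∧ AGX H P st := by
  unfold xS at h
  rewrite [brec_cb, cb_ite] at h
  by_cases h1 : kOK t = true
  swap
  · rewrite [if_neg h1] at h; exact absurd h (by simp)
  rewrite [if_pos h1, two_eq, ctL_eq, ctR_eq] at h
  have h5 : tk t ≤ 10 := Nat.le_of_ble_eq_true h1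
  have hcut : CutOK (tk t) (cu ct t) := by
    rewrite [cu_eq]; exact hct _ _ (Nat.mod_lt _ (by norm_num))
  obtain ⟨g1, g2⟩ := hih _ _ _ h
  have gR := g2 _ (List.mem_cons_self ..)
  refine ⟨fun z φ hH hB hF => ?_, fun Y hY => g2 Y (List.mem_cons_of_mem _ hY)⟩
  rcases box_split hB hF (by omega) hcut with ⟨b1, b2⟩ | ⟨b1, b2⟩
  · exact goodX_of_ih g1 z φ hH b1 b2
  · exact gR z φ hH b1 b2

lemma gA1_eq (t : ℕ) : gA1 t = 2 ^ (352 + (tk t + 16 * tj t)) := by
  unfold gA1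
  rewrite [shl_eq, one_mul]
  exact Eq.refl _

lemma gA2_eq (t : ℕ) : gA2 t = 2 ^ (352 + (tj t + 16 * tk t)) := by
  unfold gA2
  rewrite [shl_eq, one_mul]
  exact Eq.refl _

lemma gOK_spec {t : ℕ} (h : gOK t = true) : 1 ≤ tk t ∧ tk t ≤ 10 ∧ 1 ≤ tj t ∧ tj t ≤ 10 ∧
    tk t ≠ tj t := by
  unfold gOK at h
  rewrite [Bool.and_eq_true, Bool.and_eq_true, Bool.and_eq_true, Bool.and_eq_true, Nat.ble_eq,
    Nat.ble_eq, Nat.ble_eq, Nat.ble_eq, cb_ite] at h
  obtain ⟨⟨⟨a, b⟩, c, d⟩, e⟩ := h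
  refine ⟨a, c, b, d, fun hc => ?_⟩
  rw [hc, if_pos (Nat.beq_refl _)] at e
  exact absurd e (by simp)

lemma xG_sound (hC : ∀ z φ, H z φ → Cf z φ) {ih : CtX} (hih : IHX H P ih) {t X Q : ℕ}
    {st : List ℕ} (h : xG t ih X st Q = true) : GoodX H P X ∧ AGX H P st := by
  unfold xG at h
  rewrite [brec_cb, cb_ite] at h
  by_cases h1 : gOK t = true
  swap
  · rewrite [if_neg h1] at h; exact absurd h (by simp)
  rewrite [if_pos h1, two_eq, lor_eq, lor_eq, sr_eq, gA1_eq, gA2_eq] at h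
  obtain ⟨i1, i10, j1, j10, hne⟩ := gOK_spec h1
  obtain ⟨g1, g2⟩ := hih _ _ _ h
  have gR := g2 _ (List.mem_cons_self ..)
  refine ⟨fun z φ hH hB hF => ?_, fun Y hY => g2 Y (List.mem_cons_of_mem _ hY)⟩
  rcases (hC z φ hH).p1 _ _ i1 i10 j1 j10 hne with g | g
  · exact goodX_of_ih g1 z φ hH (InB_congr hB fun k hk => sgn_fd X _ hk)
      (Fl_sgn hF i1 i10 j1 j10 g)
  · have g' : π + arccos (FF (-z 0) 1 (z (tj t)) (z (tk t))) ≤ dl φ (tj t) (tk t) := by
      rw [FF_comm]; exact g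
    exact gR z φ hH (InB_congr hB fun k hk => sgn_fd X _ hk) (Fl_sgn hF j1 j10 i1 i10 g')

lemma xD_sound (hdl : ∀ X r, dl' X r = true → GoodX H P X) {ih : CtX} (hih : IHX H P ih)
    {t X Q : ℕ} {st : List ℕ} (h : xD dl' t ih X st Q = true) : GoodX H P X ∧ AGX H P st := by
  unfold xD at h
  rewrite [brec_cb, cb_ite] at h
  by_cases h1 : (Nat.beq (Nat.mod (Nat.div t 32) 4) 3 && fz (Nat.div t 128) fun r => dl' X r) = true
  swap
  · rewrite [if_neg h1] at h; exact absurd h (by simp)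
  rewrite [if_pos h1] at h
  rewrite [Bool.and_eq_true, fz_eq] at h1
  exact ⟨hdl X _ h1.2, popX_sound hih h⟩

theorem stp_sound (hct : CtOK ct) (hC : ∀ z φ, H z φ → Cf z φ)
    (hdl : ∀ X r, dl' X r = true → GoodX H P X) {ih : CtX} (hih : IHX H P ih) {t X Q : ℕ}
    {st : List ℕ} (h : stp ct dl' t ih X st Q = true) :
    (∀ z φ l, H z φ → InB X z → Fl (X / 2 ^ 352) z φ → Wt X z l → InvX φ l Q → P z φ) ∧
      AGX H P st := by
  rewrite [stp_eq, cb_ite] at h
  by_cases h0 : Nat.beq (Nat.mod t 32) 0 = true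
  · rewrite [if_pos h0, xT_eq, cb_ite] at h
    have key : GoodX H P X ∧ AGX H P st := by
      by_cases h1 : Nat.beq (Nat.mod (Nat.div t 32) 4) 0 = true
      · rewrite [if_pos h1] at h
        exact xS_sound hct hih h
      · rewrite [if_neg h1, cb_ite] at h
        by_cases h2 : Nat.beq (Nat.mod (Nat.div t 32) 4) 1 = true
        · rewrite [if_pos h2] at h
          exact xG_sound hC hih h
        · rewrite [if_neg h2] at h
          exact xD_sound hdl hih h
    exact ⟨fun z φ _ hH hB hF _ _ => key.1 z φ hH hB hF, key.2⟩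
  rewrite [if_neg h0, cb_ite] at h
  by_cases h1 : Nat.ble t 524287 = true
  · rewrite [if_pos h1] at h
    have h' : ih X st (Nat.add Q (wt t X)) = true := h
    obtain ⟨g1, g2⟩ := hih _ _ _ h'
    exact ⟨fun z φ l hH hB hF hl hI => g1 z φ l hH hB hF hl
      (InvX_wt (hC z φ hH) hB hF hl hI), g2⟩
  · rewrite [if_neg h1] at h
    unfold xF at h
    rewrite [brec_cb, cb_ite] at h
    by_cases h3 : finX (Nat.add Q (wt t X)) = true
    swap
    · rewrite [if_neg h3] at h; exact absurd h (by simp)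
    rewrite [if_pos h3] at h
    refine ⟨fun z φ l hH hB hF hl hI => ?_, popX_sound hih h⟩
    exact (finX_false (InvX_wt (hC z φ hH) hB hF hl hI) (fun i hi => (hl i hi).1) h3).elim

theorem runX_IH (hct : CtOK ct) (hC : ∀ z φ, H z φ → Cf z φ)
    (hdl : ∀ X r, dl' X r = true → GoodX H P X) (ts : List ℕ) : IHX H P (runX ct dl' ts) := by
  induction ts with
  | nil =>
    intro X st Q h
    exact absurd h (by show ¬ (false = true); simp)
  | cons t ts ih =>
    intro X st Q h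
    have h' : stp ct dl' t (runX ct dl' ts) X st Q = true := h
    exact stp_sound hct hC hdl ih h'

/-- **soundness of the fast runner** -/
theorem runX_sound (hct : CtOK ct) (hC : ∀ z φ, H z φ → Cf z φ)
    (hdl : ∀ X r, dl' X r = true → GoodX H P X) {ts : List ℕ} {X : ℕ} {st : List ℕ}
    (h : runX ct dl' ts X st 0 = true) : GoodX H P X ∧ AGX H P st := by
  obtain ⟨g1, g2⟩ := runX_IH hct hC hdl ts X st 0 h
  exact ⟨goodX_of_ih g1, g2⟩

/-- **soundness of a chunk** -/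
theorem runXB_sound (hct : CtOK ct) (hC : ∀ z φ, H z φ → Cf z φ)
    (hdl : ∀ X r, dl' X r = true → GoodX H P X) {ts : List ℕ} {B : List ℕ}
    (h : runXB ct dl' ts B = true) : AGX H P B := by
  cases B with
  | nil => exact AGX_nil
  | cons X B =>
    have h' : runX ct dl' ts X B 0 = true := h
    obtain ⟨h1, h2⟩ := runX_sound hct hC hdl h'
    intro Y hY
    rcases List.mem_cons.1 hY with hY | hY
    · rw [hY]; exact h1
    · exact h2 Y hY

lemma dX0_sound : ∀ X r, dX0 X r = true → GoodX H P X :=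
  fun _ _ hd => absurd hd (by show ¬ (false = true); simp)

theorem runXB0_sound (hct : CtOK ct) (hC : ∀ z φ, H z φ → Cf z φ) {ts : List ℕ} {B : List ℕ}
    (h : runXB ct dX0 ts B = true) : AGX H P B :=
  runXB_sound hct hC dX0_sound h

/-- a leaf function with payloads -/
theorem dlP_sound {d : Nat → Nat → Nat → Nat → Bool}
    (hd : ∀ L D r, d L 0 D r = true → Good H P L 0) (T : List ℕ) (S : ℕ) :
    ∀ X r, dlP d T S X r = true → GoodX H P X := by
  intro X r h
  have h' : d X 0 (pay T S (Nat.div r 16)) (Nat.mod r 16) = true := h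
  intro z φ hH hB _
  refine hd X _ _ h' z φ hH hB ⟨fun i j _ _ _ _ hb => ?_, fun i j _ _ hb => ?_⟩
  · rw [Nat.zero_testBit] at hb; exact absurd hb (by simp)
  · rw [Nat.zero_testBit] at hb; exact absurd hb (by simp)

lemma nthN_mem (B : List ℕ) (r : ℕ) : nthN B r ∈ B ∨ nthN B r = 0 := by
  induction B generalizing r with
  | nil => exact Or.inr rfl
  | cons p B ih =>
    cases r with
    | zero => exact Or.inl (List.mem_cons_self ..)
    | succ r =>
      rcases ih r with h | h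
      · exact Or.inl (List.mem_cons_of_mem _ h)
      · exact Or.inr h

theorem dlX_sound {B : List ℕ} (hB : AGX H P B) : ∀ X r, dlX B X r = true → GoodX H P X := by
  intro X r h
  have e := Nat.eq_of_beq_eq_true h
  rcases nthN_mem B r with g | g
  · rw [← e]; exact hB _ g
  · rw [g] at e
    intro z φ _ hz _
    rw [← e] at hz
    exact (not_InB_zero hz).elim

/-- **assembly of one root** -/
theorem topX_sound (hct : CtOK ct) (hC : ∀ z φ, H z φ → Cf z φ) {B : List ℕ} (hB : AGX H P B)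
    {ts : List ℕ} {X : ℕ} (h : runX ct (dlX B) ts X [] 0 = true) : GoodX H P X :=
  (runX_sound hct hC (dlX_sound hB) h).1

end Pool.Agent.Helper54.KA
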