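import Mathlib

set_option autoImplicit false

/-! # Packed numbers with fields of 32 bits -/

namespace Pool.Agent.Helper54.KA

open Finset

/-- packed number -/
def pk (f : ℕ → ℕ) (n : ℕ) : ℕ := ∑ k ∈ range n, f k * 2 ^ (32 * k)

lemma pk_succ (f : ℕ → ℕ) (n : ℕ) : pk f (n + 1) = pk f n + f n * 2 ^ (32 * n) :=
  sum_range_succ _ _

lemma pk_lt {f : ℕ → ℕ} {n : ℕ} (h : ∀ k < n, f k < 2 ^ 32) : pk f n < 2 ^ (32 * n) := by
  induction n with
  | zero => simp [pk]
  | succ n ih =>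
    rw [pk_succ]
    have h1 := ih (fun k hk => h k (by omega))
    have h2 : f n + 1 ≤ 2 ^ 32 := h n (by omega)
    have e : 2 ^ (32 * (n + 1)) = 2 ^ (32 * n) * 2 ^ 32 := by rw [← pow_add]; ring_nf
    rw [e]
    nlinarith [Nat.mul_le_mul_left (2 ^ (32 * n)) h2]

lemma pk_add (f g : ℕ → ℕ) (n : ℕ) : pk (fun k => f k + g k) n = pk f n + pk g n := by
  unfold pk; rw [← sum_add_distrib]; exact sum_congr rfl fun k _ => by ring

lemma pk_mul (c : ℕ) (f : ℕ → ℕ) (n : ℕ) : pk (fun k => c * f k) n = c * pk f n := by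
  unfold pk; rw [mul_sum]; exact sum_congr rfl fun k _ => by ring

lemma pk_congr {f g : ℕ → ℕ} {n : ℕ} (h : ∀ k < n, f k = g k) : pk f n = pk g n :=
  sum_congr rfl fun k hk => by rw [h k (mem_range.1 hk)]

/-- a split of the sum -/
lemma pk_split (f : ℕ → ℕ) (j m : ℕ) :
    pk f (j + m) = pk f j + 2 ^ (32 * j) * pk (fun k => f (k + j)) m := by
  induction m with
  | zero => simp [pk]
  | succ m ih =>
    have e : 2 ^ (32 * (j + m)) = 2 ^ (32 * j) * 2 ^ (32 * m) := by rw [← pow_add]; ring_nf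
    rw [← add_assoc, pk_succ, ih, pk_succ, e, add_comm m j]
    ring

lemma pk_div {f : ℕ → ℕ} {j m : ℕ} (h : ∀ k < j, f k < 2 ^ 32) :
    pk f (j + m) / 2 ^ (32 * j) = pk (fun k => f (k + j)) m := by
  rw [pk_split, Nat.add_mul_div_left _ _ (by positivity), Nat.div_eq_of_lt (pk_lt h), zero_add]

lemma pk_mod {f : ℕ → ℕ} {j m : ℕ} (h : ∀ k < j, f k < 2 ^ 32) :
    pk f (j + m) % 2 ^ (32 * j) = pk f j := by
  rw [pk_split, Nat.add_mul_mod_self_left, Nat.mod_eq_of_lt (pk_lt h)]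

lemma pk_one (f : ℕ → ℕ) : pk f 1 = f 0 := by simp [pk]

/-- extraction of a field -/
lemma pk_field {f : ℕ → ℕ} {j n : ℕ} (hj : j < n) (h : ∀ k < j + 1, f k < 2 ^ 32) :
    pk f n / 2 ^ (32 * j) % 2 ^ 32 = f j := by
  obtain ⟨m, rfl⟩ := Nat.exists_eq_add_of_lt hj
  rw [show j + m + 1 = j + (1 + m) by ring, pk_div (fun k hk => h k (by omega))]
  have h1 := pk_mod (f := fun k => f (k + j)) (j := 1) (m := m)
    (fun k hk => h (k + j) (by omega))
  rw [mul_one] at h1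
  rw [h1, pk_one, zero_add]

lemma pk_inj {f g : ℕ → ℕ} {n : ℕ} (hf : ∀ k < n, f k < 2 ^ 32) (hg : ∀ k < n, g k < 2 ^ 32)
    (h : pk f n = pk g n) : ∀ k < n, f k = g k := by
  intro k hk
  have h1 := pk_field (f := f) hk (fun i hi => hf i (by omega))
  have h2 := pk_field (f := g) hk (fun i hi => hg i (by omega))
  rw [← h1, ← h2, h]

/-- a single field -/
def sg (a v : ℕ) : ℕ → ℕ := fun k => if k = a then v else 0

lemma pk_sg {a n : ℕ} (v : ℕ) (h : a < n) : pk (sg a v) n = v * 2 ^ (32 * a) := by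
  unfold pk sg
  rw [sum_eq_single a]
  · simp
  · intro b _ hb; simp [hb]
  · intro hc; exact absurd (mem_range.2 h) hc

/-- change of one field of an arbitrary number -/
lemma upd_field {U U' k c' : ℕ} (hc : c' < 2 ^ 32)
    (h : U' + U / 2 ^ (32 * k) % 2 ^ 32 * 2 ^ (32 * k) = U + c' * 2 ^ (32 * k)) (j : ℕ) :
    U' / 2 ^ (32 * j) % 2 ^ 32 = if j = k then c' else U / 2 ^ (32 * j) % 2 ^ 32 := by
  set K := 2 ^ (32 * k) with hK
  have hK0 : 0 < K := by positivity
  set a := U % K with ha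
  set Y := U / K with hY
  have e1 : U = a + K * Y := by rw [ha, hY]; exact (Nat.mod_add_div U K).symm
  set c := Y % 2 ^ 32 with hcd
  set b := Y / 2 ^ 32 with hb
  have e2 : Y = c + 2 ^ 32 * b := (Nat.mod_add_div Y (2 ^ 32)).symm
  have e3 : U' = a + K * (c' + 2 ^ 32 * b) := by
    have : U' + c * K = a + K * (c + 2 ^ 32 * b) + c' * K := by rw [← e2, ← e1]; exact h
    have h2 : a + K * (c + 2 ^ 32 * b) + c' * K = a + K * (c' + 2 ^ 32 * b) + c * K := by ring
    rw [h2] at this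
    exact Nat.add_right_cancel this
  have ha' : a < K := Nat.mod_lt _ hK0
  rcases lt_trichotomy j k with hj | hj | hj
  · -- lower fields
    rw [if_neg (by omega)]
    obtain ⟨d, rfl⟩ := Nat.exists_eq_add_of_lt hj
    have eK : K = 2 ^ (32 * j) * (2 ^ 32 * 2 ^ (32 * d)) := by
      rw [hK, ← pow_add, ← pow_add]; ring_nf
    have key : ∀ Z : ℕ, (a + K * Z) / 2 ^ (32 * j) % 2 ^ 32 = a / 2 ^ (32 * j) % 2 ^ 32 := by
      intro Z
      rw [eK, mul_assoc, Nat.add_mul_div_left _ _ (by positivity), mul_assoc,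
        Nat.add_mul_mod_self_left]
    rw [e3, e1, key, key]
  · subst hj
    rw [if_pos rfl, e3, Nat.add_mul_div_left _ _ hK0, Nat.div_eq_of_lt ha', zero_add,
      Nat.add_mul_mod_self_left, Nat.mod_eq_of_lt hc]
  · rw [if_neg (by omega)]
    obtain ⟨d, rfl⟩ := Nat.exists_eq_add_of_lt hj
    have eJ : 2 ^ (32 * (k + d + 1)) = K * 2 ^ 32 * 2 ^ (32 * d) := by
      rw [hK, ← pow_add, ← pow_add]; ring_nf
    have key : ∀ x : ℕ, x < 2 ^ 32 → (a + K * (x + 2 ^ 32 * b)) / 2 ^ (32 * (k + d + 1)) =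
        b / 2 ^ (32 * d) := by
      intro x hx
      rw [eJ, ← Nat.div_div_eq_div_mul, ← Nat.div_div_eq_div_mul,
        Nat.add_mul_div_left _ _ hK0, Nat.div_eq_of_lt ha', zero_add,
        Nat.add_mul_div_left _ _ (by positivity), Nat.div_eq_of_lt hx, zero_add]
    rw [e3, e1, e2, key c' hc, key c (Nat.mod_lt _ (by positivity))]

end Pool.Agent.Helper54.KA
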