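import Pool.Agent.Helper54.KA.Edge

set_option autoImplicit false

/-! # The runner (computation only)

Tokens of 20 bits. Edge: `m` (5 bits, nonzero), `i`, `j` (4 bits each), code (5 bits), bit 18 zero,
bit 19 marks the last edge of a leaf. Structural: `0` (5 bits), operation (2 bits), then
0 split: node `k` (4 bits), cut (9 bits); 1 sign branch: `i`, `j` (4 bits each); 2 payload (13 bits)
for another kind of leaf; 3 end of such a leaf, parameter (13 bits). -/

namespace Pool.Agent.Helper54.KA

/-- stack of boxes (heights, flags) -/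
inductive Stk : Type
  | nil : Stk
  | cons (L f : Nat) (s : Stk) : Stk

/-- `2^31` in each of the 11 fields -/
def O31 : Nat := 0x8000000080000000800000008000000080000000800000008000000080000000800000008000000080000000

/-- distance from `2^31` -/
noncomputable def ab (r : Nat) : Nat := fz r fun r => Nat.add (Nat.sub r 2147483648) (Nat.sub 2147483648 r)

/-- field `k` -/
def fd (X k : Nat) : Nat := Nat.mod (Nat.shiftRight X (Nat.mul 32 k)) 4294967296

/-- sum of the distances of the fields `1..11` from `2^31` -/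
noncomputable def abS (X : Nat) : Nat :=
  cb (Nat.beq (Nat.shiftRight X 32) O31) 0
    (Nat.add (ab (fd X 1)) (Nat.add (ab (fd X 2)) (Nat.add (ab (fd X 3)) (Nat.add (ab (fd X 4))
      (Nat.add (ab (fd X 5)) (Nat.add (ab (fd X 6)) (Nat.add (ab (fd X 7)) (Nat.add (ab (fd X 8))
        (Nat.add (ab (fd X 9)) (Nat.add (ab (fd X 10)) (ab (fd X 11))))))))))))

/-- the field of the degrees -/
def fD (Q : Nat) : Nat := Nat.mod (Nat.shiftRight Q 384) (Nat.pow 2 352)

/-- final check of a leaf -/
noncomputable def fin (Q : Nat) : Bool :=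
  fz Q fun Q =>
  cb (Nat.ble (Nat.shiftRight Q 1152) 1023)
    (cb (Nat.beq (Nat.mul 2 (Nat.mod (Nat.shiftRight Q 736) (Nat.pow 2 352))) (fD Q))
      (fz (Nat.sub (Nat.add (Nat.mod Q (Nat.pow 2 384)) (Nat.shiftLeft O31 32))
          (Nat.mul 2251799813685248 (fD Q))) fun X =>
        Nat.ble (Nat.succ (Nat.add (Nat.mul 411776 (fd Q 35)) (abS X))) (Nat.mul 2 (fd Q 34)))
      false) false

/-- tagged number (the low 32 bits serve as a hash value) -/
def tg (X : Nat) : Nat := Nat.add (Nat.shiftLeft X 32) (Nat.mod X 4294967291)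

/-- cut codes: special point `32768 + s0 q`, other nodes `b + s q` -/
noncomputable def cutG (b s s0 k q : Nat) : Nat :=
  cb (Nat.beq k 0) (Nat.add 32768 (Nat.mul s0 q)) (Nat.add b (Nat.mul s q))

/-- cut rule A: special point `32768 + 2 q`, other nodes `768 + 32 q` -/
noncomputable def ctA : Nat → Nat → Nat := cutG 768 32 2

/-- cut rule M: special point `32768 + q`, other nodes `768 + 32 q` -/
noncomputable def ctM : Nat → Nat → Nat := cutG 768 32 1

/-- cut rule B: special point `32768 + q`, other nodes `1280 + 16 q` -/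
noncomputable def ctB : Nat → Nat → Nat := cutG 1280 16 1

/-- left half of a split of a tagged box -/
noncomputable def cutL (L k X : Nat) : Nat :=
  fz (Nat.sub (Nat.shiftRight L 32) (Nat.shiftLeft (Nat.sub (Nat.mod (Nat.shiftRight L
    (Nat.add (Nat.mul 32 k) 48)) 65536) X) (Nat.add (Nat.mul 32 k) 16))) tg

/-- right half of a split of a tagged box -/
noncomputable def cutR (L k X : Nat) : Nat :=
  fz (Nat.add (Nat.shiftRight L 32) (Nat.shiftLeft (Nat.sub X (Nat.mod (Nat.shiftRight L
    (Nat.add (Nat.mul 32 k) 32)) 65536)) (Nat.mul 32 k))) tg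

/-- flags of an edge token are set -/
noncomputable def okF (q f : Nat) : Bool :=
  cb (Nat.ble q 3071) true
    (Nat.beq (Nat.mod (Nat.shiftRight f (Nat.add (Nat.mod q 256) (cb (Nat.ble q 6143) 32 288))) 2) 1)

/-- set a flag -/
noncomputable def stF (f i j : Nat) : Nat :=
  fz (Nat.lor (Nat.shiftRight f 32) (Nat.shiftLeft 1 (Nat.add i (Nat.mul 16 j)))) tg

/-- lower code of the special point if the edge `q` is flagged, else `0` -/
noncomputable def xsA (q L : Nat) : Nat :=
  cb (Nat.ble q 3071) 0 (Nat.mod (Nat.shiftRight L 32) 65536)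

/-- contribution of the edge `q` in the box `L` (the inner call is found in the cache) -/
noncomputable def wA (q L : Nat) : Nat :=
  fz (xsA q L) fun xs => fz (fd L (Nat.succ (Nat.mod q 16))) fun a =>
    fz (fd L (Nat.succ (Nat.mod (Nat.div q 16) 16))) fun b => Nat.add (eW xs q a b) 0

/-- type of the continuation: box, flags, stack, accumulator, payload -/
abbrev Ct : Type := Nat → Nat → Stk → Nat → Nat → Bool

/-- continue with the next box of the stack -/
noncomputable def pop (ih : Ct) (st : Stk) : Bool :=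
  Stk.rec (motive := fun _ => Bool) true (fun A g s _ => ih A g s 0 0) st

/-- end of an edge token -/
noncomputable def stF2 (ih : Ct) (t L f : Nat) (st : Stk) (Q : Nat) : Bool :=
  cb (Nat.ble t 524287) (ih L f st Q 0) (cb (fin Q) (pop ih st) false)

/-- edge token -/
noncomputable def stE (ih : Ct) (t q L f : Nat) (st : Stk) (Q : Nat) : Bool :=
  cb (okF q f) (stF2 ih t L f st (Nat.add Q (Nat.mul (Nat.mod t 32) (wA q L)))) false

/-- split token -/
noncomputable def stS (ih : Ct) (k X L f : Nat) (st : Stk) : Bool :=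
  cb (Nat.ble k 10) (fz (cutL L k X) fun A => fz (cutR L k X) fun B => ih A f (Stk.cons B f st) 0 0)
    false

/-- sign token -/
noncomputable def stG (ih : Ct) (i j L f : Nat) (st : Stk) : Bool :=
  cb (and (and (Nat.ble 1 i) (Nat.ble 1 j)) (and (Nat.ble i 10) (Nat.ble j 10)))
    (cb (Nat.beq i j) false (fz (stF f i j) fun f1 => fz (stF f j i) fun f2 => ih L f1 (Stk.cons L f2 st) 0 0)) false

/-- structural token with operation `o` and rest `r` -/
noncomputable def stT (ct : Nat → Nat → Nat) (dl : Nat → Nat → Nat → Nat → Bool) (ih : Ct)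
    (o r L f : Nat) (st : Stk) (D : Nat) : Bool :=
  cb (Nat.beq o 0)
    (fz (Nat.mod r 16) fun k => fz (ct k (Nat.mod (Nat.div r 16) 512)) fun X => stS ih k X L f st)
    (cb (Nat.beq o 1)
      (fz (Nat.mod r 16) fun i => fz (Nat.mod (Nat.div r 16) 16) fun j => stG ih i j L f st)
      (cb (Nat.beq o 2) (ih L f st 0 (Nat.add (Nat.mul 8192 D) r))
        (cb (dl L f D r) (pop ih st) false)))

/-- one token -/
noncomputable def step (ct : Nat → Nat → Nat) (dl : Nat → Nat → Nat → Nat → Bool) (t : Nat)
    (ih : Ct) (L f : Nat) (st : Stk) (Q D : Nat) : Bool :=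
  cb (Nat.beq (Nat.mod t 32) 0)
    (fz (Nat.mod (Nat.div t 32) 4) fun o => fz (Nat.div t 128) fun r => stT ct dl ih o r L f st D)
    (fz (Nat.mod (Nat.div t 32) 8192) fun q => stE ih t q L f st Q)

/-- the runner; `ct` is the cut rule, `dl L f D r` is the check of the other kind of leaf -/
noncomputable def run (ct : Nat → Nat → Nat) (dl : Nat → Nat → Nat → Nat → Bool) (ts : List Nat) :
    Nat → Nat → Stk → Nat → Nat → Bool :=
  List.rec (motive := fun _ => Nat → Nat → Stk → Nat → Nat → Bool) (fun _ _ _ _ _ => false)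
    (fun t _ ih L f st Q D => fz t fun t => step ct dl t ih L f st Q D) ts

/-- no other kind of leaf -/
def dl0 (_ _ _ _ : Nat) : Bool := false

/-- 16 tokens of a number -/
noncomputable def d16 (n : Nat) (acc : List Nat) : List Nat :=
  List.cons (Nat.mod n 1048576) (List.cons (Nat.mod (Nat.shiftRight n 20) 1048576)
  (List.cons (Nat.mod (Nat.shiftRight n 40) 1048576) (List.cons (Nat.mod (Nat.shiftRight n 60) 1048576)
  (List.cons (Nat.mod (Nat.shiftRight n 80) 1048576) (List.cons (Nat.mod (Nat.shiftRight n 100) 1048576)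
  (List.cons (Nat.mod (Nat.shiftRight n 120) 1048576) (List.cons (Nat.mod (Nat.shiftRight n 140) 1048576)
  (List.cons (Nat.mod (Nat.shiftRight n 160) 1048576) (List.cons (Nat.mod (Nat.shiftRight n 180) 1048576)
  (List.cons (Nat.mod (Nat.shiftRight n 200) 1048576) (List.cons (Nat.mod (Nat.shiftRight n 220) 1048576)
  (List.cons (Nat.mod (Nat.shiftRight n 240) 1048576) (List.cons (Nat.mod (Nat.shiftRight n 260) 1048576)
  (List.cons (Nat.mod (Nat.shiftRight n 280) 1048576) (List.cons (Nat.mod (Nat.shiftRight n 300) 1048576)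
    acc)))))))))))))))

/-- `16 · 2^j` tokens of a number -/
noncomputable def dec (j : Nat) : Nat → List Nat → List Nat :=
  Nat.rec (motive := fun _ => Nat → List Nat → List Nat) (fun n acc => fz n fun n => d16 n acc)
    (fun j ih n acc => fz n fun n =>
      ih (Nat.mod n (Nat.pow 2 (Nat.mul 320 (Nat.pow 2 j))))
        (ih (Nat.shiftRight n (Nat.mul 320 (Nat.pow 2 j))) acc)) j

end Pool.Agent.Helper54.KA
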