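import Pool.Agent.Helper54.KA.EdgeT
import Pool.Agent.Helper54.KA.Run
import Pool.Agent.Helper54.KA.Pk

set_option autoImplicit false

/-! # Accumulator and final check of an M leaf: soundness -/

namespace Pool.Agent.Helper54.KA

open Real Finset

/-- forward angle from `i` to `j` -/
noncomputable def dl (φ : ℕ → ℝ) (i j : ℕ) : ℝ := φ j - φ i + (if j ≤ i then 2 * π else 0)

/-- fields of the contribution of an edge -/
def gW (i j h c s t : ℕ) : ℕ → ℕ := fun k =>
  sg 0 h k + sg 34 c k + sg 36 1 k + sg 35 (if j ≤ i then 1 else 0) k +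
    (sg (i + 1) s k + sg (i + 12) 1 k + sg (i + 23) 1 k) + (sg (j + 1) t k + sg (j + 12) 1 k)

/-- valid contribution -/
def TOK (φ l : ℕ → ℝ) (w : ℕ) : Prop := w = 0 ∨ ∃ i j h c s t : ℕ, i ≤ 10 ∧ j ≤ 10 ∧ h < 2 ^ 20 ∧
  c < 2 ^ 20 ∧ s < 2 ^ 20 ∧ t < 2 ^ 20 ∧ w = pk (gW i j h c s t) 37 ∧
  (c : ℝ) + (s - 524288) * l i + (t - 524288) * l j ≤ 32768 * dl φ i j

/-- bounds of the fields -/
structure Bd (f : ℕ → ℕ) : Prop where
  b0 : f 0 ≤ 2 ^ 20 * f 36
  b1 : ∀ i < 11, f (i + 1) ≤ 2 ^ 20 * f (i + 12)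
  b2 : ∀ i < 11, f (i + 12) ≤ 2 * f 36
  b3 : ∀ i < 11, f (i + 23) ≤ f 36
  b4 : f 34 ≤ 2 ^ 20 * f 36
  b5 : f 35 ≤ f 36

lemma Bd.add {f g : ℕ → ℕ} (m : ℕ) (hf : Bd f) (hg : Bd g) : Bd (fun k => f k + m * g k) := by
  constructor
  · have := hf.b0; have := Nat.mul_le_mul_left m hg.b0
    show f 0 + m * g 0 ≤ 2 ^ 20 * (f 36 + m * g 36)
    nlinarith
  · intro i hi
    have := hf.b1 i hi; have := Nat.mul_le_mul_left m (hg.b1 i hi)
    show f (i + 1) + m * g (i + 1) ≤ 2 ^ 20 * (f (i + 12) + m * g (i + 12))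
    nlinarith
  · intro i hi
    have := hf.b2 i hi; have := Nat.mul_le_mul_left m (hg.b2 i hi)
    show f (i + 12) + m * g (i + 12) ≤ 2 * (f 36 + m * g 36)
    nlinarith
  · intro i hi
    have := hf.b3 i hi; have := Nat.mul_le_mul_left m (hg.b3 i hi)
    show f (i + 23) + m * g (i + 23) ≤ f 36 + m * g 36
    nlinarith
  · have := hf.b4; have := Nat.mul_le_mul_left m hg.b4
    show f 34 + m * g 34 ≤ 2 ^ 20 * (f 36 + m * g 36)
    nlinarith
  · have := hf.b5; have := Nat.mul_le_mul_left m hg.b5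
    show f 35 + m * g 35 ≤ f 36 + m * g 36
    nlinarith

lemma sg_ne {a v k : ℕ} (h : k ≠ a) : sg a v k = 0 := if_neg h

lemma sg_self (a v : ℕ) : sg a v a = v := if_pos rfl

lemma sg_shift (i v a d : ℕ) : sg (i + d) v (a + d) = if a = i then v else 0 := by
  unfold sg
  by_cases h : a = i
  · rw [if_pos h, if_pos (by rw [h])]
  · rw [if_neg h, if_neg (fun hc => h (Nat.add_right_cancel hc))]

lemma gW0 (i j h c s t : ℕ) : gW i j h c s t 0 = h := by
  unfold gW
  rw [sg_self, sg_ne (by omega), sg_ne (by omega), sg_ne (by omega), sg_ne (by omega),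
    sg_ne (by omega), sg_ne (by omega), sg_ne (by omega), sg_ne (by omega)]
  omega

lemma gW1 {i j a : ℕ} (h c s t : ℕ) (hi : i ≤ 10) (hj : j ≤ 10) (ha : a < 11) :
    gW i j h c s t (a + 1) = (if a = i then s else 0) + (if a = j then t else 0) := by
  have e1 : sg 0 h (a + 1) = 0 := sg_ne (by omega)
  have e2 : sg 34 c (a + 1) = 0 := sg_ne (by omega)
  have e3 : sg 36 1 (a + 1) = 0 := sg_ne (by omega)
  have e4 : sg 35 (if j ≤ i then 1 else 0) (a + 1) = 0 := sg_ne (by omega)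
  have e5 : sg (i + 12) 1 (a + 1) = 0 := sg_ne (by omega)
  have e6 : sg (i + 23) 1 (a + 1) = 0 := sg_ne (by omega)
  have e7 : sg (j + 12) 1 (a + 1) = 0 := sg_ne (by omega)
  have e8 := sg_shift i s a 1
  have e9 := sg_shift j t a 1
  unfold gW
  rw [e1, e2, e3, e4, e5, e6, e7, e8, e9]
  omega

lemma gW12 {i j a : ℕ} (h c s t : ℕ) (hi : i ≤ 10) (hj : j ≤ 10) (ha : a < 11) :
    gW i j h c s t (a + 12) = (if a = i then 1 else 0) + (if a = j then 1 else 0) := by
  have e1 : sg 0 h (a + 12) = 0 := sg_ne (by omega)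
  have e2 : sg 34 c (a + 12) = 0 := sg_ne (by omega)
  have e3 : sg 36 1 (a + 12) = 0 := sg_ne (by omega)
  have e4 : sg 35 (if j ≤ i then 1 else 0) (a + 12) = 0 := sg_ne (by omega)
  have e5 : sg (i + 1) s (a + 12) = 0 := sg_ne (by omega)
  have e6 : sg (i + 23) 1 (a + 12) = 0 := sg_ne (by omega)
  have e7 : sg (j + 1) t (a + 12) = 0 := sg_ne (by omega)
  have e8 := sg_shift i 1 a 12
  have e9 := sg_shift j 1 a 12
  unfold gW
  rw [e1, e2, e3, e4, e5, e6, e7, e8, e9]
  omega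

lemma gW23 {i j a : ℕ} (h c s t : ℕ) (hi : i ≤ 10) (hj : j ≤ 10) (ha : a < 11) :
    gW i j h c s t (a + 23) = (if a = i then 1 else 0) := by
  have e1 : sg 0 h (a + 23) = 0 := sg_ne (by omega)
  have e2 : sg 34 c (a + 23) = 0 := sg_ne (by omega)
  have e3 : sg 36 1 (a + 23) = 0 := sg_ne (by omega)
  have e4 : sg 35 (if j ≤ i then 1 else 0) (a + 23) = 0 := sg_ne (by omega)
  have e5 : sg (i + 1) s (a + 23) = 0 := sg_ne (by omega)
  have e6 : sg (i + 12) 1 (a + 23) = 0 := sg_ne (by omega)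
  have e7 : sg (j + 1) t (a + 23) = 0 := sg_ne (by omega)
  have e8 : sg (j + 12) 1 (a + 23) = 0 := sg_ne (by omega)
  have e9 := sg_shift i 1 a 23
  unfold gW
  rw [e1, e2, e3, e4, e5, e6, e7, e8, e9]
  omega

lemma gW34 {i j : ℕ} (h c s t : ℕ) (hi : i ≤ 10) (hj : j ≤ 10) : gW i j h c s t 34 = c := by
  have e1 : sg 0 h 34 = 0 := sg_ne (by omega)
  have e2 : sg 36 1 34 = 0 := sg_ne (by omega)
  have e3 : sg 35 (if j ≤ i then 1 else 0) 34 = 0 := sg_ne (by omega)
  have e4 : sg (i + 1) s 34 = 0 := sg_ne (by omega)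
  have e5 : sg (i + 12) 1 34 = 0 := sg_ne (by omega)
  have e6 : sg (i + 23) 1 34 = 0 := sg_ne (by omega)
  have e7 : sg (j + 1) t 34 = 0 := sg_ne (by omega)
  have e8 : sg (j + 12) 1 34 = 0 := sg_ne (by omega)
  unfold gW
  rw [e1, e2, e3, e4, e5, e6, e7, e8, sg_self]
  omega

lemma gW35 {i j : ℕ} (h c s t : ℕ) (hi : i ≤ 10) (hj : j ≤ 10) :
    gW i j h c s t 35 = if j ≤ i then 1 else 0 := by
  have e1 : sg 0 h 35 = 0 := sg_ne (by omega)
  have e2 : sg 36 1 35 = 0 := sg_ne (by omega)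
  have e3 : sg 34 c 35 = 0 := sg_ne (by omega)
  have e4 : sg (i + 1) s 35 = 0 := sg_ne (by omega)
  have e5 : sg (i + 12) 1 35 = 0 := sg_ne (by omega)
  have e6 : sg (i + 23) 1 35 = 0 := sg_ne (by omega)
  have e7 : sg (j + 1) t 35 = 0 := sg_ne (by omega)
  have e8 : sg (j + 12) 1 35 = 0 := sg_ne (by omega)
  unfold gW
  rw [e1, e2, e3, e4, e5, e6, e7, e8, sg_self]
  omega

lemma gW36 {i j : ℕ} (h c s t : ℕ) (hi : i ≤ 10) (hj : j ≤ 10) : gW i j h c s t 36 = 1 := by
  have e1 : sg 0 h 36 = 0 := sg_ne (by omega)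
  have e2 : sg 35 (if j ≤ i then 1 else 0) 36 = 0 := sg_ne (by omega)
  have e3 : sg 34 c 36 = 0 := sg_ne (by omega)
  have e4 : sg (i + 1) s 36 = 0 := sg_ne (by omega)
  have e5 : sg (i + 12) 1 36 = 0 := sg_ne (by omega)
  have e6 : sg (i + 23) 1 36 = 0 := sg_ne (by omega)
  have e7 : sg (j + 1) t 36 = 0 := sg_ne (by omega)
  have e8 : sg (j + 12) 1 36 = 0 := sg_ne (by omega)
  unfold gW
  rw [e1, e2, e3, e4, e5, e6, e7, e8, sg_self]

lemma Bd_gW {i j h c s t : ℕ} (hi : i ≤ 10) (hj : j ≤ 10) (hh : h < 2 ^ 20) (hc : c < 2 ^ 20)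
    (hs : s < 2 ^ 20) (ht : t < 2 ^ 20) : Bd (gW i j h c s t) := by
  constructor
  · rw [gW0, gW36 h c s t hi hj]; omega
  · intro a ha
    rw [gW1 h c s t hi hj ha, gW12 h c s t hi hj ha]
    split_ifs <;> omega
  · intro a ha
    rw [gW12 h c s t hi hj ha, gW36 h c s t hi hj]
    split_ifs <;> omega
  · intro a ha
    rw [gW23 h c s t hi hj ha, gW36 h c s t hi hj]
    split_ifs <;> omega
  · rw [gW34 h c s t hi hj, gW36 h c s t hi hj]; omega
  · rw [gW35 h c s t hi hj, gW36 h c s t hi hj]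
    split_ifs <;> omega

/-- the linear functional of the fields -/
noncomputable def Lf (φ l : ℕ → ℝ) (f : ℕ → ℕ) : ℝ :=
  32768 * (∑ i ∈ range 11, ((f (i + 12) : ℝ) - 2 * f (i + 23)) * φ i + 2 * π * f 35) -
    (f 34 + ∑ i ∈ range 11, l i * ((f (i + 1) : ℝ) - 524288 * f (i + 12)))

lemma Lf_add (φ l : ℕ → ℝ) (f g : ℕ → ℕ) (m : ℕ) :
    Lf φ l (fun k => f k + m * g k) = Lf φ l f + m * Lf φ l g := by
  unfold Lf
  simp only [sum_range_succ, range_zero, sum_empty]
  push_cast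
  ring

lemma Lf_gW {φ l : ℕ → ℝ} {i j h c s t : ℕ} (hi : i ≤ 10) (hj : j ≤ 10) :
    Lf φ l (gW i j h c s t) =
      32768 * dl φ i j - (c + (s - 524288) * l i + (t - 524288) * l j) := by
  have e1 : ∀ a ∈ range 11, (((gW i j h c s t (a + 12) : ℕ) : ℝ) - 2 * (gW i j h c s t (a + 23) : ℕ)) * φ a =
      (if a = j then φ a else 0) - (if a = i then φ a else 0) := by
    intro a ha
    rw [mem_range] at ha
    rw [gW12 h c s t hi hj ha, gW23 h c s t hi hj ha]
    split_ifs <;> push_cast <;> ring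
  have e2 : ∀ a ∈ range 11, l a * (((gW i j h c s t (a + 1) : ℕ) : ℝ) - 524288 * (gW i j h c s t (a + 12) : ℕ)) =
      (if a = i then ((s : ℝ) - 524288) * l a else 0) + (if a = j then ((t : ℝ) - 524288) * l a else 0) := by
    intro a ha
    rw [mem_range] at ha
    rw [gW12 h c s t hi hj ha, gW1 h c s t hi hj ha]
    split_ifs <;> push_cast <;> ring
  have e3 := gW34 h c s t hi hj
  have e4 := gW35 h c s t hi hj
  unfold Lf
  rw [sum_congr rfl e1, sum_congr rfl e2, sum_sub_distrib, sum_add_distrib, e3, e4]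
  rw [sum_ite_eq', sum_ite_eq', sum_ite_eq', sum_ite_eq',
    if_pos (mem_range.2 (by omega)), if_pos (mem_range.2 (by omega)),
    if_pos (mem_range.2 (by omega)), if_pos (mem_range.2 (by omega))]
  unfold dl
  split_ifs <;> push_cast <;> ring

/-- invariant of the accumulator -/
def Inv (φ l : ℕ → ℝ) (Q : ℕ) : Prop := ∃ f : ℕ → ℕ, Q = pk f 37 ∧ Bd f ∧ 0 ≤ Lf φ l f

lemma Inv_zero (φ l : ℕ → ℝ) : Inv φ l 0 := by
  refine ⟨fun _ => 0, by simp [pk], ⟨by simp, by simp, by simp, by simp, by simp, by simp⟩, ?_⟩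
  simp [Lf]

lemma Inv_step {φ l : ℕ → ℝ} {Q w : ℕ} (m : ℕ) (h : Inv φ l Q) (hw : TOK φ l w) :
    Inv φ l (Q + m * w) := by
  obtain ⟨f, hQ, hB, hL⟩ := h
  rcases hw with hw | ⟨i, j, h, c, s, t, hi, hj, hh, hc, hs, ht, hw, hE⟩
  · rw [hw, mul_zero, add_zero]; exact ⟨f, hQ, hB, hL⟩
  · refine ⟨fun k => f k + m * gW i j h c s t k, ?_, hB.add m (Bd_gW hi hj hh hc hs ht), ?_⟩
    · rw [pk_add f (fun k => m * gW i j h c s t k), pk_mul, ← hQ, ← hw]
    · rw [Lf_add, Lf_gW hi hj]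
      have : (0 : ℝ) ≤ m := Nat.cast_nonneg m
      have h2 := mul_nonneg this (sub_nonneg.2 hE)
      linarith

/-! ### the final check -/

lemma ab_cast (r : ℕ) : ((ab r : ℕ) : ℝ) = |(r : ℝ) - 2147483648| := by
  have key : ∀ c : ℕ, (((r - c) + (c - r) : ℕ) : ℝ) = |(r : ℝ) - c| := by
    intro c
    rcases Nat.le_total r c with h | h
    · have h' : (r : ℝ) ≤ c := by exact_mod_cast h
      rw [Nat.sub_eq_zero_of_le h, zero_add, Nat.cast_sub h, abs_of_nonpos (by linarith)]; ring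
    · have h' : (c : ℝ) ≤ r := by exact_mod_cast h
      rw [Nat.sub_eq_zero_of_le h, add_zero, Nat.cast_sub h, abs_of_nonneg (by linarith)]
  have h := key 2147483648
  have e : ab r = (r - 2147483648) + (2147483648 - r) := by
    unfold ab
    rw [fz_eq]
    simp only [Nat.sub_eq, Nat.add_eq]
  rw [e]
  refine h.trans ?_
  norm_num

lemma c32 : (4294967296 : ℕ) = 2 ^ 32 := by norm_num

lemma fd_eq (X k : ℕ) : fd X k = X / 2 ^ (32 * k) % 2 ^ 32 := by
  unfold fd
  rewrite [sr_eq, Nat.mul_eq, md_eq, c32]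
  exact Eq.refl _

set_option exponentiation.threshold 3000 in
lemma O31_eq : O31 = pk (fun _ => 2147483648) 11 := by
  unfold O31 pk
  simp only [sum_range_succ, range_zero, sum_empty]
  norm_num

lemma pw_eq (n : ℕ) : Nat.pow 2 n = 2 ^ n := rfl

lemma fD_eq (Q : ℕ) : fD Q = Q / 2 ^ 384 % 2 ^ 352 := by
  unfold fD
  rewrite [sr_eq, md_eq, pw_eq]
  exact Eq.refl _

lemma shl_eq (a n : ℕ) : Nat.shiftLeft a n = a * 2 ^ n := Nat.shiftLeft_eq a n

lemma fin_eq (Q : ℕ) (h : fin Q = true) : Q / 2 ^ 1152 ≤ 1023 ∧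
    2 * (Q / 2 ^ 736 % 2 ^ 352) = fD Q ∧
    411776 * fd Q 35 + abS (Q % 2 ^ 384 + O31 * 2 ^ 32 - 2251799813685248 * fD Q) + 1 ≤
      2 * fd Q 34 := by
  unfold fin at h
  rewrite [fz_eq, cb_ite] at h
  split_ifs at h with h1
  rewrite [cb_ite] at h
  split_ifs at h with h2
  rewrite [fz_eq] at h
  have g1 := Nat.le_of_ble_eq_true h1
  have g2 := Nat.eq_of_beq_eq_true h2
  have g3 := Nat.le_of_ble_eq_true h
  rewrite [sr_eq] at g1
  rewrite [sr_eq, md_eq, pw_eq, Nat.mul_eq] at g2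
  rewrite [Nat.sub_eq, Nat.mul_eq, Nat.mul_eq, Nat.mul_eq, Nat.add_eq, Nat.add_eq, shl_eq, md_eq,
    pw_eq] at g3
  exact ⟨g1, g2, g3⟩

/-- sum of the distances -/
lemma abS_ge {x : ℕ → ℕ} (hx : ∀ k < 12, x k < 2 ^ 32) :
    ((abS (pk x 12) : ℕ) : ℝ) = ∑ k ∈ range 11, |(x (k + 1) : ℝ) - 2147483648| := by
  have hf : ∀ k < 12, fd (pk x 12) k = x k := by
    intro k hk
    rw [fd_eq]
    exact pk_field hk (fun i hi => hx i (by omega))
  unfold abS
  rw [cb_ite]
  split_ifs with h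
  · rw [Nat.beq_eq, sr_eq] at h
    have h1 : pk x 12 / 2 ^ (32 * 1) = pk (fun k => x (k + 1)) 11 :=
      pk_div (f := x) (j := 1) (m := 11) (fun k hk => hx k (by omega))
    rw [show 32 = 32 * 1 by norm_num, h1, O31_eq] at h
    have h2 := pk_inj (fun k hk => hx (k + 1) (by omega)) (fun _ _ => by norm_num) h
    rw [Nat.cast_zero, sum_eq_zero]
    intro k hk
    rw [h2 k (mem_range.1 hk)]
    norm_num
  · simp only [Nat.add_eq]
    rw [hf 1 (by norm_num), hf 2 (by norm_num), hf 3 (by norm_num), hf 4 (by norm_num),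
      hf 5 (by norm_num), hf 6 (by norm_num), hf 7 (by norm_num), hf 8 (by norm_num),
      hf 9 (by norm_num), hf 10 (by norm_num), hf 11 (by norm_num)]
    push_cast
    simp only [ab_cast, sum_range_succ, range_zero, sum_empty]
    ring

lemma pk_shift (g : ℕ → ℕ) (n : ℕ) :
    pk (fun k => if k = 0 then 0 else g (k - 1)) (n + 1) = 2 ^ 32 * pk g n := by
  rw [add_comm n 1, pk_split, pk_one, if_pos rfl, zero_add, mul_one]
  congr 1

/-- **the final check closes the leaf** -/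
theorem fin_false {φ l : ℕ → ℝ} {Q : ℕ} (hI : Inv φ l Q) (hl : ∀ i < 11, |l i| ≤ 1 / 2)
    (h : fin Q = true) : False := by
  obtain ⟨f, hQ, hB, hL⟩ := hI
  obtain ⟨g1, g2, g3⟩ := fin_eq Q h
  have hM : f 36 ≤ 1023 := by
    have h1 : f 36 * 2 ^ (32 * 36) ≤ Q := by
      rw [hQ, pk_succ]; exact Nat.le_add_left _ _
    have h2 : f 36 ≤ Q / 2 ^ (32 * 36) := (Nat.le_div_iff_mul_le (by positivity)).2 h1
    have h3 : (32 : ℕ) * 36 = 1152 := by norm_num
    rw [h3] at h2
    exact h2.trans g1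
  have T20 : (2 : ℕ) ^ 20 = 1048576 := by norm_num
  have T32 : (2 : ℕ) ^ 32 = 4294967296 := by norm_num
  have B0 := hB.b0
  have B4 := hB.b4
  have B5 := hB.b5
  rw [T20] at B0 B4
  have B1 : ∀ k, 1 ≤ k → k ≤ 11 → f k ≤ 1048576 * f (k + 11) := by
    intro k h1 h2
    have := hB.b1 (k - 1) (by omega)
    rw [T20, show k - 1 + 1 = k by omega, show k - 1 + 12 = k + 11 by omega] at this
    exact this
  have B2 : ∀ k, 1 ≤ k → k ≤ 11 → f (k + 11) ≤ 2046 := by
    intro k h1 h2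
    have := hB.b2 (k - 1) (by omega)
    rw [show k - 1 + 12 = k + 11 by omega] at this
    omega
  have B3 : ∀ k < 11, f (k + 23) ≤ 1023 := fun k hk => (hB.b3 k hk).trans hM
  have bd : ∀ k < 36, f k < 2 ^ 32 := by
    intro k hk
    rw [T32]
    rcases Nat.eq_zero_or_pos k with h0 | h0
    · subst h0; omega
    rcases Nat.lt_or_ge k 12 with h1 | h1
    · have := B1 k h0 (by omega)
      have := B2 k h0 (by omega)
      omega
    rcases Nat.lt_or_ge k 23 with h2 | h2
    · have := B2 (k - 11) (by omega) (by omega)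
      rw [show k - 11 + 11 = k by omega] at this
      omega
    rcases Nat.lt_or_ge k 34 with h3 | h3
    · have := B3 (k - 23) (by omega)
      rw [show k - 23 + 23 = k by omega] at this
      omega
    rcases Nat.lt_or_ge k 35 with h4 | h4
    · have : k = 34 := by omega
      subst this; omega
    · have : k = 35 := by omega
      subst this; omega
  -- the blocks
  have hD : fD Q = pk (fun k => f (k + 12)) 11 := by
    have e1 := pk_div (f := f) (j := 12) (m := 25) (fun k hk => bd k (by omega))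
    have e2 := pk_mod (f := fun k => f (k + 12)) (j := 11) (m := 14)
      (fun k hk => bd (k + 12) (by omega))
    rw [fD_eq, hQ]
    rw [show (384 : ℕ) = 32 * 12 by norm_num, show (352 : ℕ) = 32 * 11 by norm_num]
    rw [show (37 : ℕ) = 12 + 25 by norm_num, e1, show (25 : ℕ) = 11 + 14 by norm_num, e2]
  have hO : Q / 2 ^ 736 % 2 ^ 352 = pk (fun k => f (k + 23)) 11 := by
    have e1 := pk_div (f := f) (j := 23) (m := 14) (fun k hk => bd k (by omega))
    have e2 := pk_mod (f := fun k => f (k + 23)) (j := 11) (m := 3)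
      (fun k hk => bd (k + 23) (by omega))
    rw [hQ]
    rw [show (736 : ℕ) = 32 * 23 by norm_num, show (352 : ℕ) = 32 * 11 by norm_num]
    rw [show (37 : ℕ) = 23 + 14 by norm_num, e1, show (14 : ℕ) = 11 + 3 by norm_num, e2]
  have hP : Q % 2 ^ 384 = pk f 12 := by
    have e2 := pk_mod (f := f) (j := 12) (m := 25) (fun k hk => bd k (by omega))
    rw [hQ, show (384 : ℕ) = 32 * 12 by norm_num, show (37 : ℕ) = 12 + 25 by norm_num, e2]
  rw [hO, hD, ← pk_mul] at g2
  have hbal : ∀ k < 11, 2 * f (k + 23) = f (k + 12) :=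
    pk_inj (f := fun k => 2 * f (k + 23)) (g := fun k => f (k + 12))
      (fun k hk => by have := B3 k hk; rw [T32]; omega) (fun k hk => bd (k + 12) (by omega)) g2
  -- the slopes
  set x : ℕ → ℕ := fun k => if k = 0 then f 0 else f k + 2147483648 - 524288 * f (k + 11) with hx
  set y : ℕ → ℕ := fun k => if k = 0 then 0 else 524288 * f (k - 1 + 12) with hy
  set w : ℕ → ℕ := fun k => if k = 0 then 0 else 2147483648 with hw
  have hxk : ∀ k, 1 ≤ k → k ≤ 11 → x k + 524288 * f (k + 11) = f k + 2147483648 := by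
    intro k h1 h2
    have := B2 k h1 h2
    simp only [hx]
    rw [if_neg (by omega)]
    omega
  have hxlt : ∀ k < 12, x k < 2 ^ 32 := by
    intro k hk
    rw [T32]
    rcases Nat.eq_zero_or_pos k with h0 | h0
    · subst h0
      simp only [hx, if_pos]
      omega
    · have h1 := B1 k h0 (by omega)
      have h2 := B2 k h0 (by omega)
      have h3 := hxk k h0 (by omega)
      omega
  have ey : pk y 12 = 2251799813685248 * fD Q := by
    have e1 := pk_shift (fun k => 524288 * f (k + 12)) 11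
    rw [hD]
    rw [pk_mul 524288 (fun k => f (k + 12))] at e1
    rw [hy, e1, ← mul_assoc, show 2 ^ 32 * 524288 = 2251799813685248 by norm_num]
  have ew : pk w 12 = O31 * 2 ^ 32 := by
    have e1 := pk_shift (fun _ => 2147483648) 11
    rw [hw, e1, O31_eq, mul_comm]
  have ex : pk x 12 + pk y 12 = pk f 12 + pk w 12 := by
    rw [← pk_add, ← pk_add]
    apply pk_congr
    intro k hk
    rcases Nat.eq_zero_or_pos k with h0 | h0
    · subst h0
      simp only [hx, hy, hw, if_pos]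
    · have h3 := hxk k h0 (by omega)
      have e2 : y k = 524288 * f (k + 11) := by
        simp only [hy]
        rw [if_neg (by omega), show k - 1 + 12 = k + 11 by omega]
      have e3 : w k = 2147483648 := by
        simp only [hw]
        rw [if_neg (by omega)]
      rw [e2, e3, h3]
  have hX : Q % 2 ^ 384 + O31 * 2 ^ 32 - 2251799813685248 * fD Q = pk x 12 := by
    rw [hP, ← ew, ← ey, ← ex, Nat.add_sub_cancel]
  rw [hX] at g3
  have f35 : fd Q 35 = f 35 := by
    rw [fd_eq, hQ]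
    exact pk_field (by norm_num) (fun i hi => bd i (by omega))
  have f34 : fd Q 34 = f 34 := by
    rw [fd_eq, hQ]
    exact pk_field (by norm_num) (fun i hi => bd i (by omega))
  rw [f35, f34] at g3
  have g4 : (411776 : ℝ) * f 35 + ((abS (pk x 12) : ℕ) : ℝ) + 1 ≤ 2 * f 34 := by exact_mod_cast g3
  rw [abS_ge hxlt] at g4
  have hR : ∀ k ∈ range 11, |(x (k + 1) : ℝ) - 2147483648| =
      |(f (k + 1) : ℝ) - 524288 * f (k + 12)| := by
    intro k hk
    have h3 := hxk (k + 1) (by omega) (by have := mem_range.1 hk; omega)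
    have h4 : (x (k + 1) : ℝ) + 524288 * f (k + 1 + 11) = f (k + 1) + 2147483648 := by
      exact_mod_cast h3
    have h5 : k + 1 + 11 = k + 12 := by omega
    rw [h5] at h4
    congr 1
    linarith
  rw [sum_congr rfl hR] at g4
  have hlow : -(1 / 2 * ∑ k ∈ range 11, |(f (k + 1) : ℝ) - 524288 * f (k + 12)|) ≤
      ∑ i ∈ range 11, l i * ((f (i + 1) : ℝ) - 524288 * f (i + 12)) := by
    rw [mul_sum, ← sum_neg_distrib]
    apply sum_le_sum
    intro i hi
    have h1 := hl i (mem_range.1 hi)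
    have h2 : |l i * ((f (i + 1) : ℝ) - 524288 * f (i + 12))| ≤
        1 / 2 * |(f (i + 1) : ℝ) - 524288 * f (i + 12)| := by
      rw [abs_mul]; exact mul_le_mul_of_nonneg_right h1 (abs_nonneg _)
    linarith [neg_abs_le (l i * ((f (i + 1) : ℝ) - 524288 * f (i + 12)))]
  have hzero : ∑ i ∈ range 11, ((f (i + 12) : ℝ) - 2 * f (i + 23)) * φ i = 0 := by
    apply sum_eq_zero
    intro i hi
    have h1 := hbal i (mem_range.1 hi)
    have h2 : (2 : ℝ) * f (i + 23) = f (i + 12) := by exact_mod_cast h1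
    rw [h2]; ring
  unfold Lf at hL
  rw [hzero] at hL
  have hpi := Real.pi_lt_d4
  have h35 : (0 : ℝ) ≤ f 35 := Nat.cast_nonneg _
  have h36 : π * f 35 ≤ 3.1416 * f 35 := mul_le_mul_of_nonneg_right hpi.le h35
  generalize ∑ k ∈ range 11, |(f (k + 1) : ℝ) - 524288 * f (k + 12)| = S at *
  generalize ∑ i ∈ range 11, l i * ((f (i + 1) : ℝ) - 524288 * f (i + 12)) = S' at *
  norm_num at h36
  linarith

lemma wW_TOK {φ l : ℕ → ℝ} {q i j v : ℕ} (hi : i ≤ 10) (hj : j ≤ 10)
    (h : EOK v (dl φ i j) (l i) (l j)) : TOK φ l (wW q i j v) := by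
  unfold wW
  rw [cb_ite]
  split_ifs with h0
  · exact Or.inl rfl
  · have hv : v ≠ 0 := fun hc => h0 (by rw [hc]; rfl)
    obtain ⟨c, s, t, e, hc, hs, ht, hE⟩ := h hv
    have T32 : (2 : ℕ) ^ 32 = 4294967296 := by norm_num
    have T64 : (2 : ℕ) ^ 64 = 18446744073709551616 := by norm_num
    have T20 : (2 : ℕ) ^ 20 = 1048576 := by norm_num
    have e1 : v % 4294967296 = c := by
      rw [T32, T64] at e; rw [T20] at hc hs ht; omega
    have e2 : v / 2 ^ 32 % 4294967296 = s := by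
      rw [T32, T64] at e; rw [T20] at hc hs ht; rw [T32]; omega
    have e3 : v / 2 ^ 64 = t := by
      rw [T32, T64] at e; rw [T20] at hc hs ht; rw [T64]; omega
    refine Or.inr ⟨i, j, (v + Nat.shiftLeft q 96) % 1048573, c, s, t, hi, hj, ?_, hc, hs, ht, ?_, hE⟩
    · rw [T20]
      exact lt_trans (Nat.mod_lt _ (by norm_num)) (by norm_num)
    · have hw : cb (Nat.ble j i) (Nat.shiftLeft 1 1120) 0 = (if j ≤ i then 1 else 0) * 2 ^ 1120 := by
        rw [cb_ite]
        by_cases hji : j ≤ i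
        · rw [if_pos hji, if_pos (Nat.ble_eq.symm ▸ hji), shl_eq]
        · rw [if_neg hji, if_neg (fun hc => hji (Nat.ble_eq ▸ hc)), zero_mul]
      rw [hw]
      simp only [Nat.add_eq, Nat.mul_eq, md_eq, sr_eq, Nat.succ_eq_add_one]
      rw [e1, e2, e3, shl_eq c, shl_eq 1 1152, shl_eq 1 352, shl_eq 1 704, shl_eq (s + _),
        shl_eq (t + _)]
      generalize (v + Nat.shiftLeft q 96) % 1048573 = hh
      have d1 : pk (gW i j hh c s t) 37 = hh * 2 ^ (32 * 0) + c * 2 ^ (32 * 34) + 1 * 2 ^ (32 * 36) +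
          (if j ≤ i then 1 else 0) * 2 ^ (32 * 35) +
          (s * 2 ^ (32 * (i + 1)) + 1 * 2 ^ (32 * (i + 12)) + 1 * 2 ^ (32 * (i + 23))) +
          (t * 2 ^ (32 * (j + 1)) + 1 * 2 ^ (32 * (j + 12))) := by
        rw [← pk_sg hh (show 0 < 37 by norm_num), ← pk_sg c (show 34 < 37 by norm_num),
          ← pk_sg 1 (show 36 < 37 by norm_num), ← pk_sg (if j ≤ i then 1 else 0) (show 35 < 37 by norm_num),
          ← pk_sg s (show i + 1 < 37 by omega), ← pk_sg 1 (show i + 12 < 37 by omega),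
          ← pk_sg 1 (show i + 23 < 37 by omega), ← pk_sg t (show j + 1 < 37 by omega),
          ← pk_sg 1 (show j + 12 < 37 by omega), ← pk_add, ← pk_add, ← pk_add, ← pk_add, ← pk_add,
          ← pk_add, ← pk_add, ← pk_add]
        rfl
      have p1 : (2 : ℕ) ^ (32 * (i + 12)) = 2 ^ 352 * 2 ^ (32 * (i + 1)) := by
        rw [show 32 * (i + 12) = 352 + 32 * (i + 1) by omega, pow_add]
      have p2 : (2 : ℕ) ^ (32 * (i + 23)) = 2 ^ 704 * 2 ^ (32 * (i + 1)) := by
        rw [show 32 * (i + 23) = 704 + 32 * (i + 1) by omega, pow_add]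
      have p3 : (2 : ℕ) ^ (32 * (j + 12)) = 2 ^ 352 * 2 ^ (32 * (j + 1)) := by
        rw [show 32 * (j + 12) = 352 + 32 * (j + 1) by omega, pow_add]
      rw [d1, p1, p2, p3, show 32 * 0 = 0 by norm_num, show 32 * 34 = 1088 by norm_num,
        show 32 * 36 = 1152 by norm_num, show 32 * 35 = 1120 by norm_num, pow_zero]
      generalize (2 : ℕ) ^ 1088 = A1
      generalize (2 : ℕ) ^ 1152 = A2
      generalize (2 : ℕ) ^ 1120 = A3
      generalize (2 : ℕ) ^ 352 = A4
      generalize (2 : ℕ) ^ 704 = A5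
      generalize (2 : ℕ) ^ (32 * (i + 1)) = A6
      generalize (2 : ℕ) ^ (32 * (j + 1)) = A7
      ring

end Pool.Agent.Helper54.KA
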