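import Pool.Agent.Helper54.KA.RootX
import Pool.Agent.Helper54.KA.Lite

set_option autoImplicit false
set_option exponentiation.threshold 4000

/-! # The functions of `Lite` agree with those of `Fast` -/

namespace Pool.Agent.Helper54.KA

theorem l_AT : KL.AT = AT := rfl
theorem l_UT : KL.UT = UT := rfl
theorem l_ut : KL.ut = ut := by
  unfold KL.ut ut
  rw [l_UT]
theorem l_blk : KL.blk = blk := by
  unfold KL.blk blk
  rw [l_AT]
theorem l_ac2 : KL.ac2 = ac2 := by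
  unfold KL.ac2 KL.ac1 ac2
  rw [l_blk]
  rfl
theorem l_mn : KL.mn = mn := rfl

lemma br_ite {α : Type} (b : Bool) (x y : α) :
    Bool.rec (motive := fun _ => α) y x b = if b = true then x else y := by
  cases b <;> rfl

/-- `fC` with a general constant -/
noncomputable def gfC (u : Nat → Nat) (b x y : Nat) : Nat :=
  Bool.rec (motive := fun _ => Nat) (nat_lit 0)
    (Nat.succ (Nat.shiftRight (Nat.mul (Nat.mul (Nat.sub (Nat.mul (nat_lit 4096) (Nat.add x y))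
      (Nat.add (Nat.mul x y) b)) (u x)) (u y)) (nat_lit 42)))
    (Nat.ble (Nat.add (Nat.mul x y) b) (Nat.mul (nat_lit 4096) (Nat.add x y)))

lemma gfC_eq (u : ℕ → ℕ) (b x y : ℕ) : gfC u b x y = if x * y + b ≤ 4096 * (x + y) then
    (4096 * (x + y) - (x * y + b)) * u x * u y / 2 ^ 42 + 1 else 0 := by
  unfold gfC
  simp only [br_ite, Nat.ble_eq, Nat.add_eq, Nat.mul_eq, Nat.sub_eq, sr_eq, Nat.succ_eq_add_one]

theorem l_fC1 : KL.fC = gfC KL.ut (nat_lit 8388608) := rfl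

theorem l_fC : KL.fC = fC := by
  funext x y
  rewrite [l_fC1, gfC_eq, fC_eq, l_ut]
  with_reducible rfl

theorem l_nS : KL.nS = nS := rfl
theorem l_fS : KL.fS = fS := by
  unfold KL.fS fS
  rw [l_ut, l_nS]
  rfl
theorem l_gS : KL.gS = gS := by
  unfold KL.gS gS
  rw [l_ut, l_nS]
theorem l_kbf : KL.kbf = kbf := rfl
theorem l_fB : KL.fB = fB := by
  unfold KL.fB fB
  rw [l_ut]
  rfl
theorem l_fA : KL.fA = fA := by
  unfold KL.fA fA
  rw [l_fC, l_fS]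
  rfl
theorem l_gA : KL.gA = gA := by
  unfold KL.gA gA
  rw [l_gS]
  rfl
theorem l_vP : KL.vP = vP := by
  unfold KL.vP vP
  rw [l_ac2]
  rfl
theorem l_vK : KL.vK = vK := by
  unfold KL.vK vK
  rw [l_ac2, l_mn]
  rfl
theorem l_vT : KL.vT = vT := by
  unfold KL.vT vT
  rw [l_ac2, l_mn]
  rfl
theorem l_vF : KL.vF = vF := rfl
theorem l_c0 : KL.c0 = c0 := by
  unfold KL.c0 c0
  rw [l_vT, l_fA, l_gA]
  rfl
theorem l_c1 : KL.c1 = c1 := by
  unfold KL.c1 c1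
  rw [l_vP, l_fA]
  rfl
theorem l_c2 : KL.c2 = c2 := by
  unfold KL.c2 c2
  rw [l_vK, l_fA]
  rfl
theorem l_c3 : KL.c3 = c3 := by
  unfold KL.c3 c3
  rw [l_vT, l_fB]
  rfl
theorem l_c4 : KL.c4 = c4 := by
  unfold KL.c4 c4
  rw [l_vP, l_fB, l_vF]
  rfl
theorem l_c5 : KL.c5 = c5 := by
  unfold KL.c5 c5
  rw [l_vK, l_fB, l_vF]
  rfl
theorem l_pk3 : KL.pk3 = pk3 := rfl
theorem l_eC : KL.eC = eC := rfl
theorem l_dB : KL.dB = dB := rfl
theorem l_eA : KL.eA = eA := by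
  unfold KL.eA KL.eA1 KL.eA2 KL.eS KL.eT1 KL.eT2 eA
  rw [l_pk3, l_dB]
  rfl
theorem l_eE1 : KL.eE1 = eE1 := by
  unfold KL.eE1 eE1
  rw [l_eA, l_c0, l_c1, l_c2, l_mn, l_eC]
  rfl
theorem l_eE2 : KL.eE2 = eE2 := by
  unfold KL.eE2 eE2
  rw [l_eA, l_c3, l_c4, l_c5, l_mn, l_eC]
  rfl

lemma l_and (a b : Bool) : Bool.rec (motive := fun _ => Bool) false b a = and a b := by
  cases a <;> rfl

lemma l_or (a b : Bool) : Bool.rec (motive := fun _ => Bool) b true a = or a b := by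
  cases a <;> rfl

lemma l_bad0 {α : Type} (p q r s : Bool) (u v : α) :
    Bool.rec (motive := fun _ => α) v u (Bool.rec (motive := fun _ => Bool)
      (Bool.rec (motive := fun _ => Bool) s true r) true
      (Bool.rec (motive := fun _ => Bool) false q p)) =
      cb (and p q) u (cb (or r s) u v) := by
  cases p <;> cases q <;> cases r <;> rfl

lemma l_bad {α : Type} (x0 x1 y0 y1 : Nat) (u v : α) :
    Bool.rec (motive := fun _ => α) v u (KL.bad x0 x1 y0 y1) =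
      cb (and (Nat.ble 32768 x1) (Nat.ble 32768 y1)) u
        (cb (or (Nat.beq x0 32768) (Nat.beq y0 32768)) u v) :=
  l_bad0 (Nat.ble 32768 x1) (Nat.ble 32768 y1) (Nat.beq x0 32768) (Nat.beq y0 32768) u v

lemma l_ord (x1 y1 : Nat) : KL.ord x1 y1 = and (Nat.ble x1 32767) (Nat.ble y1 32767) :=
  l_and (Nat.ble x1 32767) (Nat.ble y1 32767)

lemma l_eE4 (k ty var x0 x1 y0 y1 : ℕ) : KL.eE4 k ty var x0 x1 y0 y1 =
    eE2 (kbf k) ty var x0 x1 y0 y1 := by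
  unfold KL.eE4
  rw [l_eE2, l_kbf]

lemma l_eE3 (xs ty var x0 x1 y0 y1 : ℕ) : KL.eE3 xs ty var x0 x1 y0 y1 =
    eE2 (kbf (Nat.sub xs 32768)) ty var x0 x1 y0 y1 := l_eE4 (Nat.sub xs 32768) ty var x0 x1 y0 y1

lemma l_fz {α : Type} (n : ℕ) (f : ℕ → α) : f n = fz n f := rfl

lemma l_eE0 (a b c : Bool) (u v w : ℕ) :
    Bool.rec (motive := fun _ => ℕ) (Bool.rec (motive := fun _ => ℕ)
      (Bool.rec (motive := fun _ => ℕ) 0 w c) v b) u a = cb a u (cb b v (cb c w 0)) := rfl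

theorem l_eE (xs ty var x0 x1 y0 y1 : ℕ) : KL.eE xs ty var x0 x1 y0 y1 = eE xs ty var x0 x1 y0 y1 := by
  unfold KL.eE eE
  rw [l_eE3, l_eE1, l_eC, l_bad, l_ord, l_fz (kbf (Nat.sub xs 32768)) (fun kb => eE2 kb ty var x0 x1 y0 y1)]
  exact l_eE0 (Nat.ble ty 2) (Nat.beq ty 6) (and (Nat.ble x1 32767) (Nat.ble y1 32767)) _ (eC 51471)
    (fz (kbf (Nat.sub xs 32768)) (fun kb => eE2 kb ty var x0 x1 y0 y1))

theorem l_wW (q v : ℕ) : KL.wW q v = wW q (Nat.mod q 16) (Nat.mod (Nat.div q 16) 16) v := by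
  unfold KL.wW wW KL.wW1 KL.tu KL.sa KL.sb
  rfl

lemma l_ij (q : ℕ) : KL.ij q = and (Nat.ble (Nat.mod q 16) 10) (Nat.ble (Nat.mod (Nat.div q 16) 16) 10) :=
  l_and (Nat.ble (Nat.mod q 16) 10) (Nat.ble (Nat.mod (Nat.div q 16) 16) 10)

lemma l_lo (X k : ℕ) : Nat.mod (Nat.shiftRight X (Nat.mul 32 k)) 65536 = Nat.mod (fd X k) 65536 := by
  unfold fd
  simp only [md_eq]
  omega

lemma l_hi (X k : ℕ) : Nat.mod (Nat.shiftRight X (Nat.add (Nat.mul 32 k) 16)) 65536 = Nat.div (fd X k) 65536 := by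
  unfold fd
  simp only [md_eq, dv_eq, Nat.add_eq]
  have h : Nat.shiftRight X (Nat.mul 32 k + 16) = Nat.shiftRight X (Nat.mul 32 k) / 65536 := by
    show X >>> (Nat.mul 32 k + 16) = X >>> (Nat.mul 32 k) / 65536
    rw [Nat.shiftRight_add, Nat.shiftRight_eq_div_pow _ 16]
  rw [h]
  omega

theorem l_eW (xs q K : ℕ) : KL.eW xs q K =
    eW xs q (fd K (Nat.succ (Nat.mod q 16))) (fd K (Nat.succ (Nat.mod (Nat.div q 16) 16))) := by
  have h : KL.eW xs q K = KL.eW4 xs q (Nat.mod (Nat.shiftRight K (KL.sa q)) 65536)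
    (Nat.mod (Nat.shiftRight K (Nat.add (KL.sa q) 16)) 65536)
    (Nat.mod (Nat.shiftRight K (KL.sb q)) 65536)
    (Nat.mod (Nat.shiftRight K (Nat.add (KL.sb q) 16)) 65536) := rfl
  rw [h]
  unfold KL.sa KL.sb
  rw [l_lo, l_lo, l_hi, l_hi]
  unfold KL.eW4 eW
  rw [l_wW, l_eE, l_ij]
  rfl

theorem l_bt : KL.bt = bt := rfl

theorem l_eKP (q K : ℕ) : KL.eKP q K =
    cb (and (Nat.ble q 7167) (bt K (Nat.add 640 (Nat.mod q 256)))) (eW 0 q 0 0) 0 := by
  have h : KL.eW4 0 q 0 0 0 0 = eW 0 q 0 0 := by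
    unfold KL.eW4 eW
    rw [l_wW, l_eE, l_ij]
    rfl
  unfold KL.eKP
  rw [l_bt, h]
  cases Nat.ble q 7167 <;> rfl

theorem l_eK (q K : ℕ) : KL.eK q K = eK q K := by
  unfold KL.eK eK KL.eKG
  rw [l_eKP, l_eW, l_eW, l_bt]
  rfl

theorem l_mk : KL.mk = mk := rfl

theorem l_wt : KL.wt = wt := by
  funext t X
  have h : KL.mT = mT := by
    unfold KL.mT mT
    rw [l_mk]
    rfl
  have h2 : KL.eT = eT := by
    funext t K
    unfold KL.eT eT
    simp only [l_eK]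
    rfl
  unfold KL.wt wt
  rw [h, h2]

/-! the runner -/

theorem l_O31 : KL.O31 = O31 := rfl
theorem l_fd : KL.fd = fd := rfl
theorem l_fD : KL.fD = fD := rfl
theorem l_pS : KL.pS = pS := rfl
theorem l_aS : KL.aS = aS := rfl

lemma l_fin0 (a b c : Bool) : Bool.rec (motive := fun _ => Bool) false
    (Bool.rec (motive := fun _ => Bool) false c b) a = cb (and a b) c false := by
  cases a <;> rfl

/-- the slopes of a leaf -/
noncomputable def gSl (Q : ℕ) : ℕ :=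
  Nat.shiftRight (Nat.sub (Nat.add (Nat.mod Q (Nat.pow 2 384)) (Nat.shiftLeft O31 32))
          (Nat.mul 2251799813685248 (fD Q))) 32

theorem l_slo : KL.slo = gSl := rfl

theorem l_fin2 (Q : ℕ) : KL.fin2 Q = fz (gSl Q) fun X =>
    Nat.ble (Nat.succ (Nat.add (Nat.mul 411776 (fd Q 35)) (aS X))) (Nat.mul 2 (fd Q 34)) := by
  unfold KL.fin2
  rw [l_slo, l_aS, l_fd, fz_eq]

/-- final check, general form -/
noncomputable def gFin (a b c : ℕ → Bool) (Q : ℕ) : Bool :=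
  Bool.rec (motive := fun _ => Bool) false (Bool.rec (motive := fun _ => Bool) false (c Q) (b Q)) (a Q)

/-- first condition -/
noncomputable def gF1 (Q : ℕ) : Bool := Nat.ble (Nat.shiftRight Q (nat_lit 1152)) (nat_lit 1023)

/-- second condition -/
noncomputable def gF2 (D : ℕ → ℕ) (Q : ℕ) : Bool :=
  Nat.beq (Nat.mul (nat_lit 2) (Nat.mod (Nat.shiftRight Q (nat_lit 736)) (Nat.pow (nat_lit 2) (nat_lit 352)))) (D Q)

theorem l_finX1 : KL.finX = gFin gF1 (gF2 KL.fD) KL.fin2 := rfl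

lemma gFin_eq (a b c : ℕ → Bool) (Q : ℕ) : gFin a b c Q = cb (and (a Q) (b Q)) (c Q) false := by
  unfold gFin
  cases a Q <;> rfl

theorem l_finX (Q : ℕ) : KL.finX Q = finX Q := by
  rewrite [l_finX1, gFin_eq, l_fin2, l_fD]
  rfl

theorem l_tg : KL.tg = tg := rfl
theorem l_cutG : KL.cutG = cutG := rfl
theorem l_ctA : KL.ctA = ctA := rfl
theorem l_ctM : KL.ctM = ctM := rfl
theorem l_ctB : KL.ctB = ctB := rfl
theorem l_popX : KL.popX = popX := rfl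
theorem l_xE : KL.xE = xE := by
  unfold KL.xE xE
  rw [l_wt]
theorem l_xF : KL.xF = xF := by
  funext t ih X st Q
  unfold KL.xF xF
  rw [l_wt, l_popX, l_finX]
theorem l_tk : KL.tk = tk := rfl
theorem l_tj : KL.tj = tj := rfl
theorem l_sh : KL.sh = sh := rfl
theorem l_cu (ct : ℕ → ℕ → ℕ) (t : ℕ) : KL.cu ct t = cu ct t := by
  unfold KL.cu cu
  rw [fz_eq, fz_eq, l_tk]
theorem l_ctL (ct : ℕ → ℕ → ℕ) (X t : ℕ) : KL.ctL ct X t = ctL ct X t := by
  unfold KL.ctL ctL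
  rw [l_tg, l_cu, l_sh]
theorem l_ctR (ct : ℕ → ℕ → ℕ) (X t : ℕ) : KL.ctR ct X t = ctR ct X t := by
  unfold KL.ctR ctR
  rw [l_tg, l_cu, l_sh]
theorem l_kOK : KL.kOK = kOK := rfl
theorem l_two : KL.two = two := rfl
theorem l_xS (ct : ℕ → ℕ → ℕ) (t : ℕ) : KL.xS ct t = xS ct t := by
  funext ih X st Q
  unfold KL.xS xS
  rw [l_two, l_ctL, l_ctR, l_kOK]
theorem l_gOK : KL.gOK = gOK := rfl
theorem l_gA1 : KL.gA1 = gA1 := rfl
theorem l_gA2 : KL.gA2 = gA2 := rfl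
theorem l_xG : KL.xG = xG := by
  unfold KL.xG xG
  rw [l_two, l_tg, l_gA1, l_gA2, l_gOK]
theorem l_xD : KL.xD = xD := rfl
theorem l_stp (ct : ℕ → ℕ → ℕ) (dl : ℕ → ℕ → Bool) (t : ℕ) (ih : CtX) :
    KL.stp ct dl t ih = stp ct dl t ih := by
  unfold KL.stp stp KL.xT xT
  rw [l_xS, l_xG, l_xD, l_xE, l_xF]

/-- the runners agree -/
theorem l_runX (ct : ℕ → ℕ → ℕ) (dl : ℕ → ℕ → Bool) (ts : List ℕ) :
    KL.runX ct dl ts = runX ct dl ts := by
  induction ts with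
  | nil => rfl
  | cons t ts ih =>
    show KL.stp ct dl t (KL.runX ct dl ts) = stp ct dl t (runX ct dl ts)
    rw [ih, l_stp]

theorem l_runXB (ct : ℕ → ℕ → ℕ) (dl : ℕ → ℕ → Bool) (ts : List ℕ) (B : List ℕ) :
    KL.runXB ct dl ts B = runXB ct dl ts B := by
  unfold KL.runXB runXB
  rw [l_runX]

theorem l_dX0 : KL.dX0 = dX0 := rfl
theorem l_nthN : KL.nthN = nthN := rfl

theorem l_pay (T : List ℕ) (S i : ℕ) : KL.pay T S i = pay T S i := by
  unfold KL.pay KL.pay1 pay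
  rw [l_nthN]
  rfl

theorem l_dlP (d : ℕ → ℕ → ℕ → ℕ → Bool) (T : List ℕ) (S : ℕ) : KL.dlP d T S = dlP d T S := by
  funext X r
  unfold KL.dlP KL.dlP1 dlP
  rw [l_pay]
  rfl

theorem l_dlX : KL.dlX = dlX := rfl

theorem l_d16 : KL.d16 = d16 := rfl
theorem l_dec (j n : ℕ) (acc : List ℕ) : KL.dec j n acc = dec j n acc := rfl

/-! soundness of the functions of `Lite` -/

variable {H P : (ℕ → ℝ) → (ℕ → ℝ) → Prop} {ct : Nat → Nat → Nat}

theorem ctA_OKL : CtOK KL.ctA := ctA_OK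
theorem ctM_OKL : CtOK KL.ctM := ctM_OK
theorem ctB_OKL : CtOK KL.ctB := ctB_OK

/-- chunk without other leaves -/
theorem soundL0 (hct : CtOK ct) (hC : ∀ z φ, H z φ → Cf z φ) {ts : List ℕ} {B : List ℕ}
    (h : KL.runXB ct KL.dX0 ts B = true) : AGX H P B := by
  rw [l_runXB, l_dX0] at h
  exact runXB0_sound hct hC h

/-- chunk with other leaves -/
theorem soundLP (hct : CtOK ct) (hC : ∀ z φ, H z φ → Cf z φ) {d : Nat → Nat → Nat → Nat → Bool}
    (hd : ∀ L D r, d L 0 D r = true → Good H P L 0) {T : List ℕ} {S : ℕ} {ts : List ℕ} {B : List ℕ}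
    (h : KL.runXB ct (KL.dlP d T S) ts B = true) : AGX H P B := by
  rw [l_runXB, l_dlP] at h
  exact runXB_sound hct hC (dlP_sound hd T S) h

/-- top of a tree -/
theorem soundLT (hct : CtOK ct) (hC : ∀ z φ, H z φ → Cf z φ) {B : List ℕ} (hB : AGX H P B)
    {ts : List ℕ} {X : ℕ} (h : KL.runX ct (KL.dlX B) ts X [] 0 = true) : GoodX H P X := by
  rw [l_runX, l_dlX] at h
  exact topX_sound hct hC hB h

end Pool.Agent.Helper54.KA
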