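import Pool.Agent.Helper54.KA.Asm
import Pool.Agent.Helper66.Kiss.LeafG

set_option autoImplicit false

/-! # Roots: the facts of a state near the pole, the blocking pair, the reflection -/

namespace Pool.Agent.Helper54.KA

open Real Pool.Agent.Helper66.Kiss

/-- a family as a sequence -/
def xt (Z : Fin 11 → ℝ) (n : ℕ) : ℝ := Z (Fin.ofNat 11 n)

lemma xt_val (Z : Fin 11 → ℝ) (k : Fin 11) : xt Z k.val = Z k := by
  unfold xt
  congr 1
  apply Fin.ext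
  exact Nat.mod_eq_of_lt k.isLt

lemma xt_fun (Z : Fin 11 → ℝ) : (fun k : Fin 11 => xt Z k.val) = Z := funext (xt_val Z)

lemma xt_mk (Z : Fin 11 → ℝ) {n : ℕ} (h : n < 11) : xt Z n = Z ⟨n, h⟩ := xt_val Z ⟨n, h⟩

lemma xt_zero (Z : Fin 11 → ℝ) : xt Z 0 = Z 0 := xt_val Z 0

/-! ### angles -/

lemma dl_range {Φ : Fin 11 → ℝ} (hs : Srtd Φ) {i j : ℕ} (hi : i ≤ 10) (hj : j ≤ 10) :
    0 ≤ dl (xt Φ) i j ∧ dl (xt Φ) i j ≤ 2 * π := by
  unfold dl
  rw [xt_mk Φ (show i < 11 by omega), xt_mk Φ (show j < 11 by omega)]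
  have h1 := hs.2 ⟨i, by omega⟩
  have h2 := hs.2 ⟨j, by omega⟩
  by_cases h : j ≤ i
  · rw [if_pos h]
    have := hs.1 (show (⟨j, by omega⟩ : Fin 11) ≤ ⟨i, by omega⟩ from h)
    constructor <;> linarith [h1.1, h1.2, h2.1, h2.2]
  · rw [if_neg h]
    have := hs.1 (show (⟨i, by omega⟩ : Fin 11) ≤ ⟨j, by omega⟩ from by
      show i ≤ j; omega)
    constructor <;> linarith [h1.1, h1.2, h2.1, h2.2]

lemma dl_cos (φ : ℕ → ℝ) (i j : ℕ) : cos (dl φ i j) = cos (φ i - φ j) := by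
  unfold dl
  have e : cos (φ i - φ j) = cos (φ j - φ i) := by rw [← cos_neg, neg_sub]
  rw [e]
  split_ifs with h
  · exact Real.cos_add_two_pi _
  · rw [add_zero]

lemma dl_swap (φ : ℕ → ℝ) {i j : ℕ} (h : i ≠ j) : dl φ i j + dl φ j i = 2 * π := by
  unfold dl
  rcases lt_or_gt_of_ne h with h1 | h1
  · rw [if_neg (by omega), if_pos (by omega)]; ring
  · rw [if_pos (by omega), if_neg (by omega)]; ring

lemma dl_self (φ : ℕ → ℝ) (i : ℕ) : dl φ i i = 2 * π := by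
  unfold dl; rw [if_pos le_rfl]; ring

lemma arccos_le_of {x F : ℝ} (h0 : 0 ≤ x) (h : cos x ≤ F) : arccos F ≤ x := by
  rcases le_total x π with hx | hx
  · calc arccos F ≤ arccos (cos x) := arccos_le_arccos h
      _ = x := arccos_cos h0 hx
  · exact (arccos_le_pi F).trans hx

lemma p1_aux {x y F : ℝ} (h0 : 0 ≤ x) (hx : x ≤ π) (hxy : x + y = 2 * π) (h : -cos x ≤ F) :
    π + arccos F ≤ y := by
  have h1 : arccos F ≤ π - x := by
    calc arccos F ≤ arccos (cos (π - x)) := arccos_le_arccos (by rw [Real.cos_pi_sub]; exact h)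
      _ = π - x := arccos_cos (by linarith) (by linarith)
  linarith

/-! ### the facts used by the edges -/

lemma FF_con {z w a b : ℝ} (hz : -1 < z) (hz2 : z ≤ 1 / 2) (hw : -1 < w) (hw2 : w ≤ 1 / 2)
    (h : gg z w a b ≤ 1 / 2) : cos (a - b) ≤ FF (1 / 2) (-1) z w := by
  unfold gg at h
  unfold FF
  have h1 := sq_pos hz (by linarith)
  have h2 := sq_pos hw (by linarith)
  rw [le_div_iff₀ (mul_pos h1 h2)]
  linarith

lemma FF_p1 {z w a b c : ℝ} (hz : -1 < z) (hz2 : z ≤ 1 / 2) (hw : -1 < w) (hw2 : w ≤ 1 / 2)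
    (h : c ≤ gg z w a b) : -cos (a - b) ≤ FF (-c) 1 z w := by
  unfold gg at h
  unfold FF
  have h1 := sq_pos hz (by linarith)
  have h2 := sq_pos hw (by linarith)
  rw [le_div_iff₀ (mul_pos h1 h2)]
  linarith

/-- hypotheses on a state -/
structure St (Z Φ : Fin 11 → ℝ) : Prop where
  fe : Fe Z Φ
  srt : Srtd Φ
  h9 : Z 0 ≤ -(9 / 10)
  P1 : ∀ i j, i ≠ j → Z 0 ≤ gg (Z i) (Z j) (Φ i) (Φ j)

lemma St.node {Z Φ : Fin 11 → ℝ} (h : St Z Φ) {i : ℕ} (h1 : 1 ≤ i) (h2 : i ≤ 10) :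
    -(9 / 10) < xt Z i ∧ xt Z i ≤ 1 / 2 := by
  rw [xt_mk Z (show i < 11 by omega)]
  refine ⟨?_, (h.fe.1 _).2⟩
  by_contra hc
  push Not at hc
  have := uniq_MA h.fe hc h.h9
  have h3 := congrArg Fin.val this
  have h4 : i = 0 := h3
  omega

lemma St.gg_le {Z Φ : Fin 11 → ℝ} (h : St Z Φ) {i j : ℕ} (hi : i ≤ 10) (hj : j ≤ 10)
    (hij : i ≠ j) : gg (xt Z i) (xt Z j) (xt Φ i) (xt Φ j) ≤ 1 / 2 := by
  rw [xt_mk Z (show i < 11 by omega), xt_mk Z (show j < 11 by omega),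
    xt_mk Φ (show i < 11 by omega), xt_mk Φ (show j < 11 by omega)]
  exact h.fe.2 _ _ fun e => hij (congrArg Fin.val e)

lemma St.le_gg {Z Φ : Fin 11 → ℝ} (h : St Z Φ) {i j : ℕ} (hi : i ≤ 10) (hj : j ≤ 10)
    (hij : i ≠ j) : xt Z 0 ≤ gg (xt Z i) (xt Z j) (xt Φ i) (xt Φ j) := by
  rw [xt_mk Z (show i < 11 by omega), xt_mk Z (show j < 11 by omega),
    xt_mk Φ (show i < 11 by omega), xt_mk Φ (show j < 11 by omega), xt_zero]
  exact h.P1 _ _ fun e => hij (congrArg Fin.val e)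

lemma St.con_gen {Z Φ : Fin 11 → ℝ} (h : St Z Φ) {i j : ℕ} (hi : i ≤ 10) (hj : j ≤ 10)
    (zi : -1 < xt Z i) (zi2 : xt Z i ≤ 1 / 2) (zj : -1 < xt Z j) (zj2 : xt Z j ≤ 1 / 2)
    (hij : i ≠ j) : arccos (FF (1 / 2) (-1) (xt Z i) (xt Z j)) ≤ dl (xt Φ) i j := by
  refine arccos_le_of (dl_range h.srt hi hj).1 ?_
  rw [dl_cos]
  exact FF_con zi zi2 zj zj2 (h.gg_le hi hj hij)

theorem St.cf {Z Φ : Fin 11 → ℝ} (h : St Z Φ) : Cf (xt Z) (xt Φ) := by
  constructor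
  · intro i j i1 i2 j1 j2
    have hi := h.node i1 i2
    have hj := h.node j1 j2
    rcases eq_or_ne i j with hij | hij
    · subst hij
      rw [dl_self]
      have := arccos_le_pi (FF (1 / 2) (-1) (xt Z i) (xt Z i))
      linarith [Real.pi_pos]
    · exact h.con_gen i2 j2 (by linarith) hi.2 (by linarith) hj.2 hij
  · intro h0 j j1 j2
    have hj := h.node j1 j2
    have z0 : xt Z 0 ≤ 1 / 2 := by rw [xt_zero]; exact (h.fe.1 0).2
    constructor
    · exact h.con_gen (by norm_num) j2 h0 z0 (by linarith) hj.2 (by omega)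
    · rw [FF_comm]
      exact h.con_gen j2 (by norm_num) (by linarith) hj.2 h0 z0 (by omega)
  · intro i j i1 i2 j1 j2 hij
    have hi := h.node i1 i2
    have hj := h.node j1 j2
    have key := FF_p1 (by linarith) hi.2 (by linarith) hj.2 (h.le_gg i2 j2 hij)
    have hs := dl_swap (xt Φ) hij
    have r1 := dl_range h.srt i2 j2
    have r2 := dl_range h.srt j2 i2
    rcases le_total (dl (xt Φ) i j) π with h1 | h1
    · right
      exact p1_aux r1.1 h1 hs (by rw [dl_cos]; exact key)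
    · left
      refine p1_aux r2.1 (by linarith) (by linarith) ?_
      rw [dl_cos, ← cos_neg, neg_sub]; exact key

/-! ### the blocking pair -/

/-- the special point has azimuth between the two highest points `a`, `b` -/
structure Pr (Z Φ : Fin 11 → ℝ) (a b : ℕ) : Prop where
  a1 : 1 ≤ a
  ab : a ≤ b
  b10 : b ≤ 10
  za : xt Z a = 1 / 2
  zb : xt Z b = 1 / 2
  e1 : xt Φ a - xt Φ 0 ≤ π
  e2 : π ≤ xt Φ b - xt Φ 0
  e3 : xt Φ b - xt Φ a ≤ π

lemma sin_nonneg_range {x : ℝ} (h1 : x ≤ 2 * π) (h : 0 ≤ sin x) :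
    x ≤ π ∨ x = 2 * π := by
  by_contra hc
  push Not at hc
  have h2 : x < 2 * π := lt_of_le_of_ne h1 hc.2
  have h3 : sin (x - 2 * π) < 0 := Real.sin_neg_of_neg_of_neg_pi_lt (by linarith) (by linarith [hc.1])
  rw [Real.sin_sub_two_pi] at h3
  linarith

lemma sin_nonpos_range {x : ℝ} (h0 : 0 ≤ x) (h : sin x ≤ 0) :
    π ≤ x ∨ x = 0 := by
  by_contra hc
  push Not at hc
  have h2 : 0 < x := lt_of_le_of_ne h0 (Ne.symm hc.2)
  have h3 := Real.sin_pos_of_pos_of_lt_pi h2 hc.1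
  linarith

lemma cos_le_neg_one_pi {x : ℝ} (h0 : 0 ≤ x) (h1 : x ≤ 2 * π) (h : cos x ≤ -1) : x = π := by
  rcases le_total x π with hx | hx
  · have h2 : arccos (cos x) = x := arccos_cos h0 hx
    have h3 : cos x = -1 := le_antisymm h (Real.neg_one_le_cos x)
    rw [h3, Real.arccos_neg_one] at h2
    exact h2.symm
  · have h2 : arccos (cos (2 * π - x)) = 2 * π - x := arccos_cos (by linarith) (by linarith)
    have h3 : cos (2 * π - x) = -1 := by
      rw [Real.cos_two_pi_sub]; exact le_antisymm h (Real.neg_one_le_cos x)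
    rw [h3, Real.arccos_neg_one] at h2
    linarith

theorem exists_Pr {Z Φ : Fin 11 → ℝ} (h : St Z Φ)
    (P2 : ∃ a b, Z a = 1 / 2 ∧ Z b = 1 / 2 ∧ 0 ≤ sin (Φ a - Φ 0) ∧ sin (Φ b - Φ 0) ≤ 0 ∧
      cos (Φ a - Φ 0) + cos (Φ b - Φ 0) ≤ 0) : ∃ a b, Pr Z Φ a b := by
  obtain ⟨a, b, za, zb, s1, s2, hc⟩ := P2
  have h9 := h.h9
  have hpi := Real.pi_pos
  have pos : ∀ k : Fin 11, Z k = 1 / 2 → 1 ≤ k.val := by
    intro k hk
    by_contra hcon
    have : k = 0 := Fin.ext (by show k.val = 0; omega)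
    rw [this] at hk; linarith
  have rg : ∀ k : Fin 11, 0 ≤ Φ k - Φ 0 ∧ Φ k - Φ 0 ≤ 2 * π := by
    intro k
    have h1 := h.srt.1 (Fin.zero_le k)
    have h2 := h.srt.2 k
    have h3 := h.srt.2 0
    constructor <;> linarith [h2.2, h3.1]
  have single : ∀ k : Fin 11, Z k = 1 / 2 → Φ k - Φ 0 = π → ∃ a b, Pr Z Φ a b := by
    intro k hk e
    refine ⟨k.val, k.val, pos k hk, le_rfl, by have := k.isLt; omega, by rw [xt_val, hk],
      by rw [xt_val, hk], ?_, ?_, ?_⟩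
    · rw [xt_val, xt_zero, e]
    · rw [xt_val, xt_zero, e]
    · rw [sub_self]; exact hpi.le
  have ra := rg a
  have rb := rg b
  rcases sin_nonneg_range ra.2 s1 with ha | ha
  swap
  · refine single b zb (cos_le_neg_one_pi rb.1 rb.2 ?_)
    rw [ha, Real.cos_two_pi] at hc; linarith
  rcases sin_nonpos_range rb.1 s2 with hb | hb
  swap
  · refine single a za (cos_le_neg_one_pi ra.1 ra.2 ?_)
    rw [hb, Real.cos_zero] at hc; linarith
  -- main case
  have h1 : Φ b - Φ 0 - π ≤ Φ a - Φ 0 := by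
    have e1 : arccos (cos (Φ a - Φ 0)) = Φ a - Φ 0 := arccos_cos ra.1 ha
    have e2 : arccos (cos (Φ b - Φ 0 - π)) = Φ b - Φ 0 - π :=
      arccos_cos (by linarith) (by linarith)
    rw [← e1, ← e2]
    apply arccos_le_arccos
    rw [Real.cos_sub_pi]; linarith
  rcases le_or_gt a b with hab | hab
  · exact ⟨a.val, b.val, pos a za, hab, by have := b.isLt; omega, by rw [xt_val, za],
      by rw [xt_val, zb], by rw [xt_val, xt_zero]; exact ha, by rw [xt_val, xt_zero]; exact hb,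
      by rw [xt_val, xt_val]; linarith⟩
  · refine single a za (le_antisymm ha ?_)
    have := h.srt.1 hab.le
    linarith

lemma Pr.d0b {Z Φ : Fin 11 → ℝ} {a b : ℕ} (h : Pr Z Φ a b) : π ≤ dl (xt Φ) 0 b := by
  unfold dl
  have := h.a1; have := h.ab
  rw [if_neg (by omega)]
  have := h.e2
  linarith

lemma Pr.da0 {Z Φ : Fin 11 → ℝ} {a b : ℕ} (h : Pr Z Φ a b) : π ≤ dl (xt Φ) a 0 := by
  unfold dl
  rw [if_pos (Nat.zero_le a)]
  have := h.e1
  linarith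

lemma Pr.dba {Z Φ : Fin 11 → ℝ} {a b : ℕ} (h : Pr Z Φ a b) : π ≤ dl (xt Φ) b a := by
  unfold dl
  rw [if_pos h.ab]
  have := h.e3
  linarith

/-! ### the reflection -/

lemma rev_idx {n : ℕ} (h1 : 1 ≤ n) (h2 : n ≤ 10) :
    ((⟨n, by omega⟩ : Fin 11) + 10).rev = ⟨11 - n, by omega⟩ := by
  interval_cases n <;> rfl

lemma xt_reflz (Z : Fin 11 → ℝ) {n : ℕ} (h1 : 1 ≤ n) (h2 : n ≤ 10) :
    xt (shz 10 (rfz Z)) n = xt Z (11 - n) := by
  rw [xt_mk _ (show n < 11 by omega), xt_mk _ (show 11 - n < 11 by omega)]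
  unfold shz rfz
  rw [rev_idx h1 h2]

lemma xt_reflφ (Φ : Fin 11 → ℝ) {n : ℕ} (h1 : 1 ≤ n) (h2 : n ≤ 10) :
    xt (shφ 10 (rfφ Φ)) n = xt Φ 0 - xt Φ (11 - n) + 2 * π := by
  rw [xt_mk _ (show n < 11 by omega), xt_mk _ (show 11 - n < 11 by omega), xt_zero]
  unfold shφ rfφ
  have h3 : ¬ ((⟨n, by omega⟩ : Fin 11).val + (10 : Fin 11).val < 11) := by
    show ¬ (n + 10 < 11)
    omega
  rw [if_neg h3, rev_idx h1 h2]
  have h4 : (10 : Fin 11).rev = 0 := rfl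
  rw [h4]
  ring

lemma xt_reflφ0 (Φ : Fin 11 → ℝ) : xt (shφ 10 (rfφ Φ)) 0 = 0 := by
  rw [xt_zero]
  unfold shφ rfφ
  have h3 : (0 : Fin 11).val + (10 : Fin 11).val < 11 := by
    show 0 + 10 < 11
    omega
  rw [if_pos h3, zero_add]
  ring

theorem Pr.refl {Z Φ : Fin 11 → ℝ} {a b : ℕ} (h : Pr Z Φ a b) :
    Pr (shz 10 (rfz Z)) (shφ 10 (rfφ Φ)) (11 - b) (11 - a) := by
  have h1 := h.a1
  have h2 := h.ab
  have h3 := h.b10
  have e1 : 11 - (11 - a) = a := by omega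
  have e2 : 11 - (11 - b) = b := by omega
  refine ⟨by omega, by omega, by omega, ?_, ?_, ?_, ?_, ?_⟩
  · rw [xt_reflz _ (by omega) (by omega), e2]; exact h.zb
  · rw [xt_reflz _ (by omega) (by omega), e1]; exact h.za
  · rw [xt_reflφ _ (by omega) (by omega), xt_reflφ0, e2]
    have := h.e2
    linarith
  · rw [xt_reflφ _ (by omega) (by omega), xt_reflφ0, e1]
    have := h.e1
    linarith
  · rw [xt_reflφ _ (by omega) (by omega), xt_reflφ _ (by omega) (by omega), e1, e2]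
    have := h.e3
    linarith

/-! ### root boxes -/

/-- packed ends of the root box `a ≤ b` -/
def rc (k1 k2 lo a b k : ℕ) : ℕ :=
  if k = 0 then (32768 + k1) + 65536 * (32768 + k2) else
  if k = a then 6144 + 65536 * 6144 else
  if k = b then 6144 + 65536 * 6144 else lo + 65536 * 6144

/-- the root box: special point in `[32768 + k1, 32768 + k2]`, nodes `a`, `b` at height `1 / 2`,
the other nodes in `[lo, 6144]` -/
def rootL (k1 k2 lo a b : ℕ) : ℕ := tg (pk (rc k1 k2 lo a b) 11)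

/-- the flags of the root: edges `0 → b`, `a → 0`, `b → a` of length at least `π` -/
def rootF (a b : ℕ) : ℕ :=
  tg (2 ^ (256 + 16 * b) ||| (2 ^ (256 + a) ||| 2 ^ (256 + (b + 16 * a))))

lemma rc_lt {k1 k2 lo : ℕ} (h1 : k1 ≤ 1023) (h2 : k2 ≤ 1023) (h3 : lo ≤ 6144) (a b k : ℕ) :
    rc k1 k2 lo a b k < 2 ^ 32 := by
  unfold rc
  have : (2 : ℕ) ^ 32 = 4294967296 := by norm_num
  rw [this]
  split_ifs <;> omega

lemma fd_root {k1 k2 lo : ℕ} (h1 : k1 ≤ 1023) (h2 : k2 ≤ 1023) (h3 : lo ≤ 6144) (a b : ℕ) {k : ℕ}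
    (hk : k < 11) : fd (rootL k1 k2 lo a b) (k + 1) = rc k1 k2 lo a b k := by
  unfold rootL
  rw [fd_tg]
  exact pk_field hk fun j _ => rc_lt h1 h2 h3 a b j

lemma hgt_6144 : hgt 6144 = 1 / 2 := by
  rw [hgt_lt (by norm_num)]; norm_num

lemma Fl_root {Z Φ : Fin 11 → ℝ} {a b : ℕ} (h : Pr Z Φ a b) : Fl (rootF a b) (xt Z) (xt Φ) := by
  have h1 := h.a1
  have h2 := h.ab
  have h3 := h.b10
  have key : ∀ n, (rootF a b).testBit (32 + n) = true →
      n = 256 + 16 * b ∨ n = 256 + a ∨ n = 256 + (b + 16 * a) := by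
    intro n hn
    have e : (rootF a b).testBit (32 + n) = (rootF a b / 2 ^ 32).testBit n := by
      rw [Nat.testBit_div_two_pow, add_comm]
    unfold rootF at e hn
    rw [e, tg_div, Nat.testBit_or, Nat.testBit_or, Nat.testBit_two_pow, Nat.testBit_two_pow,
      Nat.testBit_two_pow, Bool.or_eq_true, Bool.or_eq_true, decide_eq_true_eq, decide_eq_true_eq,
      decide_eq_true_eq] at hn
    omega
  constructor
  · intro i j i1 i2 j1 j2 hb
    have := key _ hb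
    omega
  · intro i j i2 j2 hb
    have e : 288 + (i + 16 * j) = 32 + (256 + (i + 16 * j)) := by ring
    rw [e] at hb
    rcases key _ hb with g | g | g
    · have hi : i = 0 := by omega
      have hj : j = b := by omega
      rw [hi, hj]; exact h.d0b
    · have hi : i = a := by omega
      have hj : j = 0 := by omega
      rw [hi, hj]; exact h.da0
    · have hi : i = b := by omega
      have hj : j = a := by omega
      rw [hi, hj]; exact h.dba

lemma low_node {Z Φ : Fin 11 → ℝ} (h : St Z Φ) {β r : ℝ} (hβ : Z 0 ≤ β) (hβ0 : β < 0)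
    (hr0 : r < 0) (h1 : 1 / 2 < β * r) (h2 : (1 - β ^ 2) * (1 - r ^ 2) < (β * r - 1 / 2) ^ 2)
    {i : ℕ} (i1 : 1 ≤ i) (i2 : i ≤ 10) : r ≤ xt Z i := by
  by_contra hc
  push Not at hc
  have hn := h.node i1 i2
  have hg := h.gg_le (i := 0) (by norm_num) i2 (by omega)
  rw [xt_zero] at hg
  have z0 := h.fe.1 0
  set w := xt Z i with hw
  set x := Z 0 with hx
  have a1 : β * r ≤ x * w := by nlinarith
  have a2 : β ^ 2 ≤ x ^ 2 := by nlinarith
  have a3 : r ^ 2 ≤ w ^ 2 := by nlinarith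
  have b1 : 0 ≤ 1 - x ^ 2 := by nlinarith [z0.1]
  have b2 : 0 ≤ 1 - w ^ 2 := by nlinarith
  have a4 : (1 - x ^ 2) * (1 - w ^ 2) ≤ (1 - β ^ 2) * (1 - r ^ 2) :=
    mul_le_mul (by linarith) (by linarith) b2 (by linarith)
  have a5 : (β * r - 1 / 2) ^ 2 ≤ (x * w - 1 / 2) ^ 2 :=
    pow_le_pow_left₀ (by linarith) (by linarith) 2
  have a6 : √(1 - x ^ 2) * √(1 - w ^ 2) < x * w - 1 / 2 := by
    rw [← Real.sqrt_mul b1]
    rw [Real.sqrt_lt' (by linarith)]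
    linarith
  unfold gg at hg
  have c1 := Real.neg_one_le_cos (xt Φ 0 - xt Φ i)
  have c2 : 0 ≤ √(1 - x ^ 2) * √(1 - w ^ 2) :=
    mul_nonneg (Real.sqrt_nonneg _) (Real.sqrt_nonneg _)
  nlinarith

theorem inB_root {Z Φ : Fin 11 → ℝ} {a b k1 k2 lo : ℕ} (h : St Z Φ) (hp : Pr Z Φ a b)
    (h12 : k1 ≤ k2) (h2 : k2 ≤ 1023) (l1 : 1 ≤ lo) (l2 : lo ≤ 6144)
    (z1 : hgt (32768 + k1) ≤ Z 0) (z2 : Z 0 ≤ hgt (32768 + k2))
    (hl : ∀ i, 1 ≤ i → i ≤ 10 → hgt lo ≤ xt Z i) : InB (rootL k1 k2 lo a b) (xt Z) := by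
  intro k hk
  rw [fd_root (by omega) h2 l2 a b hk]
  have e6 : (6144 + 65536 * 6144) % 65536 = 6144 ∧ (6144 + 65536 * 6144) / 65536 = 6144 := by
    norm_num
  have hc6 : isC 6144 = true := isC_iff.2 (by norm_num)
  by_cases k0 : k = 0
  · subst k0
    have e : rc k1 k2 lo a b 0 = (32768 + k1) + 65536 * (32768 + k2) := by
      unfold rc; rw [if_pos rfl]
    have m1 : rc k1 k2 lo a b 0 % 65536 = 32768 + k1 := by rw [e]; omega
    have m2 : rc k1 k2 lo a b 0 / 65536 = 32768 + k2 := by rw [e]; omega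
    refine ⟨Or.inr ⟨rfl, ?_, ?_⟩, ?_, ?_, ?_⟩
    · rw [m1]; exact isS0_iff.2 ⟨by omega, by omega⟩
    · rw [m2]; exact isS0_iff.2 ⟨by omega, by omega⟩
    · rw [m1, m2]; omega
    · rw [m1, xt_zero]; exact z1
    · rw [m2, xt_zero]; exact z2
  · have single : xt Z k = 1 / 2 → NodeIn k (6144 + 65536 * 6144) (xt Z k) := by
      intro hz
      refine ⟨Or.inl ⟨k0, ?_, ?_⟩, ?_, ?_, ?_⟩
      · rw [e6.1]; exact hc6
      · rw [e6.2]; exact hc6
      · rw [e6.1, e6.2]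
      · rw [e6.1, hgt_6144, hz]
      · rw [e6.2, hgt_6144, hz]
    by_cases ka : k = a
    · have e : rc k1 k2 lo a b k = 6144 + 65536 * 6144 := by
        unfold rc; rw [if_neg k0, if_pos ka]
      rw [e]
      exact single (by rw [ka]; exact hp.za)
    · by_cases kb : k = b
      · have e : rc k1 k2 lo a b k = 6144 + 65536 * 6144 := by
          unfold rc; rw [if_neg k0, if_neg ka, if_pos kb]
        rw [e]
        exact single (by rw [kb]; exact hp.zb)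
      · have e : rc k1 k2 lo a b k = lo + 65536 * 6144 := by
          unfold rc; rw [if_neg k0, if_neg ka, if_neg kb]
        have m1 : rc k1 k2 lo a b k % 65536 = lo := by rw [e]; omega
        have m2 : rc k1 k2 lo a b k / 65536 = 6144 := by rw [e]; omega
        refine ⟨Or.inl ⟨k0, ?_, ?_⟩, ?_, ?_, ?_⟩
        · rw [m1]; exact isC_iff.2 ⟨l1, by omega⟩
        · rw [m2]; exact hc6
        · rw [m1, m2]; exact l2
        · rw [m1]; exact hl k (by omega) (by omega)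
        · rw [m2, hgt_6144]; exact (h.node (by omega) (by omega)).2

/-! ### reduction to the roots -/

lemma SL.st {Z Φ : Fin 11 → ℝ} (h : SL (11 / 12) Z Φ 0) : St Z Φ :=
  ⟨h.fe, h.srt, by linarith [h.hi], h.P1⟩

/-- the hypotheses, for sequences -/
def HSL (z φ : ℕ → ℝ) : Prop := ∃ Z Φ : Fin 11 → ℝ, z = xt Z ∧ φ = xt Φ ∧ SL (11 / 12) Z Φ 0

/-- a conclusion, for sequences -/
def Pv (P : (Fin 11 → ℝ) → (Fin 11 → ℝ) → Prop) (z φ : ℕ → ℝ) : Prop :=
  P (fun k => z k.val) (fun k => φ k.val)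

lemma HSL.cf {z φ : ℕ → ℝ} (h : HSL z φ) : Cf z φ := by
  obtain ⟨Z, Φ, rfl, rfl, h⟩ := h
  exact (SL.st h).cf

lemma Pv_xt {P : (Fin 11 → ℝ) → (Fin 11 → ℝ) → Prop} {Z Φ : Fin 11 → ℝ}
    (h : Pv P (xt Z) (xt Φ)) : P Z Φ := by
  unfold Pv at h
  rwa [xt_fun, xt_fun] at h

/-- **reduction to the root boxes** (`1 ≤ a ≤ b`, `a + b ≤ 11`) -/
theorem root_red {k1 k2 lo : ℕ} {β r : ℝ} (h12 : k1 ≤ k2) (h2 : k2 ≤ 1023) (l1 : 1 ≤ lo)
    (l2 : lo ≤ 6144) (hβ : hgt (32768 + k2) ≤ β) (hr : hgt lo ≤ r) (hβ0 : β < 0) (hr0 : r < 0)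
    (c1 : 1 / 2 < β * r) (c2 : (1 - β ^ 2) * (1 - r ^ 2) < (β * r - 1 / 2) ^ 2)
    {P : (Fin 11 → ℝ) → (Fin 11 → ℝ) → Prop}
    (hrefl : ∀ Z Φ, P (shz 10 (rfz Z)) (shφ 10 (rfφ Φ)) → P Z Φ)
    (hroot : ∀ a b, 1 ≤ a → a ≤ b → a + b ≤ 11 →
      Good HSL (Pv P) (rootL k1 k2 lo a b) (rootF a b))
    {Z Φ : Fin 11 → ℝ} (h : SL (11 / 12) Z Φ 0) (h0 : -1 < Z 0)
    (z1 : hgt (32768 + k1) ≤ Z 0) (z2 : Z 0 ≤ hgt (32768 + k2)) : P Z Φ := by
  have main : ∀ Z Φ : Fin 11 → ℝ, SL (11 / 12) Z Φ 0 → hgt (32768 + k1) ≤ Z 0 →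
      Z 0 ≤ hgt (32768 + k2) → ∀ a b, Pr Z Φ a b → a + b ≤ 11 → P Z Φ := by
    intro Z Φ h z1 z2 a b hp hab
    have hst := SL.st h
    have hB := inB_root hst hp h12 h2 l1 l2 z1 z2 fun i i1 i2 =>
      hr.trans (low_node hst (z2.trans hβ) hβ0 hr0 c1 c2 i1 i2)
    exact Pv_xt (hroot a b hp.a1 hp.ab hab (xt Z) (xt Φ) ⟨Z, Φ, rfl, rfl, h⟩ hB (Fl_root hp))
  obtain ⟨a, b, hp⟩ := exists_Pr (SL.st h) (h.P2 h0)
  by_cases hab : a + b ≤ 11
  · exact main Z Φ h z1 z2 a b hp hab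
  · have g1 := hp.a1
    have g2 := hp.ab
    have g3 := hp.b10
    apply hrefl
    exact main _ _ h.refl0 (by rw [refl0_zero]; exact z1) (by rw [refl0_zero]; exact z2) _ _
      hp.refl (by omega)

/-- the root box and flags as numerals -/
noncomputable def chkR (k1 k2 lo a b L f : ℕ) : Bool :=
  Nat.beq (rootL k1 k2 lo a b) L && Nat.beq (rootF a b) f

lemma chkR_eq {k1 k2 lo a b L f : ℕ} (h : chkR k1 k2 lo a b L f = true) :
    rootL k1 k2 lo a b = L ∧ rootF a b = f := by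
  unfold chkR at h
  rw [Bool.and_eq_true, Nat.beq_eq, Nat.beq_eq] at h
  exact h

end Pool.Agent.Helper54.KA
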