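import Pool.Agent.Helper54.KA.FastD
import Pool.Agent.Helper54.KA.Root

set_option autoImplicit false

/-! # Root boxes of the fast runner -/

namespace Pool.Agent.Helper54.KA

open Real

/-- the root box as one number -/
def rootX (k1 k2 lo a b : ℕ) : ℕ :=
  tg (pk (rc k1 k2 lo a b) 11 |||
    (2 ^ (608 + 16 * b) ||| (2 ^ (608 + a) ||| 2 ^ (608 + (b + 16 * a)))))

lemma rootX_fd (k1 k2 lo a b : ℕ) {k : ℕ} (hk : k < 11) : fd (rootX k1 k2 lo a b) (k + 1) = fd (rootL k1 k2 lo a b) (k + 1) := by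
  unfold rootX rootL
  rw [fd_tg, fd_tg]
  apply Nat.eq_of_testBit_eq
  intro i
  rw [Nat.testBit_mod_two_pow, Nat.testBit_mod_two_pow, Nat.testBit_div_two_pow,
    Nat.testBit_div_two_pow, Nat.testBit_or, Nat.testBit_or, Nat.testBit_or, Nat.testBit_two_pow,
    Nat.testBit_two_pow, Nat.testBit_two_pow]
  by_cases hi : i < 32
  · have e1 : ¬ (608 + 16 * b = i + 32 * k) := by omega
    have e2 : ¬ (608 + a = i + 32 * k) := by omega
    have e3 : ¬ (608 + (b + 16 * a) = i + 32 * k) := by omega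
    simp [e1, e2, e3]
  · simp [hi]

lemma rootX_bit {k1 k2 lo : ℕ} (h1 : k1 ≤ 1023) (h2 : k2 ≤ 1023) (h3 : lo ≤ 6144) (a b m : ℕ) :
    (rootX k1 k2 lo a b).testBit (384 + m) = (rootF a b).testBit (32 + m) := by
  unfold rootX rootF
  rw [show 384 + m = 32 + (352 + m) by ring, tg_bit, tg_bit, Nat.testBit_or, Nat.testBit_or,
    Nat.testBit_or, Nat.testBit_or, Nat.testBit_or, Nat.testBit_two_pow,
    Nat.testBit_two_pow, Nat.testBit_two_pow, Nat.testBit_two_pow,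
    Nat.testBit_two_pow, Nat.testBit_two_pow]
  have hlt : pk (rc k1 k2 lo a b) 11 < 2 ^ (352 + m) := by
    refine lt_of_lt_of_le (pk_lt fun k _ => rc_lt h1 h2 h3 a b k) ?_
    exact Nat.pow_le_pow_right (by norm_num) (by omega)
  rw [Nat.testBit_lt_two_pow hlt, Bool.false_or]
  congr 1
  · exact decide_eq_decide.2 (by omega)
  · congr 1
    · exact decide_eq_decide.2 (by omega)
    · exact decide_eq_decide.2 (by omega)

theorem good_of_rootX {H P : (ℕ → ℝ) → (ℕ → ℝ) → Prop} {k1 k2 lo a b : ℕ} (h1 : k1 ≤ 1023)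
    (h2 : k2 ≤ 1023) (h3 : lo ≤ 6144) (h : GoodX H P (rootX k1 k2 lo a b)) :
    Good H P (rootL k1 k2 lo a b) (rootF a b) := by
  intro z φ hH hB hF
  refine h z φ hH (InB_congr hB fun k hk => rootX_fd k1 k2 lo a b hk) ⟨?_, ?_⟩
  · intro i j i1 i2 j1 j2 hb
    rw [ff_bit, rootX_bit h1 h2 h3] at hb
    exact hF.g i j i1 i2 j1 j2 hb
  · intro i j i2 j2 hb
    have e2 : 288 + (i + 16 * j) = 32 + (256 + (i + 16 * j)) := by ring
    rw [e2, ff_bit, rootX_bit h1 h2 h3, ← e2] at hb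
    exact hF.p i j i2 j2 hb

/-- **reduction to the root boxes of the fast runner** (`1 ≤ a ≤ b`, `a + b ≤ 11`) -/
theorem root_redX {k1 k2 lo : ℕ} {β r : ℝ} (h12 : k1 ≤ k2) (h2 : k2 ≤ 1023) (l1 : 1 ≤ lo)
    (l2 : lo ≤ 6144) (hβ : hgt (32768 + k2) ≤ β) (hr : hgt lo ≤ r) (hβ0 : β < 0) (hr0 : r < 0)
    (c1 : 1 / 2 < β * r) (c2 : (1 - β ^ 2) * (1 - r ^ 2) < (β * r - 1 / 2) ^ 2)
    {P : (Fin 11 → ℝ) → (Fin 11 → ℝ) → Prop}
    (hrefl : ∀ Z Φ, P (Helper66.Kiss.shz 10 (Helper66.Kiss.rfz Z))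
      (Helper66.Kiss.shφ 10 (Helper66.Kiss.rfφ Φ)) → P Z Φ)
    (hroot : ∀ a b, 1 ≤ a → a ≤ b → a + b ≤ 11 → GoodX HSL (Pv P) (rootX k1 k2 lo a b))
    {Z Φ : Fin 11 → ℝ} (h : Helper66.Kiss.SL (11 / 12) Z Φ 0) (h0 : -1 < Z 0)
    (z1 : hgt (32768 + k1) ≤ Z 0) (z2 : Z 0 ≤ hgt (32768 + k2)) : P Z Φ :=
  root_red h12 h2 l1 l2 hβ hr hβ0 hr0 c1 c2 hrefl
    (fun a b ha hab hs => good_of_rootX (by omega) h2 l2 (hroot a b ha hab hs)) h h0 z1 z2

/-- the root box as a numeral -/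
lemma rootX_of {H P : (ℕ → ℝ) → (ℕ → ℝ) → Prop} {k1 k2 lo a b X : ℕ}
    (h : Nat.beq (rootX k1 k2 lo a b) X = true) (hX : GoodX H P X) :
    GoodX H P (rootX k1 k2 lo a b) := by
  rw [Nat.eq_of_beq_eq_true h]; exact hX

end Pool.Agent.Helper54.KA
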