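import Pool.Agent.Helper54.KA.Leaf

set_option autoImplicit false

/-! # Soundness of the runner -/

namespace Pool.Agent.Helper54.KA

open Real

/-! ### heights are monotone in the codes -/

lemma hgt_lt {x : ℕ} (h : x < 32768) : hgt x = (x : ℝ) / 4096 - 1 := by
  unfold hgt; rw [if_neg (by omega)]

lemma hgt_mono_C {x y : ℕ} (hx : x < 32768) (hy : y < 32768) (h : hgt x ≤ hgt y) : x ≤ y := by
  rw [hgt_lt hx, hgt_lt hy] at h
  have : (x : ℝ) ≤ y := by linarith
  exact_mod_cast this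

lemma frac_aux {u v : ℝ} (hu : 0 ≤ u) (h : -((1 - v) / (1 + v)) ≤ -((1 - u) / (1 + u)))
    (hv : u < v) : False := by
  rw [neg_le_neg_iff, div_le_div_iff₀ (by linarith) (by linarith)] at h
  nlinarith

lemma hgt_mono_S {a b : ℕ} (h : hgt (32768 + a) ≤ hgt (32768 + b)) : a ≤ b := by
  by_contra hc
  push Not at hc
  rw [hgt_S, hgt_S] at h
  have h1 : (b : ℝ) / 4096 < (a : ℝ) / 4096 := by
    have : (b : ℝ) < a := by exact_mod_cast hc
    linarith
  have h2 : ((b : ℝ) / 4096) ^ 2 < ((a : ℝ) / 4096) ^ 2 :=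
    pow_lt_pow_left₀ h1 (by positivity) (by norm_num)
  exact frac_aux (by positivity) h h2

lemma hgt_pole : hgt 32768 = -1 := by
  have := hgt_S (k := 0)
  rw [Nat.add_zero] at this
  rw [this]; norm_num

/-! ### boxes -/

/-- the height `z` of node `k` lies in the cell with packed ends `f` -/
structure NodeIn (k f : ℕ) (z : ℝ) : Prop where
  kind : (k ≠ 0 ∧ isC (f % 65536) = true ∧ isC (f / 65536) = true) ∨
    (k = 0 ∧ isS0 (f % 65536) = true ∧ isS0 (f / 65536) = true)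
  le : f % 65536 ≤ f / 65536
  lo : hgt (f % 65536) ≤ z
  hi : z ≤ hgt (f / 65536)

/-- the heights lie in the box -/
def InB (L : ℕ) (z : ℕ → ℝ) : Prop := ∀ k < 11, NodeIn k (fd L (k + 1)) (z k)

/-- class of a cut code -/
def CutOK (k X : ℕ) : Prop := (k ≠ 0 ∧ X < 32768) ∨ (k = 0 ∧ ∃ a : ℕ, X = 32768 + a ∧ a ≤ 1023)

lemma isS0_form {x : ℕ} (h : isS0 x = true) : ∃ a : ℕ, x = 32768 + a ∧ a ≤ 1023 := by
  have := isS0_iff.1 h
  exact ⟨x - 32768, by omega, by omega⟩

/-- comparison of codes of one class -/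
lemma cut_le {k x y : ℕ} (hx : CutOK k x) (hy : CutOK k y) (h : hgt x ≤ hgt y) : x ≤ y := by
  rcases hx with ⟨k0, hx⟩ | ⟨k0, a, rfl, ha⟩
  · rcases hy with ⟨_, hy⟩ | ⟨k1, _⟩
    · exact hgt_mono_C hx hy h
    · exact absurd k1 k0
  · rcases hy with ⟨k1, _⟩ | ⟨_, b, rfl, hb⟩
    · exact absurd k0 k1
    · have := hgt_mono_S h; omega

lemma NodeIn.cut0 {k f : ℕ} {z : ℝ} (h : NodeIn k f z) : CutOK k (f % 65536) := by
  rcases h.kind with ⟨k0, h1, _⟩ | ⟨k0, h1, _⟩
  · exact Or.inl ⟨k0, by have := isC_iff.1 h1; omega⟩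
  · exact Or.inr ⟨k0, isS0_form h1⟩

lemma NodeIn.cut1 {k f : ℕ} {z : ℝ} (h : NodeIn k f z) : CutOK k (f / 65536) := by
  rcases h.kind with ⟨k0, _, h1⟩ | ⟨k0, _, h1⟩
  · exact Or.inl ⟨k0, by have := isC_iff.1 h1; omega⟩
  · exact Or.inr ⟨k0, isS0_form h1⟩

/-- left half of a cell -/
lemma NodeIn.left {k f X : ℕ} {z : ℝ} (h : NodeIn k f z) (hX : CutOK k X) (hz : z ≤ hgt X) :
    NodeIn k (f - (f / 65536 - X) * 65536) z := by
  have h1 : f % 65536 ≤ X := cut_le h.cut0 hX (h.lo.trans hz)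
  have h2 := h.le
  have e : f = f % 65536 + 65536 * (f / 65536) := (Nat.mod_add_div f 65536).symm
  generalize hlo : f % 65536 = lo at *
  generalize hhi : f / 65536 = hi at *
  have hlo' : lo < 65536 := by rw [← hlo]; exact Nat.mod_lt _ (by norm_num)
  have e2 : f - (hi - X) * 65536 = lo + 65536 * min hi X := by
    rcases Nat.le_total hi X with hc | hc
    · rw [Nat.sub_eq_zero_of_le hc, min_eq_left hc]; omega
    · rw [min_eq_right hc]; omega
  have e3 : (lo + 65536 * min hi X) % 65536 = lo := by omega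
  have e4 : (lo + 65536 * min hi X) / 65536 = min hi X := by omega
  rw [e2]
  constructor
  · rw [e3, e4]
    rcases h.kind with ⟨k0, g1, g2⟩ | ⟨k0, g1, g2⟩
    · rw [hlo] at g1; rw [hhi] at g2
      refine Or.inl ⟨k0, g1, ?_⟩
      have a1 := isC_iff.1 g1
      have a2 := isC_iff.1 g2
      exact isC_iff.2 (by omega)
    · rw [hlo] at g1; rw [hhi] at g2
      refine Or.inr ⟨k0, g1, ?_⟩
      have a1 := isS0_iff.1 g1
      have a2 := isS0_iff.1 g2
      exact isS0_iff.2 (by omega)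
  · rw [e3, e4]; omega
  · rw [e3]; have := h.lo; rw [hlo] at this; exact this
  · rw [e4]
    have := h.hi
    rw [hhi] at this
    rcases Nat.le_total hi X with hc | hc
    · rw [min_eq_left hc]; exact this
    · rw [min_eq_right hc]; exact hz

/-- right half of a cell -/
lemma NodeIn.right {k f X : ℕ} {z : ℝ} (h : NodeIn k f z) (hX : CutOK k X) (hz : hgt X ≤ z) :
    NodeIn k (f + (X - f % 65536)) z ∧ X < 65536 := by
  have h1 : X ≤ f / 65536 := cut_le hX h.cut1 (hz.trans h.hi)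
  have h2 := h.le
  have e : f = f % 65536 + 65536 * (f / 65536) := (Nat.mod_add_div f 65536).symm
  have hX' : X < 65536 := by
    rcases hX with ⟨_, hX⟩ | ⟨_, a, rfl, ha⟩ <;> omega
  generalize hlo : f % 65536 = lo at *
  generalize hhi : f / 65536 = hi at *
  have hlo' : lo < 65536 := by rw [← hlo]; exact Nat.mod_lt _ (by norm_num)
  have e2 : f + (X - lo) = max lo X + 65536 * hi := by
    rcases Nat.le_total lo X with hc | hc
    · rw [max_eq_right hc]; omega
    · rw [Nat.sub_eq_zero_of_le hc, max_eq_left hc]; omega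
  have e3 : (max lo X + 65536 * hi) % 65536 = max lo X := by omega
  have e4 : (max lo X + 65536 * hi) / 65536 = hi := by omega
  rw [e2]
  refine ⟨?_, hX'⟩
  constructor
  · rw [e3, e4]
    rcases h.kind with ⟨k0, g1, g2⟩ | ⟨k0, g1, g2⟩
    · rw [hlo] at g1; rw [hhi] at g2
      refine Or.inl ⟨k0, ?_, g2⟩
      have a1 := isC_iff.1 g1
      have a2 := isC_iff.1 g2
      exact isC_iff.2 (by omega)
    · rw [hlo] at g1; rw [hhi] at g2
      refine Or.inr ⟨k0, ?_, g2⟩
      have a1 := isS0_iff.1 g1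
      have a2 := isS0_iff.1 g2
      exact isS0_iff.2 (by omega)
  · rw [e3, e4]; omega
  · rw [e3]
    have := h.lo
    rw [hlo] at this
    rcases Nat.le_total lo X with hc | hc
    · rw [max_eq_right hc]; exact hz
    · rw [max_eq_left hc]; exact this
  · rw [e4]; have := h.hi; rw [hhi] at this; exact this

/-! ### tagged numbers -/

lemma tg_eq (U : ℕ) : tg U = U * 2 ^ 32 + U % 4294967291 := by
  unfold tg
  rewrite [shl_eq, md_eq, Nat.add_eq]
  exact Eq.refl _

lemma tg_div (U : ℕ) : tg U / 2 ^ 32 = U := by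
  rw [tg_eq, mul_comm, Nat.mul_add_div (by positivity), Nat.div_eq_of_lt, add_zero]
  have h1 : U % 4294967291 < 4294967291 := Nat.mod_lt _ (by norm_num)
  have h2 : (2 : ℕ) ^ 32 = 4294967296 := by norm_num
  omega

lemma fd_succ (L j : ℕ) : fd L (j + 1) = L / 2 ^ 32 / 2 ^ (32 * j) % 2 ^ 32 := by
  rw [fd_eq, Nat.div_div_eq_div_mul, ← pow_add, show 32 * (j + 1) = 32 + 32 * j by ring]

lemma fd_tg (U j : ℕ) : fd (tg U) (j + 1) = U / 2 ^ (32 * j) % 2 ^ 32 := by
  rw [fd_succ, tg_div]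

/-- changed field -/
lemma fd_upd {L U' k c' : ℕ} (hc : c' < 2 ^ 32)
    (h : U' + fd L (k + 1) * 2 ^ (32 * k) = L / 2 ^ 32 + c' * 2 ^ (32 * k)) (j : ℕ) :
    fd (tg U') (j + 1) = if j = k then c' else fd L (j + 1) := by
  rw [fd_tg, fd_succ]
  rw [fd_succ] at h
  exact upd_field hc h j

lemma cutL_fd (L k X j : ℕ) : fd (cutL L k X) (j + 1) =
    if j = k then fd L (k + 1) - (fd L (k + 1) / 65536 - X) * 65536 else fd L (j + 1) := by
  have hlt : fd L (k + 1) < 2 ^ 32 := by rw [fd_succ]; exact Nat.mod_lt _ (by positivity)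
  have hhi : L / 2 ^ (32 * k + 48) % 65536 = fd L (k + 1) / 65536 := by
    have e : (2 : ℕ) ^ 32 = 65536 * 65536 := by norm_num
    have f16 : (2 : ℕ) ^ 16 = 65536 := by norm_num
    have e16 : (2 : ℕ) ^ (32 * k + 48) = 2 ^ (32 * (k + 1)) * 65536 := by
      rw [show 32 * k + 48 = 32 * (k + 1) + 16 by ring, pow_add, f16]
    rw [fd_eq, e, Nat.mod_mul_right_div_self, Nat.div_div_eq_div_mul, ← e16]
  have ecut : cutL L k X = tg (L / 2 ^ 32 - (fd L (k + 1) / 65536 - X) * 2 ^ (32 * k + 16)) := by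
    unfold cutL
    rewrite [fz_eq, sr_eq, sr_eq, shl_eq, md_eq, Nat.sub_eq, Nat.sub_eq, Nat.add_eq, Nat.add_eq,
      Nat.mul_eq, hhi]
    exact Eq.refl _
  rw [ecut]
  refine fd_upd (lt_of_le_of_lt (Nat.sub_le _ _) hlt) ?_ j
  have hle : fd L (k + 1) * 2 ^ (32 * k) ≤ L / 2 ^ 32 := by
    rw [fd_succ]
    exact (Nat.mul_le_mul_right _ (Nat.mod_le _ _)).trans (Nat.div_mul_le_self _ _)
  have hd : (fd L (k + 1) / 65536 - X) * 65536 ≤ fd L (k + 1) :=
    (Nat.mul_le_mul_right _ (Nat.sub_le _ _)).trans (Nat.div_mul_le_self _ _)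
  have hp : (2 : ℕ) ^ (32 * k + 16) = 65536 * 2 ^ (32 * k) := by
    have f16 : (2 : ℕ) ^ 16 = 65536 := by norm_num
    rw [pow_add, f16, mul_comm]
  rw [hp, ← mul_assoc]
  generalize fd L (k + 1) = f at *
  generalize (f / 65536 - X) * 65536 = d at *
  generalize (2 : ℕ) ^ (32 * k) = P at *
  have h3 : d * P ≤ f * P := Nat.mul_le_mul_right _ hd
  rw [Nat.sub_mul]
  omega

lemma cutR_fd {L k X : ℕ} (hX : X < 65536) (j : ℕ) : fd (cutR L k X) (j + 1) =
    if j = k then fd L (k + 1) + (X - fd L (k + 1) % 65536) else fd L (j + 1) := by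
  have hlt : fd L (k + 1) < 2 ^ 32 := by rw [fd_succ]; exact Nat.mod_lt _ (by positivity)
  have hlo : L / 2 ^ (32 * k + 32) % 65536 = fd L (k + 1) % 65536 := by
    have e : (2 : ℕ) ^ 32 = 65536 * 65536 := by norm_num
    rw [fd_eq, e, Nat.mod_mul_right_mod, show 32 * k + 32 = 32 * (k + 1) by ring]
  have ecut : cutR L k X = tg (L / 2 ^ 32 + (X - fd L (k + 1) % 65536) * 2 ^ (32 * k)) := by
    unfold cutR
    rewrite [fz_eq, sr_eq, sr_eq, shl_eq, md_eq, Nat.sub_eq, Nat.add_eq, Nat.add_eq,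
      Nat.mul_eq, hlo]
    exact Eq.refl _
  rw [ecut]
  have T : (2 : ℕ) ^ 32 = 4294967296 := by norm_num
  refine fd_upd ?_ ?_ j
  · rw [T] at hlt ⊢; omega
  · rw [Nat.add_mul]; omega

/-- every point of a box lies in one of its halves -/
lemma InB.split {L k X : ℕ} {z : ℕ → ℝ} (h : InB L z) (hk : k < 11) (hX : CutOK k X) :
    InB (cutL L k X) z ∨ InB (cutR L k X) z := by
  rcases le_total (z k) (hgt X) with hz | hz
  · left
    intro j hj
    rw [cutL_fd]
    by_cases hjk : j = k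
    · subst hjk; rw [if_pos rfl]; exact (h j hj).left hX hz
    · rw [if_neg hjk]; exact h j hj
  · right
    intro j hj
    rw [cutR_fd ((h k hk).right hX hz).2]
    by_cases hjk : j = k
    · subst hjk; rw [if_pos rfl]; exact ((h j hj).right hX hz).1
    · rw [if_neg hjk]; exact h j hj

/-- soundness condition of a cut rule -/
def CtOK (ct : ℕ → ℕ → ℕ) : Prop := ∀ k q, q < 512 → CutOK k (ct k q)

lemma cutG_OK {b s s0 : ℕ} (hb : b + 511 * s < 32768) (h0 : s0 ≤ 2) : CtOK (cutG b s s0) := by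
  intro k q hq
  unfold cutG
  rw [cb_ite]
  split_ifs with h
  · rw [Nat.beq_eq] at h
    refine Or.inr ⟨h, s0 * q, rfl, ?_⟩
    calc s0 * q ≤ 2 * 511 := Nat.mul_le_mul h0 (by omega)
      _ ≤ 1023 := by norm_num
  · refine Or.inl ⟨fun hc => h (by rw [hc]; rfl), ?_⟩
    rw [Nat.add_eq, Nat.mul_eq]
    have : s * q ≤ s * 511 := Nat.mul_le_mul_left s (by omega)
    omega

lemma ctA_OK : CtOK ctA := cutG_OK (by norm_num) (by norm_num)
lemma ctM_OK : CtOK ctM := cutG_OK (by norm_num) (by norm_num)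
lemma ctB_OK : CtOK ctB := cutG_OK (by norm_num) (by norm_num)

end Pool.Agent.Helper54.KA
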