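import Pool.Agent.Helper54.KA.RunS

set_option autoImplicit false

/-! # Soundness of the runner: the main theorem -/

namespace Pool.Agent.Helper54.KA

open Real

/-- the facts used by the M leaves: `z 0` is the height of the special point -/
structure Cf (z φ : ℕ → ℝ) : Prop where
  con : ∀ i j, 1 ≤ i → i ≤ 10 → 1 ≤ j → j ≤ 10 →
    arccos (FF (1 / 2) (-1) (z i) (z j)) ≤ dl φ i j
  con0 : -1 < z 0 → ∀ j, 1 ≤ j → j ≤ 10 →
    arccos (FF (1 / 2) (-1) (z 0) (z j)) ≤ dl φ 0 j ∧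
      arccos (FF (1 / 2) (-1) (z 0) (z j)) ≤ dl φ j 0
  p1 : ∀ i j, 1 ≤ i → i ≤ 10 → 1 ≤ j → j ≤ 10 → i ≠ j →
    π + arccos (FF (-z 0) 1 (z i) (z j)) ≤ dl φ i j ∨
      π + arccos (FF (-z 0) 1 (z i) (z j)) ≤ dl φ j i

/-- the flags hold -/
structure Fl (f : ℕ) (z φ : ℕ → ℝ) : Prop where
  g : ∀ i j, 1 ≤ i → i ≤ 10 → 1 ≤ j → j ≤ 10 → f.testBit (32 + (i + 16 * j)) = true →
    π + arccos (FF (-z 0) 1 (z i) (z j)) ≤ dl φ i j
  p : ∀ i j, i ≤ 10 → j ≤ 10 → f.testBit (288 + (i + 16 * j)) = true → π ≤ dl φ i j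

/-- centred coordinates of a point of the box -/
def Wt (L : ℕ) (z l : ℕ → ℝ) : Prop := ∀ k < 11, |l k| ≤ 1 / 2 ∧
  (fd L (k + 1) % 65536 ≠ 32768 → Cell (fd L (k + 1) % 65536) (fd L (k + 1) / 65536) (z k) (l k))

lemma NodeIn.cell {k f : ℕ} {z : ℝ} (h : NodeIn k f z) (hne : f % 65536 ≠ 32768) :
    ∃ l, Cell (f % 65536) (f / 65536) z l := by
  apply exists_cell _ h.lo h.hi
  rcases h.kind with ⟨_, h1, h2⟩ | ⟨_, h1, h2⟩
  · exact Or.inl ⟨h1, h2⟩
  · right
    have a1 := isS0_iff.1 h1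
    have a2 := isS0_iff.1 h2
    have a3 := h.le
    exact ⟨isS_iff.2 (by omega), isS_iff.2 (by omega)⟩

lemma exists_Wt {L : ℕ} {z : ℕ → ℝ} (h : InB L z) : ∃ l, Wt L z l := by
  have key : ∀ k : ℕ, ∃ l : ℝ, k < 11 → |l| ≤ 1 / 2 ∧ (fd L (k + 1) % 65536 ≠ 32768 →
      Cell (fd L (k + 1) % 65536) (fd L (k + 1) / 65536) (z k) l) := by
    intro k
    by_cases hk : k < 11
    · by_cases hne : fd L (k + 1) % 65536 ≠ 32768
      · obtain ⟨l, hl⟩ := (h k hk).cell hne
        exact ⟨l, fun _ => ⟨hl.abs_le, fun _ => hl⟩⟩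
      · exact ⟨0, fun _ => ⟨by norm_num, fun hc => absurd hc hne⟩⟩
    · exact ⟨0, fun hc => absurd hc hk⟩
  choose l hl using key
  exact ⟨l, fun k hk => hl k hk⟩

/-! ### flags -/

lemma okF_spec {q f : ℕ} (h : okF q f = true) : q ≤ 3071 ∨
    f.testBit (q % 256 + (if q ≤ 6143 then 32 else 288)) = true := by
  unfold okF at h
  rw [cb_ite] at h
  split_ifs at h with h1
  · left; rwa [Nat.ble_eq] at h1
  · right
    rw [Nat.beq_eq, md_eq, md_eq, sr_eq, Nat.add_eq, cb_ite] at h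
    rw [Nat.testBit_eq_decide_div_mod_eq]
    simp only [Nat.ble_eq] at h
    rw [decide_eq_true_eq]
    exact h

lemma stF_bit (f i j n : ℕ) : (stF f i j).testBit (32 + n) =
    (f.testBit (32 + n) || decide (n = i + 16 * j)) := by
  have e : stF f i j = tg ((f >>> 32) ||| (1 <<< (i + 16 * j))) := by
    unfold stF
    rw [fz_eq]
    rfl
  have e2 : (stF f i j).testBit (32 + n) = (stF f i j / 2 ^ 32).testBit n := by
    rw [Nat.testBit_div_two_pow, add_comm]
  rw [e2, e, tg_div, Nat.testBit_or, Nat.testBit_shiftRight, Nat.one_shiftLeft,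
    Nat.testBit_two_pow]
  congr 1
  exact decide_eq_decide.2 eq_comm

lemma Fl.set {f i j : ℕ} {z φ : ℕ → ℝ} (h : Fl f z φ) (hi1 : 1 ≤ i) (hi : i ≤ 10) (hj1 : 1 ≤ j)
    (hj : j ≤ 10) (hij : π + arccos (FF (-z 0) 1 (z i) (z j)) ≤ dl φ i j) :
    Fl (stF f i j) z φ := by
  constructor
  · intro a b a1 a2 b1 b2 hb
    rw [stF_bit, Bool.or_eq_true, decide_eq_true_eq] at hb
    rcases hb with hb | hb
    · exact h.g a b a1 a2 b1 b2 hb
    · have ha : a = i := by omega
      have hb' : b = j := by omega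
      rw [ha, hb']; exact hij
  · intro a b a2 b2 hb
    have e : 288 + (a + 16 * b) = 32 + (256 + (a + 16 * b)) := by ring
    rw [e, stF_bit, Bool.or_eq_true, decide_eq_true_eq] at hb
    rcases hb with hb | hb
    · rw [← e] at hb; exact h.p a b a2 b2 hb
    · omega

/-! ### the contribution of a token -/

lemma xsA_eq (q L : ℕ) : xsA q L = if q ≤ 3071 then 0 else L / 2 ^ 32 % 65536 := by
  unfold xsA
  rewrite [cb_ite, sr_eq, md_eq]
  by_cases h : q ≤ 3071
  · rewrite [if_pos h, if_pos (Nat.ble_eq.symm ▸ h)]; exact Eq.refl _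
  · rewrite [if_neg h, if_neg (fun hc => h (Nat.ble_eq ▸ hc))]; exact Eq.refl _

lemma wA_eq (q L : ℕ) : wA q L = eW (xsA q L) q (fd L (Nat.succ (Nat.mod q 16)))
    (fd L (Nat.succ (Nat.mod (Nat.div q 16) 16))) := by
  unfold wA
  rewrite [fz_eq, fz_eq, fz_eq, Nat.add_eq, Nat.add_zero]
  exact Eq.refl _

lemma eW_eq (xs q a b : ℕ) : eW xs q a b = if q % 16 ≤ 10 ∧ q / 16 % 16 ≤ 10 then
    wW q (q % 16) (q / 16 % 16) (eE xs (q / 1024) (q / 256 % 4) (a % 65536) (a / 65536)
      (b % 65536) (b / 65536)) else 0 := by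
  unfold eW
  rewrite [fz_eq, fz_eq, fz_eq, fz_eq, fz_eq, fz_eq, fz_eq, cb_ite]
  simp only [md_eq, dv_eq]
  by_cases h : q % 16 ≤ 10 ∧ q / 16 % 16 ≤ 10
  · have h2 : (Nat.ble (q % 16) 10 && Nat.ble (q / 16 % 16) 10) = true := by
      rewrite [Bool.and_eq_true, Nat.ble_eq, Nat.ble_eq]; exact h
    rewrite [if_pos h, if_pos h2]; exact Eq.refl _
  · have h2 : ¬ (Nat.ble (q % 16) 10 && Nat.ble (q / 16 % 16) 10) = true := by
      rewrite [Bool.and_eq_true, Nat.ble_eq, Nat.ble_eq]; exact h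
    rewrite [if_neg h, if_neg h2]; exact Eq.refl _

lemma wA_TOK {L f q : ℕ} {z φ l : ℕ → ℝ} (hC : Cf z φ) (hB : InB L z) (hF : Fl f z φ)
    (hl : Wt L z l) (h : okF q f = true) (hq : q < 8192) : TOK φ l (wA q L) := by
  rw [wA_eq, eW_eq, xsA_eq, md_eq, md_eq, dv_eq, Nat.succ_eq_add_one, Nat.succ_eq_add_one]
  by_cases hij : q % 16 ≤ 10 ∧ q / 16 % 16 ≤ 10
  swap
  · rw [if_neg hij]; exact Or.inl rfl
  · rw [if_pos hij]
    generalize hxs : (if q ≤ 3071 then 0 else L / 2 ^ 32 % 65536) = xs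
    obtain ⟨hi, hj⟩ := hij
    have hok := okF_spec h
    have hsplit : q % 256 = q % 16 + 16 * (q / 16 % 16) := by omega
    set i := q % 16 with hidef
    set j := q / 16 % 16 with hjdef
    have Ni := hB i (by omega)
    have Nj := hB j (by omega)
    have kz : ∀ k < 11, (isC (fd L (k + 1) % 65536) = true ∧ isC (fd L (k + 1) / 65536) = true) ∨
        (isS0 (fd L (k + 1) % 65536) = true ∧ isS0 (fd L (k + 1) / 65536) = true) := by
      intro k hk
      rcases (hB k hk).kind with ⟨_, g⟩ | ⟨_, g⟩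
      · exact Or.inl g
      · exact Or.inr g
    have pos0 : ∀ k < 11, k = 0 → fd L (k + 1) % 65536 ≠ 32768 →
        -1 < z k ∧ isS (fd L (k + 1) / 65536) = true := by
      intro k hk k0 hne
      obtain ⟨lk, hcell⟩ := (hB k hk).cell hne
      have h1 := (kd_mem hcell.kd0).1
      refine ⟨h1.trans_le hcell.lo, ?_⟩
      rcases hcell.kind with g | g
      · rcases (hB k hk).kind with ⟨k1, _⟩ | ⟨_, g1, _⟩
        · exact absurd k0 k1
        · have a1 := isC_iff.1 g.1
          have a2 := isS0_iff.1 g1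
          omega
      · exact g.2
    have notC : ∀ k < 11, isC (fd L (k + 1) / 65536) = true → 1 ≤ k := by
      intro k hk hc
      rcases (hB k hk).kind with ⟨k1, _⟩ | ⟨_, _, g1⟩
      · omega
      · have a1 := isC_iff.1 hc
        have a2 := isS0_iff.1 g1
        omega
    apply wW_TOK hi hj
    apply eE_spec (z0 := z 0) (kz i (by omega)) (kz j (by omega)) (hl i (by omega)).2
      (hl j (by omega)).2
    · intro n1 n2 n3
      rcases Nat.eq_zero_or_pos i with i0 | i0
      · rcases Nat.eq_zero_or_pos j with j0 | j0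
        · exact absurd ⟨(pos0 i (by omega) i0 n1).2, (pos0 j (by omega) j0 n2).2⟩ n3
        · have := (pos0 i (by omega) i0 n1).1
          rw [i0] at this ⊢
          exact (hC.con0 this j j0 hj).1
      · rcases Nat.eq_zero_or_pos j with j0 | j0
        · have := (pos0 j (by omega) j0 n2).1
          rw [j0] at this ⊢
          rw [FF_comm]
          exact (hC.con0 this i i0 hi).2
        · exact hC.con i j i0 hi j0 hj
    · intro t1 t2 c1 c2
      have q1 : ¬ q ≤ 3071 := by omega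
      have q2 : q ≤ 6143 := by omega
      have i1 := notC i (by omega) c1
      have j1 := notC j (by omega) c2
      rcases hok with hok | hok
      · exact absurd hok q1
      · rw [if_pos q2, hsplit, add_comm] at hok
        have h3 := hF.g i j i1 hi j1 hj hok
        have N0 := hB 0 (by norm_num)
        have e0 : fd L (0 + 1) % 65536 = L / 2 ^ 32 % 65536 := by
          have e : (2 : ℕ) ^ 32 = 65536 * 65536 := by norm_num
          rw [fd_eq, show 32 * (0 + 1) = 32 by norm_num]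
          conv_lhs => rw [show (L / 2 ^ 32 % 2 ^ 32) = (L / 2 ^ 32 % (65536 * 65536)) by rw [← e]]
          rw [Nat.mod_mul_right_mod]
        rw [if_neg q1] at hxs
        rw [← hxs, ← e0]
        refine ⟨?_, N0.lo, h3⟩
        rcases N0.kind with ⟨k1, _⟩ | ⟨_, g1, _⟩
        · exact absurd rfl k1
        · exact g1
    · intro t1
      have q1 : ¬ q ≤ 3071 := by omega
      have q2 : ¬ q ≤ 6143 := by omega
      rcases hok with hok | hok
      · exact absurd hok q1
      · rw [if_neg q2, hsplit, add_comm] at hok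
        exact hF.p i j hi hj hok

end Pool.Agent.Helper54.KA
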