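import Mathlib

set_option autoImplicit false

/-! # Taylor bounds for the cosine -/

namespace Pool.Agent.Helper54.KA

open Set Finset

theorem nonneg_of_deriv {f f' : ℝ → ℝ} (h0 : 0 ≤ f 0) (hf : ∀ t, HasDerivAt f (f' t) t)
    (hp : ∀ t, 0 ≤ t → 0 ≤ f' t) : ∀ t, 0 ≤ t → 0 ≤ f t := by
  intro t ht
  have hm : MonotoneOn f (Set.Ici 0) := by
    apply monotoneOn_of_deriv_nonneg (convex_Ici 0)
    · exact fun x _ => (hf x).continuousAt.continuousWithinAt
    · exact fun x _ => (hf x).differentiableAt.differentiableWithinAt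
    · intro x hx
      rw [interior_Ici] at hx
      rw [(hf x).deriv]
      exact hp x (le_of_lt hx)
  exact h0.trans (hm (by simp) ht ht)

/-- Taylor polynomial of `cos`, `n` terms. -/
noncomputable def Cn (n : ℕ) (t : ℝ) : ℝ := ∑ j ∈ range n, (-1) ^ j * t ^ (2 * j) / (2 * j).factorial
noncomputable def Sn (n : ℕ) (t : ℝ) : ℝ :=
  ∑ j ∈ range n, (-1) ^ j * t ^ (2 * j + 1) / (2 * j + 1).factorial


theorem Cn_zero (n : ℕ) : Cn (n + 1) 0 = 1 := by
  induction n with
  | zero => simp [Cn]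
  | succ n ih =>
    rw [Cn, sum_range_succ]
    rw [Cn] at ih
    rw [ih]
    simp

theorem Sn_zero (n : ℕ) : Sn n 0 = 0 := by
  simp [Sn]

theorem hasDerivAt_Sn (n : ℕ) (t : ℝ) : HasDerivAt (Sn n) (Cn n t) t := by
  induction n with
  | zero =>
    have e : Sn 0 = fun _ => (0 : ℝ) := by
      funext x
      simp [Sn]
    have e2 : Cn 0 t = 0 := by simp [Cn]
    rw [e, e2]
    exact hasDerivAt_const t (0 : ℝ)
  | succ n ih =>
    have h1 : HasDerivAt (fun x : ℝ => (-1) ^ n * x ^ (2 * n + 1) / ((2 * n + 1).factorial : ℝ))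
        ((-1) ^ n * t ^ (2 * n) / (2 * n).factorial) t := by
      have := ((hasDerivAt_pow (2 * n + 1) t).const_mul ((-1 : ℝ) ^ n)).div_const
        ((2 * n + 1).factorial : ℝ)
      refine this.congr_deriv ?_
      rw [Nat.factorial_succ]
      have h3 : ((2 * n).factorial : ℝ) ≠ 0 := by positivity
      have h4 : (((2 * n + 1 : ℕ)) : ℝ) ≠ 0 := by positivity
      push_cast at h4 ⊢
      field_simp
    have h2 := ih.add h1
    have e1 : Sn (n + 1) = Sn n + fun x : ℝ => (-1) ^ n * x ^ (2 * n + 1) / ((2 * n + 1).factorial : ℝ) := by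
      funext x
      simp [Sn, sum_range_succ]
    have e2 : Cn (n + 1) t = Cn n t + (-1) ^ n * t ^ (2 * n) / (2 * n).factorial := by
      simp [Cn, sum_range_succ]
    rw [e1, e2]
    exact h2

theorem hasDerivAt_Cn (n : ℕ) (t : ℝ) : HasDerivAt (Cn (n + 1)) (-(Sn n t)) t := by
  induction n with
  | zero =>
    have e : Cn (0 + 1) = fun _ => (1 : ℝ) := by
      funext x
      simp [Cn]
    rw [e]
    simpa [Sn] using hasDerivAt_const t (1 : ℝ)
  | succ n ih =>
    have h1 : HasDerivAt (fun x : ℝ => (-1) ^ (n + 1) * x ^ (2 * (n + 1)) /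
        ((2 * (n + 1)).factorial : ℝ))
        (-((-1) ^ n * t ^ (2 * n + 1) / (2 * n + 1).factorial)) t := by
      have := ((hasDerivAt_pow (2 * (n + 1)) t).const_mul ((-1 : ℝ) ^ (n + 1))).div_const
        ((2 * (n + 1)).factorial : ℝ)
      refine this.congr_deriv ?_
      rw [show 2 * (n + 1) = (2 * n + 1) + 1 by ring, Nat.factorial_succ (2 * n + 1)]
      have h3 : ((2 * n + 1).factorial : ℝ) ≠ 0 := by positivity
      have h4 : (((2 * n + 1 + 1 : ℕ)) : ℝ) ≠ 0 := by positivity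
      push_cast at h4 ⊢
      field_simp
      ring
    have h2 := ih.add h1
    have e1 : Cn (n + 1 + 1) = Cn (n + 1) + fun x : ℝ => (-1) ^ (n + 1) * x ^ (2 * (n + 1)) /
        ((2 * (n + 1)).factorial : ℝ) := by
      funext x
      simp [Cn, sum_range_succ]
    have e2 : -Sn (n + 1) t = -Sn n t + -((-1) ^ n * t ^ (2 * n + 1) / (2 * n + 1).factorial) := by
      simp [Sn, sum_range_succ]
      ring
    rw [e1, e2]
    exact h2

theorem cos_sin_taylor (n : ℕ) : (∀ t : ℝ, 0 ≤ t → 0 ≤ (-1) ^ (n + 1) * (Real.cos t - Cn (n + 1) t)) ∧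
    (∀ t : ℝ, 0 ≤ t → 0 ≤ (-1) ^ (n + 1) * (Real.sin t - Sn (n + 1) t)) := by
  have step : ∀ n : ℕ, (∀ t : ℝ, 0 ≤ t → 0 ≤ (-1) ^ (n + 1) * (Real.cos t - Cn (n + 1) t)) →
      (∀ t : ℝ, 0 ≤ t → 0 ≤ (-1) ^ (n + 1) * (Real.sin t - Sn (n + 1) t)) := by
    intro n h
    apply nonneg_of_deriv (f' := fun t => (-1) ^ (n + 1) * (Real.cos t - Cn (n + 1) t)) _ _ h
    · simp [Sn_zero]
    · intro t
      exact ((Real.hasDerivAt_sin t).sub (hasDerivAt_Sn (n + 1) t)).const_mul _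
  induction n with
  | zero =>
    have h0 : ∀ t : ℝ, 0 ≤ t → 0 ≤ (-1) ^ (0 + 1) * (Real.cos t - Cn (0 + 1) t) := by
      intro t _
      have := Real.cos_le_one t
      simp [Cn]
      linarith
    exact ⟨h0, step 0 h0⟩
  | succ n ih =>
    have h0 : ∀ t : ℝ, 0 ≤ t → 0 ≤ (-1) ^ (n + 1 + 1) * (Real.cos t - Cn (n + 1 + 1) t) := by
      apply nonneg_of_deriv (f' := fun t => (-1) ^ (n + 1) * (Real.sin t - Sn (n + 1) t)) _ _ ih.2
      · rw [Cn_zero]
        simp
      · intro t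
        have := ((Real.hasDerivAt_cos t).sub (hasDerivAt_Cn (n + 1) t)).const_mul
          ((-1 : ℝ) ^ (n + 1 + 1))
        refine this.congr_deriv ?_
        rw [pow_succ (-1 : ℝ) (n + 1)]
        ring
    exact ⟨h0, step (n + 1) h0⟩


/-- lower Taylor bound of degree 10 -/
theorem cos_ge10 {t : ℝ} (ht : 0 ≤ t) :
    1 - t ^ 2 / 2 + t ^ 4 / 24 - t ^ 6 / 720 + t ^ 8 / 40320 - t ^ 10 / 3628800 ≤ Real.cos t := by
  have := (cos_sin_taylor 5).1 t ht
  norm_num [Cn, Finset.sum_range_succ, Nat.factorial] at this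
  linarith

/-- upper Taylor bound of degree 8 -/
theorem cos_le8 {t : ℝ} (ht : 0 ≤ t) :
    Real.cos t ≤ 1 - t ^ 2 / 2 + t ^ 4 / 24 - t ^ 6 / 720 + t ^ 8 / 40320 := by
  have := (cos_sin_taylor 4).1 t ht
  norm_num [Cn, Finset.sum_range_succ, Nat.factorial] at this
  linarith

end Pool.Agent.Helper54.KA
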