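import Pool.Agent.Helper54.KA.LiteS
import Pool.Agent.Helper54.KA.DA.D1
import Pool.Agent.Helper54.KA.DA.D2
import Pool.Agent.Helper54.KA.DA.D3
import Pool.Agent.Helper54.KA.DA.D4

set_option autoImplicit false
set_option maxRecDepth 1000000

/-! # The tilts `k` in `[464, 855]` -/

namespace Pool.Agent.Helper54.KA

open Real Pool.Agent.Helper66.Kiss

lemma hCA : ∀ z φ, HSL z φ → Cf z φ := fun _ _ h => h.cf

section

variable {H P : (ℕ → ℝ) → (ℕ → ℝ) → Prop}

/-- boxes from number 0 -/
def cA1_1_0 : List Nat := bA1_1_0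

lemma aA1_1_0 (hC : ∀ z φ, H z φ → Cf z φ) : AGX H P cA1_1_0 :=
  (soundL0 ctA_OKL hC tA1_1_0)

theorem topA1_1 : KL.runX KL.ctA (KL.dlX cA1_1_0) (KL.dec 0 0x60 List.nil) 0x30002000000000000000000000000000000000000000000000000000000000000000018000300180003001800030018000300180003001800030018000300180003001800030018001800835781d043288e3a [] 0 = true := by decide +kernel

/-- the root box -/
theorem rootA1_1 (hC : ∀ z φ, H z φ → Cf z φ) :
    GoodX H P 0x30002000000000000000000000000000000000000000000000000000000000000000018000300180003001800030018000300180003001800030018000300180003001800030018001800835781d043288e3a :=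
  soundLT ctA_OKL hC (aA1_1_0 hC) topA1_1

/-- boxes from number 0 -/
def cA1_2_0 : List Nat := bA1_2_0

lemma aA1_2_0 (hC : ∀ z φ, H z φ → Cf z φ) : AGX H P cA1_2_0 :=
  (soundL0 ctA_OKL hC tA1_2_0)

theorem topA1_2 : KL.runX KL.ctA (KL.dlX cA1_2_0) (KL.dec 0 0x60 List.nil) 0x100040002000000000000000000000000000000000000000000000000000000000000000018000300180003001800030018000300180003001800030018000300180003001800180018001800835781d0a10898fc [] 0 = true := by decide +kernel

/-- the root box -/
theorem rootA1_2 (hC : ∀ z φ, H z φ → Cf z φ) :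
    GoodX H P 0x100040002000000000000000000000000000000000000000000000000000000000000000018000300180003001800030018000300180003001800030018000300180003001800180018001800835781d0a10898fc :=
  soundLT ctA_OKL hC (aA1_2_0 hC) topA1_2

/-- boxes from number 0 -/
def cA1_3_0 : List Nat := bA1_3_0

lemma aA1_3_0 (hC : ∀ z φ, H z φ → Cf z φ) : AGX H P cA1_3_0 :=
  (soundL0 ctA_OKL hC tA1_3_0)

theorem topA1_3 : KL.runX KL.ctA (KL.dlX cA1_3_0) (KL.dec 0 0x60 List.nil) 0x1000000080002000000000000000000000000000000000000000000000000000000000000000018000300180003001800030018000300180003001800030018000300180018001800030018001800835781d052f16a27 [] 0 = true := by decide +kernel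

/-- the root box -/
theorem rootA1_3 (hC : ∀ z φ, H z φ → Cf z φ) :
    GoodX H P 0x1000000080002000000000000000000000000000000000000000000000000000000000000000018000300180003001800030018000300180003001800030018000300180018001800030018001800835781d052f16a27 :=
  soundLT ctA_OKL hC (aA1_3_0 hC) topA1_3

/-- boxes from number 0 -/
def cA1_4_0 : List Nat := bA1_4_0

lemma aA1_4_0 (hC : ∀ z φ, H z φ → Cf z φ) : AGX H P cA1_4_0 :=
  (soundL0 ctA_OKL hC tA1_4_0)

theorem topA1_4 : KL.runX KL.ctA (KL.dlX cA1_4_0) (KL.dec 0 0xe00006026900 List.nil) 0x10000000000100002000000000000000000000000000000000000000000000000000000000000000018000300180003001800030018000300180003001800030018001800180003001800030018001800835781d0587d7731 [] 0 = true := by decide +kernel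

/-- the root box -/
theorem rootA1_4 (hC : ∀ z φ, H z φ → Cf z φ) :
    GoodX H P 0x10000000000100002000000000000000000000000000000000000000000000000000000000000000018000300180003001800030018000300180003001800030018001800180003001800030018001800835781d0587d7731 :=
  soundLT ctA_OKL hC (aA1_4_0 hC) topA1_4

/-- boxes from number 7 -/
def cA1_5_7 : List Nat := bA1_5_7

lemma aA1_5_7 (hC : ∀ z φ, H z φ → Cf z φ) : AGX H P cA1_5_7 :=
  (soundL0 ctA_OKL hC tA1_5_7)

/-- boxes from number 6 -/
def cA1_5_6 : List Nat := bA1_5_6 ++ cA1_5_7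

lemma aA1_5_6 (hC : ∀ z φ, H z φ → Cf z φ) : AGX H P cA1_5_6 :=
  AGX_append (soundL0 ctA_OKL hC tA1_5_6) (aA1_5_7 hC)

/-- boxes from number 5 -/
def cA1_5_5 : List Nat := bA1_5_5 ++ cA1_5_6

lemma aA1_5_5 (hC : ∀ z φ, H z φ → Cf z φ) : AGX H P cA1_5_5 :=
  AGX_append (soundL0 ctA_OKL hC tA1_5_5) (aA1_5_6 hC)

/-- boxes from number 4 -/
def cA1_5_4 : List Nat := bA1_5_4 ++ cA1_5_5

lemma aA1_5_4 (hC : ∀ z φ, H z φ → Cf z φ) : AGX H P cA1_5_4 :=
  AGX_append (soundL0 ctA_OKL hC tA1_5_4) (aA1_5_5 hC)

/-- boxes from number 3 -/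
def cA1_5_3 : List Nat := bA1_5_3 ++ cA1_5_4

lemma aA1_5_3 (hC : ∀ z φ, H z φ → Cf z φ) : AGX H P cA1_5_3 :=
  AGX_append (soundL0 ctA_OKL hC tA1_5_3) (aA1_5_4 hC)

/-- boxes from number 2 -/
def cA1_5_2 : List Nat := bA1_5_2 ++ cA1_5_3

lemma aA1_5_2 (hC : ∀ z φ, H z φ → Cf z φ) : AGX H P cA1_5_2 :=
  AGX_append (soundL0 ctA_OKL hC tA1_5_2) (aA1_5_3 hC)

/-- boxes from number 1 -/
def cA1_5_1 : List Nat := bA1_5_1 ++ cA1_5_2

lemma aA1_5_1 (hC : ∀ z φ, H z φ → Cf z φ) : AGX H P cA1_5_1 :=
  AGX_append (soundL0 ctA_OKL hC tA1_5_1) (aA1_5_2 hC)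

/-- boxes from number 0 -/
def cA1_5_0 : List Nat := bA1_5_0 ++ cA1_5_1

lemma aA1_5_0 (hC : ∀ z φ, H z φ → Cf z φ) : AGX H P cA1_5_0 :=
  AGX_append (soundL0 ctA_OKL hC tA1_5_0) (aA1_5_1 hC)

theorem topA1_5 : KL.runX KL.ctA (KL.dlX cA1_5_0) (KL.dec 3 0x1560014e026a0001460013e026a002698001360012e001260011e00116011200010e0111000106000fe0a480000f601bd0000ee000e6000de000d6021500a48001bc0000ce03e18000c601bd0000be03e48000b60114001130000ae000a60009e021500a4800009601bd00008e000860007e0007603e380006e03e1800066021500a4800005e049c801bc00005601bd00004e03e48000460114001130011200003e011100003601150026d00002e026c8026c000026026b8026b0026a00001e000160000e026b8026b000006026a002698026900 List.nil) 0x100000000000000200002000000000000000000000000000000000000000000000000000000000000000018000300180003001800030018000300180003001800180018000300180003001800030018001800835781d032c7c56f [] 0 = true := by decide +kernel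

/-- the root box -/
theorem rootA1_5 (hC : ∀ z φ, H z φ → Cf z φ) :
    GoodX H P 0x100000000000000200002000000000000000000000000000000000000000000000000000000000000000018000300180003001800030018000300180003001800180018000300180003001800030018001800835781d032c7c56f :=
  soundLT ctA_OKL hC (aA1_5_0 hC) topA1_5

/-- boxes from number 5 -/
def cA1_6_5 : List Nat := bA1_6_5

lemma aA1_6_5 (hC : ∀ z φ, H z φ → Cf z φ) : AGX H P cA1_6_5 :=
  (soundL0 ctA_OKL hC tA1_6_5)

/-- boxes from number 4 -/
def cA1_6_4 : List Nat := bA1_6_4 ++ cA1_6_5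

lemma aA1_6_4 (hC : ∀ z φ, H z φ → Cf z φ) : AGX H P cA1_6_4 :=
  AGX_append (soundL0 ctA_OKL hC tA1_6_4) (aA1_6_5 hC)

/-- boxes from number 3 -/
def cA1_6_3 : List Nat := bA1_6_3 ++ cA1_6_4

lemma aA1_6_3 (hC : ∀ z φ, H z φ → Cf z φ) : AGX H P cA1_6_3 :=
  AGX_append (soundL0 ctA_OKL hC tA1_6_3) (aA1_6_4 hC)

/-- boxes from number 2 -/
def cA1_6_2 : List Nat := bA1_6_2 ++ cA1_6_3

lemma aA1_6_2 (hC : ∀ z φ, H z φ → Cf z φ) : AGX H P cA1_6_2 :=
  AGX_append (soundL0 ctA_OKL hC tA1_6_2) (aA1_6_3 hC)

/-- boxes from number 1 -/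
def cA1_6_1 : List Nat := bA1_6_1 ++ cA1_6_2

lemma aA1_6_1 (hC : ∀ z φ, H z φ → Cf z φ) : AGX H P cA1_6_1 :=
  AGX_append (soundL0 ctA_OKL hC tA1_6_1) (aA1_6_2 hC)

/-- boxes from number 0 -/
def cA1_6_0 : List Nat := bA1_6_0 ++ cA1_6_1

lemma aA1_6_0 (hC : ∀ z φ, H z φ → Cf z φ) : AGX H P cA1_6_0 :=
  AGX_append (soundL0 ctA_OKL hC tA1_6_0) (aA1_6_1 hC)

theorem topA1_6 : KL.runX KL.ctA (KL.dlX cA1_6_0) (KL.dec 2 0x8e000860007e00076026b8026a80006e026a002698000660005e000560004e026c0026b8026a8000460003e00036026c0026b80002e00026026b8026a8026a00001e000160000e026b8026a800006026a002698026900 List.nil) 0x1000000000000000000400002000000000000000000000000000000000000000000000000000000000000000018000300180003001800030018000300180018001800030018000300180003001800030018001800835781d011eca77e [] 0 = true := by decide +kernel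

/-- the root box -/
theorem rootA1_6 (hC : ∀ z φ, H z φ → Cf z φ) :
    GoodX H P 0x1000000000000000000400002000000000000000000000000000000000000000000000000000000000000000018000300180003001800030018000300180018001800030018000300180003001800030018001800835781d011eca77e :=
  soundLT ctA_OKL hC (aA1_6_0 hC) topA1_6

/-- boxes from number 0 -/
def cA1_7_0 : List Nat := bA1_7_0

lemma aA1_7_0 (hC : ∀ z φ, H z φ → Cf z φ) : AGX H P cA1_7_0 :=
  (soundL0 ctA_OKL hC tA1_7_0)

theorem topA1_7 : KL.runX KL.ctA (KL.dlX cA1_7_0) (KL.dec 0 0x360002e000260001e00016026c0026b00000e026a8026a00000602698026900 List.nil) 0x10000000000000000000000800002000000000000000000000000000000000000000000000000000000000000000018000300180003001800030018001800180003001800030018000300180003001800030018001800835781d0e5ce6064 [] 0 = true := by decide +kernel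

/-- the root box -/
theorem rootA1_7 (hC : ∀ z φ, H z φ → Cf z φ) :
    GoodX H P 0x10000000000000000000000800002000000000000000000000000000000000000000000000000000000000000000018000300180003001800030018001800180003001800030018000300180003001800030018001800835781d0e5ce6064 :=
  soundLT ctA_OKL hC (aA1_7_0 hC) topA1_7

/-- boxes from number 0 -/
def cA1_8_0 : List Nat := bA1_8_0

lemma aA1_8_0 (hC : ∀ z φ, H z φ → Cf z φ) : AGX H P cA1_8_0 :=
  (soundL0 ctA_OKL hC tA1_8_0)

theorem topA1_8 : KL.runX KL.ctA (KL.dlX cA1_8_0) (KL.dec 0 0x60 List.nil) 0x100000000000000000000000001000002000000000000000000000000000000000000000000000000000000000000000018000300180003001800180018000300180003001800030018000300180003001800030018001800835781d09273de1e [] 0 = true := by decide +kernel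

/-- the root box -/
theorem rootA1_8 (hC : ∀ z φ, H z φ → Cf z φ) :
    GoodX H P 0x100000000000000000000000001000002000000000000000000000000000000000000000000000000000000000000000018000300180003001800180018000300180003001800030018000300180003001800030018001800835781d09273de1e :=
  soundLT ctA_OKL hC (aA1_8_0 hC) topA1_8

/-- boxes from number 0 -/
def cA1_9_0 : List Nat := bA1_9_0

lemma aA1_9_0 (hC : ∀ z φ, H z φ → Cf z φ) : AGX H P cA1_9_0 :=
  (soundL0 ctA_OKL hC tA1_9_0)

theorem topA1_9 : KL.runX KL.ctA (KL.dlX cA1_9_0) (KL.dec 0 0x60 List.nil) 0x1000000000000000000000000000002000002000000000000000000000000000000000000000000000000000000000000000018000300180018001800030018000300180003001800030018000300180003001800030018001800835781d0480a1198 [] 0 = true := by decide +kernel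

/-- the root box -/
theorem rootA1_9 (hC : ∀ z φ, H z φ → Cf z φ) :
    GoodX H P 0x1000000000000000000000000000002000002000000000000000000000000000000000000000000000000000000000000000018000300180018001800030018000300180003001800030018000300180003001800030018001800835781d0480a1198 :=
  soundLT ctA_OKL hC (aA1_9_0 hC) topA1_9

/-- boxes from number 0 -/
def cA1_10_0 : List Nat := bA1_10_0

lemma aA1_10_0 (hC : ∀ z φ, H z φ → Cf z φ) : AGX H P cA1_10_0 :=
  (soundL0 ctA_OKL hC tA1_10_0)

theorem topA1_10 : KL.runX KL.ctA (KL.dlX cA1_10_0) (KL.dec 0 0x60 List.nil) 0x10000000000000000000000000000000004000002000000000000000000000000000000000000000000000000000000000000000018001800180003001800030018000300180003001800030018000300180003001800030018001800835781d07d41e414 [] 0 = true := by decide +kernel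

/-- the root box -/
theorem rootA1_10 (hC : ∀ z φ, H z φ → Cf z φ) :
    GoodX H P 0x10000000000000000000000000000000004000002000000000000000000000000000000000000000000000000000000000000000018001800180003001800030018000300180003001800030018000300180003001800030018001800835781d07d41e414 :=
  soundLT ctA_OKL hC (aA1_10_0 hC) topA1_10

/-- boxes from number 0 -/
def cA2_2_0 : List Nat := bA2_2_0

lemma aA2_2_0 (hC : ∀ z φ, H z φ → Cf z φ) : AGX H P cA2_2_0 :=
  (soundL0 ctA_OKL hC tA2_2_0)

theorem topA2_2 : KL.runX KL.ctA (KL.dlX cA2_2_0) (KL.dec 0 0x60 List.nil) 0x500000004000000000000000000000000000000000000000000000000000000000000000018000300180003001800030018000300180003001800030018000300180003001800180018000300835781d0a17647da [] 0 = true := by decide +kernel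

/-- the root box -/
theorem rootA2_2 (hC : ∀ z φ, H z φ → Cf z φ) :
    GoodX H P 0x500000004000000000000000000000000000000000000000000000000000000000000000018000300180003001800030018000300180003001800030018000300180003001800180018000300835781d0a17647da :=
  soundLT ctA_OKL hC (aA2_2_0 hC) topA2_2

/-- boxes from number 0 -/
def cA2_3_0 : List Nat := bA2_3_0

lemma aA2_3_0 (hC : ∀ z φ, H z φ → Cf z φ) : AGX H P cA2_3_0 :=
  (soundL0 ctA_OKL hC tA2_3_0)

theorem topA2_3 : KL.runX KL.ctA (KL.dlX cA2_3_0) (KL.dec 0 0x60 List.nil) 0x1000800000004000000000000000000000000000000000000000000000000000000000000000018000300180003001800030018000300180003001800030018000300180018001800180018000300835781d08b0d6def [] 0 = true := by decide +kernel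

/-- the root box -/
theorem rootA2_3 (hC : ∀ z φ, H z φ → Cf z φ) :
    GoodX H P 0x1000800000004000000000000000000000000000000000000000000000000000000000000000018000300180003001800030018000300180003001800030018000300180018001800180018000300835781d08b0d6def :=
  soundLT ctA_OKL hC (aA2_3_0 hC) topA2_3

/-- boxes from number 0 -/
def cA2_4_0 : List Nat := bA2_4_0

lemma aA2_4_0 (hC : ∀ z φ, H z φ → Cf z φ) : AGX H P cA2_4_0 :=
  (soundL0 ctA_OKL hC tA2_4_0)

theorem topA2_4 : KL.runX KL.ctA (KL.dlX cA2_4_0) (KL.dec 0 0xe00006026880 List.nil) 0x10000001000000004000000000000000000000000000000000000000000000000000000000000000018000300180003001800030018000300180003001800030018001800180003001800180018000300835781d0fff20acd [] 0 = true := by decide +kernel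

/-- the root box -/
theorem rootA2_4 (hC : ∀ z φ, H z φ → Cf z φ) :
    GoodX H P 0x10000001000000004000000000000000000000000000000000000000000000000000000000000000018000300180003001800030018000300180003001800030018001800180003001800180018000300835781d0fff20acd :=
  soundLT ctA_OKL hC (aA2_4_0 hC) topA2_4

/-- boxes from number 4 -/
def cA2_5_4 : List Nat := bA2_5_4

lemma aA2_5_4 (hC : ∀ z φ, H z φ → Cf z φ) : AGX H P cA2_5_4 :=
  (soundL0 ctA_OKL hC tA2_5_4)

/-- boxes from number 3 -/
def cA2_5_3 : List Nat := bA2_5_3 ++ cA2_5_4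

lemma aA2_5_3 (hC : ∀ z φ, H z φ → Cf z φ) : AGX H P cA2_5_3 :=
  AGX_append (soundL0 ctA_OKL hC tA2_5_3) (aA2_5_4 hC)

/-- boxes from number 2 -/
def cA2_5_2 : List Nat := bA2_5_2 ++ cA2_5_3

lemma aA2_5_2 (hC : ∀ z φ, H z φ → Cf z φ) : AGX H P cA2_5_2 :=
  AGX_append (soundL0 ctA_OKL hC tA2_5_2) (aA2_5_3 hC)

/-- boxes from number 1 -/
def cA2_5_1 : List Nat := bA2_5_1 ++ cA2_5_2

lemma aA2_5_1 (hC : ∀ z φ, H z φ → Cf z φ) : AGX H P cA2_5_1 :=
  AGX_append (soundL0 ctA_OKL hC tA2_5_1) (aA2_5_2 hC)

/-- boxes from number 0 -/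
def cA2_5_0 : List Nat := bA2_5_0 ++ cA2_5_1

lemma aA2_5_0 (hC : ∀ z φ, H z φ → Cf z φ) : AGX H P cA2_5_0 :=
  AGX_append (soundL0 ctA_OKL hC tA2_5_0) (aA2_5_1 hC)

theorem topA2_5 : KL.runX KL.ctA (KL.dlX cA2_5_0) (KL.dec 1 0x760006e00066026a0026980005e000560004e000460003e026d000036026c8026c00002e026b8026b0026a0000260001e00016026c00000e026b8026b000006026a002698026880 List.nil) 0x100000000002000000004000000000000000000000000000000000000000000000000000000000000000018000300180003001800030018000300180003001800180018000300180003001800180018000300835781d0b8ed78b8 [] 0 = true := by decide +kernel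

/-- the root box -/
theorem rootA2_5 (hC : ∀ z φ, H z φ → Cf z φ) :
    GoodX H P 0x100000000002000000004000000000000000000000000000000000000000000000000000000000000000018000300180003001800030018000300180003001800180018000300180003001800180018000300835781d0b8ed78b8 :=
  soundLT ctA_OKL hC (aA2_5_0 hC) topA2_5

/-- boxes from number 25 -/
def cA2_6_25 : List Nat := bA2_6_25

lemma aA2_6_25 (hC : ∀ z φ, H z φ → Cf z φ) : AGX H P cA2_6_25 :=
  (soundL0 ctA_OKL hC tA2_6_25)

/-- boxes from number 24 -/
def cA2_6_24 : List Nat := bA2_6_24 ++ cA2_6_25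

lemma aA2_6_24 (hC : ∀ z φ, H z φ → Cf z φ) : AGX H P cA2_6_24 :=
  AGX_append (soundL0 ctA_OKL hC tA2_6_24) (aA2_6_25 hC)

/-- boxes from number 23 -/
def cA2_6_23 : List Nat := bA2_6_23 ++ cA2_6_24

lemma aA2_6_23 (hC : ∀ z φ, H z φ → Cf z φ) : AGX H P cA2_6_23 :=
  AGX_append (soundL0 ctA_OKL hC tA2_6_23) (aA2_6_24 hC)

/-- boxes from number 22 -/
def cA2_6_22 : List Nat := bA2_6_22 ++ cA2_6_23

lemma aA2_6_22 (hC : ∀ z φ, H z φ → Cf z φ) : AGX H P cA2_6_22 :=
  AGX_append (soundL0 ctA_OKL hC tA2_6_22) (aA2_6_23 hC)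

/-- boxes from number 21 -/
def cA2_6_21 : List Nat := bA2_6_21 ++ cA2_6_22

lemma aA2_6_21 (hC : ∀ z φ, H z φ → Cf z φ) : AGX H P cA2_6_21 :=
  AGX_append (soundL0 ctA_OKL hC tA2_6_21) (aA2_6_22 hC)

/-- boxes from number 20 -/
def cA2_6_20 : List Nat := bA2_6_20 ++ cA2_6_21

lemma aA2_6_20 (hC : ∀ z φ, H z φ → Cf z φ) : AGX H P cA2_6_20 :=
  AGX_append (soundL0 ctA_OKL hC tA2_6_20) (aA2_6_21 hC)

/-- boxes from number 19 -/
def cA2_6_19 : List Nat := bA2_6_19 ++ cA2_6_20

lemma aA2_6_19 (hC : ∀ z φ, H z φ → Cf z φ) : AGX H P cA2_6_19 :=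
  AGX_append (soundL0 ctA_OKL hC tA2_6_19) (aA2_6_20 hC)

/-- boxes from number 18 -/
def cA2_6_18 : List Nat := bA2_6_18 ++ cA2_6_19

lemma aA2_6_18 (hC : ∀ z φ, H z φ → Cf z φ) : AGX H P cA2_6_18 :=
  AGX_append (soundL0 ctA_OKL hC tA2_6_18) (aA2_6_19 hC)

/-- boxes from number 17 -/
def cA2_6_17 : List Nat := bA2_6_17 ++ cA2_6_18

lemma aA2_6_17 (hC : ∀ z φ, H z φ → Cf z φ) : AGX H P cA2_6_17 :=
  AGX_append (soundL0 ctA_OKL hC tA2_6_17) (aA2_6_18 hC)

/-- boxes from number 16 -/
def cA2_6_16 : List Nat := bA2_6_16 ++ cA2_6_17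

lemma aA2_6_16 (hC : ∀ z φ, H z φ → Cf z φ) : AGX H P cA2_6_16 :=
  AGX_append (soundL0 ctA_OKL hC tA2_6_16) (aA2_6_17 hC)

/-- boxes from number 15 -/
def cA2_6_15 : List Nat := bA2_6_15 ++ cA2_6_16

lemma aA2_6_15 (hC : ∀ z φ, H z φ → Cf z φ) : AGX H P cA2_6_15 :=
  AGX_append (soundL0 ctA_OKL hC tA2_6_15) (aA2_6_16 hC)

/-- boxes from number 14 -/
def cA2_6_14 : List Nat := bA2_6_14 ++ cA2_6_15

lemma aA2_6_14 (hC : ∀ z φ, H z φ → Cf z φ) : AGX H P cA2_6_14 :=
  AGX_append (soundL0 ctA_OKL hC tA2_6_14) (aA2_6_15 hC)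

/-- boxes from number 13 -/
def cA2_6_13 : List Nat := bA2_6_13 ++ cA2_6_14

lemma aA2_6_13 (hC : ∀ z φ, H z φ → Cf z φ) : AGX H P cA2_6_13 :=
  AGX_append (soundL0 ctA_OKL hC tA2_6_13) (aA2_6_14 hC)

/-- boxes from number 12 -/
def cA2_6_12 : List Nat := bA2_6_12 ++ cA2_6_13

lemma aA2_6_12 (hC : ∀ z φ, H z φ → Cf z φ) : AGX H P cA2_6_12 :=
  AGX_append (soundL0 ctA_OKL hC tA2_6_12) (aA2_6_13 hC)

/-- boxes from number 11 -/
def cA2_6_11 : List Nat := bA2_6_11 ++ cA2_6_12

lemma aA2_6_11 (hC : ∀ z φ, H z φ → Cf z φ) : AGX H P cA2_6_11 :=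
  AGX_append (soundL0 ctA_OKL hC tA2_6_11) (aA2_6_12 hC)

/-- boxes from number 10 -/
def cA2_6_10 : List Nat := bA2_6_10 ++ cA2_6_11

lemma aA2_6_10 (hC : ∀ z φ, H z φ → Cf z φ) : AGX H P cA2_6_10 :=
  AGX_append (soundL0 ctA_OKL hC tA2_6_10) (aA2_6_11 hC)

/-- boxes from number 9 -/
def cA2_6_9 : List Nat := bA2_6_9 ++ cA2_6_10

lemma aA2_6_9 (hC : ∀ z φ, H z φ → Cf z φ) : AGX H P cA2_6_9 :=
  AGX_append (soundL0 ctA_OKL hC tA2_6_9) (aA2_6_10 hC)

/-- boxes from number 8 -/
def cA2_6_8 : List Nat := bA2_6_8 ++ cA2_6_9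

lemma aA2_6_8 (hC : ∀ z φ, H z φ → Cf z φ) : AGX H P cA2_6_8 :=
  AGX_append (soundL0 ctA_OKL hC tA2_6_8) (aA2_6_9 hC)

/-- boxes from number 7 -/
def cA2_6_7 : List Nat := bA2_6_7 ++ cA2_6_8

lemma aA2_6_7 (hC : ∀ z φ, H z φ → Cf z φ) : AGX H P cA2_6_7 :=
  AGX_append (soundL0 ctA_OKL hC tA2_6_7) (aA2_6_8 hC)

/-- boxes from number 6 -/
def cA2_6_6 : List Nat := bA2_6_6 ++ cA2_6_7

lemma aA2_6_6 (hC : ∀ z φ, H z φ → Cf z φ) : AGX H P cA2_6_6 :=
  AGX_append (soundL0 ctA_OKL hC tA2_6_6) (aA2_6_7 hC)

/-- boxes from number 5 -/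
def cA2_6_5 : List Nat := bA2_6_5 ++ cA2_6_6

lemma aA2_6_5 (hC : ∀ z φ, H z φ → Cf z φ) : AGX H P cA2_6_5 :=
  AGX_append (soundL0 ctA_OKL hC tA2_6_5) (aA2_6_6 hC)

/-- boxes from number 4 -/
def cA2_6_4 : List Nat := bA2_6_4 ++ cA2_6_5

lemma aA2_6_4 (hC : ∀ z φ, H z φ → Cf z φ) : AGX H P cA2_6_4 :=
  AGX_append (soundL0 ctA_OKL hC tA2_6_4) (aA2_6_5 hC)

/-- boxes from number 3 -/
def cA2_6_3 : List Nat := bA2_6_3 ++ cA2_6_4

lemma aA2_6_3 (hC : ∀ z φ, H z φ → Cf z φ) : AGX H P cA2_6_3 :=
  AGX_append (soundL0 ctA_OKL hC tA2_6_3) (aA2_6_4 hC)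

/-- boxes from number 2 -/
def cA2_6_2 : List Nat := bA2_6_2 ++ cA2_6_3

lemma aA2_6_2 (hC : ∀ z φ, H z φ → Cf z φ) : AGX H P cA2_6_2 :=
  AGX_append (soundL0 ctA_OKL hC tA2_6_2) (aA2_6_3 hC)

/-- boxes from number 1 -/
def cA2_6_1 : List Nat := bA2_6_1 ++ cA2_6_2

lemma aA2_6_1 (hC : ∀ z φ, H z φ → Cf z φ) : AGX H P cA2_6_1 :=
  AGX_append (soundL0 ctA_OKL hC tA2_6_1) (aA2_6_2 hC)

/-- boxes from number 0 -/
def cA2_6_0 : List Nat := bA2_6_0 ++ cA2_6_1

lemma aA2_6_0 (hC : ∀ z φ, H z φ → Cf z φ) : AGX H P cA2_6_0 :=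
  AGX_append (soundL0 ctA_OKL hC tA2_6_0) (aA2_6_1 hC)

theorem topA2_6 : KL.runX KL.ctA (KL.dlX cA2_6_0) (KL.dec 5 0x4a60049e004960048e004860047e004760046e004660045e01bb800456049d001bc801b980044e03e2003e080044603e400043e03e5000436011480042e004260041e004160040e04f5000406049d001bc801b9803e08003fe03e50003f6011480113801128003ee003e6003de003d6003ce003c601138003be049d003208003b603e20003ae03e4003e08003a603e500039e01bc800396011480049201128011180038e026d0026c800386026c0026b8026a80037e00376026b80036e026a8026a002698003660035e00356026b8026a80034e003460033e026c0026b8003360032e00326026c0026b8026a8026a00031e003160030e026c0026b800306002fe002f6026c8026c0002ee002e6026d0002de002d6002ce002c6002be002b601bb80a48001ba801b9801bc8002ae01b88002a603e500029e03e400029603e200028e01148002860027e002760026e01b980a48001bc80026601b880025e03e500025603e400024e03e200024601148011380023e002360022e002260021e002160020e007a801618021480a48000206049c001b98049a0001fe001f6001ee001e6001de02108001d6049d0001ce0039201bb80a48001b9801bc8001c601b88001be0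3e50001b603e40001ae001a601bc80019e01b880019603e500018e03e4003e2000186011480017e001760016e00166007a801b98049a00015e001560014e0014604f500013e007a8001360164801b980012e001260030a021080a4800011e049d001bc80011601b880010e03e400010603e20000fe03e50000f6011480113801128000ee000e601bc8000de01b88000d603e50000ce03e40000c603e20000be01148000b601138000ae000a60009e0009601bb80008e0030a021080a48000086049c00007e007980007601bc80006e01b88000660005e01bb80005601b8803e200004e03e500004603e400003e01138000360114801128011180002e0110800026026d0026c80001e026c0026b8026a8000160000e026b800006026a8026a002698026880 List.nil) 0x1000000000000004000000004000000000000000000000000000000000000000000000000000000000000000018000300180003001800030018000300180018001800030018000300180003001800180018000300835781d055749a21 [] 0 = true := by decide +kernel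

/-- the root box -/
theorem rootA2_6 (hC : ∀ z φ, H z φ → Cf z φ) :
    GoodX H P 0x1000000000000004000000004000000000000000000000000000000000000000000000000000000000000000018000300180003001800030018000300180018001800030018000300180003001800180018000300835781d055749a21 :=
  soundLT ctA_OKL hC (aA2_6_0 hC) topA2_6

/-- boxes from number 6 -/
def cA2_7_6 : List Nat := bA2_7_6

lemma aA2_7_6 (hC : ∀ z φ, H z φ → Cf z φ) : AGX H P cA2_7_6 :=
  (soundL0 ctA_OKL hC tA2_7_6)

/-- boxes from number 5 -/
def cA2_7_5 : List Nat := bA2_7_5 ++ cA2_7_6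

lemma aA2_7_5 (hC : ∀ z φ, H z φ → Cf z φ) : AGX H P cA2_7_5 :=
  AGX_append (soundL0 ctA_OKL hC tA2_7_5) (aA2_7_6 hC)

/-- boxes from number 4 -/
def cA2_7_4 : List Nat := bA2_7_4 ++ cA2_7_5

lemma aA2_7_4 (hC : ∀ z φ, H z φ → Cf z φ) : AGX H P cA2_7_4 :=
  AGX_append (soundL0 ctA_OKL hC tA2_7_4) (aA2_7_5 hC)

/-- boxes from number 3 -/
def cA2_7_3 : List Nat := bA2_7_3 ++ cA2_7_4

lemma aA2_7_3 (hC : ∀ z φ, H z φ → Cf z φ) : AGX H P cA2_7_3 :=
  AGX_append (soundL0 ctA_OKL hC tA2_7_3) (aA2_7_4 hC)

/-- boxes from number 2 -/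
def cA2_7_2 : List Nat := bA2_7_2 ++ cA2_7_3

lemma aA2_7_2 (hC : ∀ z φ, H z φ → Cf z φ) : AGX H P cA2_7_2 :=
  AGX_append (soundL0 ctA_OKL hC tA2_7_2) (aA2_7_3 hC)

/-- boxes from number 1 -/
def cA2_7_1 : List Nat := bA2_7_1 ++ cA2_7_2

lemma aA2_7_1 (hC : ∀ z φ, H z φ → Cf z φ) : AGX H P cA2_7_1 :=
  AGX_append (soundL0 ctA_OKL hC tA2_7_1) (aA2_7_2 hC)

/-- boxes from number 0 -/
def cA2_7_0 : List Nat := bA2_7_0 ++ cA2_7_1

lemma aA2_7_0 (hC : ∀ z φ, H z φ → Cf z φ) : AGX H P cA2_7_0 :=
  AGX_append (soundL0 ctA_OKL hC tA2_7_0) (aA2_7_1 hC)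

theorem topA2_7 : KL.runX KL.ctA (KL.dlX cA2_7_0) (KL.dec 2 0xa60009e000960008e026b0026a8000860007e026b000076026a8026a0026980006e000660005e00056026c0026b00004e026a8026a0000460003e000360002e026c8026c0026b0000260001e00016026c8026c00000e026b0026a800006026a002698026880 List.nil) 0x10000000000000000008000000004000000000000000000000000000000000000000000000000000000000000000018000300180003001800030018001800180003001800030018000300180003001800180018000300835781d0a41ad1bb [] 0 = true := by decide +kernel

/-- the root box -/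
theorem rootA2_7 (hC : ∀ z φ, H z φ → Cf z φ) :
    GoodX H P 0x10000000000000000008000000004000000000000000000000000000000000000000000000000000000000000000018000300180003001800030018001800180003001800030018000300180003001800180018000300835781d0a41ad1bb :=
  soundLT ctA_OKL hC (aA2_7_0 hC) topA2_7

/-- boxes from number 1 -/
def cA2_8_1 : List Nat := bA2_8_1

lemma aA2_8_1 (hC : ∀ z φ, H z φ → Cf z φ) : AGX H P cA2_8_1 :=
  (soundL0 ctA_OKL hC tA2_8_1)

/-- boxes from number 0 -/
def cA2_8_0 : List Nat := bA2_8_0 ++ cA2_8_1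

lemma aA2_8_0 (hC : ∀ z φ, H z φ → Cf z φ) : AGX H P cA2_8_0 :=
  AGX_append (soundL0 ctA_OKL hC tA2_8_0) (aA2_8_1 hC)

theorem topA2_8 : KL.runX KL.ctA (KL.dlX cA2_8_0) (KL.dec 1 0x6e000660005e000560004e026c8026b800046026b0026a80003e026a002698000360002e000260001e00016026c8026b80000e026b0026a800006026a002698026880 List.nil) 0x100000000000000000000010000000004000000000000000000000000000000000000000000000000000000000000000018000300180003001800180018000300180003001800030018000300180003001800180018000300835781d046494cd8 [] 0 = true := by decide +kernel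

/-- the root box -/
theorem rootA2_8 (hC : ∀ z φ, H z φ → Cf z φ) :
    GoodX H P 0x100000000000000000000010000000004000000000000000000000000000000000000000000000000000000000000000018000300180003001800180018000300180003001800030018000300180003001800180018000300835781d046494cd8 :=
  soundLT ctA_OKL hC (aA2_8_0 hC) topA2_8

/-- boxes from number 0 -/
def cA2_9_0 : List Nat := bA2_9_0

lemma aA2_9_0 (hC : ∀ z φ, H z φ → Cf z φ) : AGX H P cA2_9_0 :=
  (soundL0 ctA_OKL hC tA2_9_0)

theorem topA2_9 : KL.runX KL.ctA (KL.dlX cA2_9_0) (KL.dec 0 0x60 List.nil) 0x1000000000000000000000000020000000004000000000000000000000000000000000000000000000000000000000000000018000300180018001800030018000300180003001800030018000300180003001800180018000300835781d0e6f17b13 [] 0 = true := by decide +kernel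

/-- the root box -/
theorem rootA2_9 (hC : ∀ z φ, H z φ → Cf z φ) :
    GoodX H P 0x1000000000000000000000000020000000004000000000000000000000000000000000000000000000000000000000000000018000300180018001800030018000300180003001800030018000300180003001800180018000300835781d0e6f17b13 :=
  soundLT ctA_OKL hC (aA2_9_0 hC) topA2_9

/-- boxes from number 0 -/
def cA3_3_0 : List Nat := bA3_3_0

lemma aA3_3_0 (hC : ∀ z φ, H z φ → Cf z φ) : AGX H P cA3_3_0 :=
  (soundL0 ctA_OKL hC tA3_3_0)

theorem topA3_3 : KL.runX KL.ctA (KL.dlX cA3_3_0) (KL.dec 0 0x60 List.nil) 0x9000000000008000000000000000000000000000000000000000000000000000000000000000018000300180003001800030018000300180003001800030018000300180018001800030018000300835781d0ac652d8f [] 0 = true := by decide +kernel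

/-- the root box -/
theorem rootA3_3 (hC : ∀ z φ, H z φ → Cf z φ) :
    GoodX H P 0x9000000000008000000000000000000000000000000000000000000000000000000000000000018000300180003001800030018000300180003001800030018000300180018001800030018000300835781d0ac652d8f :=
  soundLT ctA_OKL hC (aA3_3_0 hC) topA3_3

/-- boxes from number 0 -/
def cA3_4_0 : List Nat := bA3_4_0

lemma aA3_4_0 (hC : ∀ z φ, H z φ → Cf z φ) : AGX H P cA3_4_0 :=
  (soundL0 ctA_OKL hC tA3_4_0)

theorem topA3_4 : KL.runX KL.ctA (KL.dlX cA3_4_0) (KL.dec 0 0xe00006026880 List.nil) 0x10010000000000008000000000000000000000000000000000000000000000000000000000000000018000300180003001800030018000300180003001800030018001800180018001800030018000300835781d0b12a382a [] 0 = true := by decide +kernel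

/-- the root box -/
theorem rootA3_4 (hC : ∀ z φ, H z φ → Cf z φ) :
    GoodX H P 0x10010000000000008000000000000000000000000000000000000000000000000000000000000000018000300180003001800030018000300180003001800030018001800180018001800030018000300835781d0b12a382a :=
  soundLT ctA_OKL hC (aA3_4_0 hC) topA3_4

/-- boxes from number 3 -/
def cA3_5_3 : List Nat := bA3_5_3

lemma aA3_5_3 (hC : ∀ z φ, H z φ → Cf z φ) : AGX H P cA3_5_3 :=
  (soundL0 ctA_OKL hC tA3_5_3)

/-- boxes from number 2 -/
def cA3_5_2 : List Nat := bA3_5_2 ++ cA3_5_3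

lemma aA3_5_2 (hC : ∀ z φ, H z φ → Cf z φ) : AGX H P cA3_5_2 :=
  AGX_append (soundL0 ctA_OKL hC tA3_5_2) (aA3_5_3 hC)

/-- boxes from number 1 -/
def cA3_5_1 : List Nat := bA3_5_1 ++ cA3_5_2

lemma aA3_5_1 (hC : ∀ z φ, H z φ → Cf z φ) : AGX H P cA3_5_1 :=
  AGX_append (soundL0 ctA_OKL hC tA3_5_1) (aA3_5_2 hC)

/-- boxes from number 0 -/
def cA3_5_0 : List Nat := bA3_5_0 ++ cA3_5_1

lemma aA3_5_0 (hC : ∀ z φ, H z φ → Cf z φ) : AGX H P cA3_5_0 :=
  AGX_append (soundL0 ctA_OKL hC tA3_5_0) (aA3_5_1 hC)

theorem topA3_5 : KL.runX KL.ctA (KL.dlX cA3_5_0) (KL.dec 1 0x760006e000660005e000560004e00046011200003e011100003601150026d00002e026c8026c000026026b8026b0026a0026900001e00016026a00000e00006026a002690026880 List.nil) 0x100000020000000000008000000000000000000000000000000000000000000000000000000000000000018000300180003001800030018000300180003001800180018000300180018001800030018000300835781d089d1ff8a [] 0 = true := by decide +kernel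

/-- the root box -/
theorem rootA3_5 (hC : ∀ z φ, H z φ → Cf z φ) :
    GoodX H P 0x100000020000000000008000000000000000000000000000000000000000000000000000000000000000018000300180003001800030018000300180003001800180018000300180018001800030018000300835781d089d1ff8a :=
  soundLT ctA_OKL hC (aA3_5_0 hC) topA3_5

/-- boxes from number 8 -/
def cA3_6_8 : List Nat := bA3_6_8

lemma aA3_6_8 (hC : ∀ z φ, H z φ → Cf z φ) : AGX H P cA3_6_8 :=
  (soundL0 ctA_OKL hC tA3_6_8)

/-- boxes from number 7 -/
def cA3_6_7 : List Nat := bA3_6_7 ++ cA3_6_8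

lemma aA3_6_7 (hC : ∀ z φ, H z φ → Cf z φ) : AGX H P cA3_6_7 :=
  AGX_append (soundL0 ctA_OKL hC tA3_6_7) (aA3_6_8 hC)

/-- boxes from number 6 -/
def cA3_6_6 : List Nat := bA3_6_6 ++ cA3_6_7

lemma aA3_6_6 (hC : ∀ z φ, H z φ → Cf z φ) : AGX H P cA3_6_6 :=
  AGX_append (soundL0 ctA_OKL hC tA3_6_6) (aA3_6_7 hC)

/-- boxes from number 5 -/
def cA3_6_5 : List Nat := bA3_6_5 ++ cA3_6_6

lemma aA3_6_5 (hC : ∀ z φ, H z φ → Cf z φ) : AGX H P cA3_6_5 :=
  AGX_append (soundL0 ctA_OKL hC tA3_6_5) (aA3_6_6 hC)

/-- boxes from number 4 -/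
def cA3_6_4 : List Nat := bA3_6_4 ++ cA3_6_5

lemma aA3_6_4 (hC : ∀ z φ, H z φ → Cf z φ) : AGX H P cA3_6_4 :=
  AGX_append (soundL0 ctA_OKL hC tA3_6_4) (aA3_6_5 hC)

/-- boxes from number 3 -/
def cA3_6_3 : List Nat := bA3_6_3 ++ cA3_6_4

lemma aA3_6_3 (hC : ∀ z φ, H z φ → Cf z φ) : AGX H P cA3_6_3 :=
  AGX_append (soundL0 ctA_OKL hC tA3_6_3) (aA3_6_4 hC)

/-- boxes from number 2 -/
def cA3_6_2 : List Nat := bA3_6_2 ++ cA3_6_3

lemma aA3_6_2 (hC : ∀ z φ, H z φ → Cf z φ) : AGX H P cA3_6_2 :=
  AGX_append (soundL0 ctA_OKL hC tA3_6_2) (aA3_6_3 hC)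

/-- boxes from number 1 -/
def cA3_6_1 : List Nat := bA3_6_1 ++ cA3_6_2

lemma aA3_6_1 (hC : ∀ z φ, H z φ → Cf z φ) : AGX H P cA3_6_1 :=
  AGX_append (soundL0 ctA_OKL hC tA3_6_1) (aA3_6_2 hC)

/-- boxes from number 0 -/
def cA3_6_0 : List Nat := bA3_6_0 ++ cA3_6_1

lemma aA3_6_0 (hC : ∀ z φ, H z φ → Cf z φ) : AGX H P cA3_6_0 :=
  AGX_append (soundL0 ctA_OKL hC tA3_6_0) (aA3_6_1 hC)

theorem topA3_6 : KL.runX KL.ctA (KL.dlX cA3_6_0) (KL.dec 3 0x11e001160010e026a8026a000106000fe000f6000ee000e601128000de01110000d6026d0026c8000ce026c0026b8026a8000c6000be000b6000ae026d0026c8000a60009e026d000096026c8026c0026b80008e00086026c00007e026b8026a8026a002690000760006e000660005e026b8026a8026a0000560004e000460003e00036011280002e0111000026011080001e026d0026c800016026c0026b8026a80000e00006026a8026a002690026880 List.nil) 0x1000000000040000000000008000000000000000000000000000000000000000000000000000000000000000018000300180003001800030018000300180018001800030018000300180018001800030018000300835781d065b1d3dd [] 0 = true := by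 decide +kernel

/-- the root box -/
theorem rootA3_6 (hC : ∀ z φ, H z φ → Cf z φ) :
    GoodX H P 0x1000000000040000000000008000000000000000000000000000000000000000000000000000000000000000018000300180003001800030018000300180018001800030018000300180018001800030018000300835781d065b1d3dd :=
  soundLT ctA_OKL hC (aA3_6_0 hC) topA3_6

/-- boxes from number 17 -/
def cA3_7_17 : List Nat := bA3_7_17

lemma aA3_7_17 (hC : ∀ z φ, H z φ → Cf z φ) : AGX H P cA3_7_17 :=
  (soundL0 ctA_OKL hC tA3_7_17)

/-- boxes from number 16 -/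
def cA3_7_16 : List Nat := bA3_7_16 ++ cA3_7_17

lemma aA3_7_16 (hC : ∀ z φ, H z φ → Cf z φ) : AGX H P cA3_7_16 :=
  AGX_append (soundL0 ctA_OKL hC tA3_7_16) (aA3_7_17 hC)

/-- boxes from number 15 -/
def cA3_7_15 : List Nat := bA3_7_15 ++ cA3_7_16

lemma aA3_7_15 (hC : ∀ z φ, H z φ → Cf z φ) : AGX H P cA3_7_15 :=
  AGX_append (soundL0 ctA_OKL hC tA3_7_15) (aA3_7_16 hC)

/-- boxes from number 14 -/
def cA3_7_14 : List Nat := bA3_7_14 ++ cA3_7_15

lemma aA3_7_14 (hC : ∀ z φ, H z φ → Cf z φ) : AGX H P cA3_7_14 :=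
  AGX_append (soundL0 ctA_OKL hC tA3_7_14) (aA3_7_15 hC)

/-- boxes from number 13 -/
def cA3_7_13 : List Nat := bA3_7_13 ++ cA3_7_14

lemma aA3_7_13 (hC : ∀ z φ, H z φ → Cf z φ) : AGX H P cA3_7_13 :=
  AGX_append (soundL0 ctA_OKL hC tA3_7_13) (aA3_7_14 hC)

/-- boxes from number 12 -/
def cA3_7_12 : List Nat := bA3_7_12 ++ cA3_7_13

lemma aA3_7_12 (hC : ∀ z φ, H z φ → Cf z φ) : AGX H P cA3_7_12 :=
  AGX_append (soundL0 ctA_OKL hC tA3_7_12) (aA3_7_13 hC)

/-- boxes from number 11 -/
def cA3_7_11 : List Nat := bA3_7_11 ++ cA3_7_12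

lemma aA3_7_11 (hC : ∀ z φ, H z φ → Cf z φ) : AGX H P cA3_7_11 :=
  AGX_append (soundL0 ctA_OKL hC tA3_7_11) (aA3_7_12 hC)

/-- boxes from number 10 -/
def cA3_7_10 : List Nat := bA3_7_10 ++ cA3_7_11

lemma aA3_7_10 (hC : ∀ z φ, H z φ → Cf z φ) : AGX H P cA3_7_10 :=
  AGX_append (soundL0 ctA_OKL hC tA3_7_10) (aA3_7_11 hC)

/-- boxes from number 9 -/
def cA3_7_9 : List Nat := bA3_7_9 ++ cA3_7_10

lemma aA3_7_9 (hC : ∀ z φ, H z φ → Cf z φ) : AGX H P cA3_7_9 :=
  AGX_append (soundL0 ctA_OKL hC tA3_7_9) (aA3_7_10 hC)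

/-- boxes from number 8 -/
def cA3_7_8 : List Nat := bA3_7_8 ++ cA3_7_9

lemma aA3_7_8 (hC : ∀ z φ, H z φ → Cf z φ) : AGX H P cA3_7_8 :=
  AGX_append (soundL0 ctA_OKL hC tA3_7_8) (aA3_7_9 hC)

/-- boxes from number 7 -/
def cA3_7_7 : List Nat := bA3_7_7 ++ cA3_7_8

lemma aA3_7_7 (hC : ∀ z φ, H z φ → Cf z φ) : AGX H P cA3_7_7 :=
  AGX_append (soundL0 ctA_OKL hC tA3_7_7) (aA3_7_8 hC)

/-- boxes from number 6 -/
def cA3_7_6 : List Nat := bA3_7_6 ++ cA3_7_7

lemma aA3_7_6 (hC : ∀ z φ, H z φ → Cf z φ) : AGX H P cA3_7_6 :=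
  AGX_append (soundL0 ctA_OKL hC tA3_7_6) (aA3_7_7 hC)

/-- boxes from number 5 -/
def cA3_7_5 : List Nat := bA3_7_5 ++ cA3_7_6

lemma aA3_7_5 (hC : ∀ z φ, H z φ → Cf z φ) : AGX H P cA3_7_5 :=
  AGX_append (soundL0 ctA_OKL hC tA3_7_5) (aA3_7_6 hC)

/-- boxes from number 4 -/
def cA3_7_4 : List Nat := bA3_7_4 ++ cA3_7_5

lemma aA3_7_4 (hC : ∀ z φ, H z φ → Cf z φ) : AGX H P cA3_7_4 :=
  AGX_append (soundL0 ctA_OKL hC tA3_7_4) (aA3_7_5 hC)

/-- boxes from number 3 -/
def cA3_7_3 : List Nat := bA3_7_3 ++ cA3_7_4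

lemma aA3_7_3 (hC : ∀ z φ, H z φ → Cf z φ) : AGX H P cA3_7_3 :=
  AGX_append (soundL0 ctA_OKL hC tA3_7_3) (aA3_7_4 hC)

/-- boxes from number 2 -/
def cA3_7_2 : List Nat := bA3_7_2 ++ cA3_7_3

lemma aA3_7_2 (hC : ∀ z φ, H z φ → Cf z φ) : AGX H P cA3_7_2 :=
  AGX_append (soundL0 ctA_OKL hC tA3_7_2) (aA3_7_3 hC)

/-- boxes from number 1 -/
def cA3_7_1 : List Nat := bA3_7_1 ++ cA3_7_2

lemma aA3_7_1 (hC : ∀ z φ, H z φ → Cf z φ) : AGX H P cA3_7_1 :=
  AGX_append (soundL0 ctA_OKL hC tA3_7_1) (aA3_7_2 hC)

/-- boxes from number 0 -/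
def cA3_7_0 : List Nat := bA3_7_0 ++ cA3_7_1

lemma aA3_7_0 (hC : ∀ z φ, H z φ → Cf z φ) : AGX H P cA3_7_0 :=
  AGX_append (soundL0 ctA_OKL hC tA3_7_0) (aA3_7_1 hC)

theorem topA3_7 : KL.runX KL.ctA (KL.dlX cA3_7_0) (KL.dec 4 0x36e003660035e003560034e003460033e003360032e0032601130011200031e04988032100a480003160030e00306002fe0322801130001c2002f60114003e28002ee03e4803e10002e603e08002de01bd0002d601150026d0002ce026c8026c0026b0002c6026a8026a0002be002b6002ae002a6026c0026b0026a80029e002960028e0028603e280027e03e480027601bd00026e01150026d0002660025e026d0026c8002560024e0112000246011100023e0023601b900022e03e480022603e280021e03e0800216011500020e0114000206001fe001f601ba0049a8001ee01bd0001e601b90001de03e48001d603e28001ce03e08001c601150001be0114001130001b6001ae03e28001a603e080019e0115000196011400018e001860017e00176007b00016e007a0049a800166049880015e001560014e007b000146049880013e0041a01bc000136007a00012e00392021100a48000126049c80011e01bd00011601b900010e00106049c8000fe01bd0000f6000ee000e6000de00c200a480000d6007a0000ce049c8000c60498800c30000be03228000b6007b0000ae0041a000a6016400009e01bd001bc00009601b9003e280008e03e480008603e080007e01140000760115001130011200006e01110026d000066026c8026c0026b00005e00056026b0026a8026a0026900004e000460003e026b000036026a8026a00002e000260001e026b0026a8000160000e026b000006026a8026a002690026880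 List.nil) 0x10000000000000080000000000008000000000000000000000000000000000000000000000000000000000000000018000300180003001800030018001800180003001800030018000300180018001800030018000300835781d033097150 [] 0 = true := by decide +kernel

/-- the root box -/
theorem rootA3_7 (hC : ∀ z φ, H z φ → Cf z φ) :
    GoodX H P 0x10000000000000080000000000008000000000000000000000000000000000000000000000000000000000000000018000300180003001800030018001800180003001800030018000300180018001800030018000300835781d033097150 :=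
  soundLT ctA_OKL hC (aA3_7_0 hC) topA3_7

/-- boxes from number 7 -/
def cA3_8_7 : List Nat := bA3_8_7

lemma aA3_8_7 (hC : ∀ z φ, H z φ → Cf z φ) : AGX H P cA3_8_7 :=
  (soundL0 ctA_OKL hC tA3_8_7)

/-- boxes from number 6 -/
def cA3_8_6 : List Nat := bA3_8_6 ++ cA3_8_7

lemma aA3_8_6 (hC : ∀ z φ, H z φ → Cf z φ) : AGX H P cA3_8_6 :=
  AGX_append (soundL0 ctA_OKL hC tA3_8_6) (aA3_8_7 hC)

/-- boxes from number 5 -/
def cA3_8_5 : List Nat := bA3_8_5 ++ cA3_8_6

lemma aA3_8_5 (hC : ∀ z φ, H z φ → Cf z φ) : AGX H P cA3_8_5 :=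
  AGX_append (soundL0 ctA_OKL hC tA3_8_5) (aA3_8_6 hC)

/-- boxes from number 4 -/
def cA3_8_4 : List Nat := bA3_8_4 ++ cA3_8_5

lemma aA3_8_4 (hC : ∀ z φ, H z φ → Cf z φ) : AGX H P cA3_8_4 :=
  AGX_append (soundL0 ctA_OKL hC tA3_8_4) (aA3_8_5 hC)

/-- boxes from number 3 -/
def cA3_8_3 : List Nat := bA3_8_3 ++ cA3_8_4

lemma aA3_8_3 (hC : ∀ z φ, H z φ → Cf z φ) : AGX H P cA3_8_3 :=
  AGX_append (soundL0 ctA_OKL hC tA3_8_3) (aA3_8_4 hC)

/-- boxes from number 2 -/
def cA3_8_2 : List Nat := bA3_8_2 ++ cA3_8_3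

lemma aA3_8_2 (hC : ∀ z φ, H z φ → Cf z φ) : AGX H P cA3_8_2 :=
  AGX_append (soundL0 ctA_OKL hC tA3_8_2) (aA3_8_3 hC)

/-- boxes from number 1 -/
def cA3_8_1 : List Nat := bA3_8_1 ++ cA3_8_2

lemma aA3_8_1 (hC : ∀ z φ, H z φ → Cf z φ) : AGX H P cA3_8_1 :=
  AGX_append (soundL0 ctA_OKL hC tA3_8_1) (aA3_8_2 hC)

/-- boxes from number 0 -/
def cA3_8_0 : List Nat := bA3_8_0 ++ cA3_8_1

lemma aA3_8_0 (hC : ∀ z φ, H z φ → Cf z φ) : AGX H P cA3_8_0 :=
  AGX_append (soundL0 ctA_OKL hC tA3_8_0) (aA3_8_1 hC)

theorem topA3_8 : KL.runX KL.ctA (KL.dlX cA3_8_0) (KL.dec 2 0xde000d6000ce026a8026a0000c6000be000b6000ae026c8026b8000a6026b0026a80009e000960008e00086026d0026c8026b80007e000760006e026d0026c800066026b8026b00005e026a8026a002690000560004e00046026a8026a00003e000360002e00026026c8026b80001e026b0026a8000160000e026b000006026a8026a002690026880 List.nil) 0x100000000000000000100000000000008000000000000000000000000000000000000000000000000000000000000000018000300180003001800180018000300180003001800030018000300180018001800030018000300835781d0d29ab815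 [] 0 = true := by decide +kernel

/-- the root box -/
theorem rootA3_8 (hC : ∀ z φ, H z φ → Cf z φ) :
    GoodX H P 0x100000000000000000100000000000008000000000000000000000000000000000000000000000000000000000000000018000300180003001800180018000300180003001800030018000300180018001800030018000300835781d0d29ab815 :=
  soundLT ctA_OKL hC (aA3_8_0 hC) topA3_8

/-- boxes from number 1 -/
def cA4_4_1 : List Nat := bA4_4_1

lemma aA4_4_1 (hC : ∀ z φ, H z φ → Cf z φ) : AGX H P cA4_4_1 :=
  (soundL0 ctA_OKL hC tA4_4_1)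

/-- boxes from number 0 -/
def cA4_4_0 : List Nat := bA4_4_0 ++ cA4_4_1

lemma aA4_4_0 (hC : ∀ z φ, H z φ → Cf z φ) : AGX H P cA4_4_0 :=
  AGX_append (soundL0 ctA_OKL hC tA4_4_0) (aA4_4_1 hC)

theorem topA4_4 : KL.runX KL.ctA (KL.dlX cA4_4_0) (KL.dec 0 0x1e00016026900000e0000602690026880 List.nil) 0x110000000000000010000000000000000000000000000000000000000000000000000000000000000018000300180003001800030018000300180003001800030018001800180003001800030018000300835781d02d9cd556 [] 0 = true := by decide +kernel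

/-- the root box -/
theorem rootA4_4 (hC : ∀ z φ, H z φ → Cf z φ) :
    GoodX H P 0x110000000000000010000000000000000000000000000000000000000000000000000000000000000018000300180003001800030018000300180003001800030018001800180003001800030018000300835781d02d9cd556 :=
  soundLT ctA_OKL hC (aA4_4_0 hC) topA4_4

/-- boxes from number 1 -/
def cA4_5_1 : List Nat := bA4_5_1

lemma aA4_5_1 (hC : ∀ z φ, H z φ → Cf z φ) : AGX H P cA4_5_1 :=
  (soundL0 ctA_OKL hC tA4_5_1)

/-- boxes from number 0 -/
def cA4_5_0 : List Nat := bA4_5_0 ++ cA4_5_1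

lemma aA4_5_0 (hC : ∀ z φ, H z φ → Cf z φ) : AGX H P cA4_5_0 :=
  AGX_append (soundL0 ctA_OKL hC tA4_5_0) (aA4_5_1 hC)

theorem topA4_5 : KL.runX KL.ctA (KL.dlX cA4_5_0) (KL.dec 0 0x260001e0001602698026900000e0000602690026880 List.nil) 0x100200000000000000010000000000000000000000000000000000000000000000000000000000000000018000300180003001800030018000300180003001800180018001800180003001800030018000300835781d05fed8012 [] 0 = true := by decide +kernel

/-- the root box -/
theorem rootA4_5 (hC : ∀ z φ, H z φ → Cf z φ) :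
    GoodX H P 0x100200000000000000010000000000000000000000000000000000000000000000000000000000000000018000300180003001800030018000300180003001800180018001800180003001800030018000300835781d05fed8012 :=
  soundLT ctA_OKL hC (aA4_5_0 hC) topA4_5

/-- boxes from number 6 -/
def cA4_6_6 : List Nat := bA4_6_6

lemma aA4_6_6 (hC : ∀ z φ, H z φ → Cf z φ) : AGX H P cA4_6_6 :=
  (soundL0 ctA_OKL hC tA4_6_6)

/-- boxes from number 5 -/
def cA4_6_5 : List Nat := bA4_6_5 ++ cA4_6_6

lemma aA4_6_5 (hC : ∀ z φ, H z φ → Cf z φ) : AGX H P cA4_6_5 :=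
  AGX_append (soundL0 ctA_OKL hC tA4_6_5) (aA4_6_6 hC)

/-- boxes from number 4 -/
def cA4_6_4 : List Nat := bA4_6_4 ++ cA4_6_5

lemma aA4_6_4 (hC : ∀ z φ, H z φ → Cf z φ) : AGX H P cA4_6_4 :=
  AGX_append (soundL0 ctA_OKL hC tA4_6_4) (aA4_6_5 hC)

/-- boxes from number 3 -/
def cA4_6_3 : List Nat := bA4_6_3 ++ cA4_6_4

lemma aA4_6_3 (hC : ∀ z φ, H z φ → Cf z φ) : AGX H P cA4_6_3 :=
  AGX_append (soundL0 ctA_OKL hC tA4_6_3) (aA4_6_4 hC)

/-- boxes from number 2 -/
def cA4_6_2 : List Nat := bA4_6_2 ++ cA4_6_3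

lemma aA4_6_2 (hC : ∀ z φ, H z φ → Cf z φ) : AGX H P cA4_6_2 :=
  AGX_append (soundL0 ctA_OKL hC tA4_6_2) (aA4_6_3 hC)

/-- boxes from number 1 -/
def cA4_6_1 : List Nat := bA4_6_1 ++ cA4_6_2

lemma aA4_6_1 (hC : ∀ z φ, H z φ → Cf z φ) : AGX H P cA4_6_1 :=
  AGX_append (soundL0 ctA_OKL hC tA4_6_1) (aA4_6_2 hC)

/-- boxes from number 0 -/
def cA4_6_0 : List Nat := bA4_6_0 ++ cA4_6_1

lemma aA4_6_0 (hC : ∀ z φ, H z φ → Cf z φ) : AGX H P cA4_6_0 :=
  AGX_append (soundL0 ctA_OKL hC tA4_6_0) (aA4_6_1 hC)

theorem topA4_6 : KL.runX KL.ctA (KL.dlX cA4_6_0) (KL.dec 2 0xb6000ae000a60009e00096026c0026b8026a8026980008e00086026a80007e000760006e026b8026a80269802690000660005e000560004e000460003e0113800036011280002e0002601128011180001e0110800016026d0026c80000e026c0026b8026a8026980000602690026880 List.nil) 0x1000000400000000000000010000000000000000000000000000000000000000000000000000000000000000018000300180003001800030018000300180018001800030018001800180003001800030018000300835781d0eeb8911d [] 0 = true := by decide +kernel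

/-- the root box -/
theorem rootA4_6 (hC : ∀ z φ, H z φ → Cf z φ) :
    GoodX H P 0x1000000400000000000000010000000000000000000000000000000000000000000000000000000000000000018000300180003001800030018000300180018001800030018001800180003001800030018000300835781d0eeb8911d :=
  soundLT ctA_OKL hC (aA4_6_0 hC) topA4_6

/-- boxes from number 10 -/
def cA4_7_10 : List Nat := bA4_7_10

lemma aA4_7_10 (hC : ∀ z φ, H z φ → Cf z φ) : AGX H P cA4_7_10 :=
  (soundL0 ctA_OKL hC tA4_7_10)

/-- boxes from number 9 -/
def cA4_7_9 : List Nat := bA4_7_9 ++ cA4_7_10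

lemma aA4_7_9 (hC : ∀ z φ, H z φ → Cf z φ) : AGX H P cA4_7_9 :=
  AGX_append (soundL0 ctA_OKL hC tA4_7_9) (aA4_7_10 hC)

/-- boxes from number 8 -/
def cA4_7_8 : List Nat := bA4_7_8 ++ cA4_7_9

lemma aA4_7_8 (hC : ∀ z φ, H z φ → Cf z φ) : AGX H P cA4_7_8 :=
  AGX_append (soundL0 ctA_OKL hC tA4_7_8) (aA4_7_9 hC)

/-- boxes from number 7 -/
def cA4_7_7 : List Nat := bA4_7_7 ++ cA4_7_8

lemma aA4_7_7 (hC : ∀ z φ, H z φ → Cf z φ) : AGX H P cA4_7_7 :=
  AGX_append (soundL0 ctA_OKL hC tA4_7_7) (aA4_7_8 hC)

/-- boxes from number 6 -/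
def cA4_7_6 : List Nat := bA4_7_6 ++ cA4_7_7

lemma aA4_7_6 (hC : ∀ z φ, H z φ → Cf z φ) : AGX H P cA4_7_6 :=
  AGX_append (soundL0 ctA_OKL hC tA4_7_6) (aA4_7_7 hC)

/-- boxes from number 5 -/
def cA4_7_5 : List Nat := bA4_7_5 ++ cA4_7_6

lemma aA4_7_5 (hC : ∀ z φ, H z φ → Cf z φ) : AGX H P cA4_7_5 :=
  AGX_append (soundL0 ctA_OKL hC tA4_7_5) (aA4_7_6 hC)

/-- boxes from number 4 -/
def cA4_7_4 : List Nat := bA4_7_4 ++ cA4_7_5

lemma aA4_7_4 (hC : ∀ z φ, H z φ → Cf z φ) : AGX H P cA4_7_4 :=
  AGX_append (soundL0 ctA_OKL hC tA4_7_4) (aA4_7_5 hC)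

/-- boxes from number 3 -/
def cA4_7_3 : List Nat := bA4_7_3 ++ cA4_7_4

lemma aA4_7_3 (hC : ∀ z φ, H z φ → Cf z φ) : AGX H P cA4_7_3 :=
  AGX_append (soundL0 ctA_OKL hC tA4_7_3) (aA4_7_4 hC)

/-- boxes from number 2 -/
def cA4_7_2 : List Nat := bA4_7_2 ++ cA4_7_3

lemma aA4_7_2 (hC : ∀ z φ, H z φ → Cf z φ) : AGX H P cA4_7_2 :=
  AGX_append (soundL0 ctA_OKL hC tA4_7_2) (aA4_7_3 hC)

/-- boxes from number 1 -/
def cA4_7_1 : List Nat := bA4_7_1 ++ cA4_7_2

lemma aA4_7_1 (hC : ∀ z φ, H z φ → Cf z φ) : AGX H P cA4_7_1 :=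
  AGX_append (soundL0 ctA_OKL hC tA4_7_1) (aA4_7_2 hC)

/-- boxes from number 0 -/
def cA4_7_0 : List Nat := bA4_7_0 ++ cA4_7_1

lemma aA4_7_0 (hC : ∀ z φ, H z φ → Cf z φ) : AGX H P cA4_7_0 :=
  AGX_append (soundL0 ctA_OKL hC tA4_7_0) (aA4_7_1 hC)

theorem topA4_7 : KL.runX KL.ctA (KL.dlX cA4_7_0) (KL.dec 2 0xfe000f6000ee000e6026c0026b0000de000d6000ce026c0026b0026a802698000c6000be000b6026b0026a8000ae000a60009e000960008e011180008601110026d00007e026c8026c0026b0000760006e026b0026a80269802690000660005e000560004e026c0026b0000460003e000360002e0111800026011080001e026d0026c8026c000016026b0026a8026980000e000060269802690026880 List.nil) 0x10000000000800000000000000010000000000000000000000000000000000000000000000000000000000000000018000300180003001800030018001800180003001800030018001800180003001800030018000300835781d021e6a80a [] 0 = true := by decide +kernel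

/-- the root box -/
theorem rootA4_7 (hC : ∀ z φ, H z φ → Cf z φ) :
    GoodX H P 0x10000000000800000000000000010000000000000000000000000000000000000000000000000000000000000000018000300180003001800030018001800180003001800030018001800180003001800030018000300835781d021e6a80a :=
  soundLT ctA_OKL hC (aA4_7_0 hC) topA4_7

/-- boxes from number 14 -/
def cA5_5_14 : List Nat := bA5_5_14

lemma aA5_5_14 (hC : ∀ z φ, H z φ → Cf z φ) : AGX H P cA5_5_14 :=
  (soundL0 ctA_OKL hC tA5_5_14)

/-- boxes from number 13 -/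
def cA5_5_13 : List Nat := bA5_5_13 ++ cA5_5_14

lemma aA5_5_13 (hC : ∀ z φ, H z φ → Cf z φ) : AGX H P cA5_5_13 :=
  AGX_append (soundL0 ctA_OKL hC tA5_5_13) (aA5_5_14 hC)

/-- boxes from number 12 -/
def cA5_5_12 : List Nat := bA5_5_12 ++ cA5_5_13

lemma aA5_5_12 (hC : ∀ z φ, H z φ → Cf z φ) : AGX H P cA5_5_12 :=
  AGX_append (soundL0 ctA_OKL hC tA5_5_12) (aA5_5_13 hC)

/-- boxes from number 11 -/
def cA5_5_11 : List Nat := bA5_5_11 ++ cA5_5_12

lemma aA5_5_11 (hC : ∀ z φ, H z φ → Cf z φ) : AGX H P cA5_5_11 :=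
  AGX_append (soundL0 ctA_OKL hC tA5_5_11) (aA5_5_12 hC)

/-- boxes from number 10 -/
def cA5_5_10 : List Nat := bA5_5_10 ++ cA5_5_11

lemma aA5_5_10 (hC : ∀ z φ, H z φ → Cf z φ) : AGX H P cA5_5_10 :=
  AGX_append (soundL0 ctA_OKL hC tA5_5_10) (aA5_5_11 hC)

/-- boxes from number 9 -/
def cA5_5_9 : List Nat := bA5_5_9 ++ cA5_5_10

lemma aA5_5_9 (hC : ∀ z φ, H z φ → Cf z φ) : AGX H P cA5_5_9 :=
  AGX_append (soundL0 ctA_OKL hC tA5_5_9) (aA5_5_10 hC)

/-- boxes from number 8 -/
def cA5_5_8 : List Nat := bA5_5_8 ++ cA5_5_9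

lemma aA5_5_8 (hC : ∀ z φ, H z φ → Cf z φ) : AGX H P cA5_5_8 :=
  AGX_append (soundL0 ctA_OKL hC tA5_5_8) (aA5_5_9 hC)

/-- boxes from number 7 -/
def cA5_5_7 : List Nat := bA5_5_7 ++ cA5_5_8

lemma aA5_5_7 (hC : ∀ z φ, H z φ → Cf z φ) : AGX H P cA5_5_7 :=
  AGX_append (soundL0 ctA_OKL hC tA5_5_7) (aA5_5_8 hC)

/-- boxes from number 6 -/
def cA5_5_6 : List Nat := bA5_5_6 ++ cA5_5_7

lemma aA5_5_6 (hC : ∀ z φ, H z φ → Cf z φ) : AGX H P cA5_5_6 :=
  AGX_append (soundL0 ctA_OKL hC tA5_5_6) (aA5_5_7 hC)

/-- boxes from number 5 -/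
def cA5_5_5 : List Nat := bA5_5_5 ++ cA5_5_6

lemma aA5_5_5 (hC : ∀ z φ, H z φ → Cf z φ) : AGX H P cA5_5_5 :=
  AGX_append (soundL0 ctA_OKL hC tA5_5_5) (aA5_5_6 hC)

/-- boxes from number 4 -/
def cA5_5_4 : List Nat := bA5_5_4 ++ cA5_5_5

lemma aA5_5_4 (hC : ∀ z φ, H z φ → Cf z φ) : AGX H P cA5_5_4 :=
  AGX_append (soundL0 ctA_OKL hC tA5_5_4) (aA5_5_5 hC)

/-- boxes from number 3 -/
def cA5_5_3 : List Nat := bA5_5_3 ++ cA5_5_4

lemma aA5_5_3 (hC : ∀ z φ, H z φ → Cf z φ) : AGX H P cA5_5_3 :=
  AGX_append (soundL0 ctA_OKL hC tA5_5_3) (aA5_5_4 hC)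

/-- boxes from number 2 -/
def cA5_5_2 : List Nat := bA5_5_2 ++ cA5_5_3

lemma aA5_5_2 (hC : ∀ z φ, H z φ → Cf z φ) : AGX H P cA5_5_2 :=
  AGX_append (soundL0 ctA_OKL hC tA5_5_2) (aA5_5_3 hC)

/-- boxes from number 1 -/
def cA5_5_1 : List Nat := bA5_5_1 ++ cA5_5_2

lemma aA5_5_1 (hC : ∀ z φ, H z φ → Cf z φ) : AGX H P cA5_5_1 :=
  AGX_append (soundL0 ctA_OKL hC tA5_5_1) (aA5_5_2 hC)

/-- boxes from number 0 -/
def cA5_5_0 : List Nat := bA5_5_0 ++ cA5_5_1

lemma aA5_5_0 (hC : ∀ z φ, H z φ → Cf z φ) : AGX H P cA5_5_0 :=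
  AGX_append (soundL0 ctA_OKL hC tA5_5_0) (aA5_5_1 hC)

theorem topA5_5 : KL.runX KL.ctA (KL.dlX cA5_5_0) (KL.dec 4 0x306002fe002f6002ee026b8026b0026a0002e6002de002d6026b8026b0002ce026a002698002c6002be002b603e0803e20002ae01b90002a603e180029e01110002960028e002860027e01130002760026e011300112000266011100025e002560024e0024601bb001bc00023e03e180023603e380022e03e080022603e480021e0114000216021500a4800020e01bd000206001fe001f6001ee03e38001e6021500a48001bc0001de03e08001d603e18001ce01bd0001c603e48001be0114001130001b6001ae001a601bc00019e03e380019603e080018e03e4800186011400017e021500a4800017601bd00016e001660015e001560014e001460013e001360012e001260189000c2008c000011e04f08049b800c30049980011604f480010e007b000106007a0000fe01640000f60161001b90000ee03e38000e603e18000de021500a480000d6049c8000ce0498801bc0000c601bd0000be03e08000b603e48000ae011400113001120000a6011100009e01150026d000096026c8026c00008e026b8026b0026a0000860007e026b000076011100006e026a00269802690000660005e000560004e026c000046026b8026b0026a00003e01108000360002e00026026b8026b00001e0110800016026a0026980000e000060269802690026880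 List.nil) 0x2100000000000000000020000000000000000000000000000000000000000000000000000000000000000018000300180003001800030018000300180003001800180018000300180003001800030018000300835781d0e284393f [] 0 = true := by decide +kernel

/-- the root box -/
theorem rootA5_5 (hC : ∀ z φ, H z φ → Cf z φ) :
    GoodX H P 0x2100000000000000000020000000000000000000000000000000000000000000000000000000000000000018000300180003001800030018000300180003001800180018000300180003001800030018000300835781d0e284393f :=
  soundLT ctA_OKL hC (aA5_5_0 hC) topA5_5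

/-- boxes from number 1 -/
def cA5_6_1 : List Nat := bA5_6_1

lemma aA5_6_1 (hC : ∀ z φ, H z φ → Cf z φ) : AGX H P cA5_6_1 :=
  (soundL0 ctA_OKL hC tA5_6_1)

/-- boxes from number 0 -/
def cA5_6_0 : List Nat := bA5_6_0 ++ cA5_6_1

lemma aA5_6_0 (hC : ∀ z φ, H z φ → Cf z φ) : AGX H P cA5_6_0 :=
  AGX_append (soundL0 ctA_OKL hC tA5_6_0) (aA5_6_1 hC)

theorem topA5_6 : KL.runX KL.ctA (KL.dlX cA5_6_0) (KL.dec 0 0x260001e0001602698026900000e0000602690026880 List.nil) 0x1004000000000000000000020000000000000000000000000000000000000000000000000000000000000000018000300180003001800030018000300180018001800180018000300180003001800030018000300835781d0af0b21e6 [] 0 = true := by decide +kernel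

/-- the root box -/
theorem rootA5_6 (hC : ∀ z φ, H z φ → Cf z φ) :
    GoodX H P 0x1004000000000000000000020000000000000000000000000000000000000000000000000000000000000000018000300180003001800030018000300180018001800180018000300180003001800030018000300835781d0af0b21e6 :=
  soundLT ctA_OKL hC (aA5_6_0 hC) topA5_6

end

lemma rA1_1 : GoodX HSL (Pv fun _ _ => False) (rootX 464 855 768 1 1) :=
  rootX_of (by decide +kernel : Nat.beq (rootX 464 855 768 1 1) 0x30002000000000000000000000000000000000000000000000000000000000000000018000300180003001800030018000300180003001800030018000300180003001800030018001800835781d043288e3a = true) (rootA1_1 hCA)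

lemma rA1_2 : GoodX HSL (Pv fun _ _ => False) (rootX 464 855 768 1 2) :=
  rootX_of (by decide +kernel : Nat.beq (rootX 464 855 768 1 2) 0x100040002000000000000000000000000000000000000000000000000000000000000000018000300180003001800030018000300180003001800030018000300180003001800180018001800835781d0a10898fc = true) (rootA1_2 hCA)

lemma rA1_3 : GoodX HSL (Pv fun _ _ => False) (rootX 464 855 768 1 3) :=
  rootX_of (by decide +kernel : Nat.beq (rootX 464 855 768 1 3) 0x1000000080002000000000000000000000000000000000000000000000000000000000000000018000300180003001800030018000300180003001800030018000300180018001800030018001800835781d052f16a27 = true) (rootA1_3 hCA)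

lemma rA1_4 : GoodX HSL (Pv fun _ _ => False) (rootX 464 855 768 1 4) :=
  rootX_of (by decide +kernel : Nat.beq (rootX 464 855 768 1 4) 0x10000000000100002000000000000000000000000000000000000000000000000000000000000000018000300180003001800030018000300180003001800030018001800180003001800030018001800835781d0587d7731 = true) (rootA1_4 hCA)

lemma rA1_5 : GoodX HSL (Pv fun _ _ => False) (rootX 464 855 768 1 5) :=
  rootX_of (by decide +kernel : Nat.beq (rootX 464 855 768 1 5) 0x100000000000000200002000000000000000000000000000000000000000000000000000000000000000018000300180003001800030018000300180003001800180018000300180003001800030018001800835781d032c7c56f = true) (rootA1_5 hCA)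

lemma rA1_6 : GoodX HSL (Pv fun _ _ => False) (rootX 464 855 768 1 6) :=
  rootX_of (by decide +kernel : Nat.beq (rootX 464 855 768 1 6) 0x1000000000000000000400002000000000000000000000000000000000000000000000000000000000000000018000300180003001800030018000300180018001800030018000300180003001800030018001800835781d011eca77e = true) (rootA1_6 hCA)

lemma rA1_7 : GoodX HSL (Pv fun _ _ => False) (rootX 464 855 768 1 7) :=
  rootX_of (by decide +kernel : Nat.beq (rootX 464 855 768 1 7) 0x10000000000000000000000800002000000000000000000000000000000000000000000000000000000000000000018000300180003001800030018001800180003001800030018000300180003001800030018001800835781d0e5ce6064 = true) (rootA1_7 hCA)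

lemma rA1_8 : GoodX HSL (Pv fun _ _ => False) (rootX 464 855 768 1 8) :=
  rootX_of (by decide +kernel : Nat.beq (rootX 464 855 768 1 8) 0x100000000000000000000000001000002000000000000000000000000000000000000000000000000000000000000000018000300180003001800180018000300180003001800030018000300180003001800030018001800835781d09273de1e = true) (rootA1_8 hCA)

lemma rA1_9 : GoodX HSL (Pv fun _ _ => False) (rootX 464 855 768 1 9) :=
  rootX_of (by decide +kernel : Nat.beq (rootX 464 855 768 1 9) 0x1000000000000000000000000000002000002000000000000000000000000000000000000000000000000000000000000000018000300180018001800030018000300180003001800030018000300180003001800030018001800835781d0480a1198 = true) (rootA1_9 hCA)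

lemma rA1_10 : GoodX HSL (Pv fun _ _ => False) (rootX 464 855 768 1 10) :=
  rootX_of (by decide +kernel : Nat.beq (rootX 464 855 768 1 10) 0x10000000000000000000000000000000004000002000000000000000000000000000000000000000000000000000000000000000018001800180003001800030018000300180003001800030018000300180003001800030018001800835781d07d41e414 = true) (rootA1_10 hCA)

lemma rA2_2 : GoodX HSL (Pv fun _ _ => False) (rootX 464 855 768 2 2) :=
  rootX_of (by decide +kernel : Nat.beq (rootX 464 855 768 2 2) 0x500000004000000000000000000000000000000000000000000000000000000000000000018000300180003001800030018000300180003001800030018000300180003001800180018000300835781d0a17647da = true) (rootA2_2 hCA)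

lemma rA2_3 : GoodX HSL (Pv fun _ _ => False) (rootX 464 855 768 2 3) :=
  rootX_of (by decide +kernel : Nat.beq (rootX 464 855 768 2 3) 0x1000800000004000000000000000000000000000000000000000000000000000000000000000018000300180003001800030018000300180003001800030018000300180018001800180018000300835781d08b0d6def = true) (rootA2_3 hCA)

lemma rA2_4 : GoodX HSL (Pv fun _ _ => False) (rootX 464 855 768 2 4) :=
  rootX_of (by decide +kernel : Nat.beq (rootX 464 855 768 2 4) 0x10000001000000004000000000000000000000000000000000000000000000000000000000000000018000300180003001800030018000300180003001800030018001800180003001800180018000300835781d0fff20acd = true) (rootA2_4 hCA)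

lemma rA2_5 : GoodX HSL (Pv fun _ _ => False) (rootX 464 855 768 2 5) :=
  rootX_of (by decide +kernel : Nat.beq (rootX 464 855 768 2 5) 0x100000000002000000004000000000000000000000000000000000000000000000000000000000000000018000300180003001800030018000300180003001800180018000300180003001800180018000300835781d0b8ed78b8 = true) (rootA2_5 hCA)

lemma rA2_6 : GoodX HSL (Pv fun _ _ => False) (rootX 464 855 768 2 6) :=
  rootX_of (by decide +kernel : Nat.beq (rootX 464 855 768 2 6) 0x1000000000000004000000004000000000000000000000000000000000000000000000000000000000000000018000300180003001800030018000300180018001800030018000300180003001800180018000300835781d055749a21 = true) (rootA2_6 hCA)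

lemma rA2_7 : GoodX HSL (Pv fun _ _ => False) (rootX 464 855 768 2 7) :=
  rootX_of (by decide +kernel : Nat.beq (rootX 464 855 768 2 7) 0x10000000000000000008000000004000000000000000000000000000000000000000000000000000000000000000018000300180003001800030018001800180003001800030018000300180003001800180018000300835781d0a41ad1bb = true) (rootA2_7 hCA)

lemma rA2_8 : GoodX HSL (Pv fun _ _ => False) (rootX 464 855 768 2 8) :=
  rootX_of (by decide +kernel : Nat.beq (rootX 464 855 768 2 8) 0x100000000000000000000010000000004000000000000000000000000000000000000000000000000000000000000000018000300180003001800180018000300180003001800030018000300180003001800180018000300835781d046494cd8 = true) (rootA2_8 hCA)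

lemma rA2_9 : GoodX HSL (Pv fun _ _ => False) (rootX 464 855 768 2 9) :=
  rootX_of (by decide +kernel : Nat.beq (rootX 464 855 768 2 9) 0x1000000000000000000000000020000000004000000000000000000000000000000000000000000000000000000000000000018000300180018001800030018000300180003001800030018000300180003001800180018000300835781d0e6f17b13 = true) (rootA2_9 hCA)

lemma rA3_3 : GoodX HSL (Pv fun _ _ => False) (rootX 464 855 768 3 3) :=
  rootX_of (by decide +kernel : Nat.beq (rootX 464 855 768 3 3) 0x9000000000008000000000000000000000000000000000000000000000000000000000000000018000300180003001800030018000300180003001800030018000300180018001800030018000300835781d0ac652d8f = true) (rootA3_3 hCA)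

lemma rA3_4 : GoodX HSL (Pv fun _ _ => False) (rootX 464 855 768 3 4) :=
  rootX_of (by decide +kernel : Nat.beq (rootX 464 855 768 3 4) 0x10010000000000008000000000000000000000000000000000000000000000000000000000000000018000300180003001800030018000300180003001800030018001800180018001800030018000300835781d0b12a382a = true) (rootA3_4 hCA)

lemma rA3_5 : GoodX HSL (Pv fun _ _ => False) (rootX 464 855 768 3 5) :=
  rootX_of (by decide +kernel : Nat.beq (rootX 464 855 768 3 5) 0x100000020000000000008000000000000000000000000000000000000000000000000000000000000000018000300180003001800030018000300180003001800180018000300180018001800030018000300835781d089d1ff8a = true) (rootA3_5 hCA)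

lemma rA3_6 : GoodX HSL (Pv fun _ _ => False) (rootX 464 855 768 3 6) :=
  rootX_of (by decide +kernel : Nat.beq (rootX 464 855 768 3 6) 0x1000000000040000000000008000000000000000000000000000000000000000000000000000000000000000018000300180003001800030018000300180018001800030018000300180018001800030018000300835781d065b1d3dd = true) (rootA3_6 hCA)

lemma rA3_7 : GoodX HSL (Pv fun _ _ => False) (rootX 464 855 768 3 7) :=
  rootX_of (by decide +kernel : Nat.beq (rootX 464 855 768 3 7) 0x10000000000000080000000000008000000000000000000000000000000000000000000000000000000000000000018000300180003001800030018001800180003001800030018000300180018001800030018000300835781d033097150 = true) (rootA3_7 hCA)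

lemma rA3_8 : GoodX HSL (Pv fun _ _ => False) (rootX 464 855 768 3 8) :=
  rootX_of (by decide +kernel : Nat.beq (rootX 464 855 768 3 8) 0x100000000000000000100000000000008000000000000000000000000000000000000000000000000000000000000000018000300180003001800180018000300180003001800030018000300180018001800030018000300835781d0d29ab815 = true) (rootA3_8 hCA)

lemma rA4_4 : GoodX HSL (Pv fun _ _ => False) (rootX 464 855 768 4 4) :=
  rootX_of (by decide +kernel : Nat.beq (rootX 464 855 768 4 4) 0x110000000000000010000000000000000000000000000000000000000000000000000000000000000018000300180003001800030018000300180003001800030018001800180003001800030018000300835781d02d9cd556 = true) (rootA4_4 hCA)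

lemma rA4_5 : GoodX HSL (Pv fun _ _ => False) (rootX 464 855 768 4 5) :=
  rootX_of (by decide +kernel : Nat.beq (rootX 464 855 768 4 5) 0x100200000000000000010000000000000000000000000000000000000000000000000000000000000000018000300180003001800030018000300180003001800180018001800180003001800030018000300835781d05fed8012 = true) (rootA4_5 hCA)

lemma rA4_6 : GoodX HSL (Pv fun _ _ => False) (rootX 464 855 768 4 6) :=
  rootX_of (by decide +kernel : Nat.beq (rootX 464 855 768 4 6) 0x1000000400000000000000010000000000000000000000000000000000000000000000000000000000000000018000300180003001800030018000300180018001800030018001800180003001800030018000300835781d0eeb8911d = true) (rootA4_6 hCA)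

lemma rA4_7 : GoodX HSL (Pv fun _ _ => False) (rootX 464 855 768 4 7) :=
  rootX_of (by decide +kernel : Nat.beq (rootX 464 855 768 4 7) 0x10000000000800000000000000010000000000000000000000000000000000000000000000000000000000000000018000300180003001800030018001800180003001800030018001800180003001800030018000300835781d021e6a80a = true) (rootA4_7 hCA)

lemma rA5_5 : GoodX HSL (Pv fun _ _ => False) (rootX 464 855 768 5 5) :=
  rootX_of (by decide +kernel : Nat.beq (rootX 464 855 768 5 5) 0x2100000000000000000020000000000000000000000000000000000000000000000000000000000000000018000300180003001800030018000300180003001800180018000300180003001800030018000300835781d0e284393f = true) (rootA5_5 hCA)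

lemma rA5_6 : GoodX HSL (Pv fun _ _ => False) (rootX 464 855 768 5 6) :=
  rootX_of (by decide +kernel : Nat.beq (rootX 464 855 768 5 6) 0x1004000000000000000000020000000000000000000000000000000000000000000000000000000000000000018000300180003001800030018000300180018001800180018000300180003001800030018000300835781d0af0b21e6 = true) (rootA5_6 hCA)

attribute [local irreducible] rootX

lemma rootsA (a b : ℕ) (ha : 1 ≤ a) (hab : a ≤ b) (hs : a + b ≤ 11) :
    GoodX HSL (Pv fun _ _ => False) (rootX 464 855 768 a b) := by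
  have hb : b ≤ 10 := by omega
  have ha5 : a ≤ 5 := by omega
  interval_cases a <;> interval_cases b <;> first
    | (exfalso; omega)
    | exact rA1_1
    | exact rA1_2
    | exact rA1_3
    | exact rA1_4
    | exact rA1_5
    | exact rA1_6
    | exact rA1_7
    | exact rA1_8
    | exact rA1_9
    | exact rA1_10
    | exact rA2_2
    | exact rA2_3
    | exact rA2_4
    | exact rA2_5
    | exact rA2_6
    | exact rA2_7
    | exact rA2_8
    | exact rA2_9
    | exact rA3_3
    | exact rA3_4
    | exact rA3_5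
    | exact rA3_6
    | exact rA3_7
    | exact rA3_8
    | exact rA4_4
    | exact rA4_5
    | exact rA4_6
    | exact rA4_7
    | exact rA5_5
    | exact rA5_6

/-- **no state with tilt `k` in `[464, 855]`** -/
theorem no_tiltA {Z Φ : Fin 11 → ℝ} (h : SL (11 / 12) Z Φ 0) (hz : hgt (32768 + 464) ≤ Z 0) :
    False := by
  have e1 : hgt (32768 + 855) ≤ -(9164 / 10000) := by rw [hgt_S]; norm_num
  have e2 : hgt 768 ≤ -(805 / 1000) := by rw [hgt_lt (by norm_num)]; norm_num
  have e3 : -(11 / 12) ≤ hgt (32768 + 855) := by rw [hgt_S]; norm_num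
  have e4 : -1 < hgt (32768 + 464) := by rw [hgt_S]; norm_num
  exact root_redX (k1 := 464) (k2 := 855) (lo := 768) (P := fun _ _ => False) (by norm_num)
    (by norm_num) (by norm_num) (by norm_num) e1 e2 (by norm_num) (by norm_num) (by norm_num)
    (by norm_num) (fun _ _ hh => hh) rootsA h (e4.trans_le hz) hz (h.hi.le.trans e3)

end Pool.Agent.Helper54.KA
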