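import Pool.Agent.Helper54.KA.Cor

set_option autoImplicit false

/-! # Corner values: bounds -/

namespace Pool.Agent.Helper54.KA

open Real

lemma cb_ite {α : Type} (b : Bool) (x y : α) : cb b x y = if b = true then x else y := by
  cases b <;> rfl

lemma sr_eq (a n : ℕ) : Nat.shiftRight a n = a / 2 ^ n := Nat.shiftRight_eq_div_pow a n

lemma dv_eq (a n : ℕ) : Nat.div a n = a / n := rfl

lemma md_eq (a n : ℕ) : Nat.mod a n = a % n := rfl

lemma FF_form (k σ z w : ℝ) : FF k σ z w =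
    (k + σ * (z * w)) * (1 / √(1 - z ^ 2)) * (1 / √(1 - w ^ 2)) := by
  unfold FF
  rw [mul_assoc, one_div_mul_one_div, mul_one_div]

lemma up_div (a : ℕ) {d : ℕ} (hd : 0 < d) : (a : ℝ) / d ≤ ((a / d + 1 : ℕ) : ℝ) := by
  have hd' : (0 : ℝ) < d := by exact_mod_cast hd
  rw [Nat.cast_succ, div_le_iff₀ hd']
  have h2 := Nat.lt_div_mul_add (a := a) hd
  have : (a : ℝ) < ((a / d : ℕ) : ℝ) * d + d := by exact_mod_cast h2
  linarith

lemma core2 {N u v : ℕ} {X Y : ℝ} (hx : X ≤ (u : ℝ) / 65536) (hy0 : 0 ≤ Y)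
    (hy : Y ≤ (v : ℝ) / 65536) :
    (N : ℝ) / 16777216 * X * Y ≤ ((N * u * v / 2 ^ 42 + 1 : ℕ) : ℝ) / 16384 := by
  have h2 := up_div (N * u * v) (d := 2 ^ 42) (by positivity)
  have h3 : (N : ℝ) / 16777216 * X * Y ≤ (N : ℝ) / 16777216 * (u / 65536) * (v / 65536) := by
    gcongr
  refine h3.trans ?_
  rw [le_div_iff₀ (by norm_num)]
  refine le_trans (le_of_eq ?_) h2
  push_cast
  ring

lemma core1 {N v k : ℕ} {Y : ℝ} (k1 : 1 ≤ k) (hy : Y ≤ (v : ℝ) / 65536) :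
    (N : ℝ) / (33554432 * k) * Y ≤ ((N * v / (134217728 * k) + 1 : ℕ) : ℝ) / 16384 := by
  have a : (0 : ℝ) < k := by exact_mod_cast k1
  have h2 := up_div (N * v) (d := 134217728 * k) (by positivity)
  have h3 : (N : ℝ) / (33554432 * k) * Y ≤ (N : ℝ) / (33554432 * k) * (v / 65536) := by
    gcongr
  refine h3.trans ?_
  rw [le_div_iff₀ (by norm_num)]
  refine le_trans (le_of_eq ?_) h2
  push_cast
  field_simp
  ring

lemma core1' {N v k : ℕ} {Y : ℝ} (k1 : 1 ≤ k) (hy : (v : ℝ) / 65536 ≤ Y) :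
    ((N * v / (134217728 * k) : ℕ) : ℝ) / 16384 ≤ (N : ℝ) / (33554432 * k) * Y := by
  have a : (0 : ℝ) < k := by exact_mod_cast k1
  have h2 : ((N * v / (134217728 * k) : ℕ) : ℝ) ≤ ((N * v : ℕ) : ℝ) / ((134217728 * k : ℕ) : ℝ) :=
    Nat.cast_div_le
  have h3 : (N : ℝ) / (33554432 * k) * (v / 65536) ≤ (N : ℝ) / (33554432 * k) * Y := by
    gcongr
  refine le_trans ?_ h3
  rw [div_le_iff₀ (by norm_num)]
  refine h2.trans (le_of_eq ?_)
  push_cast
  field_simp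
  ring

/-! unfolded forms -/

lemma fC_eq (x y : ℕ) : fC x y = if x * y + 8388608 ≤ 4096 * (x + y) then
    (4096 * (x + y) - (x * y + 8388608)) * ut x * ut y / 2 ^ 42 + 1 else 0 := by
  unfold fC
  simp only [cb_ite, Nat.ble_eq, Nat.add_eq, Nat.mul_eq, Nat.sub_eq, sr_eq, Nat.succ_eq_add_one]

lemma fS_eq (k y : ℕ) : fS k y = if 34359738368 ≤ nS k y then
    (nS k y - 34359738368) * ut y / (134217728 * k) + 1 else 0 := by
  unfold fS
  simp only [cb_ite, Nat.ble_eq, Nat.mul_eq, Nat.sub_eq, dv_eq, Nat.succ_eq_add_one]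

lemma gS_eq (k y : ℕ) : gS k y = (34359738368 - nS k y) * (ut y - 1) / (134217728 * k) := by
  unfold gS
  simp only [Nat.mul_eq, Nat.sub_eq, dv_eq]

lemma nS_eq (k y : ℕ) : nS k y = y * (16777216 - k * k) + 6144 * (k * k) := by
  unfold nS
  simp only [Nat.mul_eq, Nat.sub_eq, Nat.add_eq]

lemma kbf_eq (k : ℕ) : kbf k = 16777216 * (16777216 - k * k) / (16777216 + k * k) + 1 := by
  unfold kbf
  simp only [Nat.mul_eq, Nat.sub_eq, Nat.add_eq, dv_eq, Nat.succ_eq_add_one]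

lemma fB_eq (kb x y : ℕ) : fB kb x y = if 4096 * (x + y) ≤ kb + 16777216 + x * y then
    (kb + 16777216 + x * y - 4096 * (x + y)) * ut x * ut y / 2 ^ 42 + 1 else 0 := by
  unfold fB
  simp only [cb_ite, Nat.ble_eq, Nat.add_eq, Nat.mul_eq, Nat.sub_eq, sr_eq, Nat.succ_eq_add_one]

/-- contact function of two codes -/
noncomputable def Fc (x y : ℕ) : ℝ := FF (1 / 2) (-1) (hgt x) (hgt y)

lemma Fc_comm (x y : ℕ) : Fc x y = Fc y x := FF_comm _ _ _ _

lemma fC_spec {x y : ℕ} (hx : isC x = true) (hy : isC y = true) :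
    Fc x y ≤ (fC x y : ℝ) / 16384 ∧ (fC x y ≠ 0 → 0 ≤ Fc x y) := by
  have ux := (ut_spec hx).1
  have uy := (ut_spec hy).1
  have gx0 : 0 ≤ 1 / √(1 - hgt x ^ 2) := by positivity
  have gy0 : 0 ≤ 1 / √(1 - hgt y ^ 2) := by positivity
  have e : Fc x y = ((4096 * ((x : ℝ) + y) - (x * y + 8388608)) / 16777216) *
      (1 / √(1 - hgt x ^ 2)) * (1 / √(1 - hgt y ^ 2)) := by
    have : (1 / 2 + -1 * (hgt x * hgt y)) = (4096 * ((x : ℝ) + y) - (x * y + 8388608)) / 16777216 := by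
      rw [hgt_C hx, hgt_C hy]; ring
    rw [Fc, FF_form, this]
  rw [fC_eq]
  generalize 1 / √(1 - hgt x ^ 2) = Gx at *
  generalize 1 / √(1 - hgt y ^ 2) = Gy at *
  split_ifs with h
  · have eN : ((4096 * (x + y) - (x * y + 8388608) : ℕ) : ℝ) =
        4096 * ((x : ℝ) + y) - (x * y + 8388608) := by
      rw [Nat.cast_sub h]; push_cast; ring
    generalize 4096 * (x + y) - (x * y + 8388608) = N at eN ⊢
    rw [← eN] at e
    have hN0 : (0 : ℝ) ≤ N := Nat.cast_nonneg _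
    exact ⟨by rw [e]; exact core2 ux gy0 uy, fun _ => by rw [e]; positivity⟩
  · have h1' : (4096 : ℝ) * ((x : ℝ) + y) < x * y + 8388608 := by
      exact_mod_cast not_le.1 h
    refine ⟨?_, fun hc => absurd rfl hc⟩
    rw [e]; simp only [Nat.cast_zero, zero_div]
    have : (4096 * ((x : ℝ) + y) - (x * y + 8388608)) / 16777216 ≤ 0 :=
      div_nonpos_of_nonpos_of_nonneg (by linarith) (by norm_num)
    exact mul_nonpos_of_nonpos_of_nonneg (mul_nonpos_of_nonpos_of_nonneg this gx0) gy0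

/-- contact function of a special and an ordinary code -/
lemma Fc_S {k y : ℕ} (k1 : 1 ≤ k) (k2 : k ≤ 1023) (hy : isC y = true) :
    Fc (32768 + k) y = (((nS k y : ℕ) : ℝ) - 34359738368) / (33554432 * k) *
      (1 / √(1 - hgt y ^ 2)) := by
  have a : (1 : ℝ) ≤ k := by exact_mod_cast k1
  have hk : k * k ≤ 16777216 := by nlinarith
  have en : ((nS k y : ℕ) : ℝ) = y * (16777216 - k * k) + 6144 * (k * k) := by
    rw [nS_eq]; push_cast [Nat.cast_sub hk]; ring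
  rw [Fc, FF_form, sqrt_S k1, hgt_S, en, hgt_C hy]
  have t1 : (0 : ℝ) < 1 + ((k : ℝ) / 4096) ^ 2 := by positivity
  generalize 1 / √(1 - ((y : ℝ) / 4096 - 1) ^ 2) = G
  field_simp
  ring

lemma fS_aux {c n k u v : ℕ} {F G : ℝ} (k1 : 1 ≤ k) (hG : 0 ≤ G) (hu : G ≤ (u : ℝ) / 65536)
    (hv : (v : ℝ) / 65536 ≤ G) (e : F = ((n : ℝ) - c) / (33554432 * k) * G) (f g : ℕ)
    (hf : f = if c ≤ n then (n - c) * u / (134217728 * k) + 1 else 0)
    (hg : g = (c - n) * v / (134217728 * k)) :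
    F ≤ (f : ℝ) / 16384 ∧ (f ≠ 0 → 0 ≤ F) ∧ (f = 0 → F ≤ -((g : ℝ) / 16384)) := by
  have a : (1 : ℝ) ≤ k := by exact_mod_cast k1
  rcases Nat.lt_or_ge n c with h | h
  · rw [if_neg (not_le.2 h)] at hf
    have h1' : (n : ℝ) < c := by exact_mod_cast h
    have hneg : ((n : ℝ) - c) / (33554432 * k) ≤ 0 :=
      div_nonpos_of_nonpos_of_nonneg (by linarith) (by positivity)
    refine ⟨?_, fun hc => absurd hf hc, fun _ => ?_⟩
    · rw [e, hf]; simp only [Nat.cast_zero, zero_div]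
      exact mul_nonpos_of_nonpos_of_nonneg hneg hG
    · have eN : ((c - n : ℕ) : ℝ) = (c : ℝ) - n := Nat.cast_sub h.le
      have h4 : ((n : ℝ) - c) / (33554432 * k) * G = -(((c - n : ℕ) : ℝ) / (33554432 * k) * G) := by
        rw [eN]; ring
      rw [e, h4, neg_le_neg_iff, hg]
      exact core1' k1 hv
  · rw [if_pos h] at hf
    have eN : ((n - c : ℕ) : ℝ) = (n : ℝ) - c := Nat.cast_sub h
    have hN0 : (0 : ℝ) ≤ ((n - c : ℕ) : ℝ) := Nat.cast_nonneg _
    rw [← eN] at e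
    refine ⟨?_, fun _ => by rw [e]; positivity, fun hc => ?_⟩
    · rw [e, hf]; exact core1 k1 hu
    · rw [hf] at hc; exact absurd hc (Nat.succ_ne_zero _)

lemma fS_spec {k y : ℕ} (k1 : 1 ≤ k) (k2 : k ≤ 1023) (hy : isC y = true) :
    Fc (32768 + k) y ≤ (fS k y : ℝ) / 16384 ∧ (fS k y ≠ 0 → 0 ≤ Fc (32768 + k) y) ∧
      (fS k y = 0 → Fc (32768 + k) y ≤ -((gS k y : ℝ) / 16384)) := by
  obtain ⟨uy, uy'⟩ := ut_spec hy
  have gy0 : 0 ≤ 1 / √(1 - hgt y ^ 2) := by positivity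
  have e := Fc_S k1 k2 hy
  exact fS_aux (c := 34359738368) k1 gy0 uy uy' (by rw [e]; norm_num) _ _ (fS_eq k y) (gS_eq k y)

/-- codes of a cell end -/
def kd (x : ℕ) : Prop := isC x = true ∨ isS x = true

/-- main bound of the contact function at a corner -/
lemma fA_spec {x y : ℕ} (hx : kd x) (hy : kd y) (hxy : ¬ (isS x = true ∧ isS y = true)) :
    Fc x y ≤ (fA x y : ℝ) / 16384 ∧ (fA x y ≠ 0 → 0 ≤ Fc x y) ∧
      (fA x y = 0 → Fc x y ≤ -((gA x y : ℝ) / 16384)) := by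
  have hC : ∀ u, isC u = true → ¬ 32768 ≤ u := fun u hu => by
    have := isC_iff.1 hu; omega
  have hS : ∀ k : ℕ, 32768 ≤ 32768 + k := fun k => Nat.le_add_right _ _
  have hS2 : ∀ k : ℕ, 32768 + k - 32768 = k := fun k => Nat.add_sub_cancel_left _ _
  unfold fA gA
  simp only [cb_ite, Nat.ble_eq, Nat.sub_eq]
  rcases hx with hx | hx
  · rw [if_neg (hC x hx), if_neg (hC x hx)]
    rcases hy with hy | hy
    · have := fC_spec hx hy
      rw [if_neg (hC y hy), if_neg (hC y hy)]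
      refine ⟨this.1, this.2, fun h => ?_⟩
      have h2 := this.1
      rw [h] at h2
      simpa using h2
    · obtain ⟨k, rfl, k1, k2⟩ := exists_S hy
      have := fS_spec k1 k2 hx
      rw [if_pos (hS k), if_pos (hS k), hS2, Fc_comm]
      exact this
  · rcases hy with hy | hy
    · obtain ⟨k, rfl, k1, k2⟩ := exists_S hx
      have := fS_spec k1 k2 hy
      rw [if_pos (hS k), if_pos (hS k), hS2]
      exact this
    · exact absurd ⟨hx, hy⟩ hxy

/-- flagged function of two codes -/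
noncomputable def Fb (kb x y : ℕ) : ℝ := FF ((kb : ℝ) / 16777216) 1 (hgt x) (hgt y)

lemma fB_spec {kb x y : ℕ} (hx : isC x = true) (hy : isC y = true) :
    Fb kb x y ≤ (fB kb x y : ℝ) / 16384 ∧ (fB kb x y ≠ 0 → 0 ≤ Fb kb x y) := by
  have ux := (ut_spec hx).1
  have uy := (ut_spec hy).1
  have gx0 : 0 ≤ 1 / √(1 - hgt x ^ 2) := by positivity
  have gy0 : 0 ≤ 1 / √(1 - hgt y ^ 2) := by positivity
  have e : Fb kb x y = (((kb : ℝ) + 16777216 + x * y - 4096 * ((x : ℝ) + y)) / 16777216) *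
      (1 / √(1 - hgt x ^ 2)) * (1 / √(1 - hgt y ^ 2)) := by
    have : ((kb : ℝ) / 16777216 + 1 * (hgt x * hgt y)) =
        ((kb : ℝ) + 16777216 + x * y - 4096 * ((x : ℝ) + y)) / 16777216 := by
      rw [hgt_C hx, hgt_C hy]; ring
    rw [Fb, FF_form, this]
  rw [fB_eq]
  generalize 1 / √(1 - hgt x ^ 2) = Gx at *
  generalize 1 / √(1 - hgt y ^ 2) = Gy at *
  split_ifs with h
  · have eN : ((kb + 16777216 + x * y - 4096 * (x + y) : ℕ) : ℝ) =
        (kb : ℝ) + 16777216 + x * y - 4096 * ((x : ℝ) + y) := by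
      rw [Nat.cast_sub h]; push_cast; ring
    generalize kb + 16777216 + x * y - 4096 * (x + y) = N at eN ⊢
    rw [← eN] at e
    have hN0 : (0 : ℝ) ≤ N := Nat.cast_nonneg _
    exact ⟨by rw [e]; exact core2 ux gy0 uy, fun _ => by rw [e]; positivity⟩
  · have h1' : (kb : ℝ) + 16777216 + x * y < 4096 * ((x : ℝ) + y) := by
      exact_mod_cast not_le.1 h
    refine ⟨?_, fun hc => absurd rfl hc⟩
    rw [e]; simp only [Nat.cast_zero, zero_div]
    have : ((kb : ℝ) + 16777216 + x * y - 4096 * ((x : ℝ) + y)) / 16777216 ≤ 0 :=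
      div_nonpos_of_nonpos_of_nonneg (by linarith) (by norm_num)
    exact mul_nonpos_of_nonpos_of_nonneg (mul_nonpos_of_nonpos_of_nonneg this gx0) gy0

/-- bound of the special height -/
lemma kbf_spec {k : ℕ} (k2 : k ≤ 1023) : -hgt (32768 + k) ≤ ((kbf k : ℕ) : ℝ) / 16777216 := by
  have hk : k * k ≤ 16777216 := by nlinarith
  rw [kbf_eq]
  have h2 := up_div (16777216 * (16777216 - k * k)) (d := 16777216 + k * k) (by positivity)
  rw [hgt_S, neg_neg, le_div_iff₀ (by norm_num)]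
  refine le_trans (le_of_eq ?_) h2
  push_cast [Nat.cast_sub hk]
  field_simp
  ring

end Pool.Agent.Helper54.KA
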